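import Mathlib

/-!
# Nonassociative L^p spaces: the definitions used in the statement
-/

namespace Pool.Agent.MP_ab01c5_an

open Filter Topology
open scoped ComplexOrder

universe u v

/-- The Jordan triple product `{x, y, z} = (x ∘ y) ∘ z + (z ∘ y) ∘ x - (x ∘ z) ∘ y`. -/
def tri {J : Type u} [NonUnitalNonAssocCommRing J] (x y z : J) : J :=
  x * y * z + z * y * x - x * z * y

/-- A JB*-algebra: a complex Banach space with a commutative bilinear product (written `*`)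
satisfying the Jordan identity and a conjugate-linear multiplicative involution, such that
`‖x ∘ y‖ ≤ ‖x‖ ‖y‖`, `‖x*‖ = ‖x‖` and `‖{x, x*, x}‖ = ‖x‖ ^ 3`. No unit is assumed. -/
class JBStarAlgebra (M : Type u) extends NormedAddCommGroup M, NonUnitalNonAssocCommRing M,
    NormedSpace ℂ M, StarRing M, StarModule ℂ M, CompleteSpace M where
  smul_mul : ∀ (c : ℂ) (x y : M), (c • x) * y = c • (x * y)
  jordan : ∀ x y : M, x * y * (x * x) = x * (y * (x * x))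
  norm_mul_le : ∀ x y : M, ‖x * y‖ ≤ ‖x‖ * ‖y‖
  norm_star_eq : ∀ x : M, ‖star x‖ = ‖x‖
  norm_tri : ∀ x : M, ‖tri x (star x) x‖ = ‖x‖ ^ 3

section

variable {M : Type u} [JBStarAlgebra M]

/-- The positive cone: squares of self-adjoint elements. -/
def IsPos (x : M) : Prop := ∃ y : M, star y = y ∧ x = y * y

variable {X : Type v} [NormedAddCommGroup X] [NormedSpace ℂ X]

/-- `φ`, an element of the predual `X` of `M` (the duality is `e`), is a faithful state: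
positive, of norm one, and nonzero on nonzero positive elements. -/
structure IsFaithfulState (e : M ≃ₗᵢ[ℂ] StrongDual ℂ X) (φ : X) : Prop where
  pos : ∀ x : M, IsPos x → 0 ≤ e x φ
  norm_eq : ‖φ‖ = 1
  faithful : ∀ x : M, IsPos x → e x φ = 0 → x = 0

/-- `φ` is a trace: `φ((x ∘ y) ∘ z) = φ(x ∘ (y ∘ z))`. -/
def IsTrace (e : M ≃ₗᵢ[ℂ] StrongDual ℂ X) (φ : X) : Prop :=
  ∀ x y z : M, e (x * y * z) φ = e (x * (y * z)) φ

/-- `ξ = i(x)`: the element `ξ` of the predual is the functional `y ↦ φ(x ∘ y)`. -/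
def IsEmb (e : M ≃ₗᵢ[ℂ] StrongDual ℂ X) (φ : X) (x : M) (ξ : X) : Prop :=
  ∀ y : M, e y ξ = e (x * y) φ

/-- Calderón's admissible functions for the couple `(M, M_*)`: `f` is bounded and continuous on
the closed strip `0 ≤ re z ≤ 1` with values in `M_* = M + M_*`, holomorphic inside,
`f(it) = i(g t)` with `g : ℝ → M` norm continuous, and `g t → 0` in `M`, `f(1 + it) → 0` in `M_*`
as `|t| → ∞`. -/
structure Adm (e : M ≃ₗᵢ[ℂ] StrongDual ℂ X) (φ : X) (f : ℂ → X) (g : ℝ → M) : Prop where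
  cont : ContinuousOn f {z : ℂ | 0 ≤ z.re ∧ z.re ≤ 1}
  diff : DifferentiableOn ℂ f {z : ℂ | 0 < z.re ∧ z.re < 1}
  bdd : ∃ C : ℝ, ∀ z : ℂ, 0 ≤ z.re → z.re ≤ 1 → ‖f z‖ ≤ C
  left : ∀ t : ℝ, IsEmb e φ (g t) (f (t * Complex.I))
  gcont : Continuous g
  gzero : Tendsto g (cocompact ℝ) (𝓝 0)
  fzero : Tendsto (fun t : ℝ => f (1 + t * Complex.I)) (cocompact ℝ) (𝓝 0)

/-- The space `L^p(M, φ) = (M, M_*)_{1/p}`: the values `f(1/p)` of admissible functions. -/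
def Lp (e : M ≃ₗᵢ[ℂ] StrongDual ℂ X) (φ : X) (p : ℝ) : Submodule ℂ X where
  carrier := {ξ | ∃ f g, Adm e φ f g ∧ f ((1 / p : ℝ) : ℂ) = ξ}
  add_mem' := by
    rintro _ _ ⟨f₁, g₁, h₁, rfl⟩ ⟨f₂, g₂, h₂, rfl⟩
    obtain ⟨C₁, hC₁⟩ := h₁.bdd
    obtain ⟨C₂, hC₂⟩ := h₂.bdd
    refine ⟨f₁ + f₂, g₁ + g₂, ⟨h₁.cont.add h₂.cont, h₁.diff.add h₂.diff,
      ⟨C₁ + C₂, fun z h0 h1 => (norm_add_le _ _).trans (add_le_add (hC₁ z h0 h1) (hC₂ z h0 h1))⟩,
      fun t y => ?_, h₁.gcont.add h₂.gcont, by simpa [Pi.add_def] using h₁.gzero.add h₂.gzero,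
      by simpa using h₁.fzero.add h₂.fzero⟩, rfl⟩
    have a := h₁.left t y
    have b := h₂.left t y
    simp only [Pi.add_apply, map_add, add_mul, add_apply, a, b]
  zero_mem' := ⟨0, 0, ⟨continuousOn_const, differentiableOn_const 0, ⟨0, fun z _ _ => by simp⟩,
    fun t y => by simp, continuous_const, tendsto_const_nhds, tendsto_const_nhds⟩, rfl⟩
  smul_mem' := by
    rintro c _ ⟨f, g, h, rfl⟩
    obtain ⟨C, hC⟩ := h.bdd
    refine ⟨c • f, c • g, ⟨h.cont.const_smul c, h.diff.const_smul c,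
      ⟨‖c‖ * C, fun z h0 h1 => ?_⟩, fun t y => ?_, h.gcont.const_smul c,
      by simpa [Pi.smul_def] using h.gzero.const_smul c, by simpa using h.fzero.const_smul c⟩, rfl⟩
    · rw [Pi.smul_apply, norm_smul]
      exact mul_le_mul_of_nonneg_left (hC z h0 h1) (norm_nonneg c)
    · have a := h.left t y
      simp only [Pi.smul_apply, map_smul, JBStarAlgebra.smul_mul, smul_apply, a]

/-- The interpolation norm of `L^p(M, φ)`: the infimum over admissible `f` with `f(1/p) = ξ` of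
`max (sup_t ‖g t‖_M) (sup_t ‖f(1 + it)‖_{M_*})`. -/
noncomputable def lpNorm (e : M ≃ₗᵢ[ℂ] StrongDual ℂ X) (φ : X) (p : ℝ) (ξ : X) : ℝ :=
  sInf {C : ℝ | ∃ f g, Adm e φ f g ∧ f ((1 / p : ℝ) : ℂ) = ξ ∧ (∀ t : ℝ, ‖g t‖ ≤ C) ∧
    ∀ t : ℝ, ‖f (1 + t * Complex.I)‖ ≤ C}

/-- The positive cone of `L^p(M, φ)`: the closure of `i(M_+)` for the norm of `L^p(M, φ)`. -/
def posCone (e : M ≃ₗᵢ[ℂ] StrongDual ℂ X) (φ : X) (p : ℝ) : Set (Lp e φ p) :=
  {y | ∀ ε : ℝ, 0 < ε → ∃ (x : M) (w : Lp e φ p), IsPos x ∧ IsEmb e φ x (w : X) ∧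
    lpNorm e φ p ((y : X) - (w : X)) < ε}

end

end Pool.Agent.MP_ab01c5_an
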