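import Pool.Agent.MP_ab01c5_an.Defs

/-!
# Jordan algebras: multilinearity of the triple product, basic definitions
-/

namespace Pool.Agent.MP_ab01c5_an

universe u

section
variable {J : Type u} [NonUnitalNonAssocCommRing J]

theorem tri_comm (x y z : J) : tri x y z = tri z y x := by
  unfold tri; rw [mul_comm z x]; abel

@[simp] theorem tri_add_left (x x' y z : J) : tri (x + x') y z = tri x y z + tri x' y z := by
  simp only [tri, add_mul, mul_add]; abel
@[simp] theorem tri_add_mid (x y y' z : J) : tri x (y + y') z = tri x y z + tri x y' z := by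
  simp only [tri, add_mul, mul_add]; abel
@[simp] theorem tri_add_right (x y z z' : J) : tri x y (z + z') = tri x y z + tri x y z' := by
  simp only [tri, add_mul, mul_add]; abel
@[simp] theorem tri_sub_left (x x' y z : J) : tri (x - x') y z = tri x y z - tri x' y z := by
  simp only [tri, sub_mul, mul_sub]; abel
@[simp] theorem tri_sub_mid (x y y' z : J) : tri x (y - y') z = tri x y z - tri x y' z := by
  simp only [tri, sub_mul, mul_sub]; abel
@[simp] theorem tri_sub_right (x y z z' : J) : tri x y (z - z') = tri x y z - tri x y z' := by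
  simp only [tri, sub_mul, mul_sub]; abel
@[simp] theorem tri_neg_left (x y z : J) : tri (-x) y z = -tri x y z := by
  simp only [tri, neg_mul, mul_neg]; abel
@[simp] theorem tri_neg_mid (x y z : J) : tri x (-y) z = -tri x y z := by
  simp only [tri, neg_mul, mul_neg]; abel
@[simp] theorem tri_neg_right (x y z : J) : tri x y (-z) = -tri x y z := by
  simp only [tri, neg_mul, mul_neg]; abel
@[simp] theorem tri_zero_left (y z : J) : tri 0 y z = 0 := by simp [tri]
@[simp] theorem tri_zero_mid (x z : J) : tri x 0 z = 0 := by simp [tri]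
@[simp] theorem tri_zero_right (x y : J) : tri x y 0 = 0 := by simp [tri]

/-- `a` and `b` operator commute: `[L_a, L_b] = 0`. -/
def OpComm (a b : J) : Prop := ∀ z : J, a * (b * z) = b * (a * z)

theorem OpComm.symm {a b : J} (h : OpComm a b) : OpComm b a := fun z => (h z).symm

theorem OpComm.refl (a : J) : OpComm a a := fun _ => rfl

/-- For an idempotent `e`: `y` has no Peirce-1/2 component. -/
def PComm (e y : J) : Prop := e * (e * y) = e * y

/-- `jpw x n = x ^ (n + 1)`. -/
def jpw (x : J) : ℕ → J
  | 0 => x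
  | n + 1 => x * jpw x n

/-- The odd powers of the pair `(x, b)`: `alt n x b = x b x b ... x` with `2 n + 1` factors. -/
def alt : ℕ → J → J → J
  | 0, x, _ => x
  | n + 1, x, b => tri x (alt n b x) x

variable [Module ℂ J] [IsScalarTower ℂ J J] [SMulCommClass ℂ J J]

@[simp] theorem tri_smul_left (c : ℂ) (x y z : J) : tri (c • x) y z = c • tri x y z := by
  simp only [tri, smul_mul_assoc, mul_smul_comm, smul_add, smul_sub]
@[simp] theorem tri_smul_mid (c : ℂ) (x y z : J) : tri x (c • y) z = c • tri x y z := by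
  simp only [tri, smul_mul_assoc, mul_smul_comm, smul_add, smul_sub]
@[simp] theorem tri_smul_right (c : ℂ) (x y z : J) : tri x y (c • z) = c • tri x y z := by
  simp only [tri, smul_mul_assoc, mul_smul_comm, smul_add, smul_sub]

/-- A frame: a subalgebra all of whose elements operator commute. -/
structure IsFrame (S : Submodule ℂ J) : Prop where
  mul_mem : ∀ a ∈ S, ∀ b ∈ S, a * b ∈ S
  comm : ∀ a ∈ S, ∀ b ∈ S, OpComm a b

end

section
variable {M : Type u} [JBStarAlgebra M]

instance jbScalarTower : IsScalarTower ℂ M M := ⟨fun c x y => JBStarAlgebra.smul_mul c x y⟩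

instance jbSMulComm : SMulCommClass ℂ M M := ⟨fun c x y => by
  simp only [smul_eq_mul]
  rw [mul_comm x (c • y), JBStarAlgebra.smul_mul, mul_comm y x]⟩

instance jbJordan : IsCommJordan M := ⟨JBStarAlgebra.jordan⟩

instance jbNormedStar : NormedStarGroup M := ⟨fun x => (JBStarAlgebra.norm_star_eq x).le⟩

theorem jstar_mul (x y : M) : star (x * y) = star x * star y := by rw [star_mul, mul_comm]

theorem star_tri (x y z : M) : star (tri x y z) = tri (star x) (star y) (star z) := by
  simp only [tri, star_sub, star_add, jstar_mul]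

theorem jnorm_mul_le (x y : M) : ‖x * y‖ ≤ ‖x‖ * ‖y‖ := JBStarAlgebra.norm_mul_le x y

theorem norm_tri_le (x y z : M) : ‖tri x y z‖ ≤ 3 * (‖x‖ * ‖y‖ * ‖z‖) := by
  have h : ∀ a b c : M, ‖a * b * c‖ ≤ ‖a‖ * ‖b‖ * ‖c‖ := fun a b c =>
    (jnorm_mul_le _ _).trans (mul_le_mul_of_nonneg_right (jnorm_mul_le _ _) (norm_nonneg _))
  have h1 := h x y z
  have h2 := h z y x
  have h3 := h x z y
  have h4 : ‖tri x y z‖ ≤ ‖x * y * z‖ + ‖z * y * x‖ + ‖x * z * y‖ :=
    (norm_sub_le _ _).trans (add_le_add (norm_add_le _ _) le_rfl)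
  nlinarith

/-- The product as a continuous bilinear map. -/
noncomputable def mulL : M →L[ℂ] M →L[ℂ] M :=
  LinearMap.mkContinuous₂ (LinearMap.mul ℂ M) 1 (fun x y => by simpa using jnorm_mul_le x y)

@[simp] theorem mulL_apply (x y : M) : mulL x y = x * y := rfl

theorem norm_mulL_le (x : M) : ‖mulL x‖ ≤ ‖x‖ :=
  ContinuousLinearMap.opNorm_le_bound _ (norm_nonneg x) (fun y => jnorm_mul_le x y)

instance jbContinuousMul : ContinuousMul M := ⟨(mulL (M := M)).continuous₂⟩

/-- `z ↦ {a, z, b}` as a continuous linear map. -/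
noncomputable def triL (a b : M) : M →L[ℂ] M :=
  (mulL b).comp (mulL a) + (mulL a).comp (mulL b) - mulL (a * b)

@[simp] theorem triL_apply (a b z : M) : triL a b z = tri a z b := by
  simp only [triL, tri, add_apply, sub_apply, ContinuousLinearMap.comp_apply, mulL_apply]
  rw [mul_comm b (a * z), mul_comm a (b * z)]

theorem continuous_tri {α : Type*} [TopologicalSpace α] {f g h : α → M} (hf : Continuous f)
    (hg : Continuous g) (hh : Continuous h) : Continuous fun t => tri (f t) (g t) (h t) := by
  unfold tri; fun_prop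

/-- Projections: self-adjoint idempotents. -/
def IsProj (q : M) : Prop := star q = q ∧ q * q = q

end

/-- A unital JB*-algebra. -/
class JBU (M : Type u) extends JBStarAlgebra M, One M where
  jone_mul : ∀ x : M, 1 * x = x

section
variable {M : Type u} [JBU M]

instance jbuMulOne : MulOneClass M where
  one_mul := JBU.jone_mul
  mul_one x := by rw [mul_comm]; exact JBU.jone_mul x

@[simp] theorem tri_one_mid (x z : M) : tri x 1 z = x * z := by
  simp [tri, mul_comm]
@[simp] theorem tri_one_left (y z : M) : tri 1 y z = y * z := by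
  simp [tri, mul_comm]
@[simp] theorem tri_one_right (x y : M) : tri x y 1 = x * y := by
  simp [tri, mul_comm]

theorem norm_one_le : ‖(1 : M)‖ ≤ 1 := by
  have h := JBStarAlgebra.norm_tri (1 : M)
  rw [star_one, tri_one_mid, mul_one] at h
  by_contra hc
  push Not at hc
  nlinarith [mul_pos (sub_pos.2 hc) (sub_pos.2 hc), norm_nonneg (1 : M)]

/-- Jordan powers with `jpow x 0 = 1`. -/
def jpow (x : M) : ℕ → M
  | 0 => 1
  | n + 1 => x * jpow x n

/-- The exponential series. -/
noncomputable def jexp (x : M) : M := ∑' n : ℕ, ((n.factorial : ℂ)⁻¹) • jpow x n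

/-- A norm-closed unital `*`-subalgebra. -/
structure SAlg (B : Submodule ℂ M) : Prop where
  one_mem : (1 : M) ∈ B
  mul_mem : ∀ a ∈ B, ∀ b ∈ B, a * b ∈ B
  star_mem : ∀ a ∈ B, star a ∈ B
  closed : IsClosed (B : Set M)

/-- A norm-closed unital `*`-closed frame. -/
structure SFrame (S : Submodule ℂ M) : Prop where
  alg : SAlg S
  frame : IsFrame S

/-- A chart: an isometric `*`-homomorphism from `C(Ω)` whose range is a frame. -/
structure Chart (M : Type u) [JBU M] where
  Ω : Type u
  [top : TopologicalSpace Ω]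
  [cpt : CompactSpace Ω]
  [t2 : T2Space Ω]
  π : C(Ω, ℂ) →ₗᵢ[ℂ] M
  map_mul : ∀ f g, π (f * g) = π f * π g
  map_star : ∀ f, π (star f) = star (π f)
  map_one : π 1 = 1
  comm : ∀ f g, OpComm (π f) (π g)

attribute [instance] Chart.top Chart.cpt Chart.t2

end

end Pool.Agent.MP_ab01c5_an

/-!
# Jordan identities: linearised Jordan identity, triple identity, fundamental formula
-/

namespace Pool.Agent.MP_ab01c5_an

universe u

set_option linter.unusedSectionVars false

variable {J : Type u} [NonUnitalNonAssocCommRing J] [Module ℂ J] [IsScalarTower ℂ J J]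
  [SMulCommClass ℂ J J] [IsCommJordan J]

/-- `[L_{ab}, L_c] + [L_{bc}, L_a] + [L_{ca}, L_b] = 0`. -/
theorem lie3 (a b c z : J) :
    (a * b) * (c * z) - c * ((a * b) * z) + ((b * c) * (a * z) - a * ((b * c) * z))
      + ((c * a) * (b * z) - b * ((c * a) * z)) = 0 := by
  have h := DFunLike.congr_fun (two_nsmul_lie_lmul_lmul_add_add_eq_zero a b c) z
  rw [two_nsmul] at h
  have h' : a * (b * c * z) - b * c * (a * z) + (b * (c * a * z) - c * a * (b * z))
      + (c * (a * b * z) - a * b * (c * z))
      + (a * (b * c * z) - b * c * (a * z) + (b * (c * a * z) - c * a * (b * z))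
      + (c * (a * b * z) - a * b * (c * z))) = 0 := h
  linear_combination (norm := module) (-(1 / 2) : ℂ) • h'

/-- `L_a L_b L_c + L_c L_b L_a + L_{(ac)b} = L_{ab} L_c + L_{bc} L_a + L_{ac} L_b`. -/
theorem op4 (a b c z : J) :
    a * (b * (c * z)) + c * (b * (a * z)) + ((a * c) * b) * z
      = (a * b) * (c * z) + (b * c) * (a * z) + (a * c) * (b * z) := by
  have h := lie3 a c z b
  simp only [mul_comm] at h ⊢
  linear_combination (norm := module) (-1 : ℂ) • h

theorem mul_tri_str (c x y z : J) :
    c * tri x y z = tri (c * x) y z + tri x y (c * z) - tri x (c * y) z := by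
  have h2 := lie3 c y z x
  have h3 := lie3 c x z y
  have h4 := lie3 c x y z
  simp only [tri, mul_add, mul_sub]
  simp only [mul_comm] at h2 h3 h4 ⊢
  linear_combination (norm := module) h3 - h2 - h4

theorem der_mul (a b x y : J) : a * (b * (x * y)) - b * (a * (x * y))
    = (a * (b * x) - b * (a * x)) * y + x * (a * (b * y) - b * (a * y)) := by
  have h1 := op4 x a y b
  have h2 := op4 x b y a
  simp only [mul_sub, sub_mul]
  simp only [mul_comm] at h1 h2 ⊢
  linear_combination (norm := module) h2 - h1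

theorem der_tri (D : J → J) (hadd : ∀ x y, D (x + y) = D x + D y)
    (hsub : ∀ x y, D (x - y) = D x - D y) (hD : ∀ x y, D (x * y) = D x * y + x * D y)
    (x y z : J) : D (tri x y z) = tri (D x) y z + tri x (D y) z + tri x y (D z) := by
  simp only [tri, hadd, hsub, hD, add_mul]
  abel

/-- The Jordan triple identity. -/
theorem jt (a b x y z : J) :
    tri a b (tri x y z) = tri (tri a b x) y z - tri x (tri b a y) z + tri x y (tri a b z) := by
  have e1 : ∀ w : J, tri a b w = (a * b) * w + (a * (b * w) - b * (a * w)) := fun w => by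
    simp only [tri]; simp only [mul_comm]; abel
  have e2 : ∀ w : J, tri b a w = (a * b) * w - (a * (b * w) - b * (a * w)) := fun w => by
    simp only [tri]; simp only [mul_comm]; abel
  have h1 := mul_tri_str (a * b) x y z
  have h2 := der_tri (fun w => a * (b * w) - b * (a * w))
    (fun x y => by simp only [mul_add]; abel) (fun x y => by simp only [mul_sub]; abel)
    (der_mul a b) x y z
  rw [e1, e1 x, e1 z, e2 y, h1, h2]
  simp only [tri_add_left, tri_add_right, tri_sub_mid _ (a * b * y)]
  abel

theorem jp1 (x y z : J) : tri x y (tri x z x) = tri x (tri y x z) x := by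
  have h1 := jt x z x y x
  have h2 := jt x y x z x
  rw [tri_comm (tri x z x) y x, tri_comm z x y] at h1
  rw [tri_comm (tri x y x) z x] at h2
  linear_combination (norm := module) (-(2 / 3) : ℂ) • h1 - (1 / 3 : ℂ) • h2

/-- The fundamental formula. -/
theorem ff (x y z : J) : tri (tri x y x) z (tri x y x) = tri x (tri y (tri x z x) y) x := by
  have h1 := jt x y (tri x y x) z x
  have h3 := jt x (tri y x z) x y x
  have h4 := jt (tri x z x) y x y x
  have h5 := jt x z (tri x y x) y x
  have h6 := jt x y x (tri y x z) x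
  have h7 := congrArg (fun w => tri w y x) (jp1 x y z)
  simp only [tri_comm] at h1 h3 h4 h5 h6 h7 ⊢
  linear_combination (norm := module) (-1 : ℂ) • h1 - h5 - h4 - (2 : ℂ) • h7
    + (2 / 3 : ℂ) • h3 - (2 / 3 : ℂ) • h6

theorem ff_bil (x a b z : J) :
    tri (tri x a x) z (tri x b x) = tri x (tri a (tri x z x) b) x := by
  have h := ff x (a + b) z
  simp only [tri_add_left, tri_add_mid, tri_add_right, ff x a z, ff x b z] at h
  rw [tri_comm (tri x b x) z (tri x a x), tri_comm b (tri x z x) a] at h
  linear_combination (norm := module) (1 / 2 : ℂ) • h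

end Pool.Agent.MP_ab01c5_an

/-!
# Frames, powers, idempotents, odd powers of a pair, the Bergman operator
-/

namespace Pool.Agent.MP_ab01c5_an

universe u

set_option linter.unusedSectionVars false

variable {J : Type u} [NonUnitalNonAssocCommRing J] [Module ℂ J] [IsScalarTower ℂ J J]
  [SMulCommClass ℂ J J] [IsCommJordan J]

theorem IsFrame.assoc {S : Submodule ℂ J} (hS : IsFrame S) {a b c : J} (ha : a ∈ S)
    (hc : c ∈ S) : a * b * c = a * (b * c) := by
  rw [mul_comm (a * b) c, hS.comm c hc a ha b, mul_comm c b]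

theorem IsFrame.tri_eq {S : Submodule ℂ J} (hS : IsFrame S) {a b c : J} (ha : a ∈ S)
    (hb : b ∈ S) (hc : c ∈ S) : tri a b c = a * b * c := by
  have h1 : c * b * a = a * b * c := by
    rw [mul_comm (c * b) a, mul_comm c b, hS.assoc ha hc]
  have h2 : a * c * b = a * b * c := by
    rw [hS.assoc ha hb, hS.assoc ha hc, mul_comm c b]
  rw [tri, h1, h2]; abel

theorem IsFrame.mono {S S' : Submodule ℂ J} (hS : IsFrame S) (h : S' ≤ S)
    (hm : ∀ a ∈ S', ∀ b ∈ S', a * b ∈ S') : IsFrame S' := by
  exact ⟨hm, fun a ha b hb => hS.comm a (h ha) b (h hb)⟩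

theorem tri_eq_L (a z b : J) : tri a z b = a * (b * z) + b * (a * z) - a * b * z := by
  rw [tri, mul_comm (a * z) b, mul_comm (b * z) a]; abel

theorem IsFrame.mul_tri_aux {S : Submodule ℂ J} (hS : IsFrame S) {v g g' : J} (hv : v ∈ S)
    (hg : g ∈ S) (hg' : g' ∈ S) (z : J) :
    (2 : ℂ) • (v * tri g z g') = tri (v * g) z g' + tri g z (v * g') := by
  have h1 := op4 g v g' z
  have hvg := hS.mul_mem v hv g hg
  have hvg' := hS.mul_mem v hv g' hg'
  have hgg' := hS.mul_mem g hg g' hg'
  have e1 : g * g' * v = v * g * g' := by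
    rw [mul_comm (g * g') v, hS.assoc hv hg']
  have e2 : g * (v * g') = v * g * g' := by
    rw [← hS.assoc hg hg', mul_comm g v]
  rw [e1, hS.comm g hg v hv, hS.comm g' hg' v hv, mul_comm g v, hS.comm _ hgg' v hv] at h1
  simp only [tri_eq_L, mul_add, mul_sub, e2]
  rw [hS.comm g' hg' _ hvg, hS.comm g hg _ hvg']
  linear_combination (norm := module) (2 : ℂ) • h1

theorem IsFrame.tri_tri_aux {S : Submodule ℂ J} (hS : IsFrame S) {a a' b b' : J} (ha : a ∈ S)
    (ha' : a' ∈ S) (hb : b ∈ S) (hb' : b' ∈ S) (z : J) :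
    (2 : ℂ) • tri a (tri b z b') a' = tri (a * b) z (a' * b') + tri (a * b') z (a' * b) := by
  have m := hS.mul_mem
  have k : ∀ {v w g g' : J}, v ∈ S → w ∈ S → g ∈ S → g' ∈ S →
      (4 : ℂ) • (v * (w * tri g z g')) = tri (v * (w * g)) z g' + tri (w * g) z (v * g')
        + (tri (v * g) z (w * g') + tri g z (v * (w * g'))) := by
    intro v w g g' hv hw hg hg'
    have h1 := congrArg (fun t => v * t) (hS.mul_tri_aux hw hg hg' z)
    have h2 := hS.mul_tri_aux hv (m _ hw _ hg) hg' z
    have h3 := hS.mul_tri_aux hv hg (m _ hw _ hg') z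
    simp only [mul_smul_comm, mul_add] at h1
    linear_combination (norm := module) (2 : ℂ) • h1 + h2 + h3
  have h1 := k ha ha' hb hb'
  have h2 := k ha' ha hb hb'
  have h3 := hS.mul_tri_aux (m _ ha _ ha') hb hb' z
  rw [hS.comm a' ha' a ha b, hS.comm a' ha' a ha b'] at h2
  rw [hS.assoc ha hb, hS.assoc ha hb'] at h3
  rw [tri_eq_L a, tri_comm (a * b') z]
  linear_combination (norm := module) (1 / 2 : ℂ) • h1 + (1 / 2 : ℂ) • h2 - h3

theorem IsFrame.U_U {S : Submodule ℂ J} (hS : IsFrame S) {a b : J} (ha : a ∈ S) (hb : b ∈ S)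
    (z : J) : tri a (tri b z b) a = tri (a * b) z (a * b) := by
  have h := hS.tri_tri_aux ha ha hb hb z
  linear_combination (norm := module) (1 / 2 : ℂ) • h

theorem IsFrame.tri_tri {S : Submodule ℂ J} (hS : IsFrame S) {a a' b b' : J} (ha : a ∈ S)
    (ha' : a' ∈ S) (hb : b ∈ S) (hb' : b' ∈ S) (z : J) :
    (2 : ℂ) • tri a (tri b z b') a' = tri (a * b) z (a' * b') + tri (a * b') z (a' * b) := by
  exact hS.tri_tri_aux ha ha' hb hb' z

theorem IsFrame.mul_tri {S : Submodule ℂ J} (hS : IsFrame S) {v g g' : J} (hv : v ∈ S)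
    (hg : g ∈ S) (hg' : g' ∈ S) (z : J) :
    (2 : ℂ) • (v * tri g z g') = tri (v * g) z g' + tri g z (v * g') := by
  exact hS.mul_tri_aux hv hg hg' z

theorem OpComm.mul_tri {y a a' : J} (h1 : OpComm y a) (h2 : OpComm y a')
    (h3 : OpComm y (a * a')) (z : J) : y * tri a z a' = tri a (y * z) a' := by
  simp only [tri_eq_L, mul_add, mul_sub]
  rw [h1 (a' * z), h2 z, h2 (a * z), h1 z, h3 z]

theorem opComm_sq (x : J) : OpComm x (x * x) := fun z => by
  have h := IsCommJordan.lmul_comm_rmul_rmul x z
  rw [mul_comm (x * z), mul_comm z] at h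
  exact h.symm

theorem jpw_rec (x z : J) (n : ℕ) : jpw x (n + 2) * z = jpw x (n + 1) * (x * z)
    + (x * x) * (jpw x n * z) + jpw x (n + 1) * (x * z)
    - jpw x n * (x * (x * z)) - x * (x * (jpw x n * z)) := by
  have h := op4 (jpw x n) x x z
  have e1 : jpw x n * x = jpw x (n + 1) := by rw [mul_comm]; rfl
  have e2 : jpw x (n + 1) * x = jpw x (n + 2) := by rw [mul_comm]; rfl
  rw [e1, e2] at h
  linear_combination (norm := module) h

/-- An additive map commuting with `L_x` and `L_{x x}` commutes with all `L_{x ^ n}`. -/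
theorem comm_jpw (x : J) (T : J →+ J) (h1 : ∀ z, T (x * z) = x * T z)
    (h2 : ∀ z, T ((x * x) * z) = (x * x) * T z) (n : ℕ) :
    ∀ z, T (jpw x n * z) = jpw x n * T z := by
  induction n using Nat.strong_induction_on with
  | _ n ih =>
    match n with
    | 0 => exact h1
    | 1 => exact h2
    | n + 2 =>
      intro z
      rw [jpw_rec, jpw_rec]
      simp only [map_add, map_sub, h1, h2, ih n (by omega), ih (n + 1) (by omega)]

theorem opComm_jpw (x : J) (i j : ℕ) : OpComm (jpw x i) (jpw x j) := by
  have a1 : ∀ i z, x * (jpw x i * z) = jpw x i * (x * z) := fun i =>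
    comm_jpw x (AddMonoidHom.mulLeft x) (fun _ => rfl) (fun z => opComm_sq x z) i
  have a2 : ∀ i z, (x * x) * (jpw x i * z) = jpw x i * ((x * x) * z) := fun i =>
    comm_jpw x (AddMonoidHom.mulLeft (x * x)) (fun z => (opComm_sq x z).symm) (fun _ => rfl) i
  exact comm_jpw x (AddMonoidHom.mulLeft (jpw x i)) (fun z => (a1 i z).symm)
    (fun z => (a2 i z).symm) j

theorem jpw_mul_jpw (x : J) (i j : ℕ) : jpw x i * jpw x j = jpw x (i + j + 1) := by
  induction j with
  | zero => rw [mul_comm]; rfl
  | succ j ih =>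
    have h := opComm_jpw x i 0 (jpw x j)
    show jpw x i * (jpw x 0 * jpw x j) = _
    rw [h, ih]; rfl

theorem isFrame_span {T : Set J} (hm : ∀ a ∈ T, ∀ b ∈ T, a * b ∈ Submodule.span ℂ T)
    (hc : ∀ a ∈ T, ∀ b ∈ T, OpComm a b) : IsFrame (Submodule.span ℂ T) := by
  constructor
  · intro a ha b hb
    induction ha using Submodule.span_induction with
    | mem a ha =>
      induction hb using Submodule.span_induction with
      | mem b hb => exact hm a ha b hb
      | zero => simp
      | add b c _ _ h1 h2 => rw [mul_add]; exact add_mem h1 h2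
      | smul c b _ h => rw [mul_smul_comm]; exact Submodule.smul_mem _ c h
    | zero => simp
    | add a c _ _ h1 h2 => rw [add_mul]; exact add_mem h1 h2
    | smul c a _ h => rw [smul_mul_assoc]; exact Submodule.smul_mem _ c h
  · intro a ha b hb
    induction ha using Submodule.span_induction with
    | mem a ha =>
      induction hb using Submodule.span_induction with
      | mem b hb => exact hc a ha b hb
      | zero => intro z; simp
      | add b c _ _ h1 h2 => intro z; rw [add_mul, add_mul, mul_add, h1 z, h2 z]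
      | smul c b _ h => intro z; rw [smul_mul_assoc, smul_mul_assoc, mul_smul_comm, h z]
    | zero => intro z; simp
    | add a c _ _ h1 h2 => intro z; rw [add_mul, add_mul, mul_add, h1 z, h2 z]
    | smul c a _ h => intro z; rw [smul_mul_assoc, smul_mul_assoc, mul_smul_comm, h z]

theorem isFrame_span_jpw (x : J) : IsFrame (Submodule.span ℂ (Set.range (jpw x))) := by
  refine isFrame_span ?_ ?_
  · rintro _ ⟨i, rfl⟩ _ ⟨j, rfl⟩
    rw [jpw_mul_jpw]
    exact Submodule.subset_span ⟨_, rfl⟩
  · rintro _ ⟨i, rfl⟩ _ ⟨j, rfl⟩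
    exact opComm_jpw x i j

/-! ## Idempotents -/

theorem idem_cubic {e : J} (he : e * e = e) (z : J) :
    (2 : ℂ) • (e * (e * (e * z))) = (3 : ℂ) • (e * (e * z)) - e * z := by
  have h := op4 e e e z
  simp only [he] at h
  linear_combination (norm := module) h

theorem opComm_of_fix {e y : J} (he : e * e = e) (h : e * y = y) : OpComm e y := fun z => by
  have h1 := lie3 e e y z
  rw [he, h, mul_comm y e, h] at h1
  linear_combination (norm := module) (-1 : ℂ) • h1

theorem opComm_of_ker {e y : J} (he : e * e = e) (h : e * y = 0) : OpComm e y := fun z => by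
  have h1 := lie3 e e y z
  rw [he, h, mul_comm y e, h] at h1
  simp only [zero_mul, mul_zero] at h1
  linear_combination (norm := module) h1

theorem opComm_of_pComm {e y : J} (he : e * e = e) (h : PComm e y) : OpComm e y := by
  have h1 := opComm_of_fix he (y := e * y) h
  have h2 := opComm_of_ker he (y := y - e * y) (by rw [mul_sub, h, sub_self])
  intro z
  have a := h1 z
  have b := h2 z
  simp only [sub_mul, mul_sub] at b
  linear_combination (norm := module) a + b

theorem pComm_of_opComm {e y : J} (he : e * e = e) (h : OpComm e y) : PComm e y := by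
  have h1 := h e
  rw [he, mul_comm y e] at h1
  exact h1

theorem fix_mul_fix {e x y : J} (he : e * e = e) (hx : e * x = x) (hy : e * y = y) :
    e * (x * y) = x * y := by
  rw [opComm_of_fix he hx y, hy]

theorem fix_mul_ker {e x y : J} (he : e * e = e) (hx : e * x = x) (hy : e * y = 0) :
    x * y = 0 := by
  have h1 := opComm_of_fix he hx y
  have h2 := opComm_of_ker he hy x
  rw [hy, mul_zero] at h1
  rw [hx, mul_comm y x, h1] at h2
  exact h2.symm

theorem ker_mul_ker {e x y : J} (he : e * e = e) (hx : e * x = 0) (hy : e * y = 0) :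
    e * (x * y) = 0 := by
  rw [opComm_of_ker he hx y, hy, mul_zero]

theorem PComm.mul {e x y : J} (he : e * e = e) (hx : PComm e x) (hy : PComm e y) :
    PComm e (x * y) := by
  have c := opComm_of_pComm he hx
  show e * (e * (x * y)) = e * (x * y)
  rw [c y, c (e * y), hy]

/-- If `e x = x`, and `w` has no Peirce-1/2 component then `e (x w) = x w`. -/
theorem fix_mul_pComm {e x w : J} (he : e * e = e) (hx : e * x = x) (hw : PComm e w) :
    e * (x * w) = x * w := by
  rw [mul_comm x w, opComm_of_pComm he hw x, hx]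

theorem idem_mul_idem {e f : J} (he : e * e = e) (hf : f * f = f) (h : OpComm e f) :
    (e * f) * (e * f) = e * f := by
  have h1 : e * (e * f) = e * f := pComm_of_opComm he h
  have h2 : f * (e * f) = e * f := by
    have := pComm_of_opComm hf h.symm
    rwa [PComm, mul_comm f e] at this
  rw [← opComm_of_fix he h1 f, mul_comm (e * f) f, h2, h1]

theorem mul_U_idem {e : J} (he : e * e = e) (z : J) : e * tri e z e = tri e z e := by
  have h := idem_cubic he z
  simp only [tri_eq_L, he, mul_add, mul_sub]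
  linear_combination (norm := module) h

theorem U_idem_of_fix {e y : J} (he : e * e = e) (hy : e * y = y) : tri e y e = y := by
  simp only [tri_eq_L, he, hy]; abel

theorem U_idem_of_pComm {e y : J} (he : e * e = e) (hy : PComm e y) : tri e y e = e * y := by
  rw [tri_eq_L, he, hy]; abel

theorem U_idem_idem {e : J} (he : e * e = e) (z : J) : tri e (tri e z e) e = tri e z e := by
  exact U_idem_of_fix he (mul_U_idem he z)

theorem U_idem_mul {e x : J} (he : e * e = e) (hx : PComm e x) (z : J) :
    tri e (x * z) e = x * tri e z e := by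
  have c := (opComm_of_pComm he hx).symm
  exact (OpComm.mul_tri c c (by rw [he]; exact c) z).symm

/-- If `e x = x` then `U_x = U_e U_x = U_x U_e`. -/
theorem U_fix_U_idem {e x : J} (he : e * e = e) (hx : e * x = x) (z : J) :
    tri x (tri e z e) x = tri x z x ∧ e * tri x z x = tri x z x := by
  have h1 := U_idem_of_fix he hx
  have h2 := ff e x (tri e z e)
  have h3 := ff e x z
  rw [h1] at h2 h3
  rw [U_idem_idem he, ← h3] at h2
  refine ⟨h2, ?_⟩
  rw [h3]; exact mul_U_idem he _

end Pool.Agent.MP_ab01c5_an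

namespace Pool.Agent.MP_ab01c5_an

universe u

variable {J : Type u} [NonUnitalNonAssocCommRing J] [Module ℂ J] [IsScalarTower ℂ J J]
  [SMulCommClass ℂ J J] [IsCommJordan J]

/-! ## Odd powers of a pair -/

theorem alt_succ (n : ℕ) (x b : J) : alt (n + 1) x b = tri x b (alt n x b) := by
  induction n generalizing x b with
  | zero => rfl
  | succ n ih =>
    change tri x (alt (n + 1) b x) x = tri x b (tri x (alt n b x) x)
    rw [ih b x, jp1]

theorem pol_alg2 (a c b z : J) : tri (tri a b c) b z
    = tri a b (tri c b z) + tri c b (tri a b z) - tri a (tri b z b) c := by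
  have h := jt z b a b c
  rw [tri_comm z b (tri a b c), tri_comm (tri z b a) b c, tri_comm z b a, tri_comm z b c] at h
  rw [h]; abel

theorem alt_rec0 (x b z : J) :
    tri (alt 1 x b) b z = (2 : ℂ) • tri x b (tri x b z) - tri x (tri b z b) x := by
  change tri (tri x b x) b z = _
  rw [pol_alg2, two_smul]

theorem UU_comm_alg2 (x b z : J) :
    tri x b (tri x (tri b z b) x) = tri x (tri b (tri x b z) b) x := by
  rw [jp1, jp1]

theorem rec_alg2 (n : ℕ) (x b : J)
    (hB : ∀ z, tri x b (tri (alt (n + 1) x b) b z) = tri (alt (n + 1) x b) b (tri x b z))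
    (hA : ∀ z, tri (tri b z b) x (alt n b x) = tri b (tri (alt n x b) b z) b) (z : J) :
    tri (alt (n + 2) x b) b z = (2 : ℂ) • tri x b (tri (alt (n + 1) x b) b z)
      - tri x (tri b (tri (alt n x b) b z) b) x := by
  rw [alt_succ (n + 1), pol_alg2, ← hB, two_smul, ← hA, ← jp1]
  rfl

theorem ind_alg2 (n : ℕ) (x b : J) :
    (∀ z, tri x b (tri (alt n x b) b z) = tri (alt n x b) b (tri x b z)) ∧
    (∀ z, tri x b (tri (alt (n + 1) x b) b z) = tri (alt (n + 1) x b) b (tri x b z)) ∧
    ∀ z, tri (tri b z b) x (alt n b x) = tri b (tri (alt n x b) b z) b := by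
  induction n with
  | zero =>
    refine ⟨fun z => rfl, fun z => ?_, fun z => ?_⟩
    · rw [zero_add, alt_rec0, alt_rec0, tri_sub_right, tri_smul_right, UU_comm_alg2]
    · change tri (tri b z b) x b = tri b (tri x b z) b
      rw [tri_comm, jp1]
  | succ n ih =>
    obtain ⟨h0, h1, hA⟩ := ih
    refine ⟨h1, fun z => ?_, fun z => ?_⟩
    · rw [rec_alg2 n x b h1 hA, rec_alg2 n x b h1 hA, tri_sub_right, tri_smul_right,
        UU_comm_alg2, h0, h1 z]
    · change tri (tri b z b) x (tri b (alt n x b) b) = _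
      have h := jt x b (alt n x b) b z
      rw [h0, ← alt_succ] at h
      have h2 : tri (alt n x b) (tri b x b) z = tri (alt (n + 1) x b) b z := by
        have := add_right_cancel (b := tri (alt n x b) b (tri x b z)) ((zero_add _).trans h)
        exact (sub_eq_zero.1 this.symm).symm
      rw [ff_bil, tri_comm z, h2]

theorem alt_rec (n : ℕ) (x b z : J) : tri (alt (n + 2) x b) b z
    = (2 : ℂ) • tri x b (tri (alt (n + 1) x b) b z)
      - tri x (tri b (tri (alt n x b) b z) b) x :=
  rec_alg2 n x b (ind_alg2 n x b).2.1 (ind_alg2 n x b).2.2 z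

theorem tri_alt_alt (i j : ℕ) (x b : J) :
    tri (alt i x b) b (alt j x b) = alt (i + j + 1) x b := by
  have key : ∀ m, (2 : ℂ) • tri x b (alt (m + 1) x b) - tri x (tri b (alt m x b) b) x
      = alt (m + 2) x b := by
    intro m
    rw [← alt_succ, two_smul]
    exact add_sub_cancel_right _ _
  induction i using Nat.twoStepInduction with
  | zero => rw [zero_add, alt_succ]; rfl
  | one => rw [alt_rec0, ← alt_succ, key, add_comm 1 j]
  | more i h0 h1 =>
    rw [alt_rec, h0, h1, show i + 1 + j + 1 = i + j + 1 + 1 by ring, key,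
      show i + 2 + j + 1 = i + j + 1 + 2 by ring]

theorem tri_alt3_alg2 (j i k : ℕ) (x b : J) :
    tri (alt i x b) (alt j b x) (alt k x b) = alt (i + j + k + 1) x b := by
  induction j generalizing i k with
  | zero => exact tri_alt_alt i k x b
  | succ j ih =>
    have h := jt x b (alt i x b) (alt j b x) (alt k x b)
    rw [← alt_succ i, ← alt_succ j, ← alt_succ k, ih, ih, ih, ← alt_succ,
      show i + 1 + j + k + 1 = i + j + k + 1 + 1 by ring,
      show i + j + (k + 1) + 1 = i + j + k + 1 + 1 by ring] at h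
    rw [show i + (j + 1) + k + 1 = i + j + k + 1 + 1 by ring]
    have := add_right_cancel (b := alt (i + j + k + 1 + 1) x b) ((zero_add _).trans h)
    exact (sub_eq_zero.1 this.symm).symm

theorem alt_cube (n : ℕ) (x b : J) :
    tri (alt n x b) (alt n b x) (alt n x b) = alt (3 * n + 1) x b := by
  rw [tri_alt3_alg2, show n + n + n = 3 * n by ring]

theorem U_alt_succ (n : ℕ) (x b z : J) : tri (alt (n + 1) x b) z (alt (n + 1) x b)
    = tri x (tri (alt n b x) (tri x z x) (alt n b x)) x :=
  ff x (alt n b x) z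

/-! ## The Bergman operator -/

omit [Module ℂ J] [IsScalarTower ℂ J J] [SMulCommClass ℂ J J] [IsCommJordan J] in
theorem inv_right_alg2 {o u u' : J} (ho : ∀ z : J, o * z = z) (hc : OpComm u u')
    (hu : u * u' = o) (a : J) : tri a u' u = a := by
  rw [tri, hu, ho, mul_comm (a * u') u, mul_comm a u', hc, mul_comm (a * u) u', mul_comm a u]
  abel

theorem U_inv_alg2 {o u u' : J} (ho : ∀ z : J, o * z = z) (hc : OpComm u u')
    (hu : u * u' = o) (t w : J) : tri u (tri u' t w) u = tri u w t := by
  have h := jt t w u u' u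
  rw [tri_comm u u' (tri t w u), inv_right_alg2 ho hc hu, inv_right_alg2 ho hc hu,
    tri_comm w t u', tri_comm t w u] at h
  have := add_right_cancel (b := tri u w t) ((zero_add _).trans h)
  exact (sub_eq_zero.1 this.symm).symm

theorem inv_U_alg2 {o u u' : J} (ho : ∀ z : J, o * z = z) (hc : OpComm u u')
    (hu : u * u' = o) (a z : J) : tri a u' (tri u z u) = tri a z u := by
  rw [jt, inv_right_alg2 ho hc hu, U_inv_alg2 ho hc hu, tri_comm u z a]
  abel

/-- With `u = 1 - x`, `v = 1 - y` and `c = u⁻¹ + v⁻¹ - 1` one has `U_u U_c U_v = B(x, y)`. -/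
theorem bergman {o : J} (ho : ∀ z : J, o * z = z) {S S' : Submodule ℂ J} (hS : IsFrame S)
    (hS' : IsFrame S') (h1 : o ∈ S) (h1' : o ∈ S') {x y u' v' : J} (hx : x ∈ S) (hu' : u' ∈ S)
    (hy : y ∈ S') (hv' : v' ∈ S') (hu : (o - x) * u' = o) (hv : (o - y) * v' = o) (z : J) :
    tri (o - x) (tri (u' + v' - o) (tri (o - y) z (o - y)) (u' + v' - o)) (o - x)
      = z - (2 : ℂ) • tri x y z + tri x (tri y z y) x := by
  have ho' : ∀ z : J, z * o = z := fun z => by rw [mul_comm, ho]
  have tl : ∀ a b : J, tri o a b = b * a := fun a b => by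
    rw [tri, ho, ho, ho', mul_comm a b]; abel
  have tr : ∀ a b : J, tri a b o = a * b := fun a b => by rw [tri_comm, tl]
  have tm : ∀ a b : J, tri a o b = a * b := fun a b => by
    rw [tri, ho', ho', ho', mul_comm b a]; abel
  have huS : o - x ∈ S := S.sub_mem h1 hx
  have hvS : o - y ∈ S' := S'.sub_mem h1' hy
  have hwS : o - v' ∈ S' := S'.sub_mem h1' hv'
  have cu := hS.comm _ huS _ hu'
  have cv := hS'.comm _ hvS _ hv'
  have e0 : u' + v' - o = u' - (o - v') := by abel
  have e1 : (o - v') * (o - y) = -y := by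
    rw [sub_mul, ho, mul_comm v', hv]; abel
  have e2 : tri (o - v') (tri (o - y) z (o - y)) (o - v') = tri y z y := by
    rw [hS'.U_U hwS hvS, e1, tri_neg_left, tri_neg_right, neg_neg]
  have e3 : tri (o - x) (o - v') (tri (o - y) z (o - y))
      = (o - x) * tri (o - y) z (o - y) - tri (o - x) z (o - y) := by
    rw [tri_sub_mid, tm, inv_U_alg2 ho cv hv]
  have e4 : ∀ t, tri (o - x) (tri u' t u') (o - x) = t := fun t => by
    rw [hS.U_U huS hu', hu, tl, ho]
  have e5 : ∀ t w, tri (u' - w) t (u' - w) = tri u' t u' - tri u' t w - tri u' t w + tri w t w :=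
    fun t w => by rw [tri_sub_left, tri_sub_right, tri_sub_right, tri_comm w t u']; abel
  rw [e0, e5, tri_add_mid, tri_sub_mid, tri_sub_mid, e4, U_inv_alg2 ho cu hu, e2, e3]
  have e6 : tri x z y = x * (y * z) + x * (y * z) - tri x y z := by
    simp only [tri]
    rw [mul_comm (y * z) x, mul_comm (z * y) x, mul_comm z y]
    abel
  simp only [tri_sub_left, tri_sub_right, tl, tr, ho, sub_mul, mul_sub, e6, two_smul]
  abel

end Pool.Agent.MP_ab01c5_an

/-!
# A JBW*-algebra with a normal faithful tracial state has a unit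
-/

namespace Pool.Agent.MP_ab01c5_an

open Filter Topology
open scoped ComplexOrder

universe u v

section
variable {M : Type u} [JBStarAlgebra M]

/-- A closed associative `*`-subalgebra. -/
structure ASubUnit (M : Type u) [JBStarAlgebra M] where
  S : Submodule ℂ M
  mul_mem : ∀ a ∈ S, ∀ b ∈ S, a * b ∈ S
  star_mem : ∀ a ∈ S, star a ∈ S
  assoc : ∀ a ∈ S, ∀ c ∈ S, ∀ b, a * b * c = a * (b * c)
  closed : IsClosed (S : Set M)

/-- The carrier of a closed associative `*`-subalgebra. -/
def ASubUnit.T (A : ASubUnit M) : Type u := A.S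

namespace ASubUnit

variable (A : ASubUnit M)

noncomputable instance : NormedAddCommGroup A.T := inferInstanceAs (NormedAddCommGroup A.S)

noncomputable instance : NormedSpace ℂ A.T := inferInstanceAs (NormedSpace ℂ A.S)

instance : Mul A.T := ⟨fun x y => ⟨x.1 * y.1, A.mul_mem _ x.2 _ y.2⟩⟩

instance : Star A.T := ⟨fun x => ⟨star x.1, A.star_mem _ x.2⟩⟩

theorem cstar (x : A.T) : ‖x.1‖ * ‖x.1‖ ≤ ‖star x.1 * x.1‖ := by
  have h1 := JBStarAlgebra.norm_tri x.1
  have h2 : tri x.1 (star x.1) x.1 = star x.1 * x.1 * x.1 := by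
    have h3 := A.assoc _ x.2 _ (A.star_mem _ x.2) x.1
    rw [tri, h3, mul_comm x.1 (x.1 * star x.1), add_sub_cancel_right, mul_comm x.1]
  have h4 := jnorm_mul_le (star x.1 * x.1) x.1
  rw [← h2, h1] at h4
  rcases (norm_nonneg x.1).eq_or_lt with h | h
  · rw [← h, zero_mul]
    exact norm_nonneg _
  · exact le_of_mul_le_mul_right (by linarith) h

noncomputable instance : NonUnitalCStarAlgebra A.T :=
  { (inferInstance : NormedAddCommGroup A.T), (inferInstance : NormedSpace ℂ A.T),
    (inferInstance : Mul A.T), (inferInstance : Star A.T),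
    (A.closed.completeSpace_coe : CompleteSpace A.T) with
    left_distrib := fun _ _ _ => Subtype.ext (mul_add _ _ _)
    right_distrib := fun _ _ _ => Subtype.ext (add_mul _ _ _)
    zero_mul := fun _ => Subtype.ext (zero_mul _)
    mul_zero := fun _ => Subtype.ext (mul_zero _)
    mul_assoc := fun x y z => Subtype.ext (A.assoc _ x.2 _ z.2 _)
    star_involutive := fun _ => Subtype.ext (star_star _)
    star_mul := fun _ _ => Subtype.ext (star_mul _ _)
    star_add := fun _ _ => Subtype.ext (star_add _ _)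
    star_smul := fun _ _ => Subtype.ext (star_smul _ _)
    smul_assoc := fun _ _ _ => Subtype.ext (JBStarAlgebra.smul_mul _ _ _)
    smul_comm := fun c x y => Subtype.ext (mul_smul_comm c x.1 y.1).symm
    norm_mul_le := fun x y => jnorm_mul_le x.1 y.1
    norm_mul_self_le := fun x => A.cstar x }

theorem approx {a : M} (ha : a ∈ A.S) {ε : ℝ} (hε : 0 < ε) :
    ∃ g : M, star g = g ∧ ‖g‖ ≤ 1 ∧ ‖a * g - a‖ < ε := by
  let _ := CStarAlgebra.spectralOrder A.T
  let _ := CStarAlgebra.spectralOrderedRing A.T
  have h := CStarAlgebra.increasingApproximateUnit A.T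
  have h1 := (Metric.tendsto_nhds.1 (h.tendsto_mul_left (⟨a, ha⟩ : A.S))) ε hε
  obtain ⟨g, g1, g2, g3⟩ := (h1.and (h.eventually_star_eq.and h.eventually_norm)).exists
  refine ⟨g.1, congrArg Subtype.val g2, g3, ?_⟩
  rw [dist_eq_norm] at g1
  exact g1

end ASubUnit

theorem star_jpw_unit {a : M} (ha : star a = a) (n : ℕ) : star (jpw a n) = jpw a n := by
  induction n with
  | zero => exact ha
  | succ n ih => rw [jpw, jstar_mul, ha, ih]

theorem approx_unit {a : M} (ha : star a = a) {ε : ℝ} (hε : 0 < ε) :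
    ∃ g : M, star g = g ∧ ‖g‖ ≤ 1 ∧ ‖a * g - a‖ < ε := by
  have hF := isFrame_span_jpw a
  set S := Submodule.span ℂ (Set.range (jpw a)) with hS
  have hst : ∀ x ∈ S, star x ∈ S := by
    intro x hx
    induction hx using Submodule.span_induction with
    | mem x h =>
      obtain ⟨n, rfl⟩ := h
      rw [star_jpw_unit ha]
      exact Submodule.subset_span ⟨n, rfl⟩
    | zero => rw [star_zero]; exact S.zero_mem
    | add x y _ _ h1 h2 => rw [star_add]; exact S.add_mem h1 h2
    | smul c x _ h => rw [star_smul]; exact S.smul_mem _ h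
  let A : ASubUnit M :=
    { S := S.topologicalClosure
      mul_mem := fun x hx y hy =>
        map_mem_closure₂ (f := fun x y : M => x * y) continuous_mul hx hy hF.mul_mem
      star_mem := fun x hx => map_mem_closure continuous_star hx hst
      assoc := fun x hx z hz y => by
        have h : (x, z) ∈ closure ((S : Set M) ×ˢ (S : Set M)) := by
          rw [closure_prod_eq]; exact ⟨hx, hz⟩
        have hc : IsClosed {p : M × M | p.1 * y * p.2 = p.1 * (y * p.2)} :=
          isClosed_eq (by fun_prop) (by fun_prop)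
        exact closure_minimal (fun p hp => hF.assoc hp.1 hp.2) hc h
      closed := S.isClosed_topologicalClosure }
  exact A.approx (S.le_topologicalClosure (Submodule.subset_span ⟨0, rfl⟩)) hε

theorem eq_zero_of_sq_unit {w : M} (hw : star w = w) (h : w * w = 0) : w = 0 := by
  have h1 := JBStarAlgebra.norm_tri w
  rw [hw, tri, h, zero_mul, add_zero, sub_zero, norm_zero] at h1
  exact norm_eq_zero.1 (pow_eq_zero_iff three_ne_zero |>.1 h1.symm)

theorem decomp_unit (x : M) :
    ∃ a b : M, star a = a ∧ star b = b ∧ x = a + Complex.I • b ∧ ‖a‖ ≤ ‖x‖ := by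
  refine ⟨(1 / 2 : ℂ) • (x + star x), (-Complex.I / 2) • (x - star x), ?_, ?_, ?_, ?_⟩
  · rw [star_smul, star_add, star_star, add_comm]
    simp
  · rw [star_smul, star_sub, star_star, ← neg_sub x, smul_neg, ← neg_smul]
    congr 1
    simp [neg_div]
  · rw [smul_smul, show Complex.I * (-Complex.I / 2) = 1 / 2 by
      linear_combination (-1 / 2 : ℂ) * Complex.I_mul_I]
    module
  · have := norm_add_le x (star x)
    rw [norm_star] at this
    rw [norm_smul]
    norm_num
    linarith

variable {T : M →L[ℂ] ℂ}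

theorem im_mul_unit (hp : ∀ y : M, star y = y → 0 ≤ T (y * y)) {x y : M} (hx : star x = x)
    (hy : star y = y) : (T (x * y)).im = 0 := by
  have h1 := (Complex.le_def.1 (hp (x + y) (by rw [star_add, hx, hy]))).2
  have h2 := (Complex.le_def.1 (hp x hx)).2
  have h3 := (Complex.le_def.1 (hp y hy)).2
  simp only [add_mul, mul_add, mul_comm y x, map_add, Complex.add_im, Complex.zero_im] at h1 h2 h3
  linarith

theorem im_unit (hp : ∀ y : M, star y = y → 0 ≤ T (y * y)) (hn : ∀ x, ‖T x‖ ≤ ‖x‖) {a : M}
    (ha : star a = a) : (T a).im = 0 := by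
  refine abs_nonpos_iff.1 (le_of_forall_pos_le_add fun ε hε => ?_)
  obtain ⟨g, g1, -, g3⟩ := approx_unit ha hε
  have h1 := (Complex.abs_im_le_norm _).trans (hn (a * g - a))
  rw [map_sub, Complex.sub_im, im_mul_unit hp ha g1, zero_sub, abs_neg] at h1
  linarith

theorem key_unit (hp : ∀ y : M, star y = y → 0 ≤ T (y * y)) (hn : ∀ x, ‖T x‖ ≤ ‖x‖) {a : M}
    (ha : star a = a) : 2 * (T a).re ≤ (T (a * a)).re + 1 := by
  refine le_of_forall_pos_le_add fun ε hε => ?_
  obtain ⟨g, g1, g2, g3⟩ := approx_unit ha (half_pos hε)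
  have h1 := (Complex.abs_re_le_norm _).trans (hn (a * g - a))
  rw [map_sub, Complex.sub_re] at h1
  have h2 := (Complex.le_def.1 (hp (a - g) (by rw [star_sub, ha, g1]))).1
  simp only [sub_mul, mul_sub, mul_comm g a, map_sub, Complex.sub_re, Complex.zero_re] at h2
  have h3 : (T (g * g)).re ≤ 1 :=
    (Complex.re_le_norm _).trans ((hn _).trans ((jnorm_mul_le g g).trans
      (mul_le_one₀ g2 (norm_nonneg _) g2)))
  linarith [(abs_le.1 h1).1]

theorem rep_unit (hp : ∀ y : M, star y = y → 0 ≤ T (y * y)) (hn : ∀ x, ‖T x‖ ≤ ‖x‖) {u : M}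
    (hu : star u = u) (h1 : ‖u‖ ≤ 1) (h2 : (T u).re = 1) {x : M} (hx : star x = x) :
    (T (u * x)).re = (T x).re := by
  have h3 : (T (u * u)).re ≤ 1 :=
    (Complex.re_le_norm _).trans ((hn _).trans ((jnorm_mul_le u u).trans
      (mul_le_one₀ h1 (norm_nonneg _) h1)))
  have h4 : ∀ t : ℝ, 0 ≤ (T (x * x)).re * (t * t) + 2 * ((T (u * x)).re - (T x).re) * t + 0 := by
    intro t
    have h := key_unit hp hn (a := u + (t : ℂ) • x) (by
      rw [star_add, star_smul, hu, hx, Complex.star_def, Complex.conj_ofReal])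
    simp only [add_mul, mul_add, smul_mul_assoc, mul_smul_comm, mul_comm x u, map_add, map_smul,
      smul_eq_mul, Complex.add_re, Complex.re_ofReal_mul] at h
    linarith
  have h5 := discrim_le_zero h4
  rw [discrim, mul_zero, sub_zero] at h5
  have h6 := pow_eq_zero_iff two_ne_zero |>.1 (le_antisymm h5 (sq_nonneg _))
  linarith

end

theorem exists_unit {M : Type u} [JBStarAlgebra M] {X : Type v} [NormedAddCommGroup X]
    [NormedSpace ℂ X] (e : M ≃ₗᵢ[ℂ] StrongDual ℂ X) (τ : X) (hτ : IsFaithfulState e τ)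
    (htr : IsTrace e τ) : ∃ u : M, ∀ x : M, u * x = x := by
  let T : M →L[ℂ] ℂ := (ContinuousLinearMap.apply ℂ ℂ τ).comp
    (e.toLinearIsometry.toContinuousLinearMap)
  have hT : ∀ x, T x = e x τ := fun _ => rfl
  have hp : ∀ y : M, star y = y → 0 ≤ T (y * y) := fun y hy => hτ.pos _ ⟨y, hy, rfl⟩
  have hn : ∀ x, ‖T x‖ ≤ ‖x‖ := fun x => by
    have := (e x).le_opNorm τ
    rwa [hτ.norm_eq, mul_one, e.norm_map] at this
  obtain ⟨g, g1, g2⟩ := exists_dual_vector'' ℂ τ
  obtain ⟨u, b, hu, hb, e1, e2⟩ := decomp_unit (e.symm g)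
  have hu1 : ‖u‖ ≤ 1 := e2.trans (by rwa [e.symm.norm_map])
  have hu2 : (T u).re = 1 := by
    have h : T (e.symm g) = 1 := by
      rw [hT, e.apply_symm_apply, g2, hτ.norm_eq]
      simp
    rw [e1, map_add, map_smul] at h
    have h' := congrArg Complex.re h
    simpa [im_unit hp hn hb] using h'
  have main : ∀ y : M, star y = y → u * y = y := by
    intro y hy
    have hw : star (u * y - y) = u * y - y := by rw [star_sub, jstar_mul, hu, hy]
    generalize hwd : u * y - y = w at hw
    have h1 := rep_unit hp hn hu hu1 hu2 (x := y * w) (by rw [jstar_mul, hy, hw])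
    have h2 : T (w * w) = T (u * (y * w)) - T (y * w) := by
      nth_rewrite 1 [← hwd]
      rw [sub_mul, map_sub, hT, htr, hT, hT]
    have h3 : T (w * w) = 0 := by
      apply Complex.ext
      · rw [h2, Complex.sub_re, h1, sub_self, Complex.zero_re]
      · exact im_mul_unit hp hw hw
    have h4 := eq_zero_of_sq_unit hw (hτ.faithful _ ⟨w, hw, rfl⟩ h3)
    rw [h4] at hwd
    exact sub_eq_zero.1 hwd
  refine ⟨u, fun x => ?_⟩
  obtain ⟨a, c, ha, hc, rfl, -⟩ := decomp_unit x
  rw [mul_add, mul_smul_comm, main a ha, main c hc]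

end Pool.Agent.MP_ab01c5_an

/-!
# Charts: closed frames are commutative C*-algebras
-/

namespace Pool.Agent.MP_ab01c5_an

universe u

set_option linter.unusedSectionVars false

variable {M : Type u} [JBU M]

theorem jpow_succ_eq (x : M) (n : ℕ) : jpow x (n + 1) = jpw x n := by
  induction n with
  | zero => simp [jpow, jpw]
  | succ n ih => rw [jpow, ih, jpw]

theorem norm_jpow_le (x : M) (n : ℕ) : ‖jpow x n‖ ≤ ‖x‖ ^ n := by
  induction n with
  | zero => simpa [jpow] using norm_one_le
  | succ n ih =>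
    rw [jpow, pow_succ']
    exact (jnorm_mul_le _ _).trans (mul_le_mul_of_nonneg_left ih (norm_nonneg x))

theorem isClosed_opComm (a : M) : IsClosed {b : M | OpComm a b} := by
  simp only [OpComm, Set.ofPred_forall]
  exact isClosed_iInter fun z => isClosed_eq (by fun_prop) (by fun_prop)

/-- The norm closure of a frame is a frame. -/
theorem IsFrame.closure {S : Submodule ℂ M} (hS : IsFrame S) : IsFrame S.topologicalClosure := by
  constructor
  · intro a ha b hb
    exact map_mem_closure₂ continuous_mul ha hb fun a ha b hb => hS.mul_mem a ha b hb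
  · intro a ha b hb
    have h1 : ∀ b ∈ S, OpComm b a := fun b hb =>
      (isClosed_opComm b).closure_subset_iff.2 (fun a ha => hS.comm b hb a ha) ha
    exact (isClosed_opComm a).closure_subset_iff.2 (fun b hb => (h1 b hb).symm) hb

theorem opComm_one (a : M) : OpComm 1 a := fun z => by simp

theorem jpow_mul_jpow (x : M) (i j : ℕ) : jpow x i * jpow x j = jpow x (i + j) := by
  rcases i with _ | i
  · simp [jpow]
  rcases j with _ | j
  · simp [jpow]
  rw [jpow_succ_eq, jpow_succ_eq, jpw_mul_jpw, ← jpow_succ_eq]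
  congr 1; omega

theorem isFrame_span_jpow (x : M) : IsFrame (Submodule.span ℂ (Set.range (jpow x))) := by
  refine isFrame_span ?_ ?_
  · rintro _ ⟨i, rfl⟩ _ ⟨j, rfl⟩
    rw [jpow_mul_jpow]
    exact Submodule.subset_span ⟨_, rfl⟩
  · rintro _ ⟨i, rfl⟩ _ ⟨j, rfl⟩
    rcases i with _ | i
    · exact opComm_one _
    rcases j with _ | j
    · exact (opComm_one _).symm
    rw [jpow_succ_eq, jpow_succ_eq]
    exact opComm_jpw x i j

theorem jpow_one (x : M) : jpow x 1 = x := by simp [jpow]

theorem star_jpow (x : M) (n : ℕ) : star (jpow x n) = jpow (star x) n := by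
  induction n with
  | zero => simp [jpow]
  | succ n ih => rw [jpow, jpow, jstar_mul, ih]

/-- Every element lies in a closed unital frame (not `*`-closed in general). -/
theorem exists_frame_one (x : M) :
    ∃ S : Submodule ℂ M, IsFrame S ∧ IsClosed (S : Set M) ∧ (1 : M) ∈ S ∧ x ∈ S := by
  refine ⟨_, (isFrame_span_jpow x).closure, Submodule.isClosed_topologicalClosure _,
    Submodule.le_topologicalClosure _ (Submodule.subset_span ⟨0, rfl⟩),
    Submodule.le_topologicalClosure _ (Submodule.subset_span ⟨1, jpow_one x⟩)⟩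

/-- The smallest closed unital `*`-subalgebra containing a self-adjoint element is a frame. -/
theorem exists_sframe {a : M} (ha : star a = a) :
    ∃ S : Submodule ℂ M, SFrame S ∧ a ∈ S ∧ ∀ B : Submodule ℂ M, SAlg B → a ∈ B → S ≤ B := by
  have hF := (isFrame_span_jpow a).closure
  refine ⟨(Submodule.span ℂ (Set.range (jpow a))).topologicalClosure,
    ⟨⟨Submodule.le_topologicalClosure _ (Submodule.subset_span ⟨0, rfl⟩), hF.mul_mem,
    ?_, Submodule.isClosed_topologicalClosure _⟩, hF⟩,
    Submodule.le_topologicalClosure _ (Submodule.subset_span ⟨1, jpow_one a⟩), ?_⟩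
  · intro x hx
    refine map_mem_closure continuous_star hx fun y hy => ?_
    induction hy using Submodule.span_induction with
    | mem y hy =>
      obtain ⟨n, rfl⟩ := hy
      rw [star_jpow, ha]
      exact Submodule.subset_span ⟨n, rfl⟩
    | zero => simp
    | add y z _ _ h1 h2 => rw [star_add]; exact add_mem h1 h2
    | smul c y _ h => rw [star_smul]; exact Submodule.smul_mem _ _ h
  · intro B hB haB
    refine Submodule.topologicalClosure_minimal _ (Submodule.span_le.2 ?_) hB.closed
    rintro _ ⟨n, rfl⟩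
    induction n with
    | zero => exact hB.one_mem
    | succ n ih => exact hB.mul_mem _ haB _ ih

/-- The elements of a closed unital `*`-closed frame, as a commutative C*-algebra. -/
def SFrame.A {S : Submodule ℂ M} (_ : SFrame S) : Type u := S

namespace SFrame

variable {S : Submodule ℂ M} (hS : SFrame S)

def val (x : hS.A) : M := (show S from x).1

noncomputable instance : NormedCommRing hS.A :=
  { (inferInstance : NormedAddCommGroup S) with
    mul := fun x y => (⟨x.1 * y.1, hS.alg.mul_mem _ x.2 _ y.2⟩ : S)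
    one := (⟨1, hS.alg.one_mem⟩ : S)
    left_distrib := fun _ _ _ => Subtype.ext (mul_add _ _ _)
    right_distrib := fun _ _ _ => Subtype.ext (add_mul _ _ _)
    zero_mul := fun _ => Subtype.ext (zero_mul _)
    mul_zero := fun _ => Subtype.ext (mul_zero _)
    mul_assoc := fun a _ c => Subtype.ext (hS.frame.assoc a.2 c.2)
    one_mul := fun _ => Subtype.ext (one_mul _)
    mul_one := fun _ => Subtype.ext (mul_one _)
    mul_comm := fun _ _ => Subtype.ext (mul_comm _ _)
    norm_mul_le := fun a b => jnorm_mul_le a.1 b.1 }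

noncomputable instance : Module ℂ hS.A := inferInstanceAs (Module ℂ S)

noncomputable instance : NormedAlgebra ℂ hS.A :=
  { Algebra.ofModule (R := ℂ) (A := hS.A)
      (fun r x y => Subtype.ext (smul_mul_assoc r x.1 y.1))
      (fun r x y => Subtype.ext (mul_smul_comm r x.1 y.1)) with
    norm_smul_le := fun r x => norm_smul_le r x.1 }

instance : StarRing hS.A where
  star x := (⟨star x.1, hS.alg.star_mem _ x.2⟩ : S)
  star_involutive _ := Subtype.ext (star_star _)
  star_mul _ _ := Subtype.ext (star_mul _ _)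
  star_add _ _ := Subtype.ext (star_add _ _)

instance : StarModule ℂ hS.A := ⟨fun r x => Subtype.ext (star_smul r x.1)⟩

instance : CompleteSpace hS.A := hS.alg.closed.completeSpace_coe

instance : CStarRing hS.A := ⟨fun x => by
  have h := JBStarAlgebra.norm_tri x.1
  rw [hS.frame.tri_eq x.2 (hS.alg.star_mem _ x.2) x.2, mul_comm x.1 (star x.1)] at h
  have h2 := jnorm_mul_le (star x.1 * x.1) x.1
  show ‖x.1‖ * ‖x.1‖ ≤ ‖star x.1 * x.1‖
  rcases (norm_nonneg x.1).eq_or_lt with h0 | h0
  · rw [← h0, zero_mul]; exact norm_nonneg _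
  · refine le_of_mul_le_mul_right ?_ h0
    rw [h] at h2
    linarith⟩

noncomputable instance : CommCStarAlgebra hS.A where

end SFrame

/-- Gelfand duality for a closed unital `*`-closed frame. -/
theorem exists_chart {S : Submodule ℂ M} (hS : SFrame S) :
    ∃ c : Chart M, ∀ x : M, x ∈ S ↔ ∃ f, c.π f = x := by
  let G := gelfandStarTransform hS.A
  have hG : ∀ x : hS.A, ‖G x‖ = ‖x‖ := fun x =>
    (gelfandTransform_isometry hS.A).norm_map_of_map_zero (map_zero _) x
  let π : C(WeakDual.characterSpace ℂ hS.A, ℂ) →ₗᵢ[ℂ] M :=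
    { toFun := fun f => hS.val (G.symm f)
      map_add' := fun f g => by rw [map_add]; rfl
      map_smul' := fun c f => by rw [map_smul]; rfl
      norm_map' := fun f => by
        have := hG (G.symm f)
        rw [StarAlgEquiv.apply_symm_apply] at this
        exact this.symm }
  refine ⟨⟨WeakDual.characterSpace ℂ hS.A, π, fun f g => ?_, fun f => ?_, ?_, fun f g => ?_⟩,
    fun x => ⟨fun hx => ⟨G (⟨x, hx⟩ : S), ?_⟩, ?_⟩⟩
  · show hS.val (G.symm (f * g)) = _
    rw [map_mul]; rfl
  · show hS.val (G.symm (star f)) = _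
    rw [map_star]; rfl
  · show hS.val (G.symm 1) = _
    rw [map_one]; rfl
  · exact hS.frame.comm _ (G.symm f).2 _ (G.symm g).2
  · exact congrArg hS.val (G.symm_apply_apply (⟨x, hx⟩ : S))
  · rintro ⟨f, rfl⟩
    exact (G.symm f).2

theorem exists_chart_sa {a : M} (ha : star a = a) :
    ∃ (c : Chart M) (f : C(c.Ω, ℂ)), c.π f = a ∧ ∀ ω, (f ω).im = 0 := by
  obtain ⟨S, hS, haS, -⟩ := exists_sframe ha
  obtain ⟨c, hc⟩ := exists_chart hS
  obtain ⟨f, hf⟩ := (hc a).1 haS
  refine ⟨c, f, hf, fun ω => ?_⟩
  have h : star f = f := c.π.injective (by rw [c.map_star, hf, ha])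
  have := congrArg (fun g : C(c.Ω, ℂ) => (g ω).im) h
  simp only [ContinuousMap.star_apply, Complex.star_def, Complex.conj_im] at this
  linarith

end Pool.Agent.MP_ab01c5_an
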