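import Pool.Agent.MP_ab01c5_an.JPos

/-!
# The Poisson kernel: the unit ball is the closure of the sums `∑ λ_j a_j`
-/

namespace Pool.Agent.MP_ab01c5_an

universe u

variable {M : Type u} [JBU M]

theorem geom_of_step_ball2 {a : ℕ → ℝ} (ha : ∀ n, 0 ≤ a n) {N : ℕ} {r : ℝ} (hr0 : 0 ≤ r)
    (hr : r < 1) (h : ∀ j, a (j + (N + 1)) ≤ r * a j) :
    ∃ C ρ : ℝ, 0 ≤ ρ ∧ ρ < 1 ∧ ∀ n : ℕ, a n ≤ C * ρ ^ n := by
  have hN : (0 : ℝ) < (N : ℝ) + 2 := by positivity
  set t : ℝ := (1 - r) / ((N : ℝ) + 2) with ht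
  have ht0 : 0 < t := div_pos (by linarith) hN
  have htN : t * ((N : ℝ) + 2) = 1 - r := by rw [ht]; field_simp
  have hN0 : (0 : ℝ) ≤ N := Nat.cast_nonneg N
  have ht1 : t ≤ 1 / 2 := by nlinarith
  have hρ : 0 < 1 - t := by linarith
  have hb : r ≤ (1 - t) ^ (N + 1) := by
    have := one_add_mul_le_pow (a := -t) (by linarith) (N + 1)
    push_cast at this
    have e : (1 : ℝ) + -t = 1 - t := by ring
    rw [e] at this
    nlinarith
  refine ⟨∑ j ∈ Finset.range (N + 1), a j / (1 - t) ^ j, 1 - t, hρ.le, by linarith, fun n => ?_⟩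
  set C := ∑ j ∈ Finset.range (N + 1), a j / (1 - t) ^ j with hC
  have hC0 : 0 ≤ C := Finset.sum_nonneg fun j _ => div_nonneg (ha j) (pow_pos hρ j).le
  induction n using Nat.strong_induction_on with
  | _ n ih =>
    by_cases hn : n < N + 1
    · have h1 : a n / (1 - t) ^ n ≤ C :=
        Finset.single_le_sum (f := fun j => a j / (1 - t) ^ j)
          (fun j _ => div_nonneg (ha j) (pow_pos hρ j).le) (Finset.mem_range.2 hn)
      rwa [div_le_iff₀ (pow_pos hρ n)] at h1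
    · obtain ⟨j, rfl⟩ : ∃ j, n = j + (N + 1) := ⟨n - (N + 1), by omega⟩
      have h1 := ih j (by omega)
      have h2 : 0 ≤ C * (1 - t) ^ j := mul_nonneg hC0 (pow_pos hρ j).le
      calc a (j + (N + 1)) ≤ r * a j := h j
        _ ≤ r * (C * (1 - t) ^ j) := mul_le_mul_of_nonneg_left h1 hr0
        _ ≤ (1 - t) ^ (N + 1) * (C * (1 - t) ^ j) := mul_le_mul_of_nonneg_right hb h2
        _ = C * (1 - t) ^ (j + (N + 1)) := by ring

theorem exists_alt_bound {x : M} (hx : ‖x‖ < 1) :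
    ∃ C ρ : ℝ, 0 ≤ ρ ∧ ρ < 1 ∧ ∀ n : ℕ, ‖alt n x (star x)‖ ≤ C * ρ ^ n := by
  have h0 := norm_nonneg x
  obtain ⟨m, hm⟩ := exists_pow_lt_of_lt_one (show (0 : ℝ) < 1 / 3 by norm_num) hx
  obtain ⟨n0, -, hn0⟩ := exists_alt_norm (M := M) m
  have hle : ‖x‖ ^ (3 ^ m) ≤ ‖x‖ ^ m :=
    pow_le_pow_of_le_one h0 hx.le (Nat.lt_pow_self (by norm_num)).le
  have hp : 0 ≤ ‖x‖ ^ (3 ^ m) := pow_nonneg h0 _
  refine geom_of_step_ball2 (a := fun n => ‖alt n x (star x)‖) (fun n => norm_nonneg _)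
    (N := n0) (r := 3 * ‖x‖ ^ (3 ^ m)) (by positivity) (by linarith) fun j => ?_
  have e : j + (n0 + 1) = n0 + j + 1 := by ring
  have h1 := norm_tri_le (alt n0 x (star x)) (star x) (alt j x (star x))
  rw [tri_alt_alt, hn0, norm_star] at h1
  simp only [e]
  have h2 : ‖x‖ ^ (3 ^ m) * ‖x‖ ≤ ‖x‖ ^ (3 ^ m) := mul_le_of_le_one_right hp hx.le
  have h3 := mul_le_mul_of_nonneg_right h2 (norm_nonneg (alt j x (star x)))
  linarith

theorem rec_sum_ball2 (T S : M →L[ℂ] M) {a e : ℕ → M} {g E : M} (hg : HasSum a g)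
    (hE : HasSum e E) (h : ∀ k, a (k + 2) = (2 : ℂ) • T (a (k + 1)) - S (a k) + e k) :
    g - (2 : ℂ) • T g + S g = a 0 + a 1 - (2 : ℂ) • T (a 0) + E := by
  have h1 : HasSum (fun k => a (k + 1)) (g - a 0) := by
    simpa using (hasSum_nat_add_iff' 1).2 hg
  have h2 : HasSum (fun k => a (k + 2)) (g - (a 0 + a 1)) := by
    simpa [Finset.sum_range_succ] using (hasSum_nat_add_iff' 2).2 hg
  have h3 : HasSum (fun k => a (k + 2)) ((2 : ℂ) • T (g - a 0) - S g + E) := by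
    simp only [h]
    exact (((T.hasSum h1).const_smul (2 : ℂ)).sub (S.hasSum hg)).add hE
  have h4 := h2.unique h3
  rw [map_sub] at h4
  linear_combination (norm := module) h4

/-- `z ↦ {a, b, z}` as a continuous linear map. -/
noncomputable def triR_ball2 (a b : M) : M →L[ℂ] M :=
  mulL (a * b) + (mulL a).comp (mulL b) - (mulL b).comp (mulL a)

theorem triR_apply_ball2 (a b z : M) : triR_ball2 a b z = tri a b z := by
  simp only [triR_ball2, tri, add_apply, sub_apply, ContinuousLinearMap.comp_apply, mulL_apply]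
  rw [mul_comm a (b * z), mul_comm b (a * z), mul_comm b z]

/-- The Bergman operator `B(x, x*)` is onto for `‖x‖ < 1`. -/
theorem bergman_surj {x : M} (hx : ‖x‖ < 1) (w : M) :
    ∃ z : M, z - (2 : ℂ) • tri x (star x) z + tri x (tri (star x) z (star x)) x = w := by
  obtain ⟨C, ρ, hρ0, hρ, hC⟩ := exists_alt_bound hx
  set b := star x with hb
  let T : M →L[ℂ] M := triR_ball2 x b
  let S : M →L[ℂ] M := (triL x x).comp (triL b b)
  have hT : ∀ z, T z = tri x b z := fun z => triR_apply_ball2 x b z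
  have hS : ∀ z, S z = tri x (tri b z b) x := fun z => by
    simp only [S, ContinuousLinearMap.comp_apply, triL_apply]
  let a : M → ℕ → M := fun v k => Nat.casesOn k v fun k => tri (alt k x b) b v
  have ha0 : ∀ v, a v 0 = v := fun v => rfl
  have ha1 : ∀ v k, a v (k + 1) = tri (alt k x b) b v := fun v k => rfl
  have hrec : ∀ v k, a v (k + 2) = (2 : ℂ) • T (a v (k + 1)) - S (a v k) := by
    intro v k
    rw [hT, hS]
    cases k with
    | zero => exact alt_rec0 x b v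
    | succ k => exact alt_rec k x b v
  have hbd : ∀ v k, ‖a v (k + 1)‖ ≤ 3 * (C * ‖b‖ * ‖v‖) * ρ ^ k := by
    intro v k
    rw [ha1]
    refine (norm_tri_le _ _ _).trans ?_
    have h1 := mul_le_mul_of_nonneg_right (hC k) (mul_nonneg (norm_nonneg b) (norm_nonneg v))
    linarith
  have hρn : ‖ρ‖ < 1 := by rwa [Real.norm_of_nonneg hρ0]
  have hs1 : ∀ v, Summable (a v) := by
    intro v
    rw [← summable_nat_add_iff 1]
    exact Summable.of_norm_bounded ((summable_geometric_of_lt_one hρ0 hρ).mul_left _) (hbd v)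
  have hs2 : ∀ v, Summable fun k : ℕ => ((k : ℂ) + 1) • a v k := by
    intro v
    rw [← summable_nat_add_iff 1]
    have h1 : Summable fun k : ℕ => (k : ℝ) ^ 1 * ρ ^ k :=
      summable_pow_mul_geometric_of_norm_lt_one 1 hρn
    have h2 := ((h1.add ((summable_geometric_of_lt_one hρ0 hρ).mul_left 2)).mul_left
      (3 * (C * ‖b‖ * ‖v‖)))
    refine Summable.of_norm_bounded h2 fun k => ?_
    rw [norm_smul]
    have h3 : ‖(((k + 1 : ℕ) : ℂ) + 1)‖ = (k : ℝ) + 2 := by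
      have : (((k + 1 : ℕ) : ℂ) + 1) = ((k + 2 : ℕ) : ℂ) := by push_cast; ring
      rw [this, Complex.norm_natCast]; push_cast; ring
    rw [h3]
    have h4 := mul_le_mul_of_nonneg_left (hbd v k) (show (0 : ℝ) ≤ (k : ℝ) + 2 by positivity)
    linarith
  have hG : ∀ v, (∑' k, a v k) - (2 : ℂ) • T (∑' k, a v k) + S (∑' k, a v k) = v - T v := by
    intro v
    have h1 := rec_sum_ball2 T S (hs1 v).hasSum (hasSum_zero (α := M) (β := ℕ))
      (fun k => by rw [hrec, add_zero])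
    have h2 : a v 1 = T v := by rw [hT]; rfl
    rw [ha0, h2] at h1
    linear_combination (norm := module) h1
  set g := ∑' k, a w k with hg
  set g2 := ∑' k : ℕ, ((k : ℂ) + 1) • a w k with hg2
  have h1 : HasSum (fun k => a w (k + 1)) (g - w) := by
    have h := (hasSum_nat_add_iff' 1).2 (hs1 w).hasSum
    rw [Finset.sum_range_one, ha0] at h
    exact h
  have hE : HasSum (fun k => (2 : ℂ) • T (a w (k + 1)) - (2 : ℂ) • S (a w k))
      ((2 : ℂ) • T (g - w) - (2 : ℂ) • S g) :=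
    ((T.hasSum h1).const_smul (2 : ℂ)).sub ((S.hasSum (hs1 w).hasSum).const_smul (2 : ℂ))
  have h2 := rec_sum_ball2 T S (hs2 w).hasSum hE (fun k => by
    rw [hrec, map_smul, map_smul]; push_cast; module)
  have h3 : a w 1 = T w := by rw [hT]; rfl
  rw [← hg2] at h2
  simp only [ha0, h3, map_smul, map_sub] at h2
  have h4 := hG w
  have h5 := hG g
  rw [← hg] at h4
  refine ⟨(2 : ℂ) • (∑' k, a g k) - g2, ?_⟩
  rw [← hT, ← hS]
  simp only [map_sub, map_smul]
  push_cast at h2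
  linear_combination (norm := module) (2 : ℂ) • h5 - h2 + (2 : ℂ) • h4

theorem summable_jpow {x : M} (hx : ‖x‖ < 1) : Summable (jpow x) :=
  Summable.of_norm_bounded (summable_geometric_of_lt_one (norm_nonneg x) hx) (norm_jpow_le x)

theorem jpow_smul_ball2 (c : ℂ) (x : M) (n : ℕ) : jpow (c • x) n = c ^ n • jpow x n := by
  induction n with
  | zero => simp [jpow]
  | succ n ih => rw [jpow, jpow, ih, smul_mul_assoc, mul_smul_comm, smul_smul, pow_succ']

theorem star_jpow_ball2 (x : M) (n : ℕ) : star (jpow x n) = jpow (star x) n := by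
  induction n with
  | zero => simp [jpow]
  | succ n ih => rw [jpow, jpow, jstar_mul, ih]

theorem one_sub_mul_tsum_ball2 {x : M} (hx : ‖x‖ < 1) : (1 - x) * ∑' n, jpow x n = 1 := by
  have h := (summable_jpow hx).hasSum
  have h1 : HasSum (fun k => jpow x (k + 1)) ((∑' n, jpow x n) - 1) := by
    simpa [jpow] using (hasSum_nat_add_iff' 1).2 h
  have h2 : HasSum (fun k => jpow x (k + 1)) (x * ∑' n, jpow x n) := (mulL x).hasSum h
  rw [sub_mul, one_mul, ← h1.unique h2]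
  abel

theorem tsum_mem_ball2 {x : M} (hx : ‖x‖ < 1) {S : Submodule ℂ M} (hS : IsFrame S)
    (hc : IsClosed (S : Set M)) (h1 : (1 : M) ∈ S) (hxS : x ∈ S) : (∑' n, jpow x n) ∈ S := by
  have hp : ∀ n, jpow x n ∈ S := by
    intro n
    induction n with
    | zero => exact h1
    | succ n ih => exact hS.mul_mem _ hxS _ ih
  exact hc.mem_of_tendsto (summable_jpow hx).hasSum.tendsto_sum_nat
    (Filter.Eventually.of_forall fun n => S.sum_mem fun i _ => hp i)

theorem star_tsum_ball2 (x : M) : star (∑' n, jpow x n) = ∑' n, jpow (star x) n := by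
  rw [tsum_star]
  simp only [star_jpow_ball2]

theorem poisson_inv_ball2 {x : M} (hx : ‖x‖ < 1) :
    ∃ w : M, tri ((∑' n, jpow x n) + star (∑' n, jpow x n) - 1) w
      ((∑' n, jpow x n) + star (∑' n, jpow x n) - 1) = 1 := by
  have hx' : ‖star x‖ < 1 := by rwa [norm_star]
  obtain ⟨S, hS, hc, h1, hxS⟩ := exists_frame_one x
  obtain ⟨S', hS', hc', h1', hxS'⟩ := exists_frame_one (star x)
  obtain ⟨z, hz⟩ := bergman_surj hx (tri (1 - x) 1 (1 - x))
  have hu := tsum_mem_ball2 hx hS hc h1 hxS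
  have hv := tsum_mem_ball2 hx' hS' hc' h1' hxS'
  have hb := bergman (o := (1 : M)) one_mul hS hS' h1 h1' hxS hu hxS' hv
    (one_sub_mul_tsum_ball2 hx) (one_sub_mul_tsum_ball2 hx') z
  rw [hz, ← star_tsum_ball2] at hb
  refine ⟨tri (1 - star x) z (1 - star x), ?_⟩
  have hcan : ∀ q : M, tri (∑' n, jpow x n) (tri (1 - x) q (1 - x)) (∑' n, jpow x n) = q := by
    intro q
    rw [hS.U_U hu (S.sub_mem h1 hxS), mul_comm, one_sub_mul_tsum_ball2 hx, tri_one_left, mul_one]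
  rw [← hcan (tri _ _ _), hb, hcan]

/-- Positivity of the Poisson kernel `(1 - x)⁻¹ + (1 - x*)⁻¹ - 1`. -/
theorem isPos_poisson {x : M} (hx : ‖x‖ < 1) :
    IsPos ((∑' n, jpow x n) + star (∑' n, jpow x n) - 1) := by
  let u : ℝ → M := fun t => ∑' n, jpow ((t : ℂ) • x) n
  have hn : ∀ t ∈ Set.Icc (0 : ℝ) 1, ‖(t : ℂ) • x‖ ≤ ‖x‖ := by
    intro t ht
    rw [norm_smul, Complex.norm_real, Real.norm_of_nonneg ht.1]
    exact mul_le_of_le_one_left (norm_nonneg x) ht.2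
  have hu : ContinuousOn u (Set.Icc 0 1) := by
    refine continuousOn_tsum (u := fun n => ‖x‖ ^ n) (fun n => ?_)
      (summable_geometric_of_lt_one (norm_nonneg x) hx) fun n t ht => ?_
    · simp only [jpow_smul_ball2]
      exact Continuous.continuousOn (by fun_prop)
    · exact (norm_jpow_le _ n).trans (pow_le_pow_left₀ (norm_nonneg _) (hn t ht) n)
  have h := isPos_of_path (γ := fun t => u t + star (u t) - 1)
    ((hu.add hu.star).sub continuousOn_const)
    (fun t _ => by rw [star_sub, star_add, star_star, star_one, add_comm])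
    (fun t ht => poisson_inv_ball2 ((hn t ht).trans_lt hx)) (by
      have h0 : u 0 = 1 := by
        have := one_sub_mul_tsum_ball2 ((hn 0 ⟨le_rfl, zero_le_one⟩).trans_lt hx)
        simpa [u] using this
      simp only [h0, star_one, add_sub_cancel_right]
      exact isPos_one)
  simpa [u] using h

theorem avg_bound_ball2 {p : ℕ → M} {ρ : ℝ} (hρ0 : 0 ≤ ρ) (hρ : ρ < 1)
    (hp : ∀ n, ‖p n‖ ≤ ρ ^ n) {N : ℕ} (hN : 0 < N) {η μ : ℂ} (hη : ‖η‖ = 1) (hμ : ‖μ‖ = 1)
    (K : ℕ) :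
    ‖(∑ n ∈ Finset.range K, ((N : ℂ)⁻¹ * ∑ j ∈ Finset.range N, (η * μ ^ n) ^ j) • p n)
      - (N : ℂ)⁻¹ • ∑ j ∈ Finset.range N, η ^ j • ∑' n, (μ ^ j) ^ n • p n‖
      ≤ ρ ^ K / (1 - ρ) := by
  have hs : ∀ j : ℕ, Summable fun n => (μ ^ j) ^ n • p n := by
    intro j
    refine Summable.of_norm_bounded (summable_geometric_of_lt_one hρ0 hρ) fun n => ?_
    rw [norm_smul, norm_pow, norm_pow, hμ, one_pow, one_pow, one_mul]
    exact hp n
  have h1 := (hasSum_sum (s := Finset.range N)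
    fun j _ => (hs j).hasSum.const_smul (η ^ j)).const_smul (N : ℂ)⁻¹
  have h2 : (fun n => (N : ℂ)⁻¹ • ∑ j ∈ Finset.range N, η ^ j • (μ ^ j) ^ n • p n)
      = fun n => ((N : ℂ)⁻¹ * ∑ j ∈ Finset.range N, (η * μ ^ n) ^ j) • p n := by
    funext n
    rw [mul_smul, Finset.sum_smul]
    congr 1
    refine Finset.sum_congr rfl fun j _ => ?_
    rw [smul_smul, mul_pow, ← pow_mul, ← pow_mul, mul_comm j n]
  rw [h2] at h1
  have h3 := norm_sub_le_of_geometric_bound_of_hasSum (C := 1) hρ (fun n => ?_) h1 K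
  · rwa [one_mul] at h3
  · have hN' : (0 : ℝ) < N := Nat.cast_pos.2 hN
    have h4 : ‖∑ j ∈ Finset.range N, (η * μ ^ n) ^ j‖ ≤ N := by
      refine (norm_sum_le _ _).trans ?_
      simp [hη, hμ]
    have h5 : ‖(N : ℂ)⁻¹ * ∑ j ∈ Finset.range N, (η * μ ^ n) ^ j‖ ≤ 1 := by
      rw [norm_mul, norm_inv, Complex.norm_natCast, inv_mul_le_iff₀ hN', mul_one]
      exact h4
    rw [norm_smul]
    exact mul_le_mul h5 (hp n) (norm_nonneg _) zero_le_one

theorem geom_root_ball2 {N : ℕ} {w : ℂ} (hw : w ^ N = 1) (h1 : w ≠ 1) :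
    ∑ j ∈ Finset.range N, w ^ j = 0 := by
  have h := mul_geom_sum w N
  rw [hw, sub_self] at h
  exact (mul_eq_zero.1 h).resolve_left (sub_ne_zero.2 h1)

theorem exists_decomp {x : M} (hx : ‖x‖ ≤ 1) {ε : ℝ} (hε : 0 < ε) :
    ∃ (N : ℕ) (c : Fin N → ℂ) (a : Fin N → M), (∀ j, ‖c j‖ ≤ 1) ∧ (∀ j, IsPos (a j)) ∧
      IsPos (1 - ∑ j, a j) ∧ ‖x - ∑ j, c j • a j‖ < ε := by
  obtain ⟨ρ, hρ0, hρ, hρε⟩ : ∃ ρ : ℝ, 0 ≤ ρ ∧ ρ < 1 ∧ 1 - ρ ≤ ε / 2 :=
    ⟨max 0 (1 - ε / 2), le_max_left _ _, max_lt one_pos (by linarith),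
      by linarith [le_max_right 0 (1 - ε / 2)]⟩
  have h1ρ : 0 < 1 - ρ := by linarith
  obtain ⟨K, hK⟩ := exists_pow_lt_of_lt_one (show 0 < ε / 8 * (1 - ρ) by positivity) hρ
  set δ : ℝ := ρ ^ (K + 2) / (1 - ρ) with hδ
  have hδ0 : 0 ≤ δ := div_nonneg (pow_nonneg hρ0 _) h1ρ.le
  have hδε : δ < ε / 8 := by
    rw [hδ, div_lt_iff₀ h1ρ]
    exact (pow_le_pow_of_le_one hρ0 hρ.le (by omega)).trans_lt hK
  set y : M := (ρ : ℂ) • x with hy
  have hyn : ‖y‖ ≤ ρ := by
    rw [hy, norm_smul, Complex.norm_real, Real.norm_of_nonneg hρ0]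
    exact mul_le_of_le_one_right hρ0 hx
  have hxy : ‖x - y‖ ≤ 1 - ρ := by
    have e : x - y = ((1 - ρ : ℝ) : ℂ) • x := by rw [hy]; push_cast; module
    rw [e, norm_smul, Complex.norm_real, Real.norm_of_nonneg h1ρ.le]
    exact mul_le_of_le_one_right h1ρ.le hx
  have hp : ∀ n, ‖jpow y n‖ ≤ ρ ^ n := fun n =>
    (norm_jpow_le y n).trans (pow_le_pow_left₀ (norm_nonneg _) hyn n)
  obtain ⟨N, hN⟩ : ∃ N, N = K + 3 := ⟨_, rfl⟩
  have hN0 : 0 < N := by omega
  have hNc : (N : ℂ) ≠ 0 := Nat.cast_ne_zero.2 hN0.ne'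
  obtain ⟨μ, hprim⟩ : ∃ μ : ℂ, IsPrimitiveRoot μ N := ⟨_, Complex.isPrimitiveRoot_exp N hN0.ne'⟩
  have hμ : ‖μ‖ = 1 := hprim.norm'_eq_one hN0.ne'
  set ζ : ℂ := star μ with hζ
  have hζn : ‖ζ‖ = 1 := by rw [hζ, norm_star, hμ]
  have hζμ : ζ * μ = 1 := by
    rw [hζ, Complex.star_def, Complex.conj_mul', hμ]; simp
  have hz : ∀ k, 0 < k → k < N → ∑ j ∈ Finset.range N, (μ ^ k) ^ j = 0 := fun k h0 hk =>
    geom_root_ball2 (by rw [← pow_mul, mul_comm, pow_mul, hprim.pow_eq_one, one_pow])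
      (hprim.pow_ne_one_of_pos_of_lt h0.ne' hk)
  have hzζ : ∑ j ∈ Finset.range N, ζ ^ j = 0 := by
    have h := congrArg star (hz 1 one_pos (by omega))
    simpa [hζ, star_sum] using h
  let U : ℕ → M := fun j => ∑' n, (μ ^ j) ^ n • jpow y n
  have hU : ∀ j, IsPos (U j + star (U j) - 1) := by
    intro j
    have h1 : ‖μ ^ j • y‖ < 1 := by
      rw [norm_smul, norm_pow, hμ, one_pow, one_mul]; exact hyn.trans_lt hρ
    have h2 := isPos_poisson h1
    simpa only [jpow_smul_ball2] using h2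
  have hA0 : ‖(1 : M) - (N : ℂ)⁻¹ • ∑ j ∈ Finset.range N, U j‖ ≤ δ := by
    have h := avg_bound_ball2 hρ0 hρ hp hN0 (η := 1) norm_one hμ (K + 2)
    rw [Finset.sum_eq_single 0 (fun n hn h0 => by
      rw [one_mul, hz n (Nat.pos_of_ne_zero h0) (by have := Finset.mem_range.1 hn; omega),
        mul_zero, zero_smul]) (fun h => absurd (Finset.mem_range.2 (by omega)) h)] at h
    simpa [hNc, jpow] using h
  have hA1 : ‖y - (N : ℂ)⁻¹ • ∑ j ∈ Finset.range N, ζ ^ j • U j‖ ≤ δ := by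
    have h := avg_bound_ball2 hρ0 hρ hp hN0 hζn hμ (K + 2)
    rw [Finset.sum_eq_single 1 (fun n hn h1 => by
      rcases n with _ | _ | n
      · rw [pow_zero, mul_one, hzζ, mul_zero, zero_smul]
      · exact absurd rfl h1
      · rw [pow_succ' μ (n + 1), ← mul_assoc, hζμ, one_mul,
          hz (n + 1) (by omega) (by have := Finset.mem_range.1 hn; omega), mul_zero, zero_smul])
      (fun h => absurd (Finset.mem_range.2 (by omega)) h)] at h
    simpa [hNc, jpow, hζμ] using h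
  have hA2 : ‖(N : ℂ)⁻¹ • ∑ j ∈ Finset.range N, ζ ^ j • star (U j)‖ ≤ δ := by
    have h := avg_bound_ball2 hρ0 hρ hp hN0 hμ hμ (K + 2)
    rw [Finset.sum_eq_zero (fun n hn => by
      rw [← pow_succ', hz (n + 1) (by omega) (by have := Finset.mem_range.1 hn; omega),
        mul_zero, zero_smul]), zero_sub, norm_neg, ← norm_star] at h
    simpa [star_sum, hζ] using h
  have hD : (0 : ℝ) < 1 + 2 * δ := by linarith
  have hDc : ((1 + 2 * δ : ℝ) : ℂ) ≠ 0 := Complex.ofReal_ne_zero.2 hD.ne'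
  set A : M := (N : ℂ)⁻¹ • ∑ j ∈ Finset.range N, U j with hA
  have hsA : star A = (N : ℂ)⁻¹ • ∑ j ∈ Finset.range N, star (U j) := by
    simp [hA, star_sum]
  set r : ℝ := (1 + 2 * δ)⁻¹ with hr
  have hr0 : 0 ≤ r := inv_nonneg.2 hD.le
  have hr1 : r * (1 + 2 * δ) = 1 := inv_mul_cancel₀ hD.ne'
  refine ⟨N, fun j => ζ ^ (j : ℕ), fun j => ((r * (N : ℝ)⁻¹ : ℝ) : ℂ) • (U j + star (U j) - 1),
    fun j => by rw [norm_pow, hζn, one_pow], fun j => (hU j).smul (by positivity), ?_, ?_⟩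
  · have e1 : ∑ j : Fin N, ((r * (N : ℝ)⁻¹ : ℝ) : ℂ) • (U j + star (U j) - 1)
        = (r : ℂ) • (A + star A - 1) := by
      rw [Fin.sum_univ_eq_sum_range
        (fun j => ((r * (N : ℝ)⁻¹ : ℝ) : ℂ) • (U j + star (U j) - 1)) N, ← Finset.smul_sum,
        Finset.sum_sub_distrib, Finset.sum_add_distrib, hsA, hA, Finset.sum_const,
        Finset.card_range, ← Nat.cast_smul_eq_nsmul ℂ]
      push_cast
      rw [mul_smul, smul_sub (N : ℂ)⁻¹, smul_add (N : ℂ)⁻¹, smul_smul (N : ℂ)⁻¹,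
        inv_mul_cancel₀ hNc, one_smul]
    have hn : ‖A + star A - 1‖ ≤ 1 + 2 * δ := by
      have e : A + star A - 1 = 1 - (1 - A) - star (1 - A) := by
        rw [star_sub, star_one]; abel
      have h1 := norm_sub_le (1 - (1 - A)) (star (1 - A))
      have h2 := norm_sub_le (1 : M) (1 - A)
      have h3 := norm_one_le (M := M)
      rw [norm_star] at h1
      rw [e]; linarith
    have h := (isPos_norm_sub (a := A + star A - 1)
      (by rw [star_sub, star_add, star_star, star_one, add_comm]) hn).smul hr0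
    rw [smul_sub (r : ℂ), smul_smul, ← Complex.ofReal_mul, hr1, Complex.ofReal_one, one_smul] at h
    rw [e1]
    exact h
  · set A1 : M := (N : ℂ)⁻¹ • ∑ j ∈ Finset.range N, ζ ^ j • U j with hA1d
    set A2 : M := (N : ℂ)⁻¹ • ∑ j ∈ Finset.range N, ζ ^ j • star (U j) with hA2d
    have e2 : ∑ j : Fin N, ζ ^ (j : ℕ) • ((r * (N : ℝ)⁻¹ : ℝ) : ℂ) • (U j + star (U j) - 1)
        = (r : ℂ) • (A1 + A2) := by
      rw [Fin.sum_univ_eq_sum_range
        (fun j => ζ ^ j • ((r * (N : ℝ)⁻¹ : ℝ) : ℂ) • (U j + star (U j) - 1)) N]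
      simp only [smul_comm (ζ ^ _) ((r * (N : ℝ)⁻¹ : ℝ) : ℂ)]
      rw [← Finset.smul_sum]
      simp only [smul_sub, smul_add]
      rw [Finset.sum_sub_distrib, Finset.sum_add_distrib, ← Finset.sum_smul, hzζ, zero_smul,
        sub_zero, hA1d, hA2d]
      push_cast
      module
    rw [e2]
    have h1 : ‖y - (A1 + A2)‖ ≤ 2 * δ := by
      have e : y - (A1 + A2) = (y - A1) - A2 := by abel
      have := norm_sub_le (y - A1) A2
      rw [e]; linarith
    have h2 : ‖A1 + A2‖ ≤ 1 + 2 * δ := by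
      have e : A1 + A2 = y - (y - (A1 + A2)) := by abel
      have := norm_sub_le y (y - (A1 + A2))
      rw [e]; linarith
    have h3 : ‖(A1 + A2) - (r : ℂ) • (A1 + A2)‖ ≤ 2 * δ := by
      have e : (A1 + A2) - (r : ℂ) • (A1 + A2) = ((1 - r : ℝ) : ℂ) • (A1 + A2) := by
        push_cast; module
      have h4 : 0 ≤ 1 - r := by nlinarith
      rw [e, norm_smul, Complex.norm_real, Real.norm_of_nonneg h4]
      nlinarith [mul_le_mul_of_nonneg_left h2 h4]
    have e : x - (r : ℂ) • (A1 + A2)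
        = (x - y) + (y - (A1 + A2)) + ((A1 + A2) - (r : ℂ) • (A1 + A2)) := by abel
    have h5 := norm_add₃_le (a := x - y) (b := y - (A1 + A2))
      (c := (A1 + A2) - (r : ℂ) • (A1 + A2))
    rw [e]; linarith

end Pool.Agent.MP_ab01c5_an
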