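import Pool.Agent.MP_ab01c5_an.JWeak
import Pool.Agent.MP_ab01c5_an.JPoisson

/-!
# `‖∑ λ_j a_j‖ ≤ 1` for positive `a_j` with `∑ a_j ≤ 1` and `|λ_j| ≤ 1`
-/

namespace Pool.Agent.MP_ab01c5_an

open Filter
open scoped ComplexOrder

universe u v

variable {M : Type u} [JBU M] {X : Type v} [NormedAddCommGroup X] [NormedSpace ℂ X]
  [CompleteSpace X]

theorem sa_smul_ball1 (r : ℝ) {x : M} (hx : star x = x) : star ((r : ℂ) • x) = (r : ℂ) • x := by
  rw [star_smul, Complex.star_def, Complex.conj_ofReal, hx]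

theorem re_nonneg_ball1 {z : ℂ} (h : 0 ≤ z) : 0 ≤ z.re := (Complex.le_def.1 h).1

/-- the compression of `b` is small when the compression of `a` is large -/
theorem small_ball1 {a b q : M} {α : ℝ} (ha : star a = a) (hb : star b = b) (hq : IsProj q)
    (hc : PComm q a) (hP : IsPos (q * a - ((9 / 10 * α : ℝ) : ℂ) • q))
    (h : ‖((4 / 5 : ℝ) : ℂ) • a - ((3 / 5 : ℝ) : ℂ) • b‖ ≤ α) :
    IsPos (((7 / 15 * α : ℝ) : ℂ) • q + tri q b q) := by
  have h1 := hq.isPos.U (isPos_norm_sub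
    (by rw [star_sub, sa_smul_ball1 _ ha, sa_smul_ball1 _ hb]) h)
  have h2 := (h1.add (hP.smul (r := 4 / 5) (by norm_num))).smul (r := 5 / 3) (by norm_num)
  simp only [tri_sub_mid, tri_smul_mid, tri_one_mid, hq.2, U_idem_of_pComm hq.2 hc] at h2
  convert h2 using 1
  push_cast
  module

namespace WT

variable (W : WT M X)

omit [CompleteSpace X] in
theorem core_ball1 {a b : M} {α C : ℝ} (hα : 0 ≤ α) (ha : star a = a) (hb : star b = b)
    (h1 : ‖((4 / 5 : ℝ) : ℂ) • a - ((3 / 5 : ℝ) : ℂ) • b‖ ≤ α)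
    (h2 : ‖((4 / 5 : ℝ) : ℂ) • a - ((3 / 5 : ℝ) : ℂ) • (-b)‖ ≤ α)
    (h3 : ¬ IsPos (((9 / 10 * α : ℝ) : ℂ) • (1 : M) - a))
    (h : ∀ w : M, sn W.t (tri (a + Complex.I • b) w (a + Complex.I • b)) ≤ C * sn W.t w) :
    α ^ 2 ≤ 2 * C := by
  have ht := W.isTr
  obtain ⟨q, -, hq, p1, p2, p3⟩ := (wsub_top (W := W)).exists_sign
    (a := a - ((9 / 10 * α : ℝ) : ℂ) • (1 : M)) Submodule.mem_top
    (by rw [star_sub, ha, sa_smul_ball1 _ (star_one M)])
  have hq0 : 0 < (W.t q).re := by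
    refine (ht.pos.re_nonneg hq.isPos).lt_of_ne fun h0 => h3 ?_
    have : q = 0 := ht.faith q hq.isPos (Complex.ext h0.symm (ht.pos.im_sa hq.1))
    rwa [this, zero_mul, zero_sub, neg_sub] at p2
  have hc : PComm q a := by
    unfold PComm at p3 ⊢
    simpa only [mul_sub, mul_smul_comm, mul_one, hq.2, sub_left_inj] using p3
  rw [mul_sub, mul_smul_comm, mul_one] at p1
  have s1 := small_ball1 ha hb hq hc p1 h1
  have s2 := small_ball1 ha (by rw [star_neg, hb]) hq hc p1 h2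
  rw [tri_neg_mid, ← sub_eq_add_neg] at s2
  have hB : star (tri q b q) = tri q b q := by rw [star_tri, hq.1, hb]
  have e1 : tri q (a + Complex.I • b) q = q * a + Complex.I • tri q b q := by
    rw [tri_add_mid, tri_smul_mid, U_idem_of_pComm hq.2 hc]
  have e2 := ff q (a + Complex.I • b) 1
  rw [tri_one_mid, tri_one_mid, hq.2, e1] at e2
  have e3 := congrArg W.t e2
  rw [ht.tri_apply, hq.2] at e3
  have e4 := (ht.pos.cs' q (tri (a + Complex.I • b) q (a + Complex.I • b))).trans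
    (mul_le_mul_of_nonneg_left (h q) (sn_nonneg _ _))
  have e5 : sn W.t q * (C * sn W.t q) = C * (W.t q).re := by
    rw [mul_left_comm, ← sq, ht.pos.sn_sq, hq.1, hq.2]
  rw [← e3, e5] at e4
  have e6 := (Complex.re_le_norm _).trans e4
  have hA : star (q * a) = q * a := by rw [jstar_mul, hq.1, ha]
  have hqA : q * (q * a) = q * a := hc
  generalize q * a = A at *
  generalize tri q b q = B at *
  have f1 := re_nonneg_ball1 (ht.mul_nonneg s1 s2)
  have f2 := ht.pos.re_nonneg (isPos_mul_self p1.sa)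
  have f3 := ht.pos.re_nonneg p1
  have f4 := ht.pos.im_sa (x := A * B) (by rw [jstar_mul, hA, hB])
  simp only [add_mul, mul_add, sub_mul, mul_sub, smul_mul_assoc, mul_smul_comm, mul_comm B q,
    mul_comm A q, mul_comm B A, hq.2, hqA, map_add, map_sub, map_smul, smul_eq_mul, Complex.add_re,
    Complex.sub_re, Complex.re_ofReal_mul, Complex.I_mul_re, Complex.I_mul_im, f4] at f1 f2 f3 e6
  have f5 := mul_nonneg hα f3
  have f6 : α ^ 2 * (W.t q).re ≤ 2 * C * (W.t q).re := by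
    nlinarith [mul_nonneg (sq_nonneg α) hq0.le]
  exact le_of_mul_le_mul_right f6 hq0

/-- Crude comparison of the norm of `z` with the norm of `U_z` on `L²`. -/
theorem norm_sq_le_of_U {z : M} {C : ℝ} (hC : 0 ≤ C)
    (h : ∀ w : M, sn W.t (tri z w z) ≤ C * sn W.t w) : ‖z‖ ^ 2 ≤ 8 * C := by
  obtain ⟨μ, hμ, hmax⟩ := (isCompact_sphere (0 : ℂ) 1).exists_isMaxOn ⟨1, by simp⟩
    (f := fun μ : ℂ => ‖μ • z + star (μ • z)‖) (by fun_prop)
  rw [mem_sphere_zero_iff_norm] at hμ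
  obtain ⟨a, b, ha, hb, e, -, -⟩ := exists_re_im (μ • z)
  have key : ∀ c s : ℝ, c ^ 2 + s ^ 2 = 1 → ‖(c : ℂ) • a - (s : ℂ) • b‖ ≤ ‖a‖ := by
    intro c s hcs
    have h1 : ‖(c : ℂ) + s * Complex.I‖ = 1 := by
      rw [Complex.norm_add_mul_I, hcs, Real.sqrt_one]
    have h2 : ‖((c + s * Complex.I) * μ) • z + star (((c + s * Complex.I) * μ) • z)‖ ≤
        ‖μ • z + star (μ • z)‖ :=
      hmax (mem_sphere_zero_iff_norm.2 (by rw [norm_mul, h1, hμ, one_mul]))
    have h3 : ((c : ℂ) + s * Complex.I) • (a + Complex.I • b) +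
        star (((c : ℂ) + s * Complex.I) • (a + Complex.I • b)) =
        (2 : ℂ) • ((c : ℂ) • a - (s : ℂ) • b) := by
      simp only [star_smul, star_add, ha, hb, Complex.star_def, map_mul,
        Complex.conj_ofReal, Complex.conj_I]
      match_scalars
      · ring
      · linear_combination (2 * s : ℂ) * Complex.I_mul_I
    have h4 : a + Complex.I • b + star (a + Complex.I • b) = (2 : ℂ) • a := by
      simp only [star_smul, star_add, ha, hb, Complex.star_def, Complex.conj_I]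
      module
    rw [mul_smul, e, h3, h4, norm_smul, norm_smul] at h2
    exact le_of_mul_le_mul_left h2 (by simp)
  have hz : ‖z‖ ≤ 2 * ‖a‖ := by
    have h1 := key 0 1 (by norm_num)
    have h2 := norm_add_le a (Complex.I • b)
    rw [← e, norm_smul, norm_smul, hμ, Complex.norm_I] at h2
    simp only [Complex.ofReal_zero, zero_smul, Complex.ofReal_one, one_smul, zero_sub,
      norm_neg] at h1
    linarith
  have h' : ∀ w : M, sn W.t (tri (a + Complex.I • b) w (a + Complex.I • b)) ≤ C * sn W.t w := by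
    intro w
    rw [← e, tri_smul_left, tri_smul_right, sn_smul, sn_smul, hμ, one_mul, one_mul]
    exact h w
  have k1 := key (4 / 5) (3 / 5) (by norm_num)
  have k2 : ‖((4 / 5 : ℝ) : ℂ) • a - ((3 / 5 : ℝ) : ℂ) • (-b)‖ ≤ ‖a‖ := by
    have := key (4 / 5) (-(3 / 5)) (by norm_num)
    rwa [Complex.ofReal_neg, neg_smul, ← smul_neg] at this
  have main : ‖a‖ ^ 2 ≤ 2 * C := by
    by_cases g1 : IsPos (((9 / 10 * ‖a‖ : ℝ) : ℂ) • (1 : M) - a)
    · by_cases g2 : IsPos (((9 / 10 * ‖a‖ : ℝ) : ℂ) • (1 : M) - -a)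
      · rw [sub_neg_eq_add] at g2
        have h1 := norm_le_of_isPos ha (by positivity) g1 g2
        have h2 : ‖a‖ = 0 := le_antisymm (by linarith) (norm_nonneg _)
        rw [h2]
        linarith
      · refine W.core_ball1 (a := -a) (b := -b) (norm_nonneg _) (by rw [star_neg, ha])
          (by rw [star_neg, hb]) ?_ ?_ g2 fun w => ?_
        · rwa [smul_neg, smul_neg, neg_sub_neg, norm_sub_rev]
        · rwa [smul_neg, smul_neg _ (-b), neg_sub_neg, norm_sub_rev]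
        · rw [smul_neg, ← neg_add, tri_neg_left, tri_neg_right, neg_neg]
          exact h' w
    · exact W.core_ball1 (norm_nonneg _) ha hb k1 k2 g1 h'
  nlinarith [norm_nonneg z, norm_nonneg a]

theorem norm_le_one_of_U {y : M} (h : ∀ w : M, sn W.t (tri y w y) ≤ sn W.t w) : ‖y‖ ≤ 1 := by
  have h1 : ∀ w : M, sn W.t (tri (star y) w (star y)) ≤ sn W.t w := by
    intro w
    have := h (star w)
    rwa [← sn_star, star_tri, star_star, sn_star] at this
  have h2 : ∀ (n : ℕ) (x b : M), (∀ w : M, sn W.t (tri x w x) ≤ sn W.t w) →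
      (∀ w : M, sn W.t (tri b w b) ≤ sn W.t w) →
      ∀ w : M, sn W.t (tri (alt n x b) w (alt n x b)) ≤ sn W.t w := by
    intro n
    induction n with
    | zero => exact fun x b hx _ => hx
    | succ n ih =>
      intro x b hx hb w
      rw [U_alt_succ]
      exact (hx _).trans ((ih b x hb hx _).trans (hx _))
  by_contra hy
  rw [not_le] at hy
  obtain ⟨m, hm⟩ := ((tendsto_pow_atTop_atTop_of_one_lt hy).eventually_gt_atTop 3).exists
  obtain ⟨n, -, hn⟩ := exists_alt_norm (M := M) m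
  have h3 := W.norm_sq_le_of_U (z := alt n y (star y)) zero_le_one fun w => by
    rw [one_mul]; exact h2 n _ _ h h1 w
  have h4 : ‖y‖ ^ m ≤ ‖y‖ ^ 3 ^ m :=
    pow_le_pow_right₀ hy.le (Nat.lt_pow_self (by norm_num)).le
  rw [hn] at h3
  nlinarith

theorem psd_ball1 {a b : M} (ha : IsPos a) (hb : IsPos b) (z : M) :
    0 ≤ (W.t (a * tri z b (star z))).re :=
  re_nonneg_ball1 (W.isTr.mul_nonneg ha (W.isPos_tri_star z hb))

theorem cs_ball1 {a b : M} (ha : IsPos a) (hb : IsPos b) {c : ℂ} (hc : ‖c‖ ≤ 1) (z w : M) :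
    2 * (c * W.t (a * tri z b (star w))).re ≤
      (W.t (a * tri z b (star z))).re + (W.t (a * tri w b (star w))).re := by
  have h1 := W.psd_ball1 ha hb (c • z - w)
  have h2 := W.psd_ball1 ha hb z
  have h3 : W.t (a * tri w b (star z)) = star (W.t (a * tri z b (star w))) := by
    rw [← W.isTr.pos.map_star, jstar_mul, star_tri, ha.sa, hb.sa, star_star, tri_comm]
  have h4 : star c * c = ((‖c‖ ^ 2 : ℝ) : ℂ) := by
    rw [Complex.star_def, Complex.conj_mul', Complex.ofReal_pow]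
  simp only [star_sub, star_smul, tri_sub_left, tri_sub_right, tri_smul_left, tri_smul_right,
    mul_sub, mul_smul_comm, map_sub, map_smul, smul_eq_mul, h3, ← mul_assoc, h4, Complex.sub_re,
    Complex.re_ofReal_mul] at h1
  rw [← star_mul', Complex.star_def, Complex.conj_re] at h1
  have h5 : ‖c‖ ^ 2 ≤ 1 := pow_le_one₀ (norm_nonneg _) hc
  nlinarith

theorem le_ball1 {S : M} (h0 : IsPos S) (h1 : IsPos (1 - S)) (z : M) :
    (W.t (S * tri z S (star z))).re ≤ sn W.t z ^ 2 := by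
  have g1 := W.psd_ball1 h0 h1 z
  have g2 := W.psd_ball1 h1 isPos_one z
  simp only [tri_sub_mid, tri_one_mid, mul_sub, sub_mul, one_mul, map_sub, Complex.sub_re]
    at g1 g2
  rw [W.isTr.pos.sn_sq]
  linarith

theorem sum_ball1 {ι : Type*} (s : Finset ι) (c : ι → ℂ) (a : ι → M) (z w : M) :
    (W.t ((∑ j ∈ s, c j • a j) * tri z (∑ j ∈ s, c j • a j) w)).re =
      ∑ i ∈ s, ∑ j ∈ s, (c i * c j * W.t (a i * tri z (a j) w)).re := by
  rw [← triL_apply, map_sum, Finset.sum_mul_sum, map_sum, Complex.re_sum]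
  refine Finset.sum_congr rfl fun i _ => ?_
  rw [map_sum, Complex.re_sum]
  refine Finset.sum_congr rfl fun j _ => ?_
  rw [map_smul, smul_mul_assoc, mul_smul_comm, smul_smul, map_smul, triL_apply, smul_eq_mul]

include W in
theorem norm_sum_le {ι : Type*} (s : Finset ι) {c : ι → ℂ} {a : ι → M}
    (hc : ∀ j ∈ s, ‖c j‖ ≤ 1) (ha : ∀ j ∈ s, IsPos (a j)) (h1 : IsPos (1 - ∑ j ∈ s, a j)) :
    ‖∑ j ∈ s, c j • a j‖ ≤ 1 := by
  refine W.norm_le_one_of_U fun z => ?_
  set w := tri (∑ j ∈ s, c j • a j) z (∑ j ∈ s, c j • a j) with hw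
  have e1 : sn W.t w ^ 2 =
      ∑ i ∈ s, ∑ j ∈ s, (c i * c j * W.t (a i * tri z (a j) (star w))).re := by
    rw [W.isTr.pos.sn_sq, ← W.sum_ball1, ← W.isTr.tri_mul']
  have e2 : ∀ x : M, ∑ i ∈ s, ∑ j ∈ s, (W.t (a i * tri x (a j) (star x))).re ≤ sn W.t x ^ 2 := by
    intro x
    have h2 := W.sum_ball1 s (fun _ => 1) a x (star x)
    simp only [one_smul, one_mul] at h2
    rw [← h2]
    exact W.le_ball1 (isPos_sum s ha) h1 x
  have e3 : 2 * sn W.t w ^ 2 ≤ sn W.t z ^ 2 + sn W.t w ^ 2 := by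
    refine le_trans ?_ (add_le_add (e2 z) (e2 w))
    rw [e1, ← Finset.sum_add_distrib, Finset.mul_sum]
    refine Finset.sum_le_sum fun i hi => ?_
    rw [← Finset.sum_add_distrib, Finset.mul_sum]
    refine Finset.sum_le_sum fun j hj => W.cs_ball1 (ha i hi) (ha j hj) ?_ z w
    rw [norm_mul]
    exact mul_le_one₀ (hc i hi) (norm_nonneg _) (hc j hj)
  exact (abs_le_of_sq_le_sq' (by linarith) (sn_nonneg _ _)).2

end WT

end Pool.Agent.MP_ab01c5_an

/-!
# Positive maps: contractivity, Kadison's inequality, the Effros-Stormer module property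
-/

namespace Pool.Agent.MP_ab01c5_an

open scoped ComplexOrder

universe u v

variable {M : Type u} [JBU M] {X : Type v} [NormedAddCommGroup X] [NormedSpace ℂ X]
  [CompleteSpace X]

theorem sa_map_ball3 (Q : M →ₗ[ℂ] M) (hQ : ∀ x, IsPos x → IsPos (Q x)) {a : M}
    (ha : star a = a) : star (Q a) = Q a := by
  obtain ⟨u, v, hu, hv, rfl, -⟩ := exists_pos_neg ha
  rw [map_sub, star_sub, (hQ u hu).sa, (hQ v hv).sa]

theorem star_map_of_pos (Q : M →ₗ[ℂ] M) (hQ : ∀ x, IsPos x → IsPos (Q x)) (x : M) :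
    Q (star x) = star (Q x) := by
  obtain ⟨a, b, ha, hb, rfl, -⟩ := exists_re_im x
  simp only [star_add, star_smul, ha, hb, map_add, map_smul, sa_map_ball3 Q hQ ha,
    sa_map_ball3 Q hQ hb]

theorem norm_map_sa_ball3 (Q : M →ₗ[ℂ] M) (hQ : ∀ x, IsPos x → IsPos (Q x))
    (h1 : IsPos (1 - Q 1)) {a : M} (ha : star a = a) : ‖Q a‖ ≤ ‖a‖ := by
  have key : ∀ b : M, star b = b → ‖b‖ ≤ ‖a‖ → IsPos (((‖a‖ : ℝ) : ℂ) • (1 : M) - Q b) := by
    intro b hb hb'
    have h2 := (hQ _ (isPos_norm_sub hb hb')).add (h1.smul (norm_nonneg a))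
    convert h2 using 1
    rw [map_sub, map_smul, smul_sub]
    abel
  refine norm_le_of_isPos (sa_map_ball3 Q hQ ha) (norm_nonneg a) (key a ha le_rfl) ?_
  have h3 := key (-a) (by rw [star_neg, ha]) (norm_neg a).le
  rwa [map_neg, sub_neg_eq_add] at h3

theorem norm_map_le_two (Q : M →ₗ[ℂ] M) (hQ : ∀ x, IsPos x → IsPos (Q x))
    (h1 : IsPos (1 - Q 1)) (x : M) : ‖Q x‖ ≤ 2 * ‖x‖ := by
  obtain ⟨a, b, ha, hb, hx, h2, h3⟩ := exists_re_im x
  have h4 := norm_map_sa_ball3 Q hQ h1 ha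
  have h5 := norm_map_sa_ball3 Q hQ h1 hb
  have h6 : ‖Q x‖ ≤ ‖Q a‖ + ‖Q b‖ := by
    conv_lhs => rw [hx, map_add, map_smul]
    refine (norm_add_le _ _).trans ?_
    rw [norm_smul, Complex.norm_I, one_mul]
  linarith

theorem le_of_decomp_ball3 {Y : Type*} [NormedAddCommGroup Y] [NormedSpace ℂ Y] (T : M →L[ℂ] Y)
    (v : Y) {K : ℝ} (h : ∀ (N : ℕ) (c : Fin N → ℂ) (a : Fin N → M), (∀ j, ‖c j‖ ≤ 1) →
      (∀ j, IsPos (a j)) → IsPos (1 - ∑ j, a j) → ‖T (∑ j, c j • a j) + v‖ ≤ K) {x : M}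
    (hx : ‖x‖ ≤ 1) : ‖T x + v‖ ≤ K := by
  refine le_of_forall_pos_le_add fun ε hε => ?_
  have hT : 0 < ‖T‖ + 1 := by positivity
  obtain ⟨N, c, a, h1, h2, h3, h4⟩ := exists_decomp hx (div_pos hε hT)
  have h5 := h N c a h1 h2 h3
  have h6 : T x + v = (T (∑ j, c j • a j) + v) + T (x - ∑ j, c j • a j) := by
    rw [map_sub]; abel
  have h7 := T.le_opNorm (x - ∑ j, c j • a j)
  rw [lt_div_iff₀ hT] at h4
  rw [h6]
  refine (norm_add_le _ _).trans (add_le_add h5 ?_)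
  nlinarith [norm_nonneg (x - ∑ j, c j • a j)]

theorem le_of_unit_ball3 {Y : Type*} [NormedAddCommGroup Y] [NormedSpace ℂ Y] (T : M →L[ℂ] Y)
    {K : ℝ} (h : ∀ x : M, ‖x‖ ≤ 1 → ‖T x‖ ≤ K) (x : M) : ‖T x‖ ≤ K * ‖x‖ := by
  have h0 : 0 ≤ K := (norm_nonneg _).trans (h 0 (by simp))
  exact (T.le_opNorm x).trans (mul_le_mul_of_nonneg_right
    (ContinuousLinearMap.opNorm_le_of_unit_norm h0 fun y hy => h y hy.le) (norm_nonneg x))

/-- A bilinear form that is nonnegative on pairs of positive elements has norm `B 1 1`. -/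
theorem norm_bilin_le (B : M →L[ℂ] M →L[ℂ] ℂ) (hB : ∀ a b, IsPos a → IsPos b → 0 ≤ B a b)
    (x y : M) : ‖B x y‖ ≤ (B 1 1).re * ‖x‖ * ‖y‖ := by
  have key := le_of_unit_ball3 (B.flip y) (K := (B 1 1).re * ‖y‖) (fun z hz => by
    have h := le_of_decomp_ball3 (B.flip y) 0 (K := (B 1 1).re * ‖y‖) (fun N c a h1 h2 h3 => by
      rw [add_zero, map_sum]
      refine (norm_sum_le _ _).trans ?_
      have h4 : ∀ j, ‖B.flip y (c j • a j)‖ ≤ (B (a j) 1).re * ‖y‖ := fun j => by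
        rw [map_smul, norm_smul, ContinuousLinearMap.flip_apply]
        have h5 : PosF (B (a j)) := fun b hb => hB _ _ (h2 j) hb
        exact (mul_le_of_le_one_left (norm_nonneg _) (h1 j)).trans (h5.norm_le y)
      refine (Finset.sum_le_sum fun j _ => h4 j).trans ?_
      rw [← Finset.sum_mul]
      refine mul_le_mul_of_nonneg_right ?_ (norm_nonneg y)
      have h6 := (Complex.le_def.1 (hB _ _ h3 isPos_one)).1
      rw [map_sub, map_sum, sub_apply, sum_apply,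
        Complex.sub_re, Complex.re_sum, Complex.zero_re] at h6
      linarith) hz
    rwa [add_zero] at h) x
  rw [ContinuousLinearMap.flip_apply] at key
  linarith

namespace WT

variable (W : WT M X)
include W

theorem norm_aff_ball3 (Q : M →L[ℂ] M) (hQ : ∀ x, IsPos x → IsPos (Q x)) (h1 : IsPos (1 - Q 1))
    {l : ℂ} (hl : ‖l‖ ≤ 1) {x : M} (hx : ‖x‖ ≤ 1) : ‖Q x + l • (1 - Q 1)‖ ≤ 1 := by
  refine le_of_decomp_ball3 Q _ (fun N c a k1 k2 k3 => ?_) hx
  have h := W.norm_sum_le (Finset.univ : Finset (Option (Fin N)))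
    (c := fun o => o.elim l c) (a := fun o => o.elim (1 - Q 1) fun j => Q (a j))
    (fun o _ => by cases o with
      | none => exact hl
      | some j => exact k1 j)
    (fun o _ => by cases o with
      | none => exact h1
      | some j => exact hQ _ (k2 j))
    (by
      have := hQ _ k3
      rw [map_sub, map_sum] at this
      rw [Fintype.sum_option]
      convert this using 1
      simp only [Option.elim]
      abel)
  rw [Fintype.sum_option] at h
  rw [map_sum, add_comm]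
  simpa only [Option.elim, map_smul] using h

theorem norm_map_le (Q : M →L[ℂ] M) (hQ : ∀ x, IsPos x → IsPos (Q x)) (h1 : IsPos (1 - Q 1))
    (x : M) : ‖Q x‖ ≤ ‖x‖ := by
  have h := le_of_unit_ball3 Q (K := 1) (fun y hy => by
    simpa using W.norm_aff_ball3 Q hQ h1 (l := 0) (by simp) hy) x
  rwa [one_mul] at h

theorem norm_U_proj {q : M} (hq : IsProj q) (x : M) : ‖tri q x q‖ ≤ ‖x‖ := by
  have h := W.norm_map_le (triL q q) (fun y hy => by rw [triL_apply]; exact hq.isPos.U hy)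
    (by rw [triL_apply, tri_one_mid, hq.2]; exact hq.one_sub.isPos) x
  rwa [triL_apply] at h

omit W in
theorem norm_poly_ball3 {x : M} (hx : star x = x) (ε : ℝ) :
    ‖(1 : M) - ((ε ^ 2 / 2 : ℝ) : ℂ) • (x * x) + Complex.I • ((ε : ℂ) • x)‖ ≤
      1 + ε ^ 4 * ‖x‖ ^ 4 / 8 := by
  obtain ⟨c, f, rfl, hf⟩ := exists_chart_sa hx
  rw [← c.map_mul, ← c.map_one, ← map_smul, ← map_smul, ← map_smul, ← map_sub, ← map_add,
    c.π.norm_map, c.π.norm_map]
  refine (ContinuousMap.norm_le _ (by positivity)).2 fun ω => ?_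
  have h1 : ‖f ω‖ ≤ ‖f‖ := f.norm_coe_le_norm ω
  obtain ⟨t, ht⟩ : ∃ t : ℝ, f ω = t := ⟨(f ω).re, Complex.ext (by simp) (by simp [hf ω])⟩
  rw [ht, Complex.norm_real, Real.norm_eq_abs] at h1
  have h2 : t ^ 4 ≤ ‖f‖ ^ 4 := by
    have := pow_le_pow_left₀ (abs_nonneg t) h1 4
    rwa [← abs_pow, abs_of_nonneg (by positivity : 0 ≤ t ^ 4)] at this
  have h3 : (1 - ((ε ^ 2 / 2 : ℝ) : ℂ) • (f * f) + Complex.I • ((ε : ℂ) • f)) ω =
      ((1 - ε ^ 2 / 2 * t ^ 2 : ℝ) : ℂ) + ((ε * t : ℝ) : ℂ) * Complex.I := by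
    simp only [ContinuousMap.add_apply, ContinuousMap.sub_apply, ContinuousMap.smul_apply,
      ContinuousMap.mul_apply, ContinuousMap.one_apply, ht, smul_eq_mul]
    push_cast
    ring
  rw [h3, Complex.norm_add_mul_I]
  refine Real.sqrt_le_iff.2 ⟨by positivity, ?_⟩
  have h4 := mul_le_mul_of_nonneg_left h2 (show 0 ≤ ε ^ 4 by positivity)
  nlinarith [sq_nonneg (ε ^ 4 * ‖f‖ ^ 4)]

theorem kadison (Q : M →L[ℂ] M) (hQ : ∀ x, IsPos x → IsPos (Q x)) (h1 : IsPos (1 - Q 1))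
    {x : M} (hx : star x = x) : IsPos (Q (x * x) - Q x * Q x) := by
  have sy : star (Q x) = Q x := sa_map_ball3 (Q : M →ₗ[ℂ] M) hQ hx
  have sw : star (Q (x * x)) = Q (x * x) := (hQ _ (isPos_mul_self hx)).sa
  have hz : ∀ ε : ℝ, ‖(1 : M) - ((ε ^ 2 / 2 : ℝ) : ℂ) • Q (x * x) +
      Complex.I • ((ε : ℂ) • Q x)‖ ≤ 1 + ε ^ 4 * ‖x‖ ^ 4 / 8 := by
    intro ε
    have k1 := norm_poly_ball3 hx ε
    obtain ⟨ρ, hρ⟩ : ∃ ρ : ℝ, ρ = 1 + ε ^ 4 * ‖x‖ ^ 4 / 8 := ⟨_, rfl⟩
    have hρ1 : 1 ≤ ρ := by rw [hρ]; exact le_add_of_nonneg_right (by positivity)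
    have hρ0 : 0 < ρ := by linarith
    rw [← hρ] at k1 ⊢
    have hn : ‖((ρ⁻¹ : ℝ) : ℂ)‖ = ρ⁻¹ := by
      rw [Complex.norm_real, Real.norm_eq_abs, abs_of_pos (inv_pos.2 hρ0)]
    have k2 := W.norm_aff_ball3 Q hQ h1 (l := ((ρ⁻¹ : ℝ) : ℂ))
      (by rw [hn]; exact inv_le_one_of_one_le₀ hρ1)
      (x := ((ρ⁻¹ : ℝ) : ℂ) • ((1 : M) - ((ε ^ 2 / 2 : ℝ) : ℂ) • (x * x) +
        Complex.I • ((ε : ℂ) • x)))
      (by rw [norm_smul, hn, inv_mul_le_iff₀ hρ0, mul_one]; exact k1)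
    rw [map_smul, ← smul_add, norm_smul, hn, inv_mul_le_iff₀ hρ0, mul_one] at k2
    refine le_of_eq_of_le (congrArg norm ?_) k2
    simp only [map_add, map_sub, map_smul]
    abel
  generalize Q x = y at *
  generalize Q (x * x) = w at *
  generalize ‖x‖ = R at *
  have key : ∀ ε : ℝ, 0 < ε → IsPos (w - y * y +
      (((ε ^ 2 * R ^ 4 / 4 + ε ^ 6 * R ^ 8 / 64 : ℝ) : ℂ) • (1 : M) -
        ((ε ^ 2 / 4 : ℝ) : ℂ) • (w * w))) := by
    intro ε hε
    obtain ⟨z, hzd⟩ : ∃ z : M, z = (1 : M) - ((ε ^ 2 / 2 : ℝ) : ℂ) • w +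
      Complex.I • ((ε : ℂ) • y) := ⟨_, rfl⟩
    have k0 := hz ε
    rw [← hzd] at k0
    have k1 : ‖z * star z‖ ≤ (1 + ε ^ 4 * R ^ 4 / 8) ^ 2 := by
      refine (jnorm_mul_le _ _).trans ?_
      rw [norm_star, ← sq]
      exact pow_le_pow_left₀ (norm_nonneg _) k0 2
    have k2 := (isPos_norm_sub (isPos_mul_star z).sa k1).smul
      (r := (ε ^ 2)⁻¹) (by positivity)
    have hs : star z = (1 : M) - ((ε ^ 2 / 2 : ℝ) : ℂ) • w - Complex.I • ((ε : ℂ) • y) := by
      rw [hzd, star_add, star_sub, star_one, star_smul, star_smul, star_smul, sw, sy]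
      simp only [Complex.star_def, Complex.conj_ofReal, Complex.conj_I, neg_smul]
      abel
    have hzz : z * star z = (1 : M) - ((ε : ℂ) ^ 2) • w + ((ε : ℂ) ^ 4 / 4) • (w * w) +
        ((ε : ℂ) ^ 2) • (y * y) := by
      rw [hs, hzd]
      simp only [mul_add, add_mul, mul_sub, sub_mul, smul_mul_assoc, mul_smul_comm, one_mul,
        mul_one, mul_comm y w]
      push_cast
      match_scalars
      · ring
      · ring
      · ring
      · ring
      · ring
      · linear_combination (-(ε : ℂ) ^ 2) * Complex.I_mul_I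
    rw [hzz] at k2
    convert k2 using 1
    have hε' : (ε : ℂ) ≠ 0 := Complex.ofReal_ne_zero.2 hε.ne'
    push_cast
    match_scalars <;> (field_simp; try ring)
  have hc : Continuous fun ε : ℝ => w - y * y +
      (((ε ^ 2 * R ^ 4 / 4 + ε ^ 6 * R ^ 8 / 64 : ℝ) : ℂ) • (1 : M) -
        ((ε ^ 2 / 4 : ℝ) : ℂ) • (w * w)) := by fun_prop
  have ht := (hc.tendsto 0).mono_left (nhdsWithin_le_nhds (s := Set.Ioi (0 : ℝ)))
  have := isClosed_isPos.mem_of_tendsto ht (eventually_nhdsWithin_of_forall key)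
  simpa using this

theorem module_of_faithful (Q : M →L[ℂ] M) (hQ : ∀ x, IsPos x → IsPos (Q x))
    (h1 : IsPos (1 - Q 1)) (hQQ : ∀ x, Q (Q x) = Q x) {s : M} (hs : IsProj s)
    (hsQ : ∀ x, s * Q x = Q x) {φ : M →L[ℂ] ℂ} (hφ : ∀ x, φ (Q x) = φ x)
    (hf : ∀ y : M, IsPos y → s * y = y → (φ y).re = 0 → y = 0) (x y : M) :
    Q (Q x * y) = Q x * Q y := by
  have key : ∀ a b : M, star a = a → star b = b → Q (Q a * b) = Q a * Q b := by
    intro a b ha hb
    have sn : star (Q a) = Q a := sa_map_ball3 (Q : M →ₗ[ℂ] M) hQ ha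
    have k1 := W.kadison Q hQ h1 sn
    rw [hQQ] at k1
    have k2 := hf _ k1 (by rw [mul_sub, hsQ, fix_mul_fix hs.2 (hsQ a) (hsQ a)])
      (by rw [map_sub, hφ, sub_self, Complex.zero_re])
    have k3 : Q (Q a * Q a) = Q a * Q a := sub_eq_zero.1 k2
    have k4 : (2 : ℂ) • (Q (Q a * b) - Q a * Q b) = 0 := by
      refine eq_zero_of_isPos_smul_add (b := Q (b * b) - Q b * Q b) fun t => ?_
      have k5 := W.kadison Q hQ h1 (x := (t : ℂ) • Q a + b) (by
        rw [star_add, star_smul, sn, hb, Complex.star_def, Complex.conj_ofReal])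
      convert k5 using 1
      simp only [mul_add, add_mul, smul_mul_assoc, mul_smul_comm, map_add, map_smul, hQQ, k3,
        mul_comm b (Q a), mul_comm (Q b) (Q a)]
      module
    exact sub_eq_zero.1 ((smul_eq_zero.1 k4).resolve_left two_ne_zero)
  obtain ⟨a, a', ha, ha', rfl, -⟩ := exists_re_im x
  obtain ⟨b, b', hb, hb', rfl, -⟩ := exists_re_im y
  simp only [mul_add, add_mul, smul_mul_assoc, mul_smul_comm, map_add, map_smul,
    key a b ha hb, key a b' ha hb', key a' b ha' hb, key a' b' ha' hb']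

end WT

end Pool.Agent.MP_ab01c5_an
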