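import Pool.Agent.MP_ab01c5_an.Defs

/-!
# Complex interpolation for a couple `i : M → X` with `‖i‖ ≤ 1`: definitions
-/

namespace Pool.Agent.MP_ab01c5_an

open Filter Topology

universe u v

/-- A contraction `i : M → X` and an exponent `0 < θ ≤ 1`. -/
structure Cpl (M : Type u) [NormedAddCommGroup M] [NormedSpace ℂ M] (X : Type v)
    [NormedAddCommGroup X] [NormedSpace ℂ X] where
  i : M →L[ℂ] X
  hi : ‖i‖ ≤ 1
  θ : ℝ
  h0 : 0 < θ
  h1 : θ ≤ 1

variable {M : Type u} [NormedAddCommGroup M] [NormedSpace ℂ M] {X : Type v}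
  [NormedAddCommGroup X] [NormedSpace ℂ X]

namespace Cpl

variable (c : Cpl M X)

structure Adm (f : ℂ → X) (g : ℝ → M) : Prop where
  cont : ContinuousOn f {z : ℂ | 0 ≤ z.re ∧ z.re ≤ 1}
  diff : DifferentiableOn ℂ f {z : ℂ | 0 < z.re ∧ z.re < 1}
  bdd : ∃ C : ℝ, ∀ z : ℂ, 0 ≤ z.re → z.re ≤ 1 → ‖f z‖ ≤ C
  left : ∀ t : ℝ, f (t * Complex.I) = c.i (g t)
  gcont : Continuous g
  gzero : Tendsto g (cocompact ℝ) (𝓝 0)
  fzero : Tendsto (fun t : ℝ => f (1 + t * Complex.I)) (cocompact ℝ) (𝓝 0)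

variable {c}

theorem Adm.add {f₁ f₂ : ℂ → X} {g₁ g₂ : ℝ → M} (h₁ : c.Adm f₁ g₁) (h₂ : c.Adm f₂ g₂) :
    c.Adm (f₁ + f₂) (g₁ + g₂) := by
  obtain ⟨C₁, hC₁⟩ := h₁.bdd
  obtain ⟨C₂, hC₂⟩ := h₂.bdd
  exact ⟨h₁.cont.add h₂.cont, h₁.diff.add h₂.diff,
    ⟨C₁ + C₂, fun z h0 h1 => (norm_add_le _ _).trans (add_le_add (hC₁ z h0 h1) (hC₂ z h0 h1))⟩,
    fun t => by simp [h₁.left t, h₂.left t], h₁.gcont.add h₂.gcont,
    by simpa [Pi.add_def] using h₁.gzero.add h₂.gzero, by simpa using h₁.fzero.add h₂.fzero⟩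

theorem Adm.smul {f : ℂ → X} {g : ℝ → M} (h : c.Adm f g) (a : ℂ) : c.Adm (a • f) (a • g) := by
  obtain ⟨C, hC⟩ := h.bdd
  refine ⟨h.cont.const_smul a, h.diff.const_smul a, ⟨‖a‖ * C, fun z h0 h1 => ?_⟩,
    fun t => by simp [h.left t], h.gcont.const_smul a,
    by simpa [Pi.smul_def] using h.gzero.const_smul a, by simpa using h.fzero.const_smul a⟩
  rw [Pi.smul_apply, norm_smul]
  exact mul_le_mul_of_nonneg_left (hC z h0 h1) (norm_nonneg a)

variable (c)

theorem adm_zero : c.Adm 0 0 :=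
  ⟨continuousOn_const, differentiableOn_const 0, ⟨0, fun z _ _ => by simp⟩,
    fun t => by simp, continuous_const, tendsto_const_nhds, tendsto_const_nhds⟩

/-- The interpolation space as a subspace of `X`. -/
def Sp : Submodule ℂ X where
  carrier := {ξ | ∃ f g, c.Adm f g ∧ f (c.θ : ℂ) = ξ}
  add_mem' := by
    rintro _ _ ⟨f₁, g₁, h₁, rfl⟩ ⟨f₂, g₂, h₂, rfl⟩
    exact ⟨_, _, h₁.add h₂, rfl⟩
  zero_mem' := ⟨0, 0, c.adm_zero, rfl⟩
  smul_mem' := by
    rintro a _ ⟨f, g, h, rfl⟩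
    exact ⟨_, _, h.smul a, rfl⟩

def bounds (ξ : X) : Set ℝ :=
  {C : ℝ | ∃ f g, c.Adm f g ∧ f (c.θ : ℂ) = ξ ∧ (∀ t : ℝ, ‖g t‖ ≤ C) ∧
    ∀ t : ℝ, ‖f (1 + t * Complex.I)‖ ≤ C}

/-- The interpolation norm. -/
noncomputable def nI (ξ : X) : ℝ := sInf (c.bounds ξ)

end Cpl

end Pool.Agent.MP_ab01c5_an

/-!
# The interpolation space is a Banach space
-/

namespace Pool.Agent.MP_ab01c5_an

open Filter Topology

universe u v

variable {M : Type u} [NormedAddCommGroup M] [NormedSpace ℂ M] {X : Type v}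
  [NormedAddCommGroup X] [NormedSpace ℂ X]

namespace Cpl

variable (c : Cpl M X)

theorem bounds_nonneg {ξ : X} {C : ℝ} (h : C ∈ c.bounds ξ) : 0 ≤ C := by
  obtain ⟨f, g, -, -, hg, -⟩ := h
  exact (norm_nonneg _).trans (hg 0)

theorem bounds_nonempty {ξ : X} (h : ξ ∈ c.Sp) : (c.bounds ξ).Nonempty := by
  obtain ⟨f, g, h, hf⟩ := h
  obtain ⟨C, hC⟩ := h.bdd
  obtain ⟨D, hD⟩ :=
    (h.gzero.isCompact_insert_range_of_cocompact h.gcont).isBounded.exists_norm_le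
  exact ⟨max C D, f, g, h, hf, fun t => (hD _ (Or.inr ⟨t, rfl⟩)).trans (le_max_right _ _),
    fun t => (hC _ (by simp) (by simp)).trans (le_max_left _ _)⟩

theorem nI_nonneg (ξ : X) : 0 ≤ c.nI ξ := by
  exact Real.sInf_nonneg fun _ h => c.bounds_nonneg h

theorem nI_le {ξ : X} {C : ℝ} (h : C ∈ c.bounds ξ) : c.nI ξ ≤ C := by
  exact csInf_le ⟨0, fun _ h => c.bounds_nonneg h⟩ h

theorem exists_bound_lt {ξ : X} (h : ξ ∈ c.Sp) {C : ℝ} (hC : c.nI ξ < C) : C ∈ c.bounds ξ := by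
  obtain ⟨D, ⟨f, g, h1, h2, h3, h4⟩, hD⟩ := exists_lt_of_csInf_lt (c.bounds_nonempty h) hC
  exact ⟨f, g, h1, h2, fun t => (h3 t).trans hD.le, fun t => (h4 t).trans hD.le⟩

theorem nI_add_le {ξ ζ : X} (h : ξ ∈ c.Sp) (h' : ζ ∈ c.Sp) : c.nI (ξ + ζ) ≤ c.nI ξ + c.nI ζ := by
  refine le_of_forall_pos_le_add fun ε hε => ?_
  obtain ⟨f₁, g₁, a1, a2, a3, a4⟩ :=
    c.exists_bound_lt h (show c.nI ξ < c.nI ξ + ε / 2 by linarith)
  obtain ⟨f₂, g₂, b1, b2, b3, b4⟩ :=
    c.exists_bound_lt h' (show c.nI ζ < c.nI ζ + ε / 2 by linarith)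
  refine c.nI_le ⟨f₁ + f₂, g₁ + g₂, a1.add b1, by rw [Pi.add_apply, a2, b2], fun t => ?_,
    fun t => ?_⟩
  · exact (norm_add_le _ _).trans (by linarith [a3 t, b3 t])
  · exact (norm_add_le _ _).trans (by linarith [a4 t, b4 t])

private theorem nI_smul_le (a : ℂ) {ξ : X} (h : ξ ∈ c.Sp) : c.nI (a • ξ) ≤ ‖a‖ * c.nI ξ := by
  have key : ∀ D : ℝ, c.nI ξ < D → c.nI (a • ξ) ≤ ‖a‖ * D := by
    intro D hD
    obtain ⟨f, g, a1, a2, a3, a4⟩ := c.exists_bound_lt h hD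
    refine c.nI_le ⟨a • f, a • g, a1.smul a, by rw [Pi.smul_apply, a2], fun t => ?_, fun t => ?_⟩
    · rw [Pi.smul_apply, norm_smul]
      exact mul_le_mul_of_nonneg_left (a3 t) (norm_nonneg a)
    · rw [Pi.smul_apply, norm_smul]
      exact mul_le_mul_of_nonneg_left (a4 t) (norm_nonneg a)
  have ht : Tendsto (fun D : ℝ => ‖a‖ * D) (𝓝[>] (c.nI ξ)) (𝓝 (‖a‖ * c.nI ξ)) :=
    (tendsto_id.mono_left nhdsWithin_le_nhds).const_mul _
  exact ge_of_tendsto ht (eventually_nhdsWithin_of_forall key)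

theorem nI_smul (a : ℂ) {ξ : X} (h : ξ ∈ c.Sp) : c.nI (a • ξ) = ‖a‖ * c.nI ξ := by
  refine le_antisymm (c.nI_smul_le a h) ?_
  rcases eq_or_ne a 0 with rfl | ha
  · simpa using c.nI_nonneg _
  · have h1 := c.nI_smul_le a⁻¹ (c.Sp.smul_mem a h)
    rw [inv_smul_smul₀ ha, norm_inv] at h1
    have h2 : 0 < ‖a‖ := norm_pos_iff.2 ha
    calc ‖a‖ * c.nI ξ ≤ ‖a‖ * (‖a‖⁻¹ * c.nI (a • ξ)) := mul_le_mul_of_nonneg_left h1 h2.le
      _ = c.nI (a • ξ) := by rw [← mul_assoc, mul_inv_cancel₀ h2.ne', one_mul]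

/-- Maximum principle on the strip. -/
theorem Adm.norm_le {c : Cpl M X} {f : ℂ → X} {g : ℝ → M} (h : c.Adm f g) {C : ℝ}
    (hg : ∀ t : ℝ, ‖g t‖ ≤ C) (hf : ∀ t : ℝ, ‖f (1 + t * Complex.I)‖ ≤ C) {z : ℂ}
    (h0 : 0 ≤ z.re) (h1 : z.re ≤ 1) : ‖f z‖ ≤ C := by
  obtain ⟨C', hC'⟩ := h.bdd
  have hC0 : 0 ≤ C := (norm_nonneg _).trans (hg 0)
  have hcl : closure (Complex.HadamardThreeLines.verticalStrip 0 1) =
      {z : ℂ | 0 ≤ z.re ∧ z.re ≤ 1} := by
    rw [Complex.HadamardThreeLines.verticalStrip, Complex.closure_preimage_re,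
      closure_Ioo zero_ne_one]
    rfl
  have hd : DiffContOnCl ℂ f (Complex.HadamardThreeLines.verticalStrip 0 1) := by
    refine ⟨h.diff, ?_⟩
    rw [hcl]
    exact h.cont
  have hbd : BddAbove ((norm ∘ f) '' Complex.HadamardThreeLines.verticalClosedStrip 0 1) := by
    refine ⟨C', ?_⟩
    rintro _ ⟨z, hz, rfl⟩
    exact hC' z hz.1 hz.2
  have h3 := Complex.HadamardThreeLines.norm_le_interp_of_mem_verticalClosedStrip₀₁'
    f (z := z) (a := C) (b := C) ⟨h0, h1⟩ hd hbd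
    (fun z hz => by
      have hz' : z = (z.im : ℂ) * Complex.I := by
        apply Complex.ext <;> simp
        exact hz
      rw [hz', h.left]
      exact ((c.i.le_opNorm _).trans (mul_le_of_le_one_left (norm_nonneg _) c.hi)).trans (hg _))
    (fun z hz => by
      have hz' : z = 1 + (z.im : ℂ) * Complex.I := by
        apply Complex.ext <;> simp
        exact hz
      rw [hz']
      exact hf _)
  rw [← Real.rpow_add' hC0 (by simp)] at h3
  simpa using h3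

theorem norm_le_nI {ξ : X} (h : ξ ∈ c.Sp) : ‖ξ‖ ≤ c.nI ξ := by
  refine le_of_forall_gt_imp_ge_of_dense fun D hD => ?_
  obtain ⟨f, g, a1, a2, a3, a4⟩ := c.exists_bound_lt h hD
  rw [← a2]
  exact a1.norm_le a3 a4 (by simpa using c.h0.le) (by simpa using c.h1)

/-- The interpolation space with its own norm. -/
def L : Type v := c.Sp

instance : AddCommGroup c.L := inferInstanceAs (AddCommGroup c.Sp)

instance : Module ℂ c.L := inferInstanceAs (Module ℂ c.Sp)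

/-- The inclusion into `X` as a linear map. -/
def valₗ : c.L →ₗ[ℂ] X := c.Sp.subtype

theorem valₗ_mem (y : c.L) : c.valₗ y ∈ c.Sp := (show c.Sp from y).2

theorem valₗ_injective : Function.Injective c.valₗ := Subtype.val_injective

noncomputable instance : NormedAddCommGroup c.L := AddGroupNorm.toNormedAddCommGroup
  { toFun := fun y => c.nI (c.valₗ y)
    map_zero' := by
      have := c.nI_smul 0 (c.valₗ_mem 0)
      simpa using this
    add_le' := fun x y => by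
      rw [map_add]; exact c.nI_add_le (c.valₗ_mem x) (c.valₗ_mem y)
    neg' := fun x => by
      have := c.nI_smul (-1) (c.valₗ_mem x)
      simpa using this
    eq_zero_of_map_eq_zero' := fun x hx => by
      have := c.norm_le_nI (c.valₗ_mem x)
      apply c.valₗ_injective
      rw [map_zero]
      exact norm_le_zero_iff.1 (this.trans_eq hx) }

theorem norm_defₗ (y : c.L) : ‖y‖ = c.nI (c.valₗ y) := rfl

noncomputable instance : NormedSpace ℂ c.L where
  norm_smul_le a y := by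
    rw [norm_defₗ, norm_defₗ, map_smul, c.nI_smul a (c.valₗ_mem y)]

/-- The inclusion into `X`. -/
noncomputable def val : c.L →L[ℂ] X :=
  c.valₗ.mkContinuous 1 (fun y => by rw [one_mul]; exact c.norm_le_nI (c.valₗ_mem y))

theorem norm_def (y : c.L) : ‖y‖ = c.nI (c.val y) := rfl

theorem val_mem (y : c.L) : c.val y ∈ c.Sp := c.valₗ_mem y

theorem val_injective : Function.Injective c.val := c.valₗ_injective

theorem norm_val_le (y : c.L) : ‖c.val y‖ ≤ ‖y‖ := c.norm_le_nI (c.val_mem y)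

/-- An element of the subspace as an element of `c.L`. -/
def mk' (ξ : X) (h : ξ ∈ c.Sp) : c.L := (⟨ξ, h⟩ : c.Sp)

@[simp] theorem val_mk' (ξ : X) (h : ξ ∈ c.Sp) : c.val (c.mk' ξ h) = ξ := rfl

private theorem tsum_bounds [CompleteSpace M] [CompleteSpace X] {ξ : ℕ → X} {C : ℕ → ℝ}
    (hC : Summable C) (h : ∀ n, C n ∈ c.bounds (ξ n)) : ∑' n, C n ∈ c.bounds (∑' n, ξ n) := by
  choose f g a1 a2 a3 a4 using h
  have hs : ∀ n (z : ℂ), 0 ≤ z.re → z.re ≤ 1 → ‖f n z‖ ≤ C n :=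
    fun n z h0 h1 => (a1 n).norm_le (a3 n) (a4 n) h0 h1
  refine ⟨fun z => ∑' n, f n z, fun t => ∑' n, g n t,
    ⟨continuousOn_tsum (fun n => (a1 n).cont) hC (fun n z hz => hs n z hz.1 hz.2),
      Complex.differentiableOn_tsum_of_summable_norm hC (fun n => (a1 n).diff) ?_
        (fun n z hz => hs n z hz.1.le hz.2.le),
      ⟨∑' n, C n, fun z h0 h1 => tsum_of_norm_bounded hC.hasSum fun n => hs n z h0 h1⟩,
      fun t => ?_, continuous_tsum (fun n => (a1 n).gcont) hC a3, ?_, ?_⟩, by simp only [a2],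
    fun t => tsum_of_norm_bounded hC.hasSum fun n => a3 n t,
    fun t => tsum_of_norm_bounded hC.hasSum fun n => a4 n t⟩
  · exact (isOpen_lt continuous_const Complex.continuous_re).inter
      (isOpen_lt Complex.continuous_re continuous_const)
  · rw [c.i.map_tsum (Summable.of_norm_bounded hC fun n => a3 n t)]
    exact tsum_congr fun n => (a1 n).left t
  · have := tendsto_tsum_of_dominated_convergence (f := fun t n => g n t) (g := fun _ => 0) hC
      (fun n => (a1 n).gzero) (Eventually.of_forall fun t n => a3 n t)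
    simpa using this
  · have := tendsto_tsum_of_dominated_convergence
      (f := fun (t : ℝ) n => f n (1 + t * Complex.I)) (g := fun _ => 0) hC
      (fun n => (a1 n).fzero) (Eventually.of_forall fun t n => a4 n t)
    simpa using this

private theorem mem_of_bounds_interp1 {ξ : X} {C : ℝ} (h : C ∈ c.bounds ξ) : ξ ∈ c.Sp := by
  obtain ⟨f, g, h1, h2, -⟩ := h
  exact ⟨f, g, h1, h2⟩

instance completeSpace [CompleteSpace M] [CompleteSpace X] : CompleteSpace c.L := by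
  refine NormedAddCommGroup.completeSpace_of_summable_imp_tendsto fun u hu => ?_
  set C : ℕ → ℝ := fun n => ‖u n‖ + (1 / 2) ^ n with hCdef
  have hC : Summable C := hu.add summable_geometric_two
  have hb : ∀ n, C n ∈ c.bounds (c.val (u n)) := fun n =>
    c.exists_bound_lt (c.val_mem _) (lt_add_of_pos_right ‖u n‖ (by positivity))
  have hsum : Summable fun n => c.val (u n) :=
    Summable.of_norm_bounded hu fun n => c.norm_val_le _
  refine ⟨c.mk' _ (c.mem_of_bounds_interp1 (c.tsum_bounds hC hb)), ?_⟩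
  rw [tendsto_iff_norm_sub_tendsto_zero]
  refine squeeze_zero (fun _ => norm_nonneg _) (fun n => ?_) (tendsto_sum_nat_add C)
  rw [norm_sub_rev, norm_def, map_sub, val_mk', map_sum, ← hsum.sum_add_tsum_nat_add n,
    add_sub_cancel_left]
  exact c.nI_le (c.tsum_bounds ((summable_nat_add_iff n).2 hC) fun k => hb (k + n))

end Cpl

end Pool.Agent.MP_ab01c5_an

/-!
# Three lines estimates: vectors, Hoelder, Stein
-/

namespace Pool.Agent.MP_ab01c5_an

open Filter Topology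

universe u v u' v'

variable {M : Type u} [NormedAddCommGroup M] [NormedSpace ℂ M] {X : Type v}
  [NormedAddCommGroup X] [NormedSpace ℂ X]

namespace Cpl

variable (c : Cpl M X)

/-- The Gaussian weight. -/
private noncomputable def wt (θ δ l : ℝ) (z : ℂ) : ℂ :=
  Complex.exp ((δ : ℂ) * (z - θ) ^ 2 + (l : ℂ) * (z - θ))

private theorem wt_diff (θ δ l : ℝ) : Differentiable ℂ (wt θ δ l) := by
  unfold wt
  fun_prop

private theorem wt_self (θ δ l : ℝ) : wt θ δ l θ = 1 := by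
  simp [wt]

private theorem norm_wt (θ δ l : ℝ) (z : ℂ) :
    ‖wt θ δ l z‖ = Real.exp (δ * ((z.re - θ) ^ 2 - z.im ^ 2) + l * (z.re - θ)) := by
  unfold wt
  rw [Complex.norm_exp]
  congr 1
  simp [pow_two]

private theorem norm_wt_le {θ δ : ℝ} (h0 : 0 ≤ θ) (h1 : θ ≤ 1) (hδ : 0 ≤ δ) (l : ℝ) {z : ℂ}
    (hz0 : 0 ≤ z.re) (hz1 : z.re ≤ 1) :
    ‖wt θ δ l z‖ ≤ Real.exp (δ + l * (z.re - θ)) * Real.exp (-(δ * z.im ^ 2)) := by
  rw [norm_wt, ← Real.exp_add]
  apply Real.exp_le_exp.2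
  have h : (z.re - θ) ^ 2 ≤ 1 := by nlinarith
  nlinarith [mul_le_mul_of_nonneg_left h hδ]

private theorem tendsto_gauss {δ : ℝ} (hδ : 0 < δ) (K : ℝ) :
    Tendsto (fun t : ℝ => K * Real.exp (-(δ * t ^ 2))) (cocompact ℝ) (𝓝 0) := by
  have h1 : Tendsto (fun t : ℝ => t ^ 2) (cocompact ℝ) atTop := by
    have h := (tendsto_pow_atTop (α := ℝ) two_ne_zero).comp (tendsto_norm_cocompact_atTop (E := ℝ))
    refine h.congr fun t => ?_
    simp
  have h2 : Tendsto (fun t : ℝ => -(δ * t ^ 2)) (cocompact ℝ) atBot :=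
    tendsto_neg_atTop_atBot.comp (h1.const_mul_atTop hδ)
  simpa using (Real.tendsto_exp_atBot.comp h2).const_mul K

private theorem exp_gauss_le_one {δ : ℝ} (hδ : 0 ≤ δ) (t : ℝ) :
    Real.exp (-(δ * t ^ 2)) ≤ 1 := by
  apply Real.exp_le_one_iff.2
  have := mul_nonneg hδ (sq_nonneg t)
  linarith

private theorem vec_aux {G : ℂ → M} (hG : Differentiable ℂ G)
    (hb : ∃ C : ℝ, ∀ z : ℂ, 0 ≤ z.re → z.re ≤ 1 → ‖G z‖ ≤ C) {A B : ℝ} (hA0 : 0 < A)
    (hB0 : 0 < B) (hA : ∀ t : ℝ, ‖G (t * Complex.I)‖ ≤ A)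
    (hB : ∀ t : ℝ, ‖c.i (G (1 + t * Complex.I))‖ ≤ B) {δ : ℝ} (hδ : 0 < δ) :
    Real.exp δ * (A ^ (1 - c.θ) * B ^ c.θ) ∈ c.bounds (c.i (G c.θ)) := by
  obtain ⟨C, hC⟩ := hb
  set l : ℝ := Real.log A - Real.log B with hl
  have hi : ∀ x : M, ‖c.i x‖ ≤ ‖x‖ := fun x =>
    (c.i.le_opNorm x).trans (mul_le_of_le_one_left (norm_nonneg x) c.hi)
  have hgb : ∀ t : ℝ, ‖wt c.θ δ l (t * Complex.I) • G (t * Complex.I)‖ ≤
      Real.exp δ * (A ^ (1 - c.θ) * B ^ c.θ) * Real.exp (-(δ * t ^ 2)) := by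
    intro t
    have h := norm_wt_le c.h0.le c.h1 hδ.le l (z := t * Complex.I) (by simp) (by simp)
    have e : Real.exp (δ + l * (0 - c.θ)) * A = Real.exp δ * (A ^ (1 - c.θ) * B ^ c.θ) := by
      rw [Real.rpow_def_of_pos hA0, Real.rpow_def_of_pos hB0]
      nth_rewrite 1 [← Real.exp_log hA0]
      rw [← Real.exp_add, ← Real.exp_add, ← Real.exp_add, hl]
      congr 1
      ring
    have h' : ‖wt c.θ δ l (t * Complex.I)‖ ≤
        Real.exp (δ + l * (0 - c.θ)) * Real.exp (-(δ * t ^ 2)) := by simpa using h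
    rw [norm_smul, ← e]
    calc _ ≤ (Real.exp (δ + l * (0 - c.θ)) * Real.exp (-(δ * t ^ 2))) * A :=
          mul_le_mul h' (hA t) (norm_nonneg _) (by positivity)
      _ = _ := by ring
  have hfb : ∀ t : ℝ, ‖wt c.θ δ l (1 + t * Complex.I) • c.i (G (1 + t * Complex.I))‖ ≤
      Real.exp δ * (A ^ (1 - c.θ) * B ^ c.θ) * Real.exp (-(δ * t ^ 2)) := by
    intro t
    have h := norm_wt_le c.h0.le c.h1 hδ.le l (z := 1 + t * Complex.I) (by simp) (by simp)
    have e : Real.exp (δ + l * (1 - c.θ)) * B = Real.exp δ * (A ^ (1 - c.θ) * B ^ c.θ) := by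
      rw [Real.rpow_def_of_pos hA0, Real.rpow_def_of_pos hB0]
      nth_rewrite 1 [← Real.exp_log hB0]
      rw [← Real.exp_add, ← Real.exp_add, ← Real.exp_add, hl]
      congr 1
      ring
    have h' : ‖wt c.θ δ l (1 + t * Complex.I)‖ ≤
        Real.exp (δ + l * (1 - c.θ)) * Real.exp (-(δ * t ^ 2)) := by simpa using h
    rw [norm_smul, ← e]
    calc _ ≤ (Real.exp (δ + l * (1 - c.θ)) * Real.exp (-(δ * t ^ 2))) * B :=
          mul_le_mul h' (hB t) (norm_nonneg _) (by positivity)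
      _ = _ := by ring
  have hK : 0 ≤ Real.exp δ * (A ^ (1 - c.θ) * B ^ c.θ) := by positivity
  have hd : Differentiable ℂ (fun z => wt c.θ δ l z • c.i (G z)) :=
    (wt_diff _ _ _).smul (c.i.differentiable.comp hG)
  refine ⟨fun z => wt c.θ δ l z • c.i (G z),
    fun t => wt c.θ δ l (t * Complex.I) • G (t * Complex.I),
    ⟨hd.continuous.continuousOn, hd.differentiableOn, ⟨Real.exp (δ + |l|) * C, ?_⟩, ?_, ?_, ?_, ?_⟩,
    ?_, ?_, ?_⟩
  · intro z h0 h1
    have h := norm_wt_le c.h0.le c.h1 hδ.le l h0 h1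
    have h2 : Real.exp (δ + l * (z.re - c.θ)) ≤ Real.exp (δ + |l|) := by
      apply Real.exp_le_exp.2
      have h3 : |z.re - c.θ| ≤ 1 := abs_le.2 ⟨by linarith [c.h1], by linarith [c.h0]⟩
      have h4 : l * (z.re - c.θ) ≤ |l| * |z.re - c.θ| := by
        rw [← abs_mul]; exact le_abs_self _
      nlinarith [abs_nonneg l]
    have h5 : ‖wt c.θ δ l z‖ ≤ Real.exp (δ + |l|) :=
      h.trans ((mul_le_of_le_one_right (Real.exp_pos _).le (exp_gauss_le_one hδ.le _)).trans h2)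
    rw [norm_smul]
    exact mul_le_mul h5 ((hi _).trans (hC z h0 h1)) (norm_nonneg _) (Real.exp_pos _).le
  · intro t
    simp
  · have h1 : Continuous fun t : ℝ => (t : ℂ) * Complex.I := by fun_prop
    exact ((wt_diff _ _ _).continuous.comp h1).smul (hG.continuous.comp h1)
  · exact squeeze_zero_norm hgb (tendsto_gauss hδ _)
  · exact squeeze_zero_norm hfb (tendsto_gauss hδ _)
  · simp [wt_self]
  · exact fun t => (hgb t).trans (mul_le_of_le_one_right hK (exp_gauss_le_one hδ.le t))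
  · exact fun t => (hfb t).trans (mul_le_of_le_one_right hK (exp_gauss_le_one hδ.le t))

private theorem mem_of_bounds {ξ : X} {C : ℝ} (h : C ∈ c.bounds ξ) : ξ ∈ c.Sp := by
  obtain ⟨f, g, h1, h2, -⟩ := h
  exact ⟨f, g, h1, h2⟩

/-- Value at `θ` of an entire `M`-valued function bounded on the strip. -/
theorem vec_mem_le {G : ℂ → M} (hG : Differentiable ℂ G)
    (hb : ∃ C : ℝ, ∀ z : ℂ, 0 ≤ z.re → z.re ≤ 1 → ‖G z‖ ≤ C) {A B : ℝ} (hA0 : 0 ≤ A)
    (hB0 : 0 ≤ B) (hA : ∀ t : ℝ, ‖G (t * Complex.I)‖ ≤ A)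
    (hB : ∀ t : ℝ, ‖c.i (G (1 + t * Complex.I))‖ ≤ B) :
    c.i (G c.θ) ∈ c.Sp ∧ c.nI (c.i (G c.θ)) ≤ A ^ (1 - c.θ) * B ^ c.θ := by
  have key : ∀ δ : ℝ, 0 < δ →
      Real.exp δ * ((A + δ) ^ (1 - c.θ) * (B + δ) ^ c.θ) ∈ c.bounds (c.i (G c.θ)) :=
    fun δ hδ => c.vec_aux hG hb (by linarith) (by linarith) (fun t => (hA t).trans (by linarith))
      (fun t => (hB t).trans (by linarith)) hδ
  refine ⟨c.mem_of_bounds (key 1 one_pos), ?_⟩
  have hc : Continuous fun δ : ℝ => Real.exp δ * ((A + δ) ^ (1 - c.θ) * (B + δ) ^ c.θ) := by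
    refine Real.continuous_exp.mul (Continuous.mul ?_ ?_)
    · exact (Real.continuous_rpow_const (by linarith [c.h1])).comp
        (continuous_const.add continuous_id)
    · exact (Real.continuous_rpow_const c.h0.le).comp (continuous_const.add continuous_id)
  have ht : Tendsto (fun δ : ℝ => Real.exp δ * ((A + δ) ^ (1 - c.θ) * (B + δ) ^ c.θ)) (𝓝[>] 0)
      (𝓝 (A ^ (1 - c.θ) * B ^ c.θ)) := by
    simpa using (hc.tendsto 0).mono_left (nhdsWithin_le_nhds (s := Set.Ioi 0))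
  exact ge_of_tendsto ht (eventually_nhdsWithin_of_forall fun δ hδ => c.nI_le (key δ hδ))

theorem i_mem (x : M) : c.i x ∈ c.Sp :=
  (c.vec_mem_le (G := fun _ => x) (differentiable_const x) ⟨‖x‖, fun _ _ _ => le_rfl⟩
    (norm_nonneg x) (norm_nonneg _) (fun _ => le_rfl) (fun _ => le_rfl)).1

theorem nI_i_le (x : M) : c.nI (c.i x) ≤ ‖x‖ ^ (1 - c.θ) * ‖c.i x‖ ^ c.θ :=
  (c.vec_mem_le (G := fun _ => x) (differentiable_const x) ⟨‖x‖, fun _ _ _ => le_rfl⟩
    (norm_nonneg x) (norm_nonneg _) (fun _ => le_rfl) (fun _ => le_rfl)).2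

theorem nI_i_le' (x : M) : c.nI (c.i x) ≤ ‖x‖ := by
  refine (c.nI_i_le x).trans ?_
  have hi : ‖c.i x‖ ≤ ‖x‖ :=
    (c.i.le_opNorm x).trans (mul_le_of_le_one_left (norm_nonneg x) c.hi)
  calc ‖x‖ ^ (1 - c.θ) * ‖c.i x‖ ^ c.θ ≤ ‖x‖ ^ (1 - c.θ) * ‖x‖ ^ c.θ :=
        mul_le_mul_of_nonneg_left (Real.rpow_le_rpow (norm_nonneg _) hi c.h0.le)
          (Real.rpow_nonneg (norm_nonneg _) _)
    _ = ‖x‖ := by
        rw [← Real.rpow_add' (norm_nonneg x) (by simp)]
        simp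

/-- The embedding of `M` into the interpolation space. -/
noncomputable def ι : M →L[ℂ] c.L :=
  LinearMap.mkContinuous
    { toFun := fun x => c.mk' (c.i x) (c.i_mem x)
      map_add' := fun x y => c.val_injective (by simp)
      map_smul' := fun a x => c.val_injective (by simp) } 1
    (fun x => by rw [one_mul]; exact c.nI_i_le' x)

@[simp] theorem val_ι (x : M) : c.val (c.ι x) = c.i x := rfl

theorem norm_ι_le (x : M) : ‖c.ι x‖ ≤ ‖x‖ ^ (1 - c.θ) * ‖c.i x‖ ^ c.θ := c.nI_i_le x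

theorem norm_ι_le_of {G : ℂ → M} (hG : Differentiable ℂ G)
    (hb : ∃ C : ℝ, ∀ z : ℂ, 0 ≤ z.re → z.re ≤ 1 → ‖G z‖ ≤ C) {A B : ℝ} (hA0 : 0 ≤ A)
    (hB0 : 0 ≤ B) (hA : ∀ t : ℝ, ‖G (t * Complex.I)‖ ≤ A)
    (hB : ∀ t : ℝ, ‖c.i (G (1 + t * Complex.I))‖ ≤ B) :
    ‖c.ι (G c.θ)‖ ≤ A ^ (1 - c.θ) * B ^ c.θ := (c.vec_mem_le hG hb hA0 hB0 hA hB).2

theorem tendsto_ι_zero {α : Type*} {l : Filter α} {x : α → M} {C : ℝ} (hC : ∀ j, ‖x j‖ ≤ C)
    (h : Tendsto (fun j => ‖c.i (x j)‖) l (𝓝 0)) : Tendsto (fun j => c.ι (x j)) l (𝓝 0) := by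
  have h1 : Tendsto (fun j => C ^ (1 - c.θ) * ‖c.i (x j)‖ ^ c.θ) l (𝓝 0) := by
    have h2 := ((Real.continuous_rpow_const c.h0.le).tendsto 0).comp h
    have h3 := h2.const_mul (C ^ (1 - c.θ))
    simpa [Real.zero_rpow c.h0.ne'] using h3
  refine squeeze_zero_norm (fun j => (c.norm_ι_le (x j)).trans ?_) h1
  exact mul_le_mul_of_nonneg_right
    (Real.rpow_le_rpow (norm_nonneg _) (hC j) (by linarith [c.h1]))
    (Real.rpow_nonneg (norm_nonneg _) _)

/-- Hoelder's inequality. -/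
theorem holder {Λ : ℂ → X →L[ℂ] ℂ} (hΛ : Differentiable ℂ Λ)
    (hb : ∃ C : ℝ, ∀ z : ℂ, 0 ≤ z.re → z.re ≤ 1 → ‖Λ z‖ ≤ C) {A B : ℝ} (hA0 : 0 ≤ A)
    (hB0 : 0 ≤ B) (hA : ∀ (t : ℝ) (x : M), ‖Λ (t * Complex.I) (c.i x)‖ ≤ A * ‖x‖)
    (hB : ∀ (t : ℝ) (ξ : X), ‖Λ (1 + t * Complex.I) ξ‖ ≤ B * ‖ξ‖) (y : c.L) :
    ‖Λ c.θ (c.val y)‖ ≤ A ^ (1 - c.θ) * B ^ c.θ * ‖y‖ := by
  obtain ⟨C, hC⟩ := hb
  have key : ∀ D : ℝ, ‖y‖ < D → ‖Λ c.θ (c.val y)‖ ≤ A ^ (1 - c.θ) * B ^ c.θ * D := by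
    intro D hD
    have hD0 : 0 ≤ D := (norm_nonneg y).trans hD.le
    obtain ⟨f, g, h, hf, hg1, hf1⟩ := c.exists_bound_lt (c.val_mem y) hD
    obtain ⟨C', hC'⟩ := h.bdd
    have hcl : closure (Complex.HadamardThreeLines.verticalStrip 0 1) =
        {z : ℂ | 0 ≤ z.re ∧ z.re ≤ 1} := by
      rw [Complex.HadamardThreeLines.verticalStrip, Complex.closure_preimage_re,
        closure_Ioo zero_ne_one]
      rfl
    have hd : DiffContOnCl ℂ (fun z => Λ z (f z))
        (Complex.HadamardThreeLines.verticalStrip 0 1) := by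
      refine ⟨hΛ.differentiableOn.clm_apply h.diff, ?_⟩
      rw [hcl]
      exact hΛ.continuous.continuousOn.clm_apply h.cont
    have hbd : BddAbove ((norm ∘ fun z => Λ z (f z)) ''
        Complex.HadamardThreeLines.verticalClosedStrip 0 1) := by
      refine ⟨C * C', ?_⟩
      rintro _ ⟨z, hz, rfl⟩
      exact ((Λ z).le_opNorm _).trans (mul_le_mul (hC z hz.1 hz.2) (hC' z hz.1 hz.2)
        (norm_nonneg _) ((norm_nonneg _).trans (hC z hz.1 hz.2)))
    have h3 := Complex.HadamardThreeLines.norm_le_interp_of_mem_verticalClosedStrip₀₁'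
      (fun z => Λ z (f z)) (z := (c.θ : ℂ)) (a := A * D) (b := B * D)
      ⟨by simpa using c.h0.le, by simpa using c.h1⟩ hd hbd
      (fun z hz => by
        have hz' : z = (z.im : ℂ) * Complex.I := by
          apply Complex.ext <;> simp
          exact hz
        rw [hz']
        show ‖Λ _ (f _)‖ ≤ _
        rw [h.left]
        exact (hA _ _).trans (mul_le_mul_of_nonneg_left (hg1 _) hA0))
      (fun z hz => by
        have hz' : z = 1 + (z.im : ℂ) * Complex.I := by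
          apply Complex.ext <;> simp
          exact hz
        rw [hz']
        exact (hB _ _).trans (mul_le_mul_of_nonneg_left (hf1 _) hB0))
    rw [Complex.ofReal_re, Real.mul_rpow hA0 hD0, Real.mul_rpow hB0 hD0] at h3
    have e : D ^ (1 - c.θ) * D ^ c.θ = D := by
      rw [← Real.rpow_add' hD0 (by simp)]
      simp
    rw [← hf]
    refine h3.trans_eq ?_
    calc _ = A ^ (1 - c.θ) * B ^ c.θ * (D ^ (1 - c.θ) * D ^ c.θ) := by ring
      _ = _ := by rw [e]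
  have ht : Tendsto (fun D : ℝ => A ^ (1 - c.θ) * B ^ c.θ * D) (𝓝[>] ‖y‖)
      (𝓝 (A ^ (1 - c.θ) * B ^ c.θ * ‖y‖)) :=
    (tendsto_id.mono_left nhdsWithin_le_nhds).const_mul _
  exact ge_of_tendsto ht (eventually_nhdsWithin_of_forall key)

/-- Stein interpolation for an entire family of contractions. -/
theorem stein {M' : Type u'} [NormedAddCommGroup M'] [NormedSpace ℂ M'] {X' : Type v'}
    [NormedAddCommGroup X'] [NormedSpace ℂ X'] (c' : Cpl M' X') (hθ : c'.θ = c.θ)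
    {T : ℂ → X →L[ℂ] X'} (hT : Differentiable ℂ T)
    (hb : ∃ C : ℝ, ∀ z : ℂ, 0 ≤ z.re → z.re ≤ 1 → ‖T z‖ ≤ C) {S : ℝ → M →L[ℂ] M'}
    (hS : Continuous S) (hTS : ∀ (t : ℝ) (x : M), T (t * Complex.I) (c.i x) = c'.i (S t x))
    (hS1 : ∀ (t : ℝ) (x : M), ‖S t x‖ ≤ ‖x‖)
    (hT1 : ∀ (t : ℝ) (ξ : X), ‖T (1 + t * Complex.I) ξ‖ ≤ ‖ξ‖) (y : c.L) :
    ∃ y' : c'.L, c'.val y' = T c.θ (c.val y) ∧ ‖y'‖ ≤ ‖y‖ := by
  obtain ⟨C, hC⟩ := hb
  have key : ∀ D : ℝ, ‖y‖ < D → D ∈ c'.bounds (T c.θ (c.val y)) := by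
    intro D hD
    obtain ⟨f, g, h, hf, hg1, hf1⟩ := c.exists_bound_lt (c.val_mem y) hD
    obtain ⟨C', hC'⟩ := h.bdd
    refine ⟨fun z => T z (f z), fun t => S t (g t),
      ⟨hT.continuous.continuousOn.clm_apply h.cont, hT.differentiableOn.clm_apply h.diff,
        ⟨C * C', fun z h0 h1 => ?_⟩, fun t => ?_, hS.clm_apply h.gcont, ?_, ?_⟩, ?_,
      fun t => (hS1 _ _).trans (hg1 t), fun t => (hT1 _ _).trans (hf1 t)⟩
    · exact ((T z).le_opNorm _).trans (mul_le_mul (hC z h0 h1) (hC' z h0 h1)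
        (norm_nonneg _) ((norm_nonneg _).trans (hC z h0 h1)))
    · rw [h.left, hTS]
    · exact squeeze_zero_norm (fun t => hS1 t (g t)) (tendsto_zero_iff_norm_tendsto_zero.1 h.gzero)
    · exact squeeze_zero_norm (fun t => hT1 t _) (tendsto_zero_iff_norm_tendsto_zero.1 h.fzero)
    · rw [hθ, ← hf]
  refine ⟨c'.mk' _ (c'.mem_of_bounds (key _ (lt_add_one _))), rfl, ?_⟩
  exact le_of_forall_gt_imp_ge_of_dense fun D hD => c'.nI_le (key D hD)

end Cpl

end Pool.Agent.MP_ab01c5_an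

/-!
# Density of `M` in the interpolation space; comparison with the definitions of the statement
-/

namespace Pool.Agent.MP_ab01c5_an

open Filter Topology

universe u v

section

open MeasureTheory Complex

theorem gauss_interp3 {Y : Type v} [NormedAddCommGroup Y] {F : ℝ → Y} (hF : Continuous F) {C : ℝ}
    (h : ∀ y, ‖F y‖ ≤ C * Real.exp (-1 * y ^ 2)) : Integrable F :=
  ((integrable_exp_neg_mul_sq one_pos).const_mul C).mono' hF.aestronglyMeasurable
    (Eventually.of_forall h)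

/-- Shifting a vertical line of integration. -/
theorem contour_interp3 {Y : Type v} [NormedAddCommGroup Y] [NormedSpace ℂ Y] [CompleteSpace Y]
    {H : ℂ → Y} {p q C : ℝ} (hpq : p ≤ q) (hc : ContinuousOn H {z | p ≤ z.re ∧ z.re ≤ q})
    (hd : DifferentiableOn ℂ H {z | p < z.re ∧ z.re < q})
    (hb : ∀ z : ℂ, p ≤ z.re → z.re ≤ q → ‖H z‖ ≤ C * Real.exp (-1 * z.im ^ 2)) :
    ∫ y : ℝ, H (p + y * I) = ∫ y : ℝ, H (q + y * I) := by
  have hi : ∀ x : ℝ, p ≤ x → x ≤ q → Integrable fun y : ℝ => H (x + y * I) := fun x h1 h2 =>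
    gauss_interp3 (hc.comp_continuous (by fun_prop) fun y => by simpa using ⟨h1, h2⟩) fun y => by
      simpa using hb (x + y * I) (by simpa using h1) (by simpa using h2)
  have h0 : Tendsto (fun R : ℝ => C * Real.exp (-1 * R ^ 2) * |q - p|) atTop (𝓝 0) := by
    have := ((Real.tendsto_exp_atBot.comp ((tendsto_pow_atTop (α := ℝ)
      two_ne_zero).const_mul_atTop_of_neg (neg_one_lt_zero))).const_mul C).mul_const |q - p|
    simpa using this
  have hh : ∀ s : ℝ → ℝ, (∀ R, s R ^ 2 = R ^ 2) →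
      Tendsto (fun R : ℝ => ∫ x : ℝ in p..q, H (x + s R * I)) atTop (𝓝 0) := fun s hs => by
    refine squeeze_zero_norm (fun R => intervalIntegral.norm_integral_le_of_norm_le_const
      fun x hx => ?_) h0
    rw [Set.uIoc_of_le hpq] at hx
    simpa [hs] using hb (x + s R * I) (by simpa using hx.1.le) (by simpa using hx.2)
  have h1 := (((hh (fun R => -R) fun R => by ring).sub (hh (fun R => R) fun R => rfl)).add
    ((intervalIntegral_tendsto_integral (hi q hpq le_rfl) tendsto_neg_atTop_atBot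
      tendsto_id).const_smul I)).sub
    ((intervalIntegral_tendsto_integral (hi p le_rfl hpq) tendsto_neg_atTop_atBot
      tendsto_id).const_smul I)
  have h2 := tendsto_nhds_unique h1 (tendsto_const_nhds.congr fun R =>
    (integral_boundary_rect_eq_zero_of_continuousOn_of_differentiableOn H ⟨p, -R⟩ ⟨q, R⟩
      (hc.mono fun z hz => by
        have := hz.1
        rwa [Set.uIcc_of_le hpq] at this)
      (hd.mono fun z hz => by
        have := hz.1
        rwa [min_eq_left hpq, max_eq_right hpq] at this)).symm)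
  rw [sub_self, zero_add, ← smul_sub, smul_eq_zero, sub_eq_zero] at h2
  exact (h2.resolve_left I_ne_zero).symm

variable {M : Type u} [NormedAddCommGroup M] [NormedSpace ℂ M]
  {X : Type v} [NormedAddCommGroup X] [NormedSpace ℂ X] {c : Cpl M X}

theorem Cpl.Adm.shift_interp3 {f : ℂ → X} {g : ℝ → M} (h : c.Adm f g) (t : ℝ) :
    c.Adm (fun z => f (z + t * I)) fun s => g (s + t) := by
  obtain ⟨C, hC⟩ := h.bdd
  have ht := (Homeomorph.addRight t).isClosedEmbedding.tendsto_cocompact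
  refine ⟨h.cont.comp (by fun_prop) fun z hz => by simpa using hz,
    h.diff.comp (by fun_prop) fun z hz => by simpa using hz,
    ⟨C, fun z h0 h1 => hC _ (by simpa using h0) (by simpa using h1)⟩, fun s => ?_,
    h.gcont.comp (by fun_prop), h.gzero.comp ht, (h.fzero.comp ht).congr fun s => ?_⟩
  · rw [← h.left]
    congr 1
    push_cast
    ring
  · simp only [Function.comp_apply, Homeomorph.coe_addRight]
    congr 1
    push_cast
    ring

/-- The vertical translates of `f θ`, as elements of the interpolation space. -/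
noncomputable def Cpl.Adm.path_interp3 {f : ℂ → X} {g : ℝ → M} (h : c.Adm f g) (t : ℝ) : c.L :=
  c.mk' (f (c.θ + t * I)) ⟨_, _, h.shift_interp3 t, rfl⟩

theorem Cpl.Adm.cont_interp3 {f : ℂ → X} {g : ℝ → M} (h : c.Adm f g) :
    Continuous h.path_interp3 := by
  have h1 := h.gcont.uniformContinuous_of_tendsto_cocompact h.gzero
  have h2 := (h.cont.comp_continuous (f := fun t : ℝ => 1 + t * I) (by fun_prop)
    fun t => by simp).uniformContinuous_of_tendsto_cocompact h.fzero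
  refine UniformContinuous.continuous (Metric.uniformContinuous_iff_le.2 fun ε hε => ?_)
  obtain ⟨δ₁, p₁, q₁⟩ := Metric.uniformContinuous_iff_le.1 h1 ε hε
  obtain ⟨δ₂, p₂, q₂⟩ := Metric.uniformContinuous_iff_le.1 h2 ε hε
  refine ⟨min δ₁ δ₂, lt_min p₁ p₂, fun {a b} hab => ?_⟩
  rw [dist_eq_norm, c.norm_def]
  refine c.nI_le ⟨_, _, (h.shift_interp3 a).add ((h.shift_interp3 b).smul (-1)), ?_, fun s => ?_,
    fun s => ?_⟩
  · simp [Cpl.Adm.path_interp3, sub_eq_add_neg]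
  · have := q₁ (a := s + a) (b := s + b) (by simpa using hab.trans (min_le_left _ _))
    simpa [dist_eq_norm, sub_eq_add_neg] using this
  · have := q₂ (a := s + a) (b := s + b) (by simpa using hab.trans (min_le_right _ _))
    simpa [dist_eq_norm, sub_eq_add_neg, add_mul, add_assoc] using this

theorem Cpl.Adm.range_interp3 [CompleteSpace M] [CompleteSpace X] {f : ℂ → X} {g : ℝ → M}
    (h : c.Adm f g) {C : ℝ} (hg : ∀ t : ℝ, ‖g t‖ ≤ C) (hf : ∀ t : ℝ, ‖f (1 + t * I)‖ ≤ C)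
    {a : ℝ} (ha : 0 < a) :
    ∃ x : M, c.i x = ∫ s : ℝ, cexp ((s * I) ^ 2) • f (c.θ + (a * s : ℝ) * I) := by
  obtain ⟨p, hp⟩ : ∃ p : ℝ, c.θ + a * p = 0 := ⟨-c.θ / a, by field_simp; ring⟩
  have h0 := c.h0
  have h1 := c.h1
  have hp0 : p ≤ 0 := by nlinarith
  have hn : ∀ z : ℂ, p ≤ z.re → z.re ≤ 0 →
      ‖cexp (z ^ 2)‖ ≤ Real.exp (p ^ 2) * Real.exp (-1 * z.im ^ 2) := fun z h2 h3 => by
    rw [Complex.norm_exp, ← Real.exp_add, Real.exp_le_exp, sq, mul_re]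
    nlinarith
  have hr : ∀ z : ℂ, (c.θ + a * z : ℂ).re = c.θ + a * z.re := fun z => by simp
  have key := contour_interp3 (H := fun z => cexp (z ^ 2) • f (c.θ + a * z)) hp0
    (C := Real.exp (p ^ 2) * C)
    (ContinuousOn.smul (by fun_prop) (h.cont.comp (by fun_prop) fun z hz =>
      ⟨by rw [hr]; nlinarith [hz.1], by rw [hr]; nlinarith [hz.2]⟩))
    (DifferentiableOn.smul (by fun_prop) (h.diff.comp (by fun_prop) fun z hz =>
      ⟨by rw [hr]; nlinarith [hz.1], by rw [hr]; nlinarith [hz.2]⟩))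
    (fun z h2 h3 => by
      rw [norm_smul, mul_right_comm]
      exact mul_le_mul (hn z h2 h3) (h.norm_le hg hf (by rw [hr]; nlinarith)
        (by rw [hr]; nlinarith)) (norm_nonneg _) (by positivity))
  have hi : Integrable fun s : ℝ => cexp ((p + s * I) ^ 2) • g (a * s) := by
    refine gauss_interp3 (Continuous.smul (by fun_prop) (h.gcont.comp (by fun_prop)))
      (C := Real.exp (p ^ 2) * C) fun s => ?_
    rw [norm_smul, mul_right_comm]
    exact mul_le_mul (by simpa using hn (p + s * I) (by simp) (by simpa using hp0)) (hg _)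
      (norm_nonneg _) (by positivity)
  refine ⟨∫ s : ℝ, cexp ((p + s * I) ^ 2) • g (a * s), ?_⟩
  rw [← c.i.integral_comp_comm hi]
  have e : ∀ s : ℝ, (c.θ + a * (p + s * I) : ℂ) = (a * s : ℝ) * I := fun s => by
    have : (c.θ + a * p : ℂ) = 0 := by exact_mod_cast hp
    push_cast
    linear_combination this
  simp only [e, h.left, ← map_smul] at key
  rw [key]
  simp [mul_assoc]

end

theorem Cpl.denseRange_ι {M : Type u} [NormedAddCommGroup M] [NormedSpace ℂ M] [CompleteSpace M]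
    {X : Type v} [NormedAddCommGroup X] [NormedSpace ℂ X] [CompleteSpace X] (c : Cpl M X) :
    DenseRange c.ι := by
  intro y
  obtain ⟨f, g, h, hy, hg, hf⟩ := c.exists_bound_lt (c.val_mem y) (lt_add_one _)
  generalize c.nI (c.val y) + 1 = C at hg hf
  have hc := h.cont_interp3
  have hb : ∀ a s : ℝ, ‖Complex.exp ((s * Complex.I) ^ 2) • h.path_interp3 (a * s)‖ ≤
      C * Real.exp (-1 * s ^ 2) := fun a s => by
    rw [norm_smul, mul_comm, Complex.norm_exp, c.norm_def]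
    refine mul_le_mul (c.nI_le ⟨_, _, h.shift_interp3 (a * s), rfl, fun t => hg _, fun t => ?_⟩)
      (le_of_eq ?_) (Real.exp_pos _).le ((norm_nonneg _).trans (hg 0))
    · simpa [add_mul, add_assoc] using hf (t + a * s)
    · simp [sq]
  have hm : ∀ a : ℝ, Continuous fun s : ℝ =>
      Complex.exp ((s * Complex.I) ^ 2) • h.path_interp3 (a * s) := fun a => by fun_prop
  have hv : Continuous fun a : ℝ =>
      ∫ s : ℝ, Complex.exp ((s * Complex.I) ^ 2) • h.path_interp3 (a * s) :=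
    MeasureTheory.continuous_of_dominated (fun a => (hm a).aestronglyMeasurable)
      (fun a => Eventually.of_forall (hb a)) ((integrable_exp_neg_mul_sq one_pos).const_mul C)
      (Eventually.of_forall fun s => by fun_prop)
  have h0 : h.path_interp3 0 = y := c.val_injective (by simpa [Cpl.Adm.path_interp3] using hy)
  obtain ⟨κ, hκ⟩ : ∃ κ : ℂ, κ * ∫ s : ℝ, Complex.exp ((s * Complex.I) ^ 2) = 1 := by
    refine ⟨_, inv_mul_cancel₀ ?_⟩
    have := integral_gaussian_complex (b := 1) (by simp)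
    simp only [mul_pow, Complex.I_sq, mul_comm _ (-1 : ℂ), this]
    simp
  have ht := ((hv.const_smul κ).tendsto 0).mono_left (nhdsWithin_le_nhds (s := Set.Ioi 0))
  rw [Pi.smul_apply] at ht
  simp only [zero_mul, h0, integral_smul_const, smul_smul, hκ, one_smul] at ht
  refine mem_closure_of_tendsto ht (eventually_nhdsWithin_of_forall fun a ha => ?_)
  obtain ⟨x, hx⟩ := h.range_interp3 hg hf ha
  refine ⟨κ • x, c.val_injective ?_⟩
  rw [Pi.smul_apply, map_smul, map_smul, map_smul, c.val_ι, hx,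
    ← c.val.integral_comp_comm (gauss_interp3 (hm a) (hb a))]
  simp [Cpl.Adm.path_interp3]

variable {M : Type u} [JBStarAlgebra M] {X : Type v} [NormedAddCommGroup X] [NormedSpace ℂ X]

theorem isEmb_iff {e : M ≃ₗᵢ[ℂ] StrongDual ℂ X} {φ : X} {i : M → X}
    (h : ∀ x, IsEmb e φ x (i x)) (x : M) (ξ : X) : IsEmb e φ x ξ ↔ ξ = i x := by
  refine ⟨fun h1 => (SeparatingDual.eq_iff_forall_dual_eq (R := ℂ)).2 fun g => ?_,
    fun h1 => h1 ▸ h x⟩
  obtain ⟨y, rfl⟩ := e.surjective g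
  rw [h1 y, h x y]

theorem Cpl.adm_iff_interp3 (c : Cpl M X) {e : M ≃ₗᵢ[ℂ] StrongDual ℂ X} {φ : X}
    (h : ∀ x, IsEmb e φ x (c.i x)) (f : ℂ → X) (g : ℝ → M) :
    c.Adm f g ↔ Pool.Agent.MP_ab01c5_an.Adm e φ f g :=
  ⟨fun a => ⟨a.cont, a.diff, a.bdd, fun t => (isEmb_iff h _ _).2 (a.left t), a.gcont, a.gzero,
    a.fzero⟩, fun a => ⟨a.cont, a.diff, a.bdd, fun t => (isEmb_iff h _ _).1 (a.left t), a.gcont,
    a.gzero, a.fzero⟩⟩

theorem Cpl.sp_eq (c : Cpl M X) {e : M ≃ₗᵢ[ℂ] StrongDual ℂ X} {φ : X} {p : ℝ}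
    (h : ∀ x, IsEmb e φ x (c.i x)) (hθ : c.θ = 1 / p) : c.Sp = Lp e φ p := by
  ext ξ
  show (∃ f g, c.Adm f g ∧ f (c.θ : ℂ) = ξ) ↔
    ∃ f g, Pool.Agent.MP_ab01c5_an.Adm e φ f g ∧ f ((1 / p : ℝ) : ℂ) = ξ
  simp only [c.adm_iff_interp3 h, hθ]

theorem Cpl.nI_eq (c : Cpl M X) {e : M ≃ₗᵢ[ℂ] StrongDual ℂ X} {φ : X} {p : ℝ}
    (h : ∀ x, IsEmb e φ x (c.i x)) (hθ : c.θ = 1 / p) (ξ : X) : c.nI ξ = lpNorm e φ p ξ := by
  simp only [Cpl.nI, Cpl.bounds, lpNorm, c.adm_iff_interp3 h, hθ]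

end Pool.Agent.MP_ab01c5_an
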