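import Pool.Agent.MP_ab01c5_an.JWeak

/-!
# Radon-Nikodym theorems
-/

namespace Pool.Agent.MP_ab01c5_an

open Filter Topology
open scoped ComplexOrder

universe u v

variable {M : Type u} [JBU M] {X : Type v} [NormedAddCommGroup X] [NormedSpace ℂ X]
  [CompleteSpace X]

namespace WT

variable (W : WT M X)

omit [CompleteSpace X] in
theorem approx_rna {ω : M →L[ℂ] ℂ} {ρ : X} (h0 : PosF ω) (h1 : PosF (W.ev ρ - ω))
    (F : Finset M) {ε : ℝ} (hε : 0 < ε) : ∃ a : M, IsPos a ∧ IsPos (1 - a) ∧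
      ∀ x ∈ F, star x = x → |(ω x).re - (W.ev ρ (a * x)).re| < ε := by
  classical
  let ι := {x : M // x ∈ F.filter fun x => star x = x}
  let _ : Fintype ι := Finset.Subtype.fintype _
  let C : Set (ι → ℝ) :=
    {v | ∃ a : M, IsPos a ∧ IsPos (1 - a) ∧ v = fun i : ι => (W.ev ρ (a * i.1)).re}
  have hC : Convex ℝ C := by
    rintro _ ⟨a, a1, a2, rfl⟩ _ ⟨b, b1, b2, rfl⟩ s t hs ht hst
    refine ⟨(s : ℂ) • a + (t : ℂ) • b, (a1.smul hs).add (b1.smul ht), ?_, ?_⟩
    · have e : (1 : M) - ((s : ℂ) • a + (t : ℂ) • b)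
          = (s : ℂ) • (1 - a) + (t : ℂ) • (1 - b) := by
        have : (s : ℂ) + t = 1 := by exact_mod_cast hst
        linear_combination (norm := module) (-1 : ℂ) • congrArg (fun c : ℂ => c • (1 : M)) this
      rw [e]
      exact (a2.smul hs).add (b2.smul ht)
    · funext i
      simp [add_mul, smul_mul_assoc]
  have hp : (fun i : ι => (ω i.1).re) ∈ closure C := by
    by_contra hn
    obtain ⟨f, u, hf, hu⟩ := geometric_hahn_banach_closed_point hC.closure isClosed_closure hn
    let x₀ : M := ∑ i : ι, ((f fun j => if i = j then 1 else 0 : ℝ) : ℂ) • i.1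
    have hx₀ : star x₀ = x₀ := by
      simp only [x₀, star_sum, star_smul]
      refine Finset.sum_congr rfl fun i _ => ?_
      rw [(Finset.mem_filter.1 i.2).2, Complex.star_def, Complex.conj_ofReal]
    have hl : ∀ l : M →L[ℂ] ℂ, f (fun i : ι => (l i.1).re) = (l x₀).re := by
      intro l
      have := LinearMap.pi_apply_eq_sum_univ (f : (ι → ℝ) →ₗ[ℝ] ℝ) fun i : ι => (l i.1).re
      refine this.trans ?_
      simp only [x₀, map_sum, map_smul, Complex.re_sum, smul_eq_mul, Complex.re_ofReal_mul]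
      exact Finset.sum_congr rfl fun i _ => mul_comm _ _
    obtain ⟨q, -, hq, p1, p2, -⟩ := (wsub_top (W := W)).exists_sign Submodule.mem_top hx₀
    have a1 := hf _ (subset_closure ⟨q, hq.isPos, hq.one_sub.isPos, rfl⟩)
    have a2 : f (fun i : ι => (W.ev ρ (q * i.1)).re) = (W.ev ρ (q * x₀)).re :=
      hl ((W.ev ρ).comp (mulL q))
    have a3 := h0.mono p2
    have a4 := h1.re_nonneg p1
    rw [sub_apply, Complex.sub_re] at a4
    rw [hl ω] at hu
    linarith
  obtain ⟨_, ⟨a, a1, a2, rfl⟩, hd⟩ := Metric.mem_closure_iff.1 hp ε hε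
  refine ⟨a, a1, a2, fun x hx hs => ?_⟩
  exact (dist_le_pi_dist (fun i : ι => (ω i.1).re) (fun i : ι => (W.ev ρ (a * i.1)).re)
    ⟨x, Finset.mem_filter.2 ⟨hx, hs⟩⟩).trans_lt hd

/-- Sakai's linear Radon-Nikodym theorem; `ω` is not assumed normal. -/
theorem sakai {ω : M →L[ℂ] ℂ} {ρ : X} (h0 : PosF ω) (h1 : PosF (W.ev ρ - ω)) :
    ∃ a : M, IsPos a ∧ IsPos (1 - a) ∧ ∀ x : M, ω x = W.ev ρ (a * x) := by
  classical
  have hρ : PosF (W.ev ρ) := fun x hx => by
    have := add_nonneg (h0 x hx) (h1 x hx)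
    rwa [sub_apply, add_sub_cancel] at this
  choose a a1 a2 a3 using fun i : Finset M × ℕ =>
    W.approx_rna h0 h1 i.1 (ε := 1 / ((i.2 : ℝ) + 1)) (by positivity)
  let U : Ultrafilter (Finset M × ℕ) := Ultrafilter.of atTop
  have hU : (U : Filter (Finset M × ℕ)) ≤ atTop := Ultrafilter.of_le _
  have hb : ∀ᶠ i in (U : Filter (Finset M × ℕ)), ‖a i‖ ≤ 1 :=
    Eventually.of_forall fun i => (a1 i).norm_le_one (a2 i)
  obtain ⟨y, hy⟩ := W.exists_lim U a hb
  have y1 : IsPos y := hy.isPos hb (Eventually.of_forall a1)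
  have y2 : IsPos (1 - y) := ((lim_const 1).sub hy).isPos (C := 1)
    (Eventually.of_forall fun i => (a2 i).norm_le_one (by rw [sub_sub_cancel]; exact a1 i))
    (Eventually.of_forall a2)
  have key : ∀ x : M, star x = x → ω x = W.ev ρ (y * x) := by
    intro x hx
    refine Complex.ext ?_ ?_
    · have t1 : Tendsto (fun i => (W.ev ρ (x * a i)).re) U (𝓝 (W.ev ρ (x * y)).re) :=
        (Complex.continuous_re.tendsto _).comp (hy.mul_left x ρ)
      have t2 : Tendsto (fun i => (W.ev ρ (x * a i)).re) atTop (𝓝 (ω x).re) := by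
        rw [tendsto_iff_dist_tendsto_zero]
        have t3 : Tendsto (fun i : Finset M × ℕ => 1 / ((i.2 : ℝ) + 1)) atTop (𝓝 0) := by
          refine tendsto_one_div_add_atTop_nhds_zero_nat.comp ?_
          rw [← prod_atTop_atTop_eq]
          exact tendsto_snd
        refine squeeze_zero' (Eventually.of_forall fun _ => dist_nonneg) ?_ t3
        filter_upwards [eventually_ge_atTop (({x}, 0) : Finset M × ℕ)] with i hi
        rw [dist_comm, Real.dist_eq, mul_comm x]
        exact (a3 i x (hi.1 (Finset.mem_singleton_self x)) hx).le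
      rw [mul_comm y]
      exact tendsto_nhds_unique (t2.mono_left hU) t1
    · rw [h0.im_sa hx, hρ.im_sa (by rw [jstar_mul, y1.sa, hx])]
  refine ⟨y, y1, y2, fun x => ?_⟩
  obtain ⟨b, c, hb, hc, rfl, -⟩ := exists_re_im x
  rw [map_add, map_smul, key b hb, key c hc, mul_add, mul_smul_comm, map_add, map_smul]

theorem normal_of_le {ω : M →L[ℂ] ℂ} {ρ : X} (h0 : PosF ω) (h1 : PosF (W.ev ρ - ω)) :
    ∃ ξ : X, W.ev ξ = ω := by
  obtain ⟨a, -, -, h⟩ := W.sakai h0 h1
  exact ⟨W.Lpre a ρ, ContinuousLinearMap.ext fun x => by rw [ev_Lpre, h]⟩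

/-- The bounded transform `a = (1 + dω/dρ)⁻¹`. -/
theorem exists_rn {ω ρ : X} (hω : PosF (W.ev ω)) (hρ : PosF (W.ev ρ)) :
    ∃ a : M, IsPos a ∧ IsPos (1 - a) ∧ ∀ x : M, W.ev ω (a * x) = W.ev ρ ((1 - a) * x) := by
  obtain ⟨a, a1, a2, h⟩ := W.sakai (ρ := ω + ρ) hρ (by rwa [map_add, add_sub_cancel_right])
  refine ⟨a, a1, a2, fun x => ?_⟩
  have := h x
  rw [map_add, add_apply] at this
  rw [sub_mul, one_mul, map_sub, this, add_sub_cancel_right]

end WT

end Pool.Agent.MP_ab01c5_an

namespace Pool.Agent.MP_ab01c5_an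

open Filter Topology

universe u v

variable {M : Type u} [JBU M] {X : Type v} [NormedAddCommGroup X] [NormedSpace ℂ X]
  [CompleteSpace X]

/-- Multiplication by an element close to `1` is onto. -/
theorem exists_mul_eq_rnb {b : M} (hb : ‖1 - b‖ < 1) (x : M) : ∃ z : M, b * z = x := by
  have hT : ‖mulL (1 - b)‖ < 1 := (norm_mulL_le _).trans_lt hb
  refine ⟨((Units.oneSub (mulL (1 - b)) hT)⁻¹ : (M →L[ℂ] M)ˣ).val x, ?_⟩
  have h := (Units.oneSub (mulL (1 - b)) hT).mul_inv
  have h2 := congrArg (fun T : M →L[ℂ] M => T x) h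
  simp only [Units.val_oneSub, mul_apply_eq_comp, sub_apply,
    one_apply_eq_self, mulL_apply, sub_mul, one_mul, sub_sub_cancel] at h2
  exact h2

/-- The representation of `ω ∘ U_g`. -/
theorem rep_rnb {B : Submodule ℂ M} (hB : IsFrame B) {ω ρ : M →L[ℂ] ℂ} {a g p b : M}
    (hg : g ∈ B) (hp : p ∈ B) (hb : b ∈ B) (gg : g * g = g) (hb1 : ‖1 - b‖ < 1)
    (hab : g * (a - b) = 0) (hpb : g * (1 - a - p * b) = 0) (hpg : p * g = p)
    (he : ∀ x : M, ω (a * x) = ρ ((1 - a) * x))
    (htr : ∀ u ∈ B, ∀ v ∈ B, ∀ x : M, ρ (u * (v * x)) = ρ (u * v * x)) (x : M) :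
    ω (tri g x g) = ρ (p * x) := by
  obtain ⟨z, hz⟩ := exists_mul_eq_rnb hb1 x
  have hy : g * tri g z g = tri g z g := mul_U_idem gg z
  have h1 : b * tri g z g = tri g x g := by
    rw [OpComm.mul_tri (hB.comm b hb g hg) (hB.comm b hb g hg)
      (hB.comm b hb _ (hB.mul_mem g hg g hg)), hz]
  have h2 : a * tri g z g = b * tri g z g := by
    have := fix_mul_ker gg hy hab
    rw [mul_comm, sub_mul] at this
    exact sub_eq_zero.1 this
  have h3 : (1 - a) * tri g z g = p * b * tri g z g := by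
    have := fix_mul_ker gg hy hpb
    rw [mul_comm, sub_mul] at this
    exact sub_eq_zero.1 this
  have h4 : ρ (p * (g * x)) = ρ (p * x) := by rw [htr p hp g hg, hpg]
  have h5 : ρ (p * (g * (g * x))) = ρ (p * x) := by rw [htr p hp g hg, hpg, h4]
  rw [← h1, ← h2, he, h3, ← htr p hp b hb, h1]
  have h6 : tri g x g = g * (g * x) + g * (g * x) - g * x := by
    unfold tri
    rw [gg, mul_comm (g * x) g]
  rw [h6, mul_sub, mul_add, map_sub, map_add, h4, h5]
  ring

/-- The levels of the cut-offs. -/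
noncomputable def lev_rnb (n : ℕ) : ℝ := 1 / ((n : ℝ) + 2)

theorem lev_pos_rnb (n : ℕ) : 0 < lev_rnb n := by
  unfold lev_rnb; positivity

theorem lev_le_rnb (n : ℕ) : lev_rnb n ≤ 1 / 2 := by
  unfold lev_rnb
  exact one_div_le_one_div_of_le (by norm_num) (by have := Nat.cast_nonneg (α := ℝ) n; linarith)

theorem lev_lt_rnb {m n : ℕ} (h : m < n) : lev_rnb n < lev_rnb m := by
  unfold lev_rnb
  have : (m : ℝ) < n := by exact_mod_cast h
  exact one_div_lt_one_div_of_lt (by positivity) (by linarith)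

theorem lev_tendsto_rnb : Tendsto lev_rnb atTop (𝓝 0) := by
  unfold lev_rnb
  have h : Tendsto (fun n : ℕ => (n : ℝ) + 2) atTop atTop :=
    tendsto_atTop_add_const_right _ _ tendsto_natCast_atTop_atTop
  simpa [one_div, Pi.inv_def] using h.inv_tendsto_atTop

/-- The clamped logarithm of `(1 - t) / t`. -/
noncomputable def lg_rnb (r t : ℝ) : ℝ :=
  Real.log (1 - max r (min (1 - r) t)) - Real.log (max r (min (1 - r) t))

theorem continuous_lg_rnb {r : ℝ} (h0 : 0 < r) (h1 : r ≤ 1 / 2) : Continuous (lg_rnb r) := by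
  unfold lg_rnb
  refine Continuous.sub (Continuous.log (by fun_prop) fun t => ?_)
    (Continuous.log (by fun_prop) fun t => ?_)
  · have : max r (min (1 - r) t) ≤ 1 - r := max_le (by linarith) (min_le_left _ _)
    linarith
  · have : r ≤ max r (min (1 - r) t) := le_max_left _ _
    linarith

theorem lg_eq_rnb {r t : ℝ} (h0 : r ≤ t) (h1 : t ≤ 1 - r) :
    lg_rnb r t = Real.log (1 - t) - Real.log t := by
  unfold lg_rnb
  rw [min_eq_right h1, max_eq_right h0]

theorem exp_lg_rnb {r t : ℝ} (hr : 0 < r) (h0 : r ≤ t) (h1 : t ≤ 1 - r) :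
    Real.exp (lg_rnb r t) = (1 - t) / t := by
  rw [lg_eq_rnb h0 h1, Real.exp_sub, Real.exp_log (by linarith), Real.exp_log (by linarith)]

open scoped ComplexOrder in
/-- Monotonicity of a positive functional in a chart. -/
theorem chart_mono_rnb (c : Chart M) {φ : M →L[ℂ] ℂ} (hφ : PosF φ) {f g : C(c.Ω, ℂ)}
    (h : ∀ w, f w ≤ g w) : (φ (c.π f)).re ≤ (φ (c.π g)).re := by
  refine hφ.mono ?_
  rw [← map_sub, c.isPos_iff]
  intro w
  simpa using h w

namespace WT

variable {W : WT M X}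

omit [CompleteSpace X] in
theorem tendsto_of_ac_rnb {ω ρ : X} {y : ℕ → M} (hy : ∀ n, IsProj (y n))
    (hac : ∀ y : M, IsPos y → (W.ev ρ y).re = 0 → (W.ev ω y).re = 0)
    (h : Tendsto (fun n => (W.ev ρ (y n)).re) atTop (𝓝 0)) :
    Tendsto (fun n => (W.ev ω (y n)).re) atTop (𝓝 0) := by
  rw [tendsto_iff_ultrafilter]
  intro U hU
  have hb : ∀ᶠ n in (U : Filter ℕ), ‖y n‖ ≤ 1 := Eventually.of_forall fun n => (hy n).norm_le
  obtain ⟨γ, hγ⟩ := W.exists_lim U y hb
  have hp : IsPos γ := hγ.isPos hb (Eventually.of_forall fun n => (hy n).isPos)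
  have h1 : Tendsto (fun n => (W.ev ρ (y n)).re) (U : Filter ℕ) (𝓝 (W.ev ρ γ).re) :=
    (Complex.continuous_re.tendsto _).comp (hγ ρ)
  have h2 : (W.ev ρ γ).re = 0 := tendsto_nhds_unique h1 (h.mono_left hU)
  have h3 : Tendsto (fun n => (W.ev ω (y n)).re) (U : Filter ℕ) (𝓝 (W.ev ω γ).re) :=
    (Complex.continuous_re.tendsto _).comp (hγ ω)
  rwa [hac γ hp h2] at h3

open scoped ComplexOrder in
/-- From the bounded transform to the spectral data of the density. -/
theorem WFrame.exists_dat {B : Submodule ℂ M} (hB : W.WFrame B) {a : M} (ha : a ∈ B)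
    (h0 : IsPos a) (h1 : IsPos (1 - a)) {ω ρ : X} (hω : PosF (W.ev ω)) (hρ : PosF (W.ev ρ))
    (he : ∀ x : M, W.ev ω (a * x) = W.ev ρ ((1 - a) * x))
    (htr : ∀ u ∈ B, ∀ v ∈ B, ∀ x : M, W.ev ρ (u * (v * x)) = W.ev ρ (u * v * x))
    (hac : ∀ y : M, IsPos y → (W.ev ρ y).re = 0 → (W.ev ω y).re = 0) :
    ∃ D : Dat B, (∀ n x, W.ev ω (tri (D.q n) x (D.q n)) = W.ev ρ (D.pw 1 n * x)) ∧
      Tendsto (fun n => (W.ev ω (1 - D.q n)).re) atTop (𝓝 0) ∧
      ∀ n, a * (D.q n + D.pw 1 n) = D.q n := by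
  obtain ⟨c, hc⟩ := exists_chart hB.sFrame
  obtain ⟨f, rfl⟩ := (hc _).1 ha
  have one_sub : ∀ g : C(c.Ω, ℂ), 1 - c.π g = c.π (1 - g) := fun g => by
    rw [map_sub, c.map_one]
  have hmem : ∀ g : C(c.Ω, ℂ), c.π g ∈ B := fun g => (hc _).2 ⟨g, rfl⟩
  rw [one_sub] at h1
  have f0 := (c.isPos_iff f).1 h0
  have f1 := (c.isPos_iff _).1 h1
  have fim : ∀ w, (f w).im = 0 := fun w => ((Complex.le_def.1 (f0 w)).2).symm
  have fim' : ∀ w, ((1 - f) w).im = 0 := fun w => by simp [fim w]
  have fre : ∀ w, f w = ((f w).re : ℂ) := fun w => by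
    apply Complex.ext <;> simp [fim w]
  have t0 : ∀ w, 0 ≤ (f w).re := fun w => by simpa using (Complex.le_def.1 (f0 w)).1
  have t1 : ∀ w, (f w).re ≤ 1 := fun w => by simpa using (Complex.le_def.1 (f1 w)).1
  choose G G01 G1 G0 using fun n : ℕ => hB.exists_spectral c hc fim (lev_rnb n)
  choose H H01 H1 H0 using fun n : ℕ => hB.exists_spectral c hc fim' (lev_rnb n)
  have Gge : ∀ n w, G n w = 1 → lev_rnb n ≤ (f w).re := fun n w h => by
    by_contra hlt
    rw [G0 n w (not_le.1 hlt)] at h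
    exact zero_ne_one h
  have Gle : ∀ n w, G n w = 0 → (f w).re ≤ lev_rnb n := fun n w h => by
    by_contra hlt
    rw [G1 n w (not_le.1 hlt)] at h
    exact one_ne_zero h
  have Hge : ∀ n w, H n w = 1 → (f w).re ≤ 1 - lev_rnb n := fun n w h => by
    by_contra hlt
    rw [H0 n w (by simp; linarith [not_le.1 hlt])] at h
    exact zero_ne_one h
  have Hle : ∀ n w, H n w = 0 → 1 - lev_rnb n ≤ (f w).re := fun n w h => by
    by_contra hlt
    rw [H1 n w (by simp; linarith [not_le.1 hlt])] at h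
    exact one_ne_zero h
  -- the projections
  let q : ℕ → C(c.Ω, ℂ) := fun n => G n * H n
  have q01 : ∀ n w, q n w = 0 ∨ (q n w = 1 ∧ G n w = 1 ∧ H n w = 1) := fun n w => by
    simp only [q, ContinuousMap.mul_apply]
    rcases G01 n w with h | h <;> rcases H01 n w with h' | h' <;> simp [h, h']
  have qb : ∀ n w, q n w = 0 ∨ (q n w = 1 ∧ lev_rnb n ≤ (f w).re ∧ (f w).re ≤ 1 - lev_rnb n) :=
    fun n w => (q01 n w).imp id fun h => ⟨h.1, Gge n w h.2.1, Hge n w h.2.2⟩
  have qmono : ∀ m n w, m ≤ n → q m w = 1 → q n w = 1 := fun m n w hmn h => by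
    rcases hmn.eq_or_lt with rfl | hlt
    · exact h
    · rcases qb m w with h' | ⟨-, h2, h3⟩
      · rw [h'] at h; exact absurd h zero_ne_one
      · have hl := lev_lt_rnb hlt
        simp only [q, ContinuousMap.mul_apply]
        rw [G1 n w (by linarith), H1 n w (by simp; linarith), mul_one]
  -- the logarithms
  let L : ℕ → C(c.Ω, ℂ) := fun n =>
    ⟨fun w => (lg_rnb (lev_rnb n) (f w).re : ℂ), Complex.continuous_ofReal.comp
      ((continuous_lg_rnb (lev_pos_rnb n) (lev_le_rnb n)).comp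
        (Complex.continuous_re.comp f.continuous))⟩
  have Lap : ∀ n w, L n w = (lg_rnb (lev_rnb n) (f w).re : ℂ) := fun n w => rfl
  let D : Dat B :=
    { q := fun n => c.π (q n)
      l := fun n => c.π (q n * L n)
      q_mem := fun n => hmem _
      l_mem := fun n => hmem _
      proj := fun n => (c.isProj_iff _).2 fun w => (q01 n w).imp id fun h => h.1
      sa := fun n => (c.sa_iff _).2 fun w => by
        rcases qb n w with h | h <;> simp [h, Lap]
      mono := fun m n hmn => by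
        rw [← c.map_mul]
        refine congrArg c.π (ContinuousMap.ext fun w => ?_)
        rcases qb m w with h | h
        · simp [h]
        · simp [h.1, qmono m n w hmn h.1]
      compat := fun m n hmn => by
        rw [← c.map_mul]
        refine congrArg c.π (ContinuousMap.ext fun w => ?_)
        rcases qb m w with h | h
        · simp [h]
        · have hn := qmono m n w hmn h.1
          rcases qb n w with h' | h'
          · rw [h'] at hn; exact absurd hn zero_ne_one
          · simp only [ContinuousMap.mul_apply, h.1, hn, Lap, one_mul]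
            rw [lg_eq_rnb h.2.1 h.2.2, lg_eq_rnb h'.2.1 h'.2.2] }
  have Dq : ∀ n, D.q n = c.π (q n) := fun n => rfl
  let E : ℕ → C(c.Ω, ℂ) := fun n =>
    ⟨fun w => Complex.exp ((q n * L n) w), Complex.continuous_exp.comp (q n * L n).continuous⟩
  have Dpw : ∀ n, D.pw 1 n = c.π (E n * q n) := fun n => by
    unfold Dat.pw
    rw [one_smul, c.map_mul]
    congr 1
    exact c.jexp_π fun w => rfl
  have Eap : ∀ n w, q n w = 1 → lev_rnb n ≤ (f w).re → (f w).re ≤ 1 - lev_rnb n →
      E n w * f w = 1 - f w := fun n w h h2 h3 => by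
    have hne : ((f w).re : ℂ) ≠ 0 := by
      have := lev_pos_rnb n
      exact_mod_cast (by linarith : (0 : ℝ) < (f w).re).ne'
    have : E n w = ((1 - (f w).re) / (f w).re : ℝ) := by
      rw [← exp_lg_rnb (lev_pos_rnb n) h2 h3, Complex.ofReal_exp]
      simp only [E, ContinuousMap.coe_mk, ContinuousMap.mul_apply, h, one_mul, Lap]
    rw [this]
    push_cast
    rw [← fre w] at hne ⊢
    field_simp
  refine ⟨D, fun n x => ?_, ?_, fun n => ?_⟩
  · rw [Dq, Dpw]
    refine rep_rnb hB.frame (b := c.π (f * q n + (1 - q n))) (hmem _) (hmem _) (hmem _)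
      (D.proj n).2 ?_ ?_ ?_ ?_ he htr x
    · rw [one_sub, c.π.norm_map]
      have hl := lev_pos_rnb n
      have hl2 := lev_le_rnb n
      refine lt_of_le_of_lt ((ContinuousMap.norm_le _ (by linarith : (0 : ℝ) ≤ 1 - lev_rnb n)).2
        fun w => ?_) (by linarith)
      rcases qb n w with h | h
      · simp [h]; linarith
      · have : (1 - (f * q n + (1 - q n))) w = ((1 - (f w).re : ℝ) : ℂ) := by
          simp only [ContinuousMap.sub_apply, ContinuousMap.add_apply, ContinuousMap.mul_apply,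
            ContinuousMap.one_apply, h.1]
          conv_lhs => rw [fre w]
          push_cast; ring
        rw [this, Complex.norm_real, Real.norm_eq_abs, abs_of_nonneg (by linarith [t1 w])]
        linarith [h.2.1]
    · rw [← map_sub, ← c.map_mul, ← map_zero c.π]
      refine congrArg c.π (ContinuousMap.ext fun w => ?_)
      rcases qb n w with h | h
      · simp [h]
      · simp [h.1]
    · rw [one_sub, ← c.map_mul, ← map_sub, ← c.map_mul, ← map_zero c.π]
      refine congrArg c.π (ContinuousMap.ext fun w => ?_)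
      rcases qb n w with h | h
      · simp [h]
      · simp [h.1, Eap n w h.1 h.2.1 h.2.2]
    · rw [← c.map_mul]
      refine congrArg c.π (ContinuousMap.ext fun w => ?_)
      rcases qb n w with h | h
      · simp [h]
      · simp [h.1]
  · -- the two estimates
    have smulre : ∀ (φ : M →L[ℂ] ℂ) (r : ℝ) (g : C(c.Ω, ℂ)),
        (φ (c.π ((r : ℂ) • g))).re = r * (φ (c.π g)).re := fun φ r g => by
      rw [map_smul, map_smul, smul_eq_mul, Complex.re_ofReal_mul]
    have hH : ∀ n, (W.ev ω (c.π (1 - H n))).re ≤ 2 * (W.ev ρ 1).re * lev_rnb n := fun n => by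
      have hl := lev_pos_rnb n
      have hl2 := lev_le_rnb n
      have e1 : (W.ev ω (c.π (((1 / 2 : ℝ) : ℂ) • (1 - H n)))).re
          ≤ (W.ev ω (c.π (f * (1 - H n)))).re := by
        refine chart_mono_rnb c hω fun w => ?_
        rcases H01 n w with h | h
        · have := Hle n w h
          simp only [ContinuousMap.smul_apply, ContinuousMap.sub_apply, ContinuousMap.one_apply,
            ContinuousMap.mul_apply, h, sub_zero, smul_eq_mul, mul_one]
          rw [fre w]
          exact_mod_cast (by linarith : (1 / 2 : ℝ) ≤ (f w).re)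
        · simp [h]
      have e2 : (W.ev ρ (c.π ((1 - f) * (1 - H n)))).re
          ≤ (W.ev ρ (c.π ((lev_rnb n : ℂ) • 1))).re := by
        refine chart_mono_rnb c hρ fun w => ?_
        rcases H01 n w with h | h
        · have := Hle n w h
          simp only [ContinuousMap.smul_apply, ContinuousMap.sub_apply, ContinuousMap.one_apply,
            ContinuousMap.mul_apply, h, sub_zero, smul_eq_mul, mul_one]
          rw [fre w]
          exact_mod_cast (by linarith : 1 - (f w).re ≤ lev_rnb n)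
        · simp [h, hl.le]
      rw [smulre, c.map_mul, he, one_sub, ← c.map_mul] at e1
      rw [smulre, c.map_one] at e2
      nlinarith
    have hG : ∀ n, (W.ev ρ (c.π (1 - G n))).re ≤ 2 * (W.ev ω 1).re * lev_rnb n := fun n => by
      have hl := lev_pos_rnb n
      have hl2 := lev_le_rnb n
      have e1 : (W.ev ρ (c.π (((1 / 2 : ℝ) : ℂ) • (1 - G n)))).re
          ≤ (W.ev ρ (c.π ((1 - f) * (1 - G n)))).re := by
        refine chart_mono_rnb c hρ fun w => ?_
        rcases G01 n w with h | h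
        · have := Gle n w h
          simp only [ContinuousMap.smul_apply, ContinuousMap.sub_apply, ContinuousMap.one_apply,
            ContinuousMap.mul_apply, h, sub_zero, smul_eq_mul, mul_one]
          rw [fre w]
          exact_mod_cast (by linarith : (1 / 2 : ℝ) ≤ 1 - (f w).re)
        · simp [h]
      have e2 : (W.ev ω (c.π (f * (1 - G n)))).re
          ≤ (W.ev ω (c.π ((lev_rnb n : ℂ) • 1))).re := by
        refine chart_mono_rnb c hω fun w => ?_
        rcases G01 n w with h | h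
        · have := Gle n w h
          simp only [ContinuousMap.smul_apply, ContinuousMap.sub_apply, ContinuousMap.one_apply,
            ContinuousMap.mul_apply, h, sub_zero, smul_eq_mul, mul_one]
          rw [fre w]
          exact_mod_cast this
        · simp [h, hl.le]
      rw [smulre, c.map_mul, ← one_sub f, ← he, ← c.map_mul] at e1
      rw [smulre, c.map_one] at e2
      nlinarith
    have pG : ∀ n, IsProj (c.π (1 - G n)) := fun n => by
      rw [← one_sub]; exact ((c.isProj_iff _).2 (G01 n)).one_sub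
    have pH : ∀ n, IsProj (c.π (1 - H n)) := fun n => by
      rw [← one_sub]; exact ((c.isProj_iff _).2 (H01 n)).one_sub
    have tH : Tendsto (fun n => (W.ev ω (c.π (1 - H n))).re) atTop (𝓝 0) :=
      squeeze_zero (fun n => hω.re_nonneg (pH n).isPos) hH
        (by simpa using lev_tendsto_rnb.const_mul (2 * (W.ev ρ 1).re))
    have tG : Tendsto (fun n => (W.ev ρ (c.π (1 - G n))).re) atTop (𝓝 0) :=
      squeeze_zero (fun n => hρ.re_nonneg (pG n).isPos) hG
        (by simpa using lev_tendsto_rnb.const_mul (2 * (W.ev ω 1).re))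
    have tG' := tendsto_of_ac_rnb pG hac tG
    have tGH := tG'.add tH
    rw [add_zero] at tGH
    refine squeeze_zero (fun n => hω.re_nonneg (D.proj n).one_sub.isPos) (fun n => ?_) tGH
    rw [Dq, one_sub, ← Complex.add_re, ← map_add, ← map_add]
    refine chart_mono_rnb c hω fun w => ?_
    rcases G01 n w with h | h <;> rcases H01 n w with h' | h' <;> simp [q, h, h']
  · rw [Dq, Dpw, ← map_add, ← c.map_mul]
    refine congrArg c.π (ContinuousMap.ext fun w => ?_)
    rcases qb n w with h | h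
    · simp [h]
    · have := Eap n w h.1 h.2.1 h.2.2
      simp only [ContinuousMap.mul_apply, ContinuousMap.add_apply, h.1, mul_one]
      linear_combination this

end WT

end Pool.Agent.MP_ab01c5_an

namespace Pool.Agent.MP_ab01c5_an

open Filter Topology
open scoped ComplexOrder

universe u v

variable {M : Type u} [JBU M] {X : Type v} [NormedAddCommGroup X] [NormedSpace ℂ X]
  [CompleteSpace X]

/-- The function `t ^ p / (t ^ p + (1 - t) ^ p)`. -/
noncomputable def F_rn (p t : ℝ) : ℝ := |t| ^ p / (|t| ^ p + |1 - t| ^ p)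

theorem den_pos_rn (p t : ℝ) : 0 < |t| ^ p + |1 - t| ^ p := by
  by_cases h : t = 0
  · subst h
    have := Real.rpow_nonneg (abs_nonneg (0 : ℝ)) p
    simp only [sub_zero, abs_one, Real.one_rpow]
    linarith
  · have h1 := Real.rpow_pos_of_pos (abs_pos.2 h) p
    have h2 := Real.rpow_nonneg (abs_nonneg (1 - t)) p
    linarith

theorem continuous_F_rn {p : ℝ} (hp : 0 ≤ p) : Continuous (F_rn p) := by
  have h1 : Continuous fun t : ℝ => |t| ^ p :=
    (Real.continuous_rpow_const hp).comp continuous_abs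
  have h2 : Continuous fun t : ℝ => |1 - t| ^ p :=
    h1.comp (continuous_const.sub continuous_id)
  exact h1.div (h1.add h2) fun t => (den_pos_rn p t).ne'

theorem one_sub_F_rn (p t : ℝ) : 1 - F_rn p t = |1 - t| ^ p / (|t| ^ p + |1 - t| ^ p) := by
  have := (den_pos_rn p t).ne'
  unfold F_rn
  field_simp
  ring

theorem F_nonneg_rn (p t : ℝ) : 0 ≤ F_rn p t :=
  div_nonneg (Real.rpow_nonneg (abs_nonneg _) _) (den_pos_rn p t).le

theorem F_le_one_rn (p t : ℝ) : 0 ≤ 1 - F_rn p t := by
  rw [one_sub_F_rn]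
  exact div_nonneg (Real.rpow_nonneg (abs_nonneg _) _) (den_pos_rn p t).le

theorem F_inv_rn {p t : ℝ} (hp : 0 < p) (h0 : 0 ≤ t) (h1 : t ≤ 1) :
    F_rn p⁻¹ (F_rn p t) = t := by
  have hS := den_pos_rn p t
  have hS' := Real.rpow_pos_of_pos hS p⁻¹
  have e1 : |F_rn p t| ^ p⁻¹ = t / (|t| ^ p + |1 - t| ^ p) ^ p⁻¹ := by
    rw [abs_of_nonneg (F_nonneg_rn p t), F_rn,
      Real.div_rpow (Real.rpow_nonneg (abs_nonneg _) _) hS.le,
      Real.rpow_rpow_inv (abs_nonneg _) hp.ne', abs_of_nonneg h0]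
  have e2 : |1 - F_rn p t| ^ p⁻¹ = (1 - t) / (|t| ^ p + |1 - t| ^ p) ^ p⁻¹ := by
    rw [abs_of_nonneg (F_le_one_rn p t), one_sub_F_rn,
      Real.div_rpow (Real.rpow_nonneg (abs_nonneg _) _) hS.le,
      Real.rpow_rpow_inv (abs_nonneg _) hp.ne', abs_of_nonneg (sub_nonneg.2 h1)]
  rw [F_rn, e1, e2]
  field_simp
  ring

theorem F_exp_rn {p t l : ℝ} (h0 : 0 ≤ t) (h : t * (1 + Real.exp l) = 1) :
    Real.exp (p * l) * F_rn p t = 1 - F_rn p t := by
  have e : 1 - t = Real.exp l * t := by linarith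
  have hpos := Real.exp_pos l
  rw [one_sub_F_rn, F_rn, ← mul_div_assoc]
  congr 1
  rw [e, abs_mul, Real.mul_rpow (abs_nonneg _) (abs_nonneg _), abs_of_pos hpos, mul_comm p l,
    Real.exp_mul]

theorem F_bound_rn {p t : ℝ} (hp : 1 ≤ p) (h0 : 0 ≤ t) (h1 : t ≤ 1) :
    1 - F_rn p t ≤ 2 ^ p * (1 - t) := by
  have hS := den_pos_rn p t
  have hp0 : 0 ≤ p := by linarith
  have h2 : (0 : ℝ) < 2 ^ p := Real.rpow_pos_of_pos two_pos p
  have a1 : |1 - t| ^ p ≤ 1 - t := by
    rw [abs_of_nonneg (sub_nonneg.2 h1)]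
    exact Real.rpow_le_self_of_le_one (sub_nonneg.2 h1) (by linarith) hp
  have a2 : 1 ≤ 2 ^ p * (|t| ^ p + |1 - t| ^ p) := by
    have key : ∀ s : ℝ, 1 / 2 ≤ s → 1 ≤ 2 ^ p * |s| ^ p := by
      intro s hs
      rw [← Real.mul_rpow two_pos.le (abs_nonneg _)]
      exact Real.one_le_rpow (by rw [abs_of_nonneg (by linarith)]; linarith) hp0
    have b1 := mul_nonneg h2.le (Real.rpow_nonneg (abs_nonneg t) p)
    have b2 := mul_nonneg h2.le (Real.rpow_nonneg (abs_nonneg (1 - t)) p)
    rcases le_total (1 / 2) t with h | h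
    · have := key t h
      linarith
    · have := key (1 - t) (by linarith)
      linarith
  rw [one_sub_F_rn, div_le_iff₀ hS]
  nlinarith [sub_nonneg.2 h1]

namespace WT

variable {W : WT M X}

/-- Uniqueness of `p`-th roots: the bounded transform of `h ^ p` generates that of `h`. -/
theorem exists_beta {B : Submodule ℂ M} (hB : SFrame B) {a : M} (ha : a ∈ B)
    (h0 : IsPos a) (h1 : IsPos (1 - a)) (D : Dat B) (hD : ∀ n, a * (D.q n + D.pw 1 n) = D.q n)
    (hlim : Tendsto (fun n => (W.t ((1 - a) * (1 - D.q n))).re) atTop (𝓝 0))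
    {p : ℝ} (hp : 1 ≤ p) {φ : X} (hφ : Tendsto (fun n => W.i (D.pw p n)) atTop (𝓝 φ)) :
    ∃ β : M, star β = β ∧ (∀ x : M, W.ev φ (β * x) = W.t ((1 - β) * x)) ∧
      ∀ B' : Submodule ℂ M, SAlg B' → β ∈ B' → a ∈ B' := by
  obtain ⟨c, hc⟩ := exists_chart hB
  obtain ⟨f, rfl⟩ := (hc _).1 ha
  choose g hg using fun n => (hc _).1 (D.q_mem n)
  choose h hh using fun n => (hc _).1 (D.l_mem n)
  have hp0 : 0 < p := by linarith
  have f0 : ∀ ω, 0 ≤ (f ω).re ∧ (f ω).im = 0 := fun ω => by
    have := Complex.le_def.1 ((c.isPos_iff f).1 h0 ω)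
    exact ⟨by simpa using this.1, by simpa using this.2.symm⟩
  have f1 : ∀ ω, (f ω).re ≤ 1 := fun ω => by
    have e : 1 - c.π f = c.π (1 - f) := by rw [map_sub, c.map_one]
    have := Complex.le_def.1 ((c.isPos_iff _).1 (e ▸ h1) ω)
    simpa using this.1
  have fre : ∀ ω, f ω = ((f ω).re : ℂ) := fun ω =>
    Complex.ext (by simp) (by simp [(f0 ω).2])
  have g01 : ∀ n ω, g n ω = 0 ∨ g n ω = 1 := fun n =>
    (c.isProj_iff _).1 (by rw [hg]; exact D.proj n)
  have hre : ∀ n ω, h n ω = ((h n ω).re : ℂ) := fun n ω => by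
    have := (c.sa_iff (h n)).1 (by rw [hh]; exact D.sa n) ω
    exact Complex.ext (by simp) (by simp [this])
  let E : ℂ → ℕ → C(c.Ω, ℂ) := fun z n =>
    ⟨fun ω => Complex.exp (z * h n ω), by fun_prop⟩
  have hpw : ∀ z n, D.pw z n = c.π (E z n * g n) := fun z n => by
    rw [Dat.pw, ← hh, ← hg, ← map_smul, c.jexp_π (k := E z n) (fun ω => rfl), c.map_mul]
  let k : C(c.Ω, ℂ) := ⟨fun ω => ((F_rn p (f ω).re : ℝ) : ℂ),
    Complex.continuous_ofReal.comp ((continuous_F_rn hp0.le).comp
      (Complex.continuous_re.comp f.continuous))⟩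
  have hk : ∀ ω, k ω = ((F_rn p (f ω).re : ℝ) : ℂ) := fun ω => rfl
  have hD' : ∀ n ω, g n ω = 1 → (f ω).re * (1 + Real.exp (h n ω).re) = 1 := by
    intro n ω hω
    have e := hD n
    rw [hpw, ← hg, ← map_add, ← c.map_mul] at e
    have e2 := DFunLike.congr_fun (c.π.injective e) ω
    simp only [ContinuousMap.mul_apply, ContinuousMap.add_apply, hω, E, ContinuousMap.coe_mk,
      one_mul, mul_one] at e2
    rw [fre ω, hre n ω] at e2
    exact_mod_cast e2
  have key : ∀ n, D.pw p n * c.π k = (1 - c.π k) * D.q n := by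
    intro n
    rw [hpw, ← hg, ← c.map_one, ← map_sub, ← c.map_mul, ← c.map_mul]
    refine congrArg c.π (ContinuousMap.ext fun ω => ?_)
    simp only [ContinuousMap.mul_apply, ContinuousMap.sub_apply, ContinuousMap.one_apply, hk, E,
      ContinuousMap.coe_mk]
    rcases g01 n ω with hω | hω
    · simp [hω]
    · have := F_exp_rn (p := p) (f0 ω).1 (hD' n ω hω)
      rw [hω, mul_one, mul_one, hre n ω]
      exact_mod_cast this
  refine ⟨c.π k, (c.sa_iff k).2 fun ω => by simp [hk], fun x => ?_, fun B' hB' hm => ?_⟩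
  · have t1 : Tendsto (fun n => W.ev (W.i (D.pw p n)) (c.π k * x)) atTop
        (𝓝 (W.ev φ (c.π k * x))) :=
      ((W.ev.flip (c.π k * x)).continuous.tendsto φ).comp hφ
    have e1 : ∀ n, W.ev (W.i (D.pw p n)) (c.π k * x) =
        W.t ((1 - c.π k) * x) - W.t ((1 - c.π k) * (1 - D.q n) * x) := by
      intro n
      rw [W.ev_i, ← W.isTr.assoc, key, mul_sub (1 - c.π k), mul_one, sub_mul (1 - c.π k), map_sub]
      ring
    have hy : ∀ n, (1 - c.π k) * (1 - D.q n) = c.π ((1 - k) * (1 - g n)) := fun n => by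
      rw [c.map_mul, map_sub, map_sub, c.map_one, hg]
    have hy' : ∀ n, (1 - c.π f) * (1 - D.q n) = c.π ((1 - f) * (1 - g n)) := fun n => by
      rw [c.map_mul, map_sub, map_sub, c.map_one, hg]
    have p1 : ∀ n, IsPos ((1 - c.π k) * (1 - D.q n)) := by
      intro n
      rw [hy, c.isPos_iff]
      intro ω
      simp only [ContinuousMap.mul_apply, ContinuousMap.sub_apply, ContinuousMap.one_apply, hk]
      rcases g01 n ω with hω | hω
      · rw [hω, sub_zero, mul_one]
        exact_mod_cast F_le_one_rn p (f ω).re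
      · simp [hω]
    have p2 : ∀ n, IsPos ((((2 : ℝ) ^ p : ℝ) : ℂ) • ((1 - c.π f) * (1 - D.q n)) -
        (1 - c.π k) * (1 - D.q n)) := by
      intro n
      rw [hy, hy', ← map_smul, ← map_sub, c.isPos_iff]
      intro ω
      simp only [ContinuousMap.mul_apply, ContinuousMap.sub_apply, ContinuousMap.one_apply, hk,
        ContinuousMap.smul_apply, smul_eq_mul]
      rcases g01 n ω with hω | hω
      · rw [hω, sub_zero, mul_one, mul_one, fre ω, Complex.ofReal_re]
        have := sub_nonneg.2 (F_bound_rn hp (f0 ω).1 (f1 ω))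
        exact_mod_cast this
      · simp [hω]
    have t2 : Tendsto (fun n => W.t ((1 - c.π k) * (1 - D.q n) * x)) atTop (𝓝 0) := by
      have t3 := (hlim.const_mul ((2 : ℝ) ^ p)).mul_const ‖x‖
      rw [mul_zero, zero_mul] at t3
      refine squeeze_zero_norm (fun n => ?_) t3
      have b1 := (W.isTr.posF_mul (p1 n)).norm_le x
      have b2 := W.isTr.pos.mono (p2 n)
      simp only [ContinuousLinearMap.comp_apply, mulL_apply, mul_one] at b1
      rw [map_smul, smul_eq_mul, Complex.re_ofReal_mul] at b2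
      exact b1.trans (mul_le_mul_of_nonneg_right b2 (norm_nonneg x))
    have t4 := (tendsto_const_nhds (x := W.t ((1 - c.π k) * x))).sub t2
    rw [sub_zero] at t4
    exact tendsto_nhds_unique t1 (t4.congr fun n => (e1 n).symm)
  · refine c.mem_of_comp hB' (f := k) (fun ω => by simp [hk]) hm
      (g := fun u => ((F_rn p⁻¹ u : ℝ) : ℂ))
      (Complex.continuous_ofReal.comp (continuous_F_rn (inv_pos.2 hp0).le)) fun ω => ?_
    rw [hk, Complex.ofReal_re, F_inv_rn hp0 (f0 ω).1 (f1 ω)]
    exact fre ω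

end WT

end Pool.Agent.MP_ab01c5_an
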