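import Pool.Agent.MP_ab01c5_an.JBall
import Pool.Agent.MP_ab01c5_an.JRN
import Pool.Agent.MP_ab01c5_an.JInterp

/-!
# The map `x ↦ U_{k^{θ/2}} x` from `M` to `L^p` for an integrable density `k`
-/

namespace Pool.Agent.MP_ab01c5_an

open Filter Topology

universe u v

variable {M : Type u} [JBU M] {X : Type v} [NormedAddCommGroup X] [NormedSpace ℂ X]
  [CompleteSpace X]

namespace WT

variable {W : WT M X} {c : Cpl M X} {B : Submodule ℂ M} {D : Dat B}

/-- The positive cone of the interpolation space. -/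
def cone (c : Cpl M X) : Set c.L := closure (c.ι '' {x : M | IsPos x})

/-- `Wm x = U_{k^{θ/2}} x`. -/
def IsWMap (c : Cpl M X) (D : Dat B) (Wm : M →L[ℂ] c.L) : Prop :=
  ∀ x : M, Tendsto (fun n => c.ι (tri (D.pw (c.θ / 2) n) x (D.pw (c.θ / 2) n))) atTop (𝓝 (Wm x))

omit [CompleteSpace X] in
theorem mono_wmapa (hB : SFrame B) : Monotone fun n => (W.t (D.pw 1 n)).re :=
  fun _ _ h => W.isTr.pos.mono (D.pw_sub_pos hB (by simp) h)

omit [CompleteSpace X] in
theorem gap_wmapa (hB : SFrame B) {Φ : ℝ} (hΦ : ∀ n, (W.t (D.pw 1 n)).re ≤ Φ) :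
    ∃ b : ℕ → ℝ, Tendsto b atTop (𝓝 0) ∧ ∀ m n, m ≤ n →
      (W.t (D.pw 1 n - D.pw 1 m)).re ≤ b m := by
  have hb : BddAbove (Set.range fun n => (W.t (D.pw 1 n)).re) := ⟨Φ, by
    rintro _ ⟨n, rfl⟩
    exact hΦ n⟩
  have h1 := tendsto_atTop_ciSup (mono_wmapa (W := W) (D := D) hB) hb
  refine ⟨fun m => (⨆ n, (W.t (D.pw 1 n)).re) - (W.t (D.pw 1 m)).re, ?_, fun m n _ => ?_⟩
  · have h2 := h1.const_sub (⨆ n, (W.t (D.pw 1 n)).re)
    rwa [sub_self] at h2
  · rw [map_sub, Complex.sub_re]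
    exact sub_le_sub_right (le_ciSup hb n) _

theorem U_q_pw_wmapa (hB : SFrame B) (z : ℂ) {m n : ℕ} (h : m ≤ n) :
    tri (D.q m) (D.pw z n) (D.q m) = D.pw z m := by
  rw [hB.frame.tri_eq (D.q_mem m) (D.pw_mem hB z n) (D.q_mem m), D.q_mul_pw hB z h,
    D.pw_mul_q hB z le_rfl]

theorem s_mul_pw_wmapa (hB : SFrame B) {s : M} (hs : IsProj s) (hsq : ∀ n, s * D.q n = D.q n)
    (z : ℂ) (n : ℕ) : s * D.pw z n = D.pw z n := by
  have h1 := (U_fix_U_idem hs.2 (hsq n) (D.pw z n)).2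
  rwa [U_q_pw_wmapa hB z le_rfl] at h1

theorem diff_mul_wmapa {f g : ℂ → M} (hf : Differentiable ℂ f) (hg : Differentiable ℂ g) :
    Differentiable ℂ fun z => f z * g z :=
  ((mulL (M := M)).differentiable.comp hf).clm_apply hg

theorem diff_tri_wmapa {f g : ℂ → M} (hf : Differentiable ℂ f) (hg : Differentiable ℂ g) (x : M) :
    Differentiable ℂ fun z => tri (f z) x (g z) :=
  ((diff_mul_wmapa (diff_mul_wmapa hf (differentiable_const x)) hg).add
    (diff_mul_wmapa (diff_mul_wmapa hg (differentiable_const x)) hf)).sub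
    (diff_mul_wmapa (diff_mul_wmapa hf hg) (differentiable_const x))

theorem diff_half_wmapa (n : ℕ) : Differentiable ℂ fun z : ℂ => D.pw (z / 2) n :=
  (D.differentiable_pw n).comp (differentiable_id.div_const 2)

theorem norm_half_wmapa (n : ℕ) {z : ℂ} (h0 : 0 ≤ z.re) (h1 : z.re ≤ 1) :
    ‖D.pw (z / 2) n‖ ≤ Real.exp ‖D.l n‖ := by
  refine (D.norm_pw_le _ n).trans (Real.exp_le_exp.2 (mul_le_of_le_one_left (norm_nonneg _) ?_))
  rw [Complex.div_ofNat_re, abs_le]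
  constructor <;> linarith

omit [CompleteSpace X] in
theorem sn_half_wmapa (hB : SFrame B) (n : ℕ) (t : ℝ) :
    sn W.t (D.pw ((1 + t * Complex.I) / 2) n) = Real.sqrt (W.t (D.pw 1 n)).re := by
  have h1 : (1 + t * Complex.I) / 2 + star ((1 + t * Complex.I) / 2) = (1 : ℂ) := by
    apply Complex.ext
    all_goals
      simp
      ring
  rw [sn, D.star_pw hB, D.pw_mul hB _ _ le_rfl, h1]

omit [CompleteSpace X] in
theorem sn_sub_wmapa (hB : SFrame B) {m n : ℕ} (h : m ≤ n) (t : ℝ) :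
    sn W.t (D.pw ((1 + t * Complex.I) / 2) n - D.pw ((1 + t * Complex.I) / 2) m) =
      Real.sqrt (W.t (D.pw 1 n - D.pw 1 m)).re := by
  have h1 : ((2 * ((1 + t * Complex.I) / 2 : ℂ).re : ℝ) : ℂ) = 1 := by simp
  rw [sn, D.pw_sub_mul_star hB _ h, h1]

theorem est_wmapa (hc : c.i = W.i) (hB : SFrame B) {Φ b : ℝ}
    (hΦ : ∀ n, (W.t (D.pw 1 n)).re ≤ Φ) {m n : ℕ} (h : m ≤ n)
    (hb : (W.t (D.pw 1 n - D.pw 1 m)).re ≤ b) (x : M) :
    ‖c.ι (tri (D.pw (c.θ / 2) n) x (D.pw (c.θ / 2) n)) -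
      c.ι (tri (D.pw (c.θ / 2) m) x (D.pw (c.θ / 2) m))‖ ≤
      12 ^ (1 - c.θ) * (6 * Real.sqrt Φ * Real.sqrt b) ^ c.θ * ‖x‖ := by
  have hx := norm_nonneg x
  have h1 := c.norm_ι_le_of
    (G := fun z => tri (D.pw (z / 2) n - D.pw (z / 2) m) x (D.pw (z / 2) n + D.pw (z / 2) m))
    (diff_tri_wmapa ((diff_half_wmapa n).sub (diff_half_wmapa m))
      ((diff_half_wmapa n).add (diff_half_wmapa m)) x)
    ⟨3 * ((Real.exp ‖D.l n‖ + Real.exp ‖D.l m‖) * ‖x‖ * (Real.exp ‖D.l n‖ + Real.exp ‖D.l m‖)),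
      fun z h0 h1 => by
        refine (norm_tri_le _ _ _).trans ?_
        have a1 := (norm_sub_le _ _).trans
          (add_le_add (norm_half_wmapa (D := D) n h0 h1) (norm_half_wmapa (D := D) m h0 h1))
        have a2 := (norm_add_le _ _).trans
          (add_le_add (norm_half_wmapa (D := D) n h0 h1) (norm_half_wmapa (D := D) m h0 h1))
        gcongr⟩
    (A := 12 * ‖x‖) (B := 6 * Real.sqrt Φ * Real.sqrt b * ‖x‖) (by positivity) (by positivity)
    (fun t => by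
      have a0 : ∀ k, ‖D.pw (t * Complex.I / 2) k‖ ≤ 1 := fun k => D.norm_pw_im (by simp) k
      have a1 := (norm_sub_le _ _).trans (add_le_add (a0 n) (a0 m))
      have a2 := (norm_add_le _ _).trans (add_le_add (a0 n) (a0 m))
      calc _ ≤ _ := norm_tri_le _ _ _
        _ ≤ 3 * ((1 + 1) * ‖x‖ * (1 + 1)) := by gcongr
        _ = _ := by ring)
    (fun t => by
      rw [hc]
      have a0 : ∀ k, sn W.t (D.pw ((1 + t * Complex.I) / 2) k) ≤ Real.sqrt Φ := fun k => by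
        rw [sn_half_wmapa hB]
        exact Real.sqrt_le_sqrt (hΦ k)
      have a1 : sn W.t (D.pw ((1 + t * Complex.I) / 2) n - D.pw ((1 + t * Complex.I) / 2) m) ≤
          Real.sqrt b := by
        rw [sn_sub_wmapa hB h]
        exact Real.sqrt_le_sqrt hb
      have a2 := (W.isTr.pos.sn_add_le _ _).trans (add_le_add (a0 n) (a0 m))
      calc _ ≤ _ := W.norm_i_tri_le _ _ _
        _ ≤ 3 * (Real.sqrt b * (Real.sqrt Φ + Real.sqrt Φ) * ‖x‖) :=
          mul_le_mul_of_nonneg_left (mul_le_mul_of_nonneg_right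
            (mul_le_mul a1 a2 (sn_nonneg _ _) (Real.sqrt_nonneg _)) hx) (by norm_num)
        _ = _ := by ring)
  have h2 : ∀ a a' : M, tri (a - a') x (a + a') = tri a x a - tri a' x a' := by
    intro a a'
    rw [tri_sub_left, tri_add_right, tri_add_right, tri_comm a' x a]
    abel
  rw [h2, map_sub] at h1
  refine h1.trans (le_of_eq ?_)
  rw [Real.mul_rpow (by norm_num) hx, Real.mul_rpow (by positivity) hx]
  have h3 : ‖x‖ ^ (1 - c.θ) * ‖x‖ ^ c.θ = ‖x‖ := by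
    rw [← Real.rpow_add' hx (by norm_num), sub_add_cancel, Real.rpow_one]
  calc _ = 12 ^ (1 - c.θ) * (6 * Real.sqrt Φ * Real.sqrt b) ^ c.θ *
        (‖x‖ ^ (1 - c.θ) * ‖x‖ ^ c.θ) := by ring
    _ = _ := by rw [h3]

theorem posF_of_mem_cone (hc : c.i = W.i) {y : c.L} (hy : y ∈ cone c) :
    PosF (W.ev (c.val y)) := by
  have h1 : IsClosed {y : c.L | PosF (W.ev (c.val y))} :=
    W.isClosed_posF.preimage c.val.continuous
  refine closure_minimal ?_ h1 hy
  rintro _ ⟨x, hx, rfl⟩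
  show PosF (W.ev (c.val (c.ι x)))
  rw [c.val_ι, hc]
  exact W.posF_i hx

theorem exists_phi (hB : SFrame B) {Φ : ℝ} (hΦ : ∀ n, (W.t (D.pw 1 n)).re ≤ Φ) :
    ∃ φ : X, Tendsto (fun n => W.i (D.pw 1 n)) atTop (𝓝 φ) := by
  obtain ⟨b, hb0, hb⟩ := gap_wmapa hB hΦ
  refine cauchySeq_tendsto_of_complete (cauchySeq_of_le_tendsto_0' b (fun m n h => ?_) hb0)
  rw [dist_comm, dist_eq_norm, ← map_sub, W.norm_i_pos (D.pw_sub_pos hB (by simp) h)]
  exact hb m n h

theorem phi_posF (hB : SFrame B) {φ : X} (hφ : Tendsto (fun n => W.i (D.pw 1 n)) atTop (𝓝 φ)) :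
    PosF (W.ev φ) := by
  exact W.isClosed_posF.mem_of_tendsto hφ
    (Eventually.of_forall fun n => W.posF_i (D.pw_pos hB (by simp) n))

theorem t_pw_mul_le (hB : SFrame B) {φ : X} (hφ : Tendsto (fun n => W.i (D.pw 1 n)) atTop (𝓝 φ))
    (n : ℕ) {x : M} (hx : IsPos x) : (W.t (D.pw 1 n * x)).re ≤ (W.ev φ x).re := by
  have h1 : Tendsto (fun m => (W.ev (W.i (D.pw 1 m)) x).re) atTop (𝓝 (W.ev φ x).re) :=
    (Complex.continuous_re.tendsto _).comp (((W.ev.flip x).continuous.tendsto _).comp hφ)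
  refine ge_of_tendsto h1 ?_
  filter_upwards [eventually_ge_atTop n] with m hm
  have h2 := (Complex.le_def.1 (W.isTr.mul_nonneg (D.pw_sub_pos hB (z := 1) (by simp) hm) hx)).1
  rw [sub_mul, map_sub, Complex.sub_re, Complex.zero_re] at h2
  rw [W.ev_i]
  linarith

theorem ev_phi_U (hB : SFrame B) {φ : X} (hφ : Tendsto (fun n => W.i (D.pw 1 n)) atTop (𝓝 φ))
    (n : ℕ) (x : M) : W.ev φ (tri (D.q n) x (D.q n)) = W.t (D.pw 1 n * x) := by
  have h1 : Tendsto (fun m => W.ev (W.i (D.pw 1 m)) (tri (D.q n) x (D.q n))) atTop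
      (𝓝 (W.ev φ (tri (D.q n) x (D.q n)))) :=
    ((W.ev.flip (tri (D.q n) x (D.q n))).continuous.tendsto _).comp hφ
  refine tendsto_nhds_unique h1 (tendsto_const_nhds.congr' ?_)
  filter_upwards [eventually_ge_atTop n] with m hm
  rw [W.ev_i, mul_comm (D.pw 1 m), W.isTr.tri_mul, U_q_pw_wmapa hB 1 hm, mul_comm]

/-- Hoelder's inequality against `k ^ (1 - θ)`. -/
theorem holder_pw (hc : c.i = W.i) (hB : SFrame B) (n : ℕ) (y : c.L) :
    ‖W.ev (c.val y) (D.pw (1 - c.θ) n)‖ ≤ (W.t (D.pw 1 n)).re ^ (1 - c.θ) * ‖y‖ := by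
  have h1 := c.holder (Λ := fun z => W.e (D.pw (1 - z) n))
    (W.e.toContinuousLinearEquiv.differentiable.comp
      ((D.differentiable_pw n).comp (differentiable_id.const_sub 1)))
    ⟨Real.exp ‖D.l n‖, fun z h0 h1 => by
      rw [W.e.norm_map]
      refine (D.norm_pw_le _ n).trans
        (Real.exp_le_exp.2 (mul_le_of_le_one_left (norm_nonneg _) ?_))
      rw [Complex.sub_re, Complex.one_re, abs_le]
      constructor <;> linarith⟩
    (A := (W.t (D.pw 1 n)).re) (B := 1) (W.isTr.pos.re_nonneg (D.pw_pos hB (by simp) n))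
    zero_le_one
    (fun t x => by
      have a1 := (W.isTr.posF_mul (D.pw_pos hB (z := 1) (by simp) n)).norm_le
        (x * D.pw (-(t * Complex.I)) n)
      simp only [ContinuousLinearMap.comp_apply, mulL_apply, mul_one] at a1
      have a2 : ‖x * D.pw (-(t * Complex.I)) n‖ ≤ ‖x‖ :=
        (jnorm_mul_le _ _).trans (mul_le_of_le_one_right (norm_nonneg _)
          (D.norm_pw_im (by simp) n))
      rw [← W.ev_apply, hc, W.ev_i, sub_eq_add_neg, ← D.pw_mul hB 1 _ le_rfl,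
        W.isTr.mul_left_comm]
      exact a1.trans (mul_le_mul_of_nonneg_left a2
        (W.isTr.pos.re_nonneg (D.pw_pos hB (by simp) n))))
    (fun t ξ => by
      rw [← W.ev_apply, one_mul]
      exact (W.norm_ev_le _ _).trans (mul_le_of_le_one_right (norm_nonneg _)
        (D.norm_pw_im (by simp) n))) y
  rw [Real.one_rpow, mul_one] at h1
  exact h1

theorem exists_wmap (hc : c.i = W.i) (hB : SFrame B) {Φ : ℝ}
    (hΦ : ∀ n, (W.t (D.pw 1 n)).re ≤ Φ) : ∃ Wm : M →L[ℂ] c.L, IsWMap c D Wm := by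
  obtain ⟨b, hb0, hb⟩ := gap_wmapa hB hΦ
  have h1 : CauchySeq fun n => c.ι.comp (triL (D.pw (c.θ / 2) n) (D.pw (c.θ / 2) n)) := by
    refine cauchySeq_of_le_tendsto_0'
      (fun m => 12 ^ (1 - c.θ) * (6 * Real.sqrt Φ * Real.sqrt (b m)) ^ c.θ) (fun m n h => ?_) ?_
    · rw [dist_comm, dist_eq_norm]
      refine ContinuousLinearMap.opNorm_le_bound _ (by positivity) fun x => ?_
      simp only [sub_apply, ContinuousLinearMap.comp_apply, triL_apply]
      exact est_wmapa hc hB hΦ h (hb m n h) x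
    · have h2 := (((hb0.sqrt.const_mul (6 * Real.sqrt Φ)).rpow_const (Or.inr c.h0.le)).const_mul
        (12 ^ (1 - c.θ)))
      rwa [Real.sqrt_zero, mul_zero, Real.zero_rpow c.h0.ne', mul_zero] at h2
  obtain ⟨T, hT⟩ := cauchySeq_tendsto_of_complete h1
  refine ⟨T, fun x => ?_⟩
  have h2 := ((ContinuousLinearMap.apply ℂ c.L x).continuous.tendsto _).comp hT
  refine h2.congr fun n => ?_
  simp only [Function.comp, ContinuousLinearMap.apply_apply, ContinuousLinearMap.comp_apply,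
    triL_apply]

variable {Wm : M →L[ℂ] c.L}

theorem IsWMap.tendsto_val (hc : c.i = W.i) (h : IsWMap c D Wm) (x : M) :
    Tendsto (fun n => W.i (tri (D.pw (c.θ / 2) n) x (D.pw (c.θ / 2) n))) atTop
      (𝓝 (c.val (Wm x))) := by
  have h1 := (c.val.continuous.tendsto _).comp (h x)
  refine h1.congr fun n => ?_
  simp only [Function.comp, Cpl.val_ι, hc]

theorem IsWMap.ev_U (hc : c.i = W.i) (hB : SFrame B) (h : IsWMap c D Wm) (x y : M) (m : ℕ) :
    W.ev (c.val (Wm x)) (tri (D.q m) y (D.q m))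
      = W.t (tri (D.pw (c.θ / 2) m) x (D.pw (c.θ / 2) m) * y) := by
  have h1 : Tendsto (fun n => W.ev (W.i (tri (D.pw (c.θ / 2) n) x (D.pw (c.θ / 2) n)))
      (tri (D.q m) y (D.q m))) atTop (𝓝 (W.ev (c.val (Wm x)) (tri (D.q m) y (D.q m)))) :=
    ((W.ev.flip (tri (D.q m) y (D.q m))).continuous.tendsto _).comp (h.tendsto_val hc x)
  refine tendsto_nhds_unique h1 (tendsto_const_nhds.congr' ?_)
  filter_upwards [eventually_ge_atTop m] with n hn
  rw [W.ev_i, W.isTr.tri_mul, W.isTr.tri_mul, ← D.pw_zero m, D.U_pw_pw hB _ _ hn, add_zero]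

theorem IsWMap.ev_pw (hc : c.i = W.i) (hB : SFrame B) (h : IsWMap c D Wm) (w : M) (n : ℕ) :
    W.ev (c.val (Wm w)) (D.pw (1 - c.θ) n) = W.t (D.pw 1 n * w) := by
  have h1 := h.ev_U hc hB w (D.pw (1 - c.θ) n) n
  have h2 : (c.θ : ℂ) / 2 + (1 - c.θ) + c.θ / 2 = 1 := by ring
  rw [U_q_pw_wmapa hB _ le_rfl, W.isTr.tri_mul,
    hB.frame.tri_eq (D.pw_mem hB _ n) (D.pw_mem hB _ n) (D.pw_mem hB _ n),
    D.pw_mul hB _ _ le_rfl, D.pw_mul hB _ _ le_rfl, h2, mul_comm] at h1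
  exact h1

theorem IsWMap.mem_cone (hB : SFrame B) (h : IsWMap c D Wm) {x : M} (hx : IsPos x) :
    Wm x ∈ cone c := by
  exact mem_closure_of_tendsto (h x) (Eventually.of_forall fun n =>
    ⟨_, (D.pw_pos hB (by simp) n).U hx, rfl⟩)

theorem IsWMap.U_inv (hB : SFrame B) (h : IsWMap c D Wm) (x : M) (n : ℕ) :
    Wm (tri (D.pw (-(c.θ / 2)) n) x (D.pw (-(c.θ / 2)) n)) = c.ι (tri (D.q n) x (D.q n)) := by
  refine tendsto_nhds_unique (h _) (tendsto_const_nhds.congr' ?_)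
  filter_upwards [eventually_ge_atTop n] with m hm
  rw [D.U_pw_pw hB _ _ hm, add_neg_cancel, D.pw_zero]

theorem IsWMap.U_s (hB : SFrame B) (h : IsWMap c D Wm) {s : M} (hs : IsProj s)
    (hsq : ∀ n, s * D.q n = D.q n) (x : M) : Wm (tri s x s) = Wm x := by
  refine tendsto_nhds_unique (h _) ((h x).congr fun n => ?_)
  rw [(U_fix_U_idem hs.2 (s_mul_pw_wmapa hB hs hsq _ n) x).1]

theorem IsWMap.Upre_s (hc : c.i = W.i) (hB : SFrame B) (h : IsWMap c D Wm) {s : M}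
    (hs : IsProj s) (hsq : ∀ n, s * D.q n = D.q n) (x : M) :
    W.Upre s (c.val (Wm x)) = c.val (Wm x) := by
  have h1 := h.tendsto_val hc x
  refine tendsto_nhds_unique (((W.Upre s).continuous.tendsto _).comp h1) (h1.congr fun n => ?_)
  simp only [Function.comp]
  rw [W.Upre_i, U_idem_of_fix hs.2 (U_fix_U_idem hs.2 (s_mul_pw_wmapa hB hs hsq _ n) x).2]

end WT

end Pool.Agent.MP_ab01c5_an

namespace Pool.Agent.MP_ab01c5_an

open Filter Topology

universe u v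

variable {M : Type u} [JBU M] {X : Type v} [NormedAddCommGroup X] [NormedSpace ℂ X]
  [CompleteSpace X]

theorem diff_mul_wmap {a b : ℂ → M} (ha : Differentiable ℂ a) (hb : Differentiable ℂ b) :
    Differentiable ℂ fun z => a z * b z :=
  ((mulL (M := M)).differentiable.comp ha).clm_apply hb

theorem diff_tri_wmap {a x b : ℂ → M} (ha : Differentiable ℂ a) (hx : Differentiable ℂ x)
    (hb : Differentiable ℂ b) : Differentiable ℂ fun z => tri (a z) (x z) (b z) :=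
  ((diff_mul_wmap (diff_mul_wmap ha hx) hb).add (diff_mul_wmap (diff_mul_wmap hb hx) ha)).sub
    (diff_mul_wmap (diff_mul_wmap ha hb) hx)

theorem norm_pw_wmap {B : Submodule ℂ M} (D : Dat B) {z : ℂ} (h0 : 0 ≤ z.re) (h1 : z.re ≤ 1)
    (n : ℕ) : ‖D.pw (z / 2) n‖ ≤ Real.exp ‖D.l n‖ := by
  refine (D.norm_pw_le _ n).trans (Real.exp_le_exp.2 (mul_le_of_le_one_left (norm_nonneg _) ?_))
  rw [Complex.div_ofNat_re, abs_le]
  constructor <;> linarith

namespace WT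

variable {W : WT M X} {c : Cpl M X} {B : Submodule ℂ M} {D : Dat B} {Wm : M →L[ℂ] c.L}

theorem norm_ι_wmap (W : WT M X) (c : Cpl M X) (hB : SFrame B) (D : Dat B) (n : ℕ) {x : ℂ → M}
    (hx : Differentiable ℂ x) {C A E : ℝ} (hC : ∀ z : ℂ, 0 ≤ z.re → z.re ≤ 1 → ‖x z‖ ≤ C)
    (hA0 : 0 ≤ A) (hE0 : 0 ≤ E) (hA : ∀ t : ℝ, ‖x (t * Complex.I)‖ ≤ A)
    (hE : ∀ t : ℝ, ‖c.i (tri (D.pw ((1 + t * Complex.I) / 2) n) (x (1 + t * Complex.I))
      (D.pw ((1 + t * Complex.I) / 2) n))‖ ≤ E) :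
    ‖c.ι (tri (D.pw (c.θ / 2) n) (x c.θ) (D.pw (c.θ / 2) n))‖ ≤ A ^ (1 - c.θ) * E ^ c.θ := by
  have hd : Differentiable ℂ fun z : ℂ => D.pw (z / 2) n :=
    (D.differentiable_pw n).comp (differentiable_id.div_const 2)
  refine c.norm_ι_le_of (G := fun z => tri (D.pw (z / 2) n) (x z) (D.pw (z / 2) n))
    (diff_tri_wmap hd hx hd) ⟨3 * (Real.exp ‖D.l n‖ * C * Real.exp ‖D.l n‖), fun z h0 h1 => ?_⟩
    hA0 hE0 (fun t => ?_) hE
  · have h2 := norm_pw_wmap D h0 h1 n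
    have h3 := hC z h0 h1
    have h4 := (norm_nonneg _).trans h3
    refine (norm_tri_le _ _ _).trans ?_
    gcongr
  · exact (D.norm_U_pw_im hB (fun q hq => W.norm_U_proj hq) (by simp) n _).trans (hA t)

theorem IsWMap.eq_zero (hc : c.i = W.i) (hB : SFrame B) (h : IsWMap c D Wm) {s : M}
    (hs : IsProj s) (hsq : ∀ n, s * D.q n = D.q n)
    (ht : Tendsto (fun n => (W.t (s - D.q n)).re) atTop (𝓝 0)) {w : M} (hw : s * w = w)
    (h0 : Wm w = 0) : w = 0 := by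
  have h1 : ∀ m, tri (D.q m) w (D.q m) = 0 := fun m => by
    have h2 : tri (D.pw (c.θ / 2) m) w (D.pw (c.θ / 2) m) = 0 := W.isTr.ext fun y => by
      rw [← h.ev_U hc hB, h0]; simp
    have h3 := D.U_pw_pw hB (-(c.θ / 2)) (c.θ / 2) (le_refl m) w
    rw [h2, neg_add_cancel, D.pw_zero, tri_zero_mid] at h3
    exact h3.symm
  have h4 := tendsto_sn_U_sub hs D.proj hsq ht w
  simp only [h1, sub_zero, U_idem_of_fix hs.2 hw] at h4
  exact W.isTr.sn_eq_zero (tendsto_nhds_unique tendsto_const_nhds h4)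

omit [CompleteSpace X] in
theorem sn_pw_wmap (W : WT M X) (hB : SFrame B) (D : Dat B) {z : ℂ} (hz : z.re = 1) (n : ℕ) :
    sn W.t (D.pw (z / 2) n) = √(W.t (D.pw 1 n)).re := by
  rw [sn, D.star_pw hB, D.pw_mul hB _ _ le_rfl, Complex.star_def, Complex.add_conj]
  simp [hz]

omit [CompleteSpace X] in
theorem sn_pw_sub_wmap (W : WT M X) (hB : SFrame B) (D : Dat B) {z : ℂ} (hz : z.re = 1) {m n : ℕ}
    (h : m ≤ n) : sn W.t (D.pw (z / 2) n - D.pw (z / 2) m)
      = √((W.t (D.pw 1 n)).re - (W.t (D.pw 1 m)).re) := by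
  rw [sn, D.pw_sub_mul_star hB _ h]
  simp [hz]

/-- Strong continuity on bounded sets. -/
theorem IsWMap.tendsto_zero (hc : c.i = W.i) (hB : SFrame B) (h : IsWMap c D Wm) {Φ : ℝ}
    (hΦ : ∀ n, (W.t (D.pw 1 n)).re ≤ Φ) {y : ℕ → M} {C : ℝ} (hC : ∀ j, ‖y j‖ ≤ C)
    (hy : Tendsto (fun j => sn W.t (y j)) atTop (𝓝 0)) :
    Tendsto (fun j => Wm (y j)) atTop (𝓝 0) := by
  have hC0 : 0 ≤ C := (norm_nonneg _).trans (hC 0)
  set a : ℕ → ℝ := fun n => (W.t (D.pw 1 n)).re with ha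
  have hmono : Monotone a := fun m n hmn => W.isTr.pos.mono (D.pw_sub_pos hB (by simp) hmn)
  have hbd : BddAbove (Set.range a) := ⟨Φ, by rintro _ ⟨n, rfl⟩; exact hΦ n⟩
  let b : ℝ → ℝ := fun u => C ^ (1 - c.θ) * u ^ c.θ
  have hb : Continuous b := continuous_const.mul (Real.continuous_rpow_const c.h0.le)
  let K : ℕ → ℝ := fun r => Real.exp ‖D.l r‖
  let v : ℕ → ℝ := fun r => 3 * (√((⨆ n, a n) - a r) * (√Φ + √Φ) * C)
  have key : ∀ r j, ‖Wm (y j)‖ ≤ b (3 * (K r * sn W.t (y j) * K r) + v r) := fun r j => by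
    refine le_of_tendsto (h (y j)).norm ((eventually_ge_atTop r).mono fun n hn => ?_)
    have hsn := sn_nonneg W.t (y j)
    refine norm_ι_wmap W c hB D n (x := fun _ => y j) (differentiable_const _)
      (fun _ _ _ => le_rfl) hC0 (by positivity) (fun _ => hC j) fun t => ?_
    have hz : ((1 : ℂ) + t * Complex.I).re = 1 := by simp
    generalize (1 : ℂ) + t * Complex.I = z at hz
    have e : tri (D.pw (z / 2) n) (y j) (D.pw (z / 2) n)
        = tri (D.pw (z / 2) r) (y j) (D.pw (z / 2) r)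
          + tri (D.pw (z / 2) n - D.pw (z / 2) r) (y j) (D.pw (z / 2) n + D.pw (z / 2) r) := by
      rw [tri_sub_left, tri_add_right, tri_add_right, tri_comm (D.pw (z / 2) r) _ (D.pw (z / 2) n)]
      abel
    rw [e, hc, map_add]
    refine (norm_add_le _ _).trans (add_le_add ?_ ?_)
    · have h1 := norm_pw_wmap D (z := z) (by linarith) hz.le r
      refine (W.norm_i_le_sn _).trans ((W.isTr.sn_tri_mid _ _ _).trans ?_)
      gcongr
    · have h1 : sn W.t (D.pw (z / 2) n + D.pw (z / 2) r) ≤ √Φ + √Φ := by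
        refine (W.isTr.pos.sn_add_le _ _).trans ?_
        rw [sn_pw_wmap W hB D hz, sn_pw_wmap W hB D hz]
        exact add_le_add (Real.sqrt_le_sqrt (hΦ n)) (Real.sqrt_le_sqrt (hΦ r))
      have h2 : sn W.t (D.pw (z / 2) n - D.pw (z / 2) r) ≤ √((⨆ n, a n) - a r) := by
        rw [sn_pw_sub_wmap W hB D hz hn]
        exact Real.sqrt_le_sqrt (sub_le_sub_right (le_ciSup hbd n) _)
      have h3 := hC j
      have h4 := sn_nonneg W.t (D.pw (z / 2) n + D.pw (z / 2) r)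
      refine (W.norm_i_tri_le _ _ _).trans ?_
      simp only [v]
      gcongr
  have hv : Tendsto (fun r => b (v r)) atTop (𝓝 0) := by
    have h1 := (((((tendsto_atTop_ciSup hmono hbd).const_sub (⨆ n, a n)).sqrt).mul_const
      (√Φ + √Φ)).mul_const C).const_mul 3
    have h2 := (hb.tendsto _).comp h1
    simpa [b, v, Function.comp_def, Real.zero_rpow c.h0.ne'] using h2
  refine NormedAddGroup.tendsto_nhds_zero.2 fun ε hε => ?_
  obtain ⟨r, hr⟩ := (hv.eventually (gt_mem_nhds hε)).exists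
  have h1 := (hb.tendsto _).comp ((((hy.const_mul (K r)).mul_const (K r)).const_mul 3).add_const
    (v r))
  simp only [mul_zero, zero_mul, zero_add] at h1
  exact (h1.eventually (gt_mem_nhds hr)).mono fun j hj => (key r j).trans_lt hj

theorem IsWMap.norm_jexp_le (hc : c.i = W.i) (hB : SFrame B) (h : IsWMap c D Wm) {φ : X}
    (hφ : Tendsto (fun n => W.i (D.pw 1 n)) atTop (𝓝 φ)) {y : M} (hy : star y = y) :
    ‖Wm (jexp ((c.θ : ℂ) • y))‖ ≤ (W.ev φ (jexp y)).re ^ c.θ := by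
  have hp := isPos_jexp hy
  have hE0 := (phi_posF hB hφ).re_nonneg hp
  obtain ⟨S, hS, hyS, -⟩ := exists_sframe hy
  have hm := fun z : ℂ => S.smul_mem z hyS
  have hadd : ∀ z w : ℂ, jexp (z • y) * jexp (w • y) = jexp ((z + w) • y) := fun z w => by
    rw [add_smul, hS.jexp_add (hm z) (hm w)]
  have him : ∀ t : ℝ, ‖jexp ((t * Complex.I : ℂ) • y)‖ ≤ 1 := fun t => by
    simpa using norm_jexp_smul_le hy (t * Complex.I)
  refine le_of_tendsto' (h _).norm fun n => ?_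
  refine (norm_ι_wmap W c hB D n (x := fun z => jexp (z • y)) (differentiable_jexp hy)
    (C := Real.exp ‖y‖) (fun z h0 h1 => ?_) zero_le_one hE0 him fun t => ?_).trans_eq (by simp)
  · refine (norm_jexp_smul_le hy z).trans
      (Real.exp_le_exp.2 (mul_le_of_le_one_left (norm_nonneg _) ?_))
    rwa [abs_of_nonneg h0]
  set α := D.pw (1 / 2) n with hα
  set e := jexp ((1 / 2 : ℂ) • y) with he
  have hαp : IsPos α := D.pw_pos hB (by simp) n
  have hep : IsPos e := isPos_jexp (by simp [hy])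
  let Bf : M →L[ℂ] M →L[ℂ] ℂ :=
    ((ContinuousLinearMap.compL ℂ M M ℂ W.t).comp mulL).comp ((triL α α).comp (triL e e))
  have hBf : ∀ v w, Bf v w = W.t (tri α (tri e v e) α * w) := fun v w => by simp [Bf]
  have h11 : (Bf 1 1).re ≤ (W.ev φ (jexp y)).re := by
    rw [hBf, mul_one, tri_one_mid, he, hadd, add_halves, one_smul, W.isTr.tri_apply, hα,
      D.pw_mul hB _ _ le_rfl, add_halves]
    exact t_pw_mul_le hB hφ n hp
  rw [hc]
  refine W.norm_pre_le hE0 fun w => ?_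
  have e1 : jexp ((1 + t * Complex.I : ℂ) • y) = tri e (jexp ((t * Complex.I : ℂ) • y)) e := by
    rw [he, hS.frame.tri_eq (hS.jexp_mem (hm _)) (hS.jexp_mem (hm _)) (hS.jexp_mem (hm _)), hadd,
      hadd]
    congr 2
    ring
  rw [W.ev_i, show ((1 : ℂ) + t * Complex.I) / 2 = t * Complex.I / 2 + 1 / 2 by ring,
    ← D.U_pw_pw hB _ _ le_rfl, W.isTr.tri_mul, e1, ← hα, ← hBf]
  refine (norm_bilin_le Bf (fun a b ha hb => ?_) _ _).trans ?_
  · rw [hBf]
    exact W.isTr.mul_nonneg (hαp.U (hep.U ha)) hb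
  · have h1 := D.norm_U_pw_im hB (fun q hq => W.norm_U_proj hq) (z := t * Complex.I / 2)
      (by simp) n w
    have h2 := him t
    calc _ ≤ (W.ev φ (jexp y)).re * 1 * ‖w‖ := by gcongr
      _ = _ := by rw [mul_one]

end WT

end Pool.Agent.MP_ab01c5_an

/-!
# The structures passed between the last steps
-/

namespace Pool.Agent.MP_ab01c5_an

open Filter Topology

universe u v

variable {M : Type u} [JBU M] {X : Type v} [NormedAddCommGroup X] [NormedSpace ℂ X]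
  [CompleteSpace X]

/-- The lifting of a positive contractive projection `P`: `D` is the data of `h ^ p` for
`h = P(1)`, `s` the support of `h`, `φ = τ(h ^ p ·)` and `P U_{h^{1/2}} = U_{h^{1/2}} Q`. -/
structure Setup (W : WT M X) (c : Cpl M X) (P : c.L →L[ℂ] c.L) where
  B : Submodule ℂ M
  hB : W.WFrame B
  D : Dat B
  s : M
  s_proj : IsProj s
  s_ne : s ≠ 0
  s_q : ∀ n, s * D.q n = D.q n
  s_lim : Tendsto (fun n => (W.t (s - D.q n)).re) atTop (𝓝 0)
  φ : X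
  φ_lim : Tendsto (fun n => W.i (D.pw 1 n)) atTop (𝓝 φ)
  inv : ∀ q : M, IsProj q → (∀ x, W.ev φ (q * x) = W.ev φ (tri q x q)) → B ≤ commSub q
  Wm : M →L[ℂ] c.L
  wm : WT.IsWMap c D Wm
  Q : M →L[ℂ] M
  PW : ∀ x, P (Wm x) = Wm (Q x)
  Q_pos : ∀ x, IsPos x → IsPos (Q x)
  Q_one : Q 1 = s
  QQ : ∀ x, Q (Q x) = Q x
  s_Q : ∀ x, s * Q x = Q x
  Q_U : ∀ x, Q (tri s x s) = Q x
  dense : ∀ y, P y = y → y ∈ closure (Set.range fun x => Wm (Q x))

/-- A normal faithful Jordan conditional expectation onto a subalgebra with unit `s`. -/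
structure CE (W : WT M X) where
  Q : M →L[ℂ] M
  Qp : X →L[ℂ] X
  s : M
  ev_Qp : ∀ ξ x, W.ev (Qp ξ) x = W.ev ξ (Q x)
  s_proj : IsProj s
  s_ne : s ≠ 0
  Q_pos : ∀ x, IsPos x → IsPos (Q x)
  Q_one : Q 1 = s
  QQ : ∀ x, Q (Q x) = Q x
  s_Q : ∀ x, s * Q x = Q x
  Q_U : ∀ x, Q (tri s x s) = Q x
  Q_norm : ∀ x, ‖Q x‖ ≤ ‖x‖
  Q_star : ∀ x, Q (star x) = star (Q x)
  Q_mod : ∀ x y, Q (Q x * y) = Q x * Q y
  Q_faith : ∀ y, IsPos y → s * y = y → Q y = 0 → y = 0

namespace CE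

variable {W : WT M X} (E : CE W)

/-- The normal state `κ = τ ∘ Q / τ(s)`. -/
noncomputable def κ : X := (W.t E.s)⁻¹ • E.Qp W.τ

theorem ev_κ (x : M) : W.ev E.κ x = (W.t E.s)⁻¹ * W.t (E.Q x) := by
  simp [κ, E.ev_Qp, WT.ev_τ]

/-- The spectral data of the density `k` of `κ`, which commutes with the range of `Q`. -/
structure KD where
  B : Submodule ℂ M
  hB : W.WFrame B
  K : Dat B
  rep : ∀ m x, W.ev E.κ (tri (K.q m) x (K.q m)) = W.t (K.pw 1 m * x)
  lim : Tendsto (fun m => W.i (K.pw 1 m)) atTop (𝓝 E.κ)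
  s_q : ∀ m, E.s * K.q m = K.q m
  s_lim : Tendsto (fun m => (W.t (E.s - K.q m)).re) atTop (𝓝 0)
  comm : ∀ q : M, IsProj q → PComm E.s q → E.Q q = tri E.s q E.s → B ≤ commSub q
  opComm : ∀ y ∈ B, ∀ x, OpComm y (E.Q x)

end CE

end Pool.Agent.MP_ab01c5_an

/-!
# Lifting a positive contractive projection
-/

namespace Pool.Agent.MP_ab01c5_an

open Filter Topology

universe u v

variable {M : Type u} [JBU M] {X : Type v} [NormedAddCommGroup X] [NormedSpace ℂ X]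
  [CompleteSpace X]

namespace WT

variable {W : WT M X} {c : Cpl M X}

theorem real_bound_lifta {T H θ : ℝ} (hT : 0 ≤ T) (hH : 0 ≤ H) (hθ : 0 < θ)
    (h : T ≤ T ^ (1 - θ) * H) : T ≤ H ^ θ⁻¹ := by
  rcases hT.eq_or_lt with h0 | h0
  · rw [← h0]
    exact Real.rpow_nonneg hH _
  · have e : T ^ (1 - θ) * T ^ θ = T := by
      rw [← Real.rpow_add h0, sub_add_cancel, Real.rpow_one]
    have h1 : T ^ θ ≤ H :=
      le_of_mul_le_mul_left (e.le.trans h) (Real.rpow_pos_of_pos h0 _)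
    calc T = (T ^ θ) ^ θ⁻¹ := (Real.rpow_rpow_inv hT hθ.ne').symm
      _ ≤ H ^ θ⁻¹ := Real.rpow_le_rpow (Real.rpow_nonneg hT _) h1 (inv_nonneg.2 hθ.le)

theorem tendsto_Upre_lifta {η : X} (hη : PosF (W.ev η)) {r : ℕ → M} (hr : ∀ n, IsProj (r n))
    (hlim : Tendsto (fun n => (W.ev η (1 - r n)).re) atTop (𝓝 0)) :
    Tendsto (fun n => W.Upre (r n) η) atTop (𝓝 η) := by
  rw [tendsto_iff_norm_sub_tendsto_zero]
  have h1 : Tendsto (fun n => 5 * Real.sqrt ((W.ev η 1).re * (W.ev η (1 - r n)).re)) atTop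
      (𝓝 (5 * Real.sqrt ((W.ev η 1).re * 0))) :=
    ((hlim.const_mul _).sqrt).const_mul _
  rw [mul_zero, Real.sqrt_zero, mul_zero] at h1
  refine squeeze_zero (fun _ => norm_nonneg _) (fun n => ?_) h1
  rw [norm_sub_rev]
  exact norm_sub_Upre hη (hr n)

/-- The spectral data of `h ^ p` for `h` in the positive cone of `L^p`. -/
theorem exists_data (hc : c.i = W.i) {h : c.L} (hh : h ∈ cone c) :
    ∃ (B : Submodule ℂ M) (D : Dat B) (s : M) (φ : X) (Wm : M →L[ℂ] c.L), W.WFrame B ∧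
      IsProj s ∧ (∀ n, s * D.q n = D.q n) ∧
      Tendsto (fun n => (W.t (s - D.q n)).re) atTop (𝓝 0) ∧
      Tendsto (fun n => W.i (D.pw 1 n)) atTop (𝓝 φ) ∧
      (∀ q : M, IsProj q → (∀ x, W.ev φ (q * x) = W.ev φ (tri q x q)) → B ≤ commSub q) ∧
      IsWMap c D Wm ∧ Wm 1 = h ∧
      (∀ n x, W.ev (c.val h) (tri (D.q n) x (D.q n)) = W.t (D.pw c.θ n * x)) ∧
      Tendsto (fun n => (W.ev (c.val h) (1 - D.q n)).re) atTop (𝓝 0) := by
  have hη : PosF (W.ev (c.val h)) := posF_of_mem_cone hc hh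
  have hτ : PosF (W.ev W.τ) := W.isTr.pos
  obtain ⟨a, h0, h1, he⟩ := W.exists_rn hη hτ
  obtain ⟨B, hB, haB, hmin⟩ := exists_wframe (W := W) h0.sa
  have hS : SFrame B := hB.sFrame
  obtain ⟨Dh, hrep, hlim, hD⟩ := hB.exists_dat haB h0 h1 hη hτ he
    (fun u _ v _ x => (W.isTr.assoc u v x).symm)
    (fun y hy hy0 => by
      have : y = 0 := W.isTr.faith y hy (Complex.ext hy0 (hτ.im_sa hy.sa))
      rw [this, map_zero, Complex.zero_re])
  have hθ : (c.θ : ℂ) ≠ 0 := Complex.ofReal_ne_zero.2 c.h0.ne'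
  have e1 : ∀ n, (Dh.scale c.θ⁻¹).pw c.θ n = Dh.pw 1 n := fun n => by
    rw [Dat.scale_pw, Complex.ofReal_inv, mul_inv_cancel₀ hθ]
  have e2 : ∀ n, (Dh.scale c.θ⁻¹).pw 1 n = Dh.pw ((c.θ⁻¹ : ℝ) : ℂ) n := fun n => by
    rw [Dat.scale_pw, one_mul]
  have hrep' : ∀ n x, W.ev (c.val h) (tri ((Dh.scale c.θ⁻¹).q n) x ((Dh.scale c.θ⁻¹).q n)) =
      W.t ((Dh.scale c.θ⁻¹).pw c.θ n * x) := fun n x => by
    rw [e1]
    exact hrep n x
  have hΦ : ∀ n, (W.t ((Dh.scale c.θ⁻¹).pw 1 n)).re ≤ ‖h‖ ^ c.θ⁻¹ := fun n => by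
    refine real_bound_lifta (W.isTr.pos.re_nonneg (Dat.pw_pos _ hS Complex.one_im n))
      (norm_nonneg h) c.h0 (le_trans ?_ (holder_pw hc hS n h))
    have k1 := hrep' n ((Dh.scale c.θ⁻¹).pw (1 - c.θ) n)
    rw [U_idem_of_fix ((Dh.scale c.θ⁻¹).proj n).2 (Dat.q_mul_pw _ hS _ le_rfl),
      Dat.pw_mul _ hS _ _ le_rfl, add_sub_cancel] at k1
    rw [k1]
    exact Complex.re_le_norm _
  obtain ⟨s, -, hs, hsq, hslim⟩ := hB.exists_sup (Dh.scale c.θ⁻¹).q_mem (Dh.scale c.θ⁻¹).proj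
    (Dh.scale c.θ⁻¹).mono
  obtain ⟨φ, hφ⟩ := exists_phi hS hΦ
  obtain ⟨Wm, hW⟩ := exists_wmap hc hS hΦ
  refine ⟨B, Dh.scale c.θ⁻¹, s, φ, Wm, hB, hs, hsq, hslim, hφ, fun q hq hcq => ?_, hW, ?_,
    hrep', hlim⟩
  · have hlim' : Tendsto (fun n => (W.t ((1 - a) * (1 - Dh.q n))).re) atTop (𝓝 0) := by
      have m1 : ∀ n, 1 - Dh.q n ∈ B := fun n => B.sub_mem hS.alg.one_mem (Dh.q_mem n)
      have p1 : ∀ n, IsPos ((1 - a) * (1 - Dh.q n)) := fun n =>
        hS.isPos_mul (B.sub_mem hS.alg.one_mem haB) (m1 n) h1 (Dh.proj n).one_sub.isPos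
      refine squeeze_zero (fun n => W.isTr.pos.re_nonneg (p1 n)) (fun n => ?_) hlim
      have k1 : W.t ((1 - a) * (1 - Dh.q n)) = W.ev (c.val h) (a * (1 - Dh.q n)) :=
        (he _).symm
      rw [k1]
      refine hη.mono ?_
      have k2 := p1 n
      rwa [sub_mul, one_mul] at k2
    have hp : 1 ≤ c.θ⁻¹ := (one_le_inv₀ c.h0).2 c.h1
    obtain ⟨β, hβ, hβe, hβa⟩ := exists_beta hS haB h0 h1 Dh hD hlim' hp
      (hφ.congr fun n => by rw [e2])
    have k1 : PComm q β := W.isTr.rn_comm (phi_posF hS hφ) hβ hβe hq hcq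
    exact hmin _ (wsub_commSub hq) (hβa _ (wsub_commSub (W := W) hq).sAlg k1)
  · apply c.val_injective
    refine tendsto_nhds_unique (hW.tendsto_val hc 1)
      ((tendsto_Upre_lifta hη (Dh.scale c.θ⁻¹).proj hlim).congr fun n => ?_)
    refine W.ev_ext fun y => ?_
    rw [tri_one_mid, Dat.pw_mul _ hS _ _ le_rfl, add_halves, W.ev_i, W.ev_Upre, hrep']

end WT

end Pool.Agent.MP_ab01c5_an

namespace Pool.Agent.MP_ab01c5_an

open Filter Topology
open scoped ComplexOrder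

universe u v

variable {M : Type u} [JBU M] {X : Type v} [NormedAddCommGroup X] [NormedSpace ℂ X]
  [CompleteSpace X]

namespace WT

variable {W : WT M X} {c : Cpl M X}

theorem U_q_pw_lift {B : Submodule ℂ M} (hB : SFrame B) (D : Dat B) (z : ℂ) (n : ℕ) (x : M) :
    tri (D.q n) (tri (D.pw z n) x (D.pw z n)) (D.q n) = tri (D.pw z n) x (D.pw z n) := by
  have h := D.U_pw_pw hB 0 z (le_refl n) x
  rwa [D.pw_zero, zero_add] at h

theorem tri_pw_lift {B : Submodule ℂ M} (hB : SFrame B) (D : Dat B) (z : ℂ) (n : ℕ) :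
    tri (D.pw (-(z / 2)) n) (D.pw z n) (D.pw (-(z / 2)) n) = D.q n := by
  rw [hB.frame.tri_eq (D.pw_mem hB _ n) (D.pw_mem hB _ n) (D.pw_mem hB _ n),
    D.pw_mul hB _ _ (le_refl n), D.pw_mul hB _ _ (le_refl n), ← D.pw_zero]
  congr 1
  ring

theorem norm_Upre_proj_lift (W : WT M X) {s : M} (hs : IsProj s) (ξ : X) :
    ‖W.Upre s ξ‖ ≤ ‖ξ‖ := by
  refine W.norm_pre_le (norm_nonneg ξ) fun x => ?_
  rw [W.ev_Upre]
  exact (W.norm_ev_le ξ _).trans
    (mul_le_mul_of_nonneg_left (W.norm_U_proj hs x) (norm_nonneg ξ))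

/-- Quadratic Radon-Nikodym theorem: `0 ≤ y ≤ h` implies `y = U_{h^{1/2}} w`. -/
theorem exists_lift (hc : c.i = W.i) {B : Submodule ℂ M} (hB : SFrame B) {D : Dat B}
    {Wm : M →L[ℂ] c.L} (hW : IsWMap c D Wm) {s : M} (hs : IsProj s)
    (hsq : ∀ n, s * D.q n = D.q n) {η : X}
    (hη : ∀ n x, W.ev η (tri (D.q n) x (D.q n)) = W.t (D.pw c.θ n * x))
    (hlim : Tendsto (fun n => (W.ev η (1 - D.q n)).re) atTop (𝓝 0)) {y : X}
    (h0 : PosF (W.ev y)) (h1 : PosF (W.ev (η - y))) :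
    ∃ w : M, IsPos w ∧ IsPos (s - w) ∧ s * w = w ∧ c.val (Wm w) = y := by
  have him : (-((c.θ : ℂ) / 2)).im = 0 := by simp
  have key : ∀ n : ℕ, ∃ a : M, IsPos a ∧ IsPos (1 - a) ∧ ∀ x : M,
      W.ev y (tri (D.pw (-((c.θ : ℂ) / 2)) n) x (D.pw (-((c.θ : ℂ) / 2)) n)) = W.t (a * x) := by
    intro n
    have hp : ∀ x, IsPos x →
        IsPos (tri (D.pw (-((c.θ : ℂ) / 2)) n) x (D.pw (-((c.θ : ℂ) / 2)) n)) :=
      fun x hx => (D.pw_pos hB him n).U hx
    obtain ⟨a, ha0, ha1, ha⟩ := W.sakai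
      (ω := (W.ev y).comp (triL (D.pw (-((c.θ : ℂ) / 2)) n) (D.pw (-((c.θ : ℂ) / 2)) n)))
      (ρ := W.τ) (fun x hx => by simpa using h0 _ (hp x hx)) (fun x hx => by
        have e1 := h1 _ (hp x hx)
        have e2 : W.ev η (tri (D.pw (-((c.θ : ℂ) / 2)) n) x (D.pw (-((c.θ : ℂ) / 2)) n))
            = W.t (x * D.q n) := by
          rw [← U_q_pw_lift hB D, hη, mul_comm, W.isTr.tri_mul, tri_pw_lift hB D]
        have e3 := W.isTr.mul_nonneg hx (D.proj n).one_sub.isPos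
        rw [map_sub W.ev, sub_apply, e2] at e1
        rw [mul_sub, mul_one, map_sub] at e3
        have e4 := add_nonneg e3 e1
        simpa [W.ev_τ] using e4)
    exact ⟨a, ha0, ha1, fun x => by simpa [W.ev_τ] using ha x⟩
  choose a ha0 ha1 ha using key
  have hn : ∀ n, ‖a n‖ ≤ 1 := fun n => (ha0 n).norm_le_one (ha1 n)
  have hn' : ∀ n, ‖1 - a n‖ ≤ 1 := fun n => (ha1 n).norm_le_one (by simpa using ha0 n)
  obtain ⟨v, hv⟩ := W.exists_lim (hyperfilter ℕ) a (C := 1) (Eventually.of_forall hn)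
  have hv0 : IsPos v := hv.isPos (Eventually.of_forall hn) (Eventually.of_forall ha0)
  have hv1 : IsPos (1 - v) :=
    ((lim_const (1 : M)).sub hv).isPos (Eventually.of_forall hn') (Eventually.of_forall ha1)
  have hle : (hyperfilter ℕ : Filter ℕ) ≤ atTop := by
    rw [← Nat.cofinite_eq_atTop]; exact hyperfilter_le_cofinite
  have hrep : ∀ m x, W.t (tri (D.pw ((c.θ : ℂ) / 2) m) x (D.pw ((c.θ : ℂ) / 2) m) * v)
      = W.ev y (tri (D.q m) x (D.q m)) := by
    intro m x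
    have t1 := hv (W.i (tri (D.pw ((c.θ : ℂ) / 2) m) x (D.pw ((c.θ : ℂ) / 2) m)))
    rw [W.ev_i] at t1
    refine tendsto_nhds_unique t1 (tendsto_const_nhds.congr' ?_)
    filter_upwards [hle (eventually_ge_atTop m)] with n hmn
    rw [W.ev_i, mul_comm, ← ha, D.U_pw_pw hB _ _ hmn, neg_add_cancel, D.pw_zero]
  refine ⟨tri s v s, hs.isPos.U hv0, ?_, mul_U_idem hs.2 v, ?_⟩
  · have := hs.isPos.U hv1
    rwa [tri_sub_mid, tri_one_mid, hs.2] at this
  · rw [hW.U_s hB hs hsq]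
    have t1 := hW.tendsto_val hc v
    have e : ∀ m, W.i (tri (D.pw ((c.θ : ℂ) / 2) m) v (D.pw ((c.θ : ℂ) / 2) m))
        = W.Upre (D.q m) y := fun m => W.ev_ext fun x => by
      rw [W.ev_i, W.ev_Upre, ← hrep, W.isTr.tri_mul, mul_comm]
    simp only [e] at t1
    refine tendsto_nhds_unique t1 ?_
    rw [tendsto_iff_norm_sub_tendsto_zero]
    have t2 : Tendsto (fun n => 5 * Real.sqrt ((W.ev y 1).re * (W.ev η (1 - D.q n)).re)) atTop
        (𝓝 0) := by
      have := ((hlim.const_mul (W.ev y 1).re).sqrt).const_mul 5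
      simpa using this
    refine squeeze_zero (fun _ => norm_nonneg _) (fun n => ?_) t2
    rw [norm_sub_rev]
    refine (norm_sub_Upre h0 (D.proj n)).trans ?_
    have e1 := h1.re_nonneg (D.proj n).one_sub.isPos
    rw [map_sub W.ev, sub_apply, Complex.sub_re] at e1
    have e2 := h0.re_nonneg isPos_one
    exact mul_le_mul_of_nonneg_left
      (Real.sqrt_le_sqrt (mul_le_mul_of_nonneg_left (sub_nonneg.1 e1) e2)) (by norm_num)

/-- An element of `L^p` supported by `s` is a limit of elements `U_{h^{1/2}} x`. -/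
theorem mem_closure_range (hc : c.i = W.i) {B : Submodule ℂ M} (hB : SFrame B) {D : Dat B}
    {Wm : M →L[ℂ] c.L} (hW : IsWMap c D Wm) {s : M} (hs : IsProj s)
    (hsq : ∀ n, s * D.q n = D.q n) (ht : Tendsto (fun n => (W.t (s - D.q n)).re) atTop (𝓝 0))
    {y : c.L} (hy : W.Upre s (c.val y) = c.val y) : y ∈ closure (Set.range Wm) := by
  have hst : ∀ z : c.L, ∃ z' : c.L, c.val z' = W.Upre s (c.val z) ∧ ‖z'‖ ≤ ‖z‖ := fun z =>
    c.stein c rfl (T := fun _ => W.Upre s) (differentiable_const _)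
      ⟨‖W.Upre s‖, fun _ _ _ => le_rfl⟩ (S := fun _ => triL s s) continuous_const
      (fun _ x => by rw [hc, W.Upre_i, triL_apply])
      (fun _ x => by rw [triL_apply]; exact W.norm_U_proj hs x)
      (fun _ ξ => norm_Upre_proj_lift W hs ξ) z
  have hmem : ∀ x : M, c.ι (tri s x s) ∈ closure (Set.range Wm) := by
    intro x
    have t1 : Tendsto (fun n => c.ι (tri s x s - tri (D.q n) x (D.q n))) atTop (𝓝 0) := by
      refine c.tendsto_ι_zero (C := ‖x‖ + ‖x‖) (fun n => (norm_sub_le _ _).trans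
        (add_le_add (W.norm_U_proj hs x) (W.norm_U_proj (D.proj n) x))) ?_
      refine squeeze_zero (fun _ => norm_nonneg _) (fun n => ?_)
        (tendsto_sn_U_sub hs D.proj hsq ht x)
      rw [hc]; exact W.norm_i_le_sn _
    have t2 : Tendsto (fun n => c.ι (tri (D.q n) x (D.q n))) atTop (𝓝 (c.ι (tri s x s))) := by
      have := (tendsto_const_nhds (x := c.ι (tri s x s))).sub t1
      simpa using this
    exact mem_closure_of_tendsto t2 (Eventually.of_forall fun n => ⟨_, hW.U_inv hB x n⟩)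
  rw [← closure_closure, Metric.mem_closure_iff]
  intro ε hε
  obtain ⟨x, hx⟩ := c.denseRange_ι.exists_dist_lt y hε
  obtain ⟨z', hz, hz'⟩ := hst (y - c.ι x)
  have e : z' = y - c.ι (tri s x s) := c.val_injective (by
    rw [hz, map_sub, map_sub, map_sub, hy, c.val_ι, c.val_ι, hc, W.Upre_i])
  refine ⟨_, hmem x, ?_⟩
  rw [dist_eq_norm] at hx ⊢
  rw [← e]
  exact hz'.trans_lt hx

theorem exists_setup (hc : c.i = W.i) {P : c.L →L[ℂ] c.L} (hPP : ∀ y, P (P y) = P y)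
    (hpos : ∀ y ∈ cone c, P y ∈ cone c) (hP0 : P ≠ 0) : Nonempty (Setup W c P) := by
  have hι : ∀ x : M, IsPos x → c.ι x ∈ cone c := fun x hx => subset_closure ⟨x, hx, rfl⟩
  obtain ⟨B, D, s, φ, Wm, hBw, hs, hsq, ht, hφ, hinv, hW, hW1, hη, hlim⟩ :=
    exists_data hc (hpos _ (hι 1 isPos_one))
  have hB := hBw.sFrame
  have lift : ∀ y y' : c.L, y ∈ cone c → y' ∈ cone c → P (y + y') = P (c.ι 1) →
      ∃ w : M, IsPos w ∧ IsPos (s - w) ∧ s * w = w ∧ Wm w = P y := by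
    intro y y' hy hy' he
    have e : c.val (P (c.ι 1)) - c.val (P y) = c.val (P y') := by
      rw [← he, map_add, map_add]; abel
    obtain ⟨w, w0, w1, w2, w3⟩ := exists_lift hc hB hW hs hsq hη hlim
      (posF_of_mem_cone hc (hpos y hy)) (by rw [e]; exact posF_of_mem_cone hc (hpos y' hy'))
    exact ⟨w, w0, w1, w2, c.val_injective w3⟩
  have lift1 : ∀ x : M, IsPos x → IsPos (1 - x) →
      ∃ w : M, IsPos w ∧ IsPos (s - w) ∧ s * w = w ∧ Wm w = P (Wm x) := fun x h0 h1 =>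
    lift (Wm x) (Wm (1 - x)) (hW.mem_cone hB h0) (hW.mem_cone hB h1)
      (by rw [← map_add, add_sub_cancel, hW1, hPP])
  have ex : ∀ x : M, ∃ w : M, s * w = w ∧ Wm w = P (Wm x) := by
    refine induction_unit_interval (fun x h0 h1 => ?_) ?_ ?_
    · obtain ⟨w, -, -, w2, w3⟩ := lift1 x h0 h1
      exact ⟨w, w2, w3⟩
    · rintro x y ⟨w, w1, w2⟩ ⟨w', w1', w2'⟩
      exact ⟨w + w', by rw [mul_add, w1, w1'], by rw [map_add, map_add, map_add, w2, w2']⟩
    · rintro a x ⟨w, w1, w2⟩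
      exact ⟨a • w, by rw [mul_smul_comm, w1], by rw [map_smul, map_smul, map_smul, w2]⟩
  choose Q0 hQs hQW using ex
  have uniq : ∀ x w : M, s * w = w → Wm w = P (Wm x) → Q0 x = w := fun x w w1 w2 =>
    sub_eq_zero.1 (hW.eq_zero hc hB hs hsq ht (by rw [mul_sub, hQs, w1])
      (by rw [map_sub, hQW, w2, sub_self]))
  let Q1 : M →ₗ[ℂ] M :=
    { toFun := Q0
      map_add' := fun x y => uniq _ _ (by rw [mul_add, hQs, hQs])
        (by rw [map_add, map_add, map_add, hQW, hQW])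
      map_smul' := fun a x => uniq _ _ (by rw [RingHom.id_apply, mul_smul_comm, hQs])
        (by rw [RingHom.id_apply, map_smul, map_smul, map_smul, hQW]) }
  have hQ1 : ∀ x, Q1 x = Q0 x := fun _ => rfl
  have hone : Q0 1 = s := uniq _ _ hs.2 (by
    have := hW.U_s hB hs hsq 1
    rw [tri_one_mid, hs.2] at this
    rw [this, hW1, hPP])
  have hQpos : ∀ x, IsPos x → IsPos (Q1 x) := by
    intro x hx
    have hR : (0 : ℝ) < ‖x‖ + 1 := by positivity
    have hRc : ((‖x‖ + 1 : ℝ) : ℂ) ≠ 0 := by exact_mod_cast hR.ne'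
    have p0 : IsPos ((((‖x‖ + 1)⁻¹ : ℝ) : ℂ) • x) := hx.smul (inv_nonneg.2 hR.le)
    have p1 : IsPos (1 - (((‖x‖ + 1)⁻¹ : ℝ) : ℂ) • x) := by
      have := (isPos_norm_sub hx.sa (R := ‖x‖ + 1) (by linarith)).smul (inv_nonneg.2 hR.le)
      rwa [smul_sub, smul_smul, Complex.ofReal_inv, inv_mul_cancel₀ hRc, one_smul,
        ← Complex.ofReal_inv] at this
    obtain ⟨w, w0, -, w2, w3⟩ := lift1 _ p0 p1
    have e := uniq _ _ w2 w3
    rw [← hQ1, map_smul] at e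
    have := w0.smul hR.le
    rwa [← e, smul_smul, Complex.ofReal_inv, mul_inv_cancel₀ hRc, one_smul] at this
  have hQn : ∀ x, ‖Q1 x‖ ≤ 2 * ‖x‖ :=
    norm_map_le_two Q1 hQpos (by rw [hQ1, hone]; exact hs.one_sub.isPos)
  have hfix : ∀ y : c.L, W.Upre s (c.val (P y)) = c.val (P y) := by
    have h1 : ∀ x : M, W.Upre s (c.val (P (c.ι x))) = c.val (P (c.ι x)) := by
      refine induction_unit_interval (fun x h0 h1 => ?_) ?_ ?_
      · obtain ⟨w, -, -, -, w3⟩ := lift (c.ι x) (c.ι (1 - x)) (hι _ h0) (hι _ h1)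
          (by rw [← map_add, add_sub_cancel])
        rw [← w3]
        exact hW.Upre_s hc hB hs hsq w
      · intro x y hx hy
        simp only [map_add, hx, hy]
      · intro a x hx
        simp only [map_smul, hx]
    intro y
    refine c.denseRange_ι.induction_on y (isClosed_eq ?_ ?_) h1
    · exact (W.Upre s).continuous.comp (c.val.continuous.comp P.continuous)
    · exact c.val.continuous.comp P.continuous
  refine ⟨{
    B := B, hB := hBw, D := D, s := s, s_proj := hs, s_ne := ?_, s_q := hsq, s_lim := ht,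
    φ := φ, φ_lim := hφ, inv := hinv, Wm := Wm, wm := hW, Q := Q1.mkContinuous 2 hQn,
    PW := fun x => (hQW x).symm, Q_pos := hQpos, Q_one := hone,
    QQ := fun x => uniq _ _ (hQs x) ?_, s_Q := hQs, Q_U := fun x => uniq _ _ (hQs x) ?_,
    dense := fun y hy => ?_ }⟩
  · intro h0
    apply hP0
    ext y
    apply c.val_injective
    rw [← hfix y, h0]
    refine W.ev_ext fun x => ?_
    rw [W.ev_Upre]
    simp
  · change Wm (Q0 x) = P (Wm (Q0 x))
    rw [hQW, hPP]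
  · rw [hW.U_s hB hs hsq]
    exact hQW x
  · have h1 := hfix y
    rw [hy] at h1
    have h2 := mem_closure_range hc hB hW hs hsq ht h1
    rw [← hy]
    refine map_mem_closure P.continuous h2 ?_
    rintro _ ⟨x, rfl⟩
    exact ⟨x, hQW x⟩

end WT

end Pool.Agent.MP_ab01c5_an

/-!
# The lifted map is a normal faithful conditional expectation
-/

namespace Pool.Agent.MP_ab01c5_an

open Filter Topology

universe u v

variable {M : Type u} [JBU M] {X : Type v} [NormedAddCommGroup X] [NormedSpace ℂ X]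
  [CompleteSpace X]

namespace Setup

variable {W : WT M X} {c : Cpl M X} {P : c.L →L[ℂ] c.L} (S : Setup W c P)

theorem phi_posF : PosF (W.ev S.φ) := WT.phi_posF S.hB.sFrame S.φ_lim

private theorem tendsto_phi_inv (x : M) :
    Tendsto (fun n => W.t (S.D.pw 1 n * x)) atTop (𝓝 (W.ev S.φ x)) := by
  have := ((W.ev.flip x).continuous.tendsto S.φ).comp S.φ_lim
  refine this.congr fun n => ?_
  simp only [Function.comp, ContinuousLinearMap.flip_apply, W.ev_i]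

private theorem s_pw_inv (z : ℂ) (n : ℕ) : S.s * S.D.pw z n = S.D.pw z n := by
  have h := (U_fix_U_idem S.s_proj.2 (S.s_q n) (S.D.pw z n)).2
  rwa [U_idem_of_fix (S.D.proj n).2 (S.D.q_mul_pw S.hB.sFrame z le_rfl)] at h

theorem phi_U_s (x : M) : W.ev S.φ (tri S.s x S.s) = W.ev S.φ x := by
  refine tendsto_nhds_unique (tendsto_phi_inv S _) ((tendsto_phi_inv S x).congr fun n => ?_)
  rw [← W.isTr.tri_mul, U_idem_of_fix S.s_proj.2 (s_pw_inv S 1 n)]

private theorem t_q_le_inv (n : ℕ) : ∃ C : ℝ, 0 ≤ C ∧ ∀ y : M, IsPos y →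
    (W.t (S.D.q n * y)).re ≤ C * (W.ev S.φ y).re := by
  obtain ⟨C, hC0, hC⟩ := S.D.exists_lower S.hB.sFrame (z := 1) (by simp) n
  refine ⟨C, hC0, fun y hy => ?_⟩
  have h1 := W.isTr.mul_nonneg hC hy
  rw [sub_mul, smul_mul_assoc, map_sub, map_smul] at h1
  have h2 := (Complex.le_def.1 h1).1
  simp only [Complex.zero_re, Complex.sub_re, smul_eq_mul, Complex.re_ofReal_mul] at h2
  have h3 := mul_le_mul_of_nonneg_left (WT.t_pw_mul_le S.hB.sFrame S.φ_lim n hy) hC0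
  linarith

theorem phi_faith (y : M) (hy : IsPos y) (hs : S.s * y = y) (h : (W.ev S.φ y).re = 0) :
    y = 0 := by
  have hq : ∀ n, S.D.q n * y = 0 := fun n => by
    obtain ⟨C, -, hC⟩ := t_q_le_inv S n
    refine W.isTr.mul_eq_zero (S.D.proj n).isPos hy ?_
    simpa [h] using hC y hy
  have hb : ∀ n, ‖W.t y‖ ≤ (W.t (S.s - S.D.q n)).re * ‖y‖ := fun n => by
    have := (W.isTr.posF_mul (WT.isProj_sub S.s_proj (S.D.proj n) (S.s_q n)).isPos).norm_le y
    simpa [sub_mul, hs, hq n] using this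
  have hl := S.s_lim.mul_const ‖y‖
  rw [zero_mul] at hl
  exact W.isTr.faith y hy (norm_le_zero_iff.1 (ge_of_tendsto' hl hb))

private theorem phi_one_inv : W.ev S.φ (S.Q 1) = W.ev S.φ 1 := by
  have := S.phi_U_s 1
  rwa [tri_one_mid, S.s_proj.2, ← S.Q_one] at this

private theorem exp_ineq_inv (hc : c.i = W.i) (hP : ∀ y, ‖P y‖ ≤ ‖y‖) {y : M} (hy : star y = y) :
    (W.ev S.φ (S.Q (jexp ((c.θ : ℂ) • y)))).re
      ≤ (1 - c.θ) * (W.ev S.φ 1).re + c.θ * (W.ev S.φ (jexp y)).re := by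
  have h1 : 0 ≤ 1 - c.θ := sub_nonneg.2 c.h1
  have hA : 0 ≤ (W.ev S.φ 1).re := S.phi_posF.re_nonneg isPos_one
  have hB : 0 ≤ (W.ev S.φ (jexp y)).re := S.phi_posF.re_nonneg (isPos_jexp hy)
  have hn : ∀ n, ‖W.t (S.D.pw 1 n * S.Q (jexp ((c.θ : ℂ) • y)))‖
      ≤ (W.ev S.φ 1).re ^ (1 - c.θ) * (W.ev S.φ (jexp y)).re ^ c.θ := fun n => by
    rw [← S.wm.ev_pw hc S.hB.sFrame, ← S.PW]
    refine (WT.holder_pw hc S.hB.sFrame n _).trans ?_
    have hp : 0 ≤ (W.t (S.D.pw 1 n)).re :=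
      W.isTr.pos.re_nonneg (S.D.pw_pos S.hB.sFrame (by simp) n)
    have hq : (W.t (S.D.pw 1 n)).re ≤ (W.ev S.φ 1).re := by
      simpa using WT.t_pw_mul_le S.hB.sFrame S.φ_lim n isPos_one
    exact mul_le_mul (Real.rpow_le_rpow hp hq h1)
      ((hP _).trans (S.wm.norm_jexp_le hc S.hB.sFrame S.φ_lim hy)) (norm_nonneg _)
      (Real.rpow_nonneg hA _)
  have hl := le_of_tendsto' (tendsto_phi_inv S (S.Q (jexp ((c.θ : ℂ) • y)))).norm hn
  refine (Complex.re_le_norm _).trans (hl.trans ?_)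
  exact Real.geom_mean_le_arith_mean2_weighted h1 c.h0.le hA hB (by ring)

private theorem re_le_inv (hc : c.i = W.i) (hP : ∀ y, ‖P y‖ ≤ ‖y‖) {y : M} (hy : star y = y)
    (h1 : ‖y‖ ≤ 1) : (W.ev S.φ (S.Q y)).re ≤ (W.ev S.φ y).re := by
  set A : ℝ := ‖(W.ev S.φ).comp S.Q‖ + ‖W.ev S.φ‖ with hA
  have hθ := c.h0
  have hθ1 := c.h1
  have key : ∀ ε : ℝ, 0 < ε → ε ≤ 1 →
      (W.ev S.φ (S.Q y)).re ≤ (W.ev S.φ y).re + A * ε := by
    intro ε h0 hε
    have sa : ∀ r : ℝ, star ((r : ℂ) • y) = (r : ℂ) • y := fun r => by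
      rw [star_smul, hy]; simp
    have nr : ∀ r : ℝ, 0 ≤ r → ‖(r : ℂ) • y‖ ≤ r := fun r hr => by
      rw [norm_smul, Complex.norm_real, Real.norm_of_nonneg hr]
      exact mul_le_of_le_one_right hr h1
    have h := exp_ineq_inv S hc hP (sa ε)
    rw [smul_smul, ← Complex.ofReal_mul] at h
    have hθε : 0 ≤ c.θ * ε := by positivity
    have hθε1 : c.θ * ε ≤ 1 := by nlinarith
    have r1 := norm_jexp_sub_le (sa (c.θ * ε)) ((nr _ hθε).trans hθε1)
    have r2 := norm_jexp_sub_le (sa ε) ((nr _ h0.le).trans hε)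
    replace r1 := r1.trans (pow_le_pow_left₀ (norm_nonneg _) (nr _ hθε) 2)
    replace r2 := r2.trans (pow_le_pow_left₀ (norm_nonneg _) (nr _ h0.le) 2)
    have b1 := (((W.ev S.φ).comp S.Q).le_opNorm _).trans
      (mul_le_mul_of_nonneg_left r1 (norm_nonneg _))
    have b2 := ((W.ev S.φ).le_opNorm _).trans (mul_le_mul_of_nonneg_left r2 (norm_nonneg _))
    replace b1 := (abs_le.1 ((Complex.abs_re_le_norm _).trans b1)).1
    replace b2 := (abs_le.1 ((Complex.abs_re_le_norm _).trans b2)).2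
    simp only [ContinuousLinearMap.comp_apply, map_sub, map_smul, Complex.sub_re, smul_eq_mul,
      Complex.re_ofReal_mul, phi_one_inv S] at b1 b2
    have n1 := norm_nonneg ((W.ev S.φ).comp S.Q)
    have n2 := norm_nonneg (W.ev S.φ)
    have b3 := mul_le_mul_of_nonneg_left b2 hθ.le
    have b4 : ‖(W.ev S.φ).comp S.Q‖ * (c.θ * ε) ^ 2
        ≤ c.θ * ε * (‖(W.ev S.φ).comp S.Q‖ * ε) := by
      have : c.θ * ε ≤ ε := by nlinarith
      have := mul_le_mul_of_nonneg_left this (mul_nonneg n1 hθε)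
      nlinarith
    have b5 : c.θ * ε * (W.ev S.φ (S.Q y)).re ≤ c.θ * ε * ((W.ev S.φ y).re + A * ε) := by
      rw [hA]; nlinarith
    exact le_of_mul_le_mul_left b5 (mul_pos hθ h0)
  refine le_of_forall_pos_le_add fun δ hδ => ?_
  have hA0 : 0 ≤ A := by positivity
  have hε : 0 < min 1 (δ / (A + 1)) := lt_min one_pos (by positivity)
  refine (key _ hε (min_le_left _ _)).trans (add_le_add le_rfl ?_)
  have h2 : min 1 (δ / (A + 1)) * (A + 1) ≤ δ :=
    (le_div_iff₀ (by positivity)).1 (min_le_right _ _)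
  nlinarith

theorem phi_Q (hc : c.i = W.i) (hP : ∀ y, ‖P y‖ ≤ ‖y‖) (x : M) :
    W.ev S.φ (S.Q x) = W.ev S.φ x := by
  refine induction_unit_interval (p := fun x => W.ev S.φ (S.Q x) = W.ev S.φ x) ?_ ?_ ?_ x
  · intro y h0 h1
    have hn := h0.norm_le_one h1
    have a := re_le_inv S hc hP h0.sa hn
    have b := re_le_inv S hc hP (y := -y) (by rw [star_neg, h0.sa]) (by rwa [norm_neg])
    simp only [map_neg, Complex.neg_re, neg_le_neg_iff] at b
    refine Complex.ext (le_antisymm a b) ?_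
    rw [S.phi_posF.im_sa h0.sa, S.phi_posF.im_sa (S.Q_pos y h0).sa]
  · intro x y hx hy
    simp only [map_add, hx, hy]
  · intro a x hx
    simp only [map_smul, hx]

private theorem posF_sub_inv {ω ρ : M →L[ℂ] ℂ} (hω : PosF ω) (hρ : PosF ρ)
    (h : ∀ x, IsPos x → (ω x).re ≤ (ρ x).re) : PosF (ρ - ω) := by
  intro x hx
  rw [sub_apply, Complex.le_def]
  simp [hω.im_sa hx.sa, hρ.im_sa hx.sa, h x hx]

private theorem normal_inv (hφ : ∀ x, W.ev S.φ (S.Q x) = W.ev S.φ x) (ξ : X) :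
    ∃ ζ : X, W.ev ζ = (W.ev ξ).comp S.Q := by
  have hcl : IsClosed {ξ : X | ∃ ζ : X, W.ev ζ = (W.ev ξ).comp S.Q} := by
    refine isClosed_of_closure_subset fun ξ hξ => W.normal_of_approx _ fun ε hε => ?_
    have hQ : 0 < ‖S.Q‖ + 1 := by positivity
    obtain ⟨η, ⟨ζ, hζ⟩, hη⟩ := Metric.mem_closure_iff.1 hξ (ε / (‖S.Q‖ + 1)) (by positivity)
    refine ⟨ζ, ?_⟩
    rw [hζ, ← ContinuousLinearMap.sub_comp, ← map_sub]
    refine (ContinuousLinearMap.opNorm_comp_le _ _).trans_lt ?_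
    rw [W.norm_ev, ← dist_eq_norm]
    have := (lt_div_iff₀ hQ).1 hη
    nlinarith [dist_nonneg (x := ξ) (y := η)]
  have hi : ∀ x : M, ∃ ζ : X, W.ev ζ = (W.ev (W.i x)).comp S.Q := by
    refine induction_unit_interval ?_ ?_ ?_
    · intro a h0 h1
      have hn : ∀ n, ∃ ζ : X, W.ev ζ = (W.ev (W.Upre (S.D.q n) (W.i a))).comp S.Q := fun n => by
        obtain ⟨C, hC0, hC⟩ := t_q_le_inv S n
        have hU : ∀ x, IsPos x → IsPos (tri (S.D.q n) (S.Q x) (S.D.q n)) := fun x hx =>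
          (S.D.proj n).isPos.U (S.Q_pos x hx)
        have p1 : PosF ((W.ev (W.Upre (S.D.q n) (W.i a))).comp S.Q) := fun x hx => by
          rw [ContinuousLinearMap.comp_apply, W.ev_Upre, W.ev_i]
          exact W.isTr.mul_nonneg h0 (hU x hx)
        have p2 : PosF (W.ev ((C : ℂ) • S.φ)) := fun x hx => by
          rw [map_smul, smul_apply, ← map_smul]
          exact S.phi_posF _ (hx.smul hC0)
        refine W.normal_of_le p1 (posF_sub_inv p1 p2 fun x hx => ?_)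
        have e1 := (Complex.le_def.1 (W.isTr.mul_nonneg h1 (hU x hx))).1
        have e2 := hC _ (S.Q_pos x hx)
        rw [sub_mul, one_mul, map_sub, W.isTr.tri_apply, (S.D.proj n).2] at e1
        rw [hφ] at e2
        rw [ContinuousLinearMap.comp_apply, W.ev_Upre, W.ev_i, map_smul,
          smul_apply, smul_eq_mul, Complex.re_ofReal_mul]
        simp only [Complex.zero_re, Complex.sub_re] at e1
        linarith
      obtain ⟨ζ, hζ⟩ := hcl.mem_of_tendsto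
        (WT.tendsto_Upre S.s_proj S.D.proj S.s_q S.s_lim (W.i a)) (Eventually.of_forall hn)
      refine ⟨ζ, hζ.trans (ContinuousLinearMap.ext fun x => ?_)⟩
      rw [ContinuousLinearMap.comp_apply, ContinuousLinearMap.comp_apply, W.ev_Upre,
        U_idem_of_fix S.s_proj.2 (S.s_Q x)]
    · rintro x y ⟨ζ, hζ⟩ ⟨η, hη⟩
      exact ⟨ζ + η, by rw [map_add, hζ, hη, map_add, map_add, ContinuousLinearMap.add_comp]⟩
    · rintro a x ⟨ζ, hζ⟩
      exact ⟨a • ζ, by rw [map_smul, hζ, map_smul, map_smul, ContinuousLinearMap.smul_comp]⟩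
  exact W.denseRange_i.induction_on (p := fun ξ => ∃ ζ : X, W.ev ζ = (W.ev ξ).comp S.Q) ξ hcl hi

theorem exists_ce (hc : c.i = W.i) (hP : ∀ y, ‖P y‖ ≤ ‖y‖) :
    ∃ E : CE W, E.Q = S.Q ∧ E.s = S.s := by
  have hφ := S.phi_Q hc hP
  choose f hf using normal_inv S hφ
  have hf' : ∀ ξ x, W.ev (f ξ) x = W.ev ξ (S.Q x) := fun ξ x => by rw [hf]; rfl
  have h1 : IsPos (1 - S.Q 1) := by rw [S.Q_one]; exact S.s_proj.one_sub.isPos
  have hn := W.norm_map_le S.Q S.Q_pos h1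
  let g : X →ₗ[ℂ] X :=
    { toFun := f
      map_add' := fun ξ η => W.ev_ext fun x => by simp [hf']
      map_smul' := fun a ξ => W.ev_ext fun x => by simp [hf'] }
  have hg : ∀ ξ, ‖g ξ‖ ≤ 1 * ‖ξ‖ := fun ξ => by
    rw [one_mul]
    refine W.norm_pre_le (norm_nonneg ξ) fun x => ?_
    rw [show g ξ = f ξ from rfl, hf']
    exact (W.norm_ev_le ξ _).trans (mul_le_mul_of_nonneg_left (hn x) (norm_nonneg ξ))
  refine ⟨⟨S.Q, g.mkContinuous 1 hg, S.s, hf', S.s_proj, S.s_ne, S.Q_pos, S.Q_one, S.QQ, S.s_Q,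
    S.Q_U, hn, star_map_of_pos (S.Q : M →ₗ[ℂ] M) S.Q_pos,
    W.module_of_faithful S.Q S.Q_pos h1 S.QQ S.s_proj S.s_Q hφ S.phi_faith,
    fun y hy hs h0 => S.phi_faith y hy hs ?_⟩, rfl, rfl⟩
  rw [← hφ, h0, map_zero, Complex.zero_re]

end Setup

end Pool.Agent.MP_ab01c5_an
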