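import Pool.Agent.MP_ab01c5_an.JLift

/-!
# The range of a normal conditional expectation is a JBW*-algebra with a faithful normal trace
-/

namespace Pool.Agent.MP_ab01c5_an

open Filter Topology

universe u v

variable {M : Type u} [JBU M] {X : Type v} [NormedAddCommGroup X] [NormedSpace ℂ X]
  [CompleteSpace X]

open scoped ComplexOrder in
theorem mul_nonneg_nalga {a b : ℂ} (ha : 0 ≤ a) (hb : 0 ≤ b) : 0 ≤ a * b := mul_nonneg ha hb

open scoped ComplexOrder in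
theorem inv_nonneg_nalga {a : ℂ} (ha : 0 ≤ a) : 0 ≤ a⁻¹ := inv_nonneg.2 ha

namespace CE

variable {W : WT M X} (E : CE W)

theorem t_s_pos : 0 < (W.t E.s).re ∧ (W.t E.s).im = 0 := by
  have h0 := Complex.le_def.1 (W.isTr.pos _ E.s_proj.isPos)
  simp only [Complex.zero_re, Complex.zero_im] at h0
  refine ⟨h0.1.lt_of_ne fun h => E.s_ne (W.isTr.faith _ E.s_proj.isPos ?_), h0.2.symm⟩
  exact Complex.ext h.symm h0.2.symm

theorem κ_posF : PosF (W.ev E.κ) := by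
  intro x hx
  rw [ev_κ]
  have h1 := W.isTr.pos _ E.s_proj.isPos
  exact mul_nonneg_nalga (inv_nonneg_nalga h1) (W.isTr.pos _ (E.Q_pos x hx))

theorem t_s_ne_nalga : W.t E.s ≠ 0 := fun h => by
  have := E.t_s_pos.1
  rw [h] at this
  simp at this

theorem norm_κ_nalga : ‖E.κ‖ = 1 := by
  have h1 : W.ev E.κ 1 = 1 := by rw [ev_κ, E.Q_one, inv_mul_cancel₀ E.t_s_ne_nalga]
  apply le_antisymm
  · refine W.norm_pre_le zero_le_one fun x => ?_
    have := E.κ_posF.norm_le x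
    rwa [h1, Complex.one_re] at this
  · have h2 := W.norm_ev_le E.κ 1
    rw [h1, norm_one] at h2
    exact h2.trans (mul_le_of_le_one_right (norm_nonneg _) norm_one_le)

theorem Qp_κ : E.Qp E.κ = E.κ := by
  refine W.ev_ext fun x => ?_
  rw [E.ev_Qp, ev_κ, ev_κ, E.QQ]

theorem Qp_Qp (ξ : X) : E.Qp (E.Qp ξ) = E.Qp ξ := by
  refine W.ev_ext fun x => ?_
  simp only [E.ev_Qp, E.QQ]

theorem norm_Qp_le (ξ : X) : ‖E.Qp ξ‖ ≤ ‖ξ‖ := by
  refine W.norm_pre_le (norm_nonneg _) fun x => ?_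
  rw [E.ev_Qp]
  exact (W.norm_ev_le _ _).trans (mul_le_mul_of_nonneg_left (E.Q_norm x) (norm_nonneg _))

theorem Q_mul {n : M} (hn : E.Q n = n) (y : M) : E.Q (n * y) = n * E.Q y := by
  have := E.Q_mod n y
  rwa [hn] at this

/-- The range of `Q`. -/
def Nsub : Submodule ℂ M := LinearMap.ker ((E.Q : M →ₗ[ℂ] M) - LinearMap.id)

theorem mem_Nsub {x : M} : x ∈ E.Nsub ↔ E.Q x = x := by
  simp [Nsub, sub_eq_zero]

/-- The range of `Q_*`. -/
def Ysub : Submodule ℂ X := LinearMap.ker ((E.Qp : X →ₗ[ℂ] X) - LinearMap.id)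

theorem mem_Ysub {ξ : X} : ξ ∈ E.Ysub ↔ E.Qp ξ = ξ := by
  simp [Ysub, sub_eq_zero]

theorem isClosed_Nsub : IsClosed (E.Nsub : Set M) := by
  have : (E.Nsub : Set M) = {x | E.Q x = x} := Set.ext fun _ => E.mem_Nsub
  rw [this]; exact isClosed_eq E.Q.continuous continuous_id

theorem isClosed_Ysub : IsClosed (E.Ysub : Set X) := by
  have : (E.Ysub : Set X) = {x | E.Qp x = x} := Set.ext fun _ => E.mem_Ysub
  rw [this]; exact isClosed_eq E.Qp.continuous continuous_id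

instance : CompleteSpace E.Ysub := E.isClosed_Ysub.completeSpace_coe

instance : Mul E.Nsub :=
  ⟨fun x y => ⟨x.1 * y.1, E.mem_Nsub.2 (by
    rw [E.Q_mul (E.mem_Nsub.1 x.2), E.mem_Nsub.1 y.2])⟩⟩

instance : Star E.Nsub :=
  ⟨fun x => ⟨star x.1, E.mem_Nsub.2 (by rw [E.Q_star, E.mem_Nsub.1 x.2])⟩⟩

@[simp] theorem coe_mul (x y : E.Nsub) : ((x * y : E.Nsub) : M) = (x : M) * (y : M) := rfl

@[simp] theorem coe_star (x : E.Nsub) : ((star x : E.Nsub) : M) = star (x : M) := rfl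

noncomputable instance jbN : JBStarAlgebra E.Nsub :=
  { (inferInstance : NormedAddCommGroup E.Nsub), (inferInstance : NormedSpace ℂ E.Nsub),
    (inferInstance : Mul E.Nsub), (inferInstance : Star E.Nsub),
    E.isClosed_Nsub.completeSpace_coe with
    left_distrib := fun _ _ _ => Subtype.ext (mul_add _ _ _)
    right_distrib := fun _ _ _ => Subtype.ext (add_mul _ _ _)
    zero_mul := fun _ => Subtype.ext (zero_mul _)
    mul_zero := fun _ => Subtype.ext (mul_zero _)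
    mul_comm := fun _ _ => Subtype.ext (mul_comm _ _)
    star_involutive := fun _ => Subtype.ext (star_star _)
    star_mul := fun _ _ => Subtype.ext (star_mul _ _)
    star_add := fun _ _ => Subtype.ext (star_add _ _)
    star_smul := fun _ _ => Subtype.ext (star_smul _ _)
    smul_mul := fun _ _ _ => Subtype.ext (JBStarAlgebra.smul_mul _ _ _)
    jordan := fun _ _ => Subtype.ext (JBStarAlgebra.jordan _ _)
    norm_mul_le := fun x y => jnorm_mul_le (x : M) (y : M)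
    norm_star_eq := fun x => JBStarAlgebra.norm_star_eq (x : M)
    norm_tri := fun x => JBStarAlgebra.norm_tri (x : M) }

theorem exists_eN : ∃ e : E.Nsub ≃ₗᵢ[ℂ] StrongDual ℂ E.Ysub,
    ∀ (n : E.Nsub) (ξ : E.Ysub), e n ξ = W.ev (ξ : X) (n : M) := by
  let f : E.Nsub →ₗ[ℂ] StrongDual ℂ E.Ysub :=
    { toFun := fun n => (W.e (n : M)).comp E.Ysub.subtypeL
      map_add' := fun a b => by
        ext ξ
        simp
      map_smul' := fun c a => by
        ext ξ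
        simp }
  have hf : ∀ (n : E.Nsub) (ξ : E.Ysub), f n ξ = W.ev (ξ : X) (n : M) := fun _ _ => rfl
  have hn : ∀ n : E.Nsub, ‖f n‖ = ‖n‖ := by
    intro n
    apply le_antisymm
    · refine ContinuousLinearMap.opNorm_le_bound _ (norm_nonneg _) fun ξ => ?_
      rw [hf, mul_comm]
      exact W.norm_ev_le _ _
    · refine W.norm_le_of_ev (x := (n : M)) (f n).opNorm_nonneg fun ξ => ?_
      have h1 : W.ev ξ (n : M) = f n ⟨E.Qp ξ, E.mem_Ysub.2 (E.Qp_Qp ξ)⟩ := by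
        rw [hf, E.ev_Qp, E.mem_Nsub.1 n.2]
      rw [h1]
      exact ((f n).le_opNorm _).trans (mul_le_mul_of_nonneg_left (E.norm_Qp_le ξ) (norm_nonneg _))
  refine ⟨LinearIsometryEquiv.ofSurjective ⟨f, hn⟩ fun φ => ?_, fun n ξ => rfl⟩
  obtain ⟨m, hm⟩ := W.e.surjective
    (φ.comp (E.Qp.codRestrict E.Ysub fun ξ => E.mem_Ysub.2 (E.Qp_Qp ξ)))
  refine ⟨⟨E.Q m, E.mem_Nsub.2 (E.QQ m)⟩, ?_⟩
  ext ξ
  change W.ev (ξ : X) (E.Q m) = φ ξ
  rw [← E.ev_Qp, E.mem_Ysub.1 ξ.2, W.ev_apply, hm]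
  exact congrArg φ (Subtype.ext (E.mem_Ysub.1 ξ.2))

/-- The duality between the range of `Q` and the range of `Q_*`. -/
noncomputable def eN : E.Nsub ≃ₗᵢ[ℂ] StrongDual ℂ E.Ysub := E.exists_eN.choose

theorem eN_apply (n : E.Nsub) (ξ : E.Ysub) : E.eN n ξ = W.ev (ξ : X) (n : M) :=
  E.exists_eN.choose_spec n ξ

/-- The trace on the range of `Q`. -/
noncomputable def ψ : E.Ysub := ⟨E.κ, E.mem_Ysub.2 E.Qp_κ⟩

theorem isFaithfulState_ψ : IsFaithfulState E.eN E.ψ := by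
  have hp : ∀ x : E.Nsub, IsPos x → IsPos (x : M) := by
    rintro x ⟨y, hy, rfl⟩
    exact ⟨y, congrArg Subtype.val hy, rfl⟩
  refine ⟨fun x hx => ?_, E.norm_κ_nalga, fun x hx h => ?_⟩
  · rw [eN_apply]
    exact E.κ_posF _ (hp x hx)
  · rw [eN_apply] at h
    change W.ev E.κ (x : M) = 0 at h
    rw [ev_κ, E.mem_Nsub.1 x.2, mul_eq_zero, inv_eq_zero] at h
    exact Subtype.ext (W.isTr.faith _ (hp x hx) (h.resolve_left E.t_s_ne_nalga))

theorem isTrace_ψ : IsTrace E.eN E.ψ := by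
  intro x y z
  rw [eN_apply, eN_apply]
  change W.ev E.κ _ = W.ev E.κ _
  rw [ev_κ, ev_κ, E.mem_Nsub.1 (x * y * z).2, E.mem_Nsub.1 (x * (y * z)).2]
  exact congrArg _ (W.isTr.assoc _ _ _)

theorem exists_iN : ∃ i : E.Nsub →L[ℂ] E.Ysub, ‖i‖ ≤ 1 ∧
    ∀ n : E.Nsub, (i n : X) = W.Lpre (n : M) E.κ := by
  have hm : ∀ n : E.Nsub, ((W.Lpre.flip E.κ).comp E.Nsub.subtypeL) n ∈ E.Ysub := by
    intro n
    refine E.mem_Ysub.2 (W.ev_ext fun x => ?_)
    change W.ev (E.Qp (W.Lpre (n : M) E.κ)) x = W.ev (W.Lpre (n : M) E.κ) x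
    have hn := E.mem_Nsub.1 n.2
    rw [E.ev_Qp, W.ev_Lpre, W.ev_Lpre, ev_κ, ev_κ, E.Q_mul hn, E.Q_mul hn, E.QQ]
  refine ⟨((W.Lpre.flip E.κ).comp E.Nsub.subtypeL).codRestrict E.Ysub hm, ?_, fun n => rfl⟩
  refine ContinuousLinearMap.opNorm_le_bound _ zero_le_one fun n => ?_
  have h := W.norm_Lpre_le (n : M) E.κ
  rw [E.norm_κ_nalga, mul_one] at h
  rw [one_mul]
  exact h

/-- The embedding of `N` into its predual. -/
noncomputable def iN : E.Nsub →L[ℂ] E.Ysub := E.exists_iN.choose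

theorem coe_iN (n : E.Nsub) : (E.iN n : X) = W.Lpre (n : M) E.κ :=
  E.exists_iN.choose_spec.2 n

theorem ev_iN (n : E.Nsub) (x : M) : W.ev (E.iN n : X) x = W.ev E.κ ((n : M) * x) := by
  rw [coe_iN, W.ev_Lpre]

theorem isEmb_iN (n : E.Nsub) : IsEmb E.eN E.ψ n (E.iN n) := by
  intro y
  rw [eN_apply, eN_apply, ev_iN]
  rfl

/-- The couple `(N, N_*)`. -/
noncomputable def cpl {c : Cpl M X} : Cpl E.Nsub E.Ysub :=
  ⟨E.iN, E.exists_iN.choose_spec.1, c.θ, c.h0, c.h1⟩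

end CE

end Pool.Agent.MP_ab01c5_an

namespace Pool.Agent.MP_ab01c5_an

open Filter Topology

universe u v

variable {M : Type u} [JBU M] {X : Type v} [NormedAddCommGroup X] [NormedSpace ℂ X]
  [CompleteSpace X]

namespace CE

variable {W : WT M X} (E : CE W)

/-- `N ⊕ U_{1-s} M`, a weak* closed unital subalgebra. -/
def Nt : Submodule ℂ M where
  carrier := {x | PComm E.s x ∧ E.Q x = tri E.s x E.s}
  add_mem' := by
    intro a b ha hb
    exact ⟨(commSub E.s).add_mem ha.1 hb.1, by rw [map_add, ha.2, hb.2, tri_add_mid]⟩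
  zero_mem' := ⟨(commSub E.s).zero_mem, by simp⟩
  smul_mem' := by
    intro a x hx
    exact ⟨(commSub E.s).smul_mem a hx.1, by rw [map_smul, hx.2, tri_smul_mid]⟩

theorem mem_Nt {x : M} : x ∈ E.Nt ↔ PComm E.s x ∧ E.Q x = tri E.s x E.s := Iff.rfl

private theorem Q_mul_nalg {u : M} (hu : u ∈ E.Nt) (x : M) : E.Q (u * x) = u * E.Q x := by
  have hs := E.s_proj.2
  have hn : E.Q u = E.s * u := by rw [hu.2, U_idem_of_pComm hs hu.1]
  have h0 : E.s * (u - E.Q u) = 0 := by rw [mul_sub, E.s_Q, hn, sub_self]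
  have hp : PComm E.s (u - E.Q u) := by rw [PComm, h0, mul_zero]
  have h1 : E.Q ((u - E.Q u) * x) = 0 := by
    rw [← E.Q_U, U_idem_mul hs hp, mul_comm, fix_mul_ker hs (mul_U_idem hs x) h0, map_zero]
  have h2 : (u - E.Q u) * E.Q x = 0 := by
    rw [mul_comm, fix_mul_ker hs (E.s_Q x) h0]
  rw [sub_mul, map_sub, E.Q_mod, sub_eq_zero] at h1
  rw [sub_mul, sub_eq_zero] at h2
  rw [h1, h2]

theorem wsub_Nt : W.WSub E.Nt := by
  have hs := E.s_proj
  refine ⟨⟨?_, ?_⟩, fun a ha b hb => ⟨PComm.mul hs.2 ha.1 hb.1, ?_⟩, fun a ha => ⟨?_, ?_⟩,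
    fun y hy => ⟨?_, ?_⟩⟩
  · rw [PComm, mul_one, hs.2]
  · rw [E.Q_one, tri_one_mid, hs.2]
  · rw [Q_mul_nalg E ha, hb.2, U_idem_mul hs.2 ha.1]
  · have := congrArg star ha.1
    rwa [jstar_mul, jstar_mul, hs.1] at this
  · rw [E.Q_star, ha.2, star_tri, hs.1]
  · exact (WT.wsub_commSub (W := W) hs).wclosed y fun ξ hξ => hy ξ fun b hb => hξ b hb.1
  · refine W.ext_ev fun ξ => ?_
    have := hy (E.Qp ξ - W.Upre E.s ξ) fun b hb => by
      rw [map_sub, sub_apply, E.ev_Qp, W.ev_Upre, hb.2, sub_self]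
    rwa [map_sub, sub_apply, E.ev_Qp, W.ev_Upre, sub_eq_zero] at this

theorem Q_mem_Nt (x : M) : E.Q x ∈ E.Nt := by
  refine ⟨?_, ?_⟩
  · rw [PComm, E.s_Q, E.s_Q]
  · rw [E.QQ, U_idem_of_fix E.s_proj.2 (E.s_Q x)]

/-- Module property over `Nt`. -/
theorem Q_mul_Nt {u : M} (hu : u ∈ E.Nt) (x : M) : E.Q (u * x) = u * E.Q x :=
  Q_mul_nalg E hu x

theorem κ_assoc {u v : M} (hu : u ∈ E.Nt) (hv : v ∈ E.Nt) (x : M) :
    W.ev E.κ (u * (v * x)) = W.ev E.κ (u * v * x) := by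
  rw [E.ev_κ, E.ev_κ, E.Q_mul_Nt hu, E.Q_mul_Nt hv, E.Q_mul_Nt (E.wsub_Nt.mul_mem u hu v hv),
    W.isTr.assoc]

private theorem Q_eq_zero_nalg {y : M} (hy : IsPos y) (h0 : (W.ev E.κ y).re = 0) :
    E.Q y = 0 := by
  have hQy := E.Q_pos y hy
  have him : (W.t (E.Q y)).im = 0 := W.isTr.pos.im_sa hQy.sa
  obtain ⟨t1, t2⟩ := E.t_s_pos
  have hts : W.t E.s = ((W.t E.s).re : ℂ) := Complex.ext (by simp) (by simp [t2])
  rw [E.ev_κ, hts, ← Complex.ofReal_inv, Complex.re_ofReal_mul] at h0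
  have hre : (W.t (E.Q y)).re = 0 := (mul_eq_zero.1 h0).resolve_left (inv_ne_zero t1.ne')
  exact W.isTr.faith _ hQy (Complex.ext hre him)

theorem exists_kd : Nonempty E.KD := by
  have hs := E.s_proj
  obtain ⟨b, p0, p1, he⟩ := W.exists_rn E.κ_posF (ρ := W.τ) W.isTr.pos
  obtain ⟨B, hB, hbB, hmin⟩ := WT.exists_wframe (W := W) p0.sa
  have hcomm : ∀ q : M, IsProj q → PComm E.s q → E.Q q = tri E.s q E.s → B ≤ commSub q := by
    intro q hq h1 h2
    have hN : q ∈ E.Nt := ⟨h1, h2⟩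
    refine hmin _ (WT.wsub_commSub hq) (W.isTr.rn_comm E.κ_posF p0.sa he hq fun x => ?_)
    have := E.κ_assoc hN hN x
    rw [hq.2] at this
    simp only [tri, map_sub, map_add, hq.2, mul_comm (q * x) q, this]
    ring
  obtain ⟨K, hrep, hlim, -⟩ := hB.exists_dat hbB p0 p1 E.κ_posF (ρ := W.τ) W.isTr.pos he
    (fun u _ v _ x => (W.isTr.assoc u v x).symm) (fun y hy h => by
      have : y = 0 := W.isTr.faith y hy (Complex.ext h (W.isTr.pos.im_sa hy.sa))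
      simp [this])
  have hUκ : ∀ x, W.ev E.κ (tri E.s x E.s) = W.ev E.κ x := fun x => by
    rw [E.ev_κ, E.ev_κ, E.Q_U]
  have hsN : E.s ∈ E.Nt := E.Q_one ▸ E.Q_mem_Nt 1
  have hsq : ∀ m, E.s * K.q m = K.q m := fun m => by
    have hp : PComm E.s (K.q m) := hcomm E.s hs hsN.1 hsN.2 (K.q_mem m)
    have ho : OpComm (K.q m) E.s := (opComm_of_pComm hs.2 hp).symm
    have hp' : PComm (K.q m) (1 - E.s) := by
      have := pComm_of_opComm (K.proj m).2 ho
      rw [PComm] at this ⊢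
      rw [mul_sub, mul_sub, mul_one, (K.proj m).2, this]
    have hw : E.s * (K.q m * (1 - E.s)) = 0 := by
      rw [mul_sub, mul_one, mul_sub, mul_comm (K.q m) E.s, hp, sub_self]
    have hz : W.t (K.pw 1 m * (1 - E.s)) = 0 := by
      have h := hrep m (1 - E.s)
      rw [U_idem_of_pComm (K.proj m).2 hp', ← hUκ,
        U_idem_of_pComm hs.2 (by rw [PComm, hw, mul_zero]), hw, map_zero] at h
      exact h.symm
    obtain ⟨C, -, hC⟩ := K.exists_lower hB.sFrame (z := 1) (by simp) m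
    have h1 := W.isTr.mul_nonneg hC hs.one_sub.isPos
    rw [sub_mul, smul_mul_assoc, map_sub, map_smul, hz, smul_zero, zero_sub] at h1
    have h2 : (W.t (K.q m * (1 - E.s))).re ≤ 0 := by
      have := (Complex.le_def.1 h1).1
      simpa using this
    have h3 := W.isTr.mul_eq_zero (K.proj m).isPos hs.one_sub.isPos h2
    rw [mul_sub, mul_one, sub_eq_zero, mul_comm] at h3
    exact h3.symm
  have hslim : Tendsto (fun m => (W.t (E.s - K.q m)).re) atTop (𝓝 0) := by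
    refine WT.tendsto_t_of_faithful hs K.proj hsq (ξ := E.κ)
      (fun y hy h1 h0 => E.Q_faith y hy h1 (Q_eq_zero_nalg E hy h0)) ?_
    have h1 : W.ev E.κ E.s = W.ev E.κ 1 := by
      have := hUκ 1
      rwa [tri_one_mid, hs.2] at this
    simpa only [map_sub, h1] using hlim
  refine ⟨⟨B, hB, K, hrep, ?_, hsq, hslim, hcomm, fun y hy x => ?_⟩⟩
  · have hT := WT.tendsto_Upre hs K.proj hsq hslim E.κ
    have hU : W.Upre E.s E.κ = E.κ := W.ev_ext fun y => by rw [W.ev_Upre, hUκ]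
    rw [hU] at hT
    refine hT.congr fun m => W.ev_ext fun y => ?_
    rw [W.ev_Upre, W.ev_i, hrep, WT.ev_τ]
  · exact E.wsub_Nt.opComm (fun q hq hp => hcomm q hp hq.1 hq.2 hy) (E.Q_mem_Nt x)

end CE

end Pool.Agent.MP_ab01c5_an

/-!
# `n ↦ k ^ {1/p} ∘ n` is isometric from `L^p(N)` to `L^p(M)`
-/

namespace Pool.Agent.MP_ab01c5_an

open Filter Topology

universe u v

set_option linter.unusedSectionVars false

variable {M : Type u} [JBU M] {X : Type v} [NormedAddCommGroup X] [NormedSpace ℂ X]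
  [CompleteSpace X]

namespace CE

variable {W : WT M X} {E : CE W} (K : E.KD) {c : Cpl M X} {WK : M →L[ℂ] c.L}

theorem KD.opComm_N {n : M} (hn : E.Q n = n) {y : M} (hy : y ∈ K.B) : OpComm n y := by
  have := K.opComm y hy n
  rw [hn] at this
  exact this.symm

theorem KD.U_N {n : M} (hn : E.Q n = n) {a : M} (ha : a ∈ K.B) : tri a n a = a * a * n := by
  have h := K.opComm_N hn ha a
  rw [tri_eq_L, mul_comm a n, ← h, mul_comm n (a * a)]
  abel

theorem KD.U_N_mul {n : M} (hn : E.Q n = n) {a : M} (ha : a ∈ K.B) (x : M) :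
    tri a (n * x) a = n * tri a x a :=
  ((K.opComm_N hn ha).mul_tri (K.opComm_N hn ha)
    (K.opComm_N hn (K.hB.sub.mul_mem _ ha _ ha)) x).symm

theorem KD.κ_U (z : ℂ) (m : ℕ) (x : M) :
    W.ev E.κ (tri (K.K.pw z m) x (K.K.pw z m)) = W.t (K.K.pw (1 + 2 * z) m * x) := by
  have hB := K.hB.sFrame
  have h1 := K.K.U_pw_pw hB 0 z (le_refl m) x
  rw [K.K.pw_zero, zero_add] at h1
  rw [← h1, K.rep, mul_comm, W.isTr.tri_mul, mul_comm x,
    hB.frame.tri_eq (K.K.pw_mem hB _ _) (K.K.pw_mem hB _ _) (K.K.pw_mem hB _ _),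
    K.K.pw_mul hB _ _ le_rfl, K.K.pw_mul hB _ _ le_rfl]
  congr 3
  ring

theorem κ_Q (E : CE W) (x : M) : W.ev E.κ (E.Q x) = W.ev E.κ x := by
  rw [← E.ev_Qp, E.Qp_κ]

theorem κ_Q_mul (E : CE W) (x y : M) : W.ev E.κ (E.Q x * y) = W.ev E.κ (x * E.Q y) := by
  rw [← E.κ_Q (E.Q x * y), E.Q_mod, ← E.κ_Q (x * E.Q y), mul_comm x, E.Q_mod, mul_comm]

theorem KD.Upre_iN (z : ℂ) (m : ℕ) (n : E.Nsub) :
    W.Upre (K.K.pw ((z - 1) / 2) m) (E.iN n : X) = W.i (K.K.pw z m * (n : M)) := by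
  have hB := K.hB.sFrame
  have hn := E.mem_Nsub.1 n.2
  refine W.ev_ext fun x => ?_
  rw [W.ev_Upre, E.ev_iN, ← K.U_N_mul hn (K.K.pw_mem hB _ _), K.κ_U, W.ev_i, W.isTr.assoc]
  congr 3
  ring

theorem KD.norm_pw_strip (m : ℕ) {z : ℂ} (hz : |z.re| ≤ 1) :
    ‖K.K.pw z m‖ ≤ Real.exp ‖K.K.l m‖ :=
  (K.K.norm_pw_le z m).trans (Real.exp_le_exp.2 (by nlinarith [norm_nonneg (K.K.l m)]))

theorem KD.norm_U_im {z : ℂ} (hz : z.re = 0) (m : ℕ) (x : M) :
    ‖tri (K.K.pw z m) x (K.K.pw z m)‖ ≤ ‖x‖ :=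
  K.K.norm_U_pw_im K.hB.sFrame (fun _ hq => W.norm_U_proj hq) hz m x

theorem KD.norm_wk_le (hc : c.i = W.i) (hW : WT.IsWMap c K.K WK) (n : E.Nsub) :
    ‖WK (n : M)‖ ≤ ‖(E.cpl (c := c)).ι n‖ := by
  have hB := K.hB.sFrame
  have hn := E.mem_Nsub.1 n.2
  refine le_of_tendsto' (hW n).norm fun m => ?_
  have hd : Differentiable ℂ fun z : ℂ => K.K.pw ((z - 1) / 2) m :=
    (K.K.differentiable_pw m).comp (by fun_prop)
  obtain ⟨y', hy', hle⟩ := (E.cpl (c := c)).stein c rfl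
    (T := fun z => (W.Upre (K.K.pw ((z - 1) / 2) m)).comp E.Ysub.subtypeL)
    ((W.differentiable_Upre hd).clm_comp (differentiable_const _))
    ⟨3 * Real.exp ‖K.K.l m‖ ^ 2, fun z h0 h1 => by
      refine ContinuousLinearMap.opNorm_le_bound _ (by positivity) fun ξ => ?_
      refine (W.norm_Upre_le _ _).trans ?_
      have := K.norm_pw_strip m (z := (z - 1) / 2) (by
        rw [abs_le]; simp only [Complex.div_ofNat_re, Complex.sub_re, Complex.one_re]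
        constructor <;> linarith)
      gcongr
      exact le_rfl⟩
    (S := fun t => (mulL (K.K.pw (t * Complex.I) m)).comp E.Nsub.subtypeL)
    (by
      have : Continuous fun t : ℝ => K.K.pw (t * Complex.I) m :=
        (K.K.differentiable_pw m).continuous.comp (by fun_prop)
      exact (mulL.continuous.comp this).clm_comp continuous_const)
    (fun t x => by
      rw [hc]
      exact K.Upre_iN _ m x)
    (fun t x => by
      refine (jnorm_mul_le _ _).trans ?_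
      have := K.K.norm_pw_im (z := t * Complex.I) (by simp) m
      exact mul_le_of_le_one_left (norm_nonneg _) this)
    (fun t ξ => by
      refine W.norm_pre_le (norm_nonneg _) fun x => ?_
      rw [ContinuousLinearMap.comp_apply, W.ev_Upre]
      refine (W.norm_ev_le _ _).trans ?_
      exact mul_le_mul_of_nonneg_left (K.norm_U_im (by simp) m x) (norm_nonneg _))
    ((E.cpl (c := c)).ι n)
  refine le_of_eq_of_le (congrArg _ (c.val_injective ?_)) hle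
  rw [hy', Cpl.val_ι, Cpl.val_ι, hc, K.U_N hn (K.K.pw_mem hB _ _), K.K.pw_mul hB _ _ le_rfl,
    add_halves]
  exact (K.Upre_iN _ m n).symm

/-- `Q_*` with values in its range. -/
noncomputable def QpY (E : CE W) : X →L[ℂ] E.Ysub :=
  E.Qp.codRestrict E.Ysub fun ξ => E.mem_Ysub.2 (E.Qp_Qp ξ)

/-- `Q` with values in its range. -/
noncomputable def QN (E : CE W) : M →L[ℂ] E.Nsub :=
  E.Q.codRestrict E.Nsub fun x => E.mem_Nsub.2 (E.QQ x)

theorem coe_QpY (E : CE W) (ξ : X) : (E.QpY ξ : X) = E.Qp ξ := rfl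

theorem coe_QN (E : CE W) (x : M) : (E.QN x : M) = E.Q x := rfl

theorem KD.tendsto_κ_q : Tendsto (fun m => (W.ev E.κ (1 - K.K.q m)).re) atTop (𝓝 0) := by
  have h1 : Tendsto (fun m => W.ev (W.i (K.K.pw 1 m)) 1) atTop (𝓝 (W.ev E.κ 1)) :=
    ((W.ev.flip 1).continuous.tendsto _).comp K.lim
  have h2 : ∀ m, W.ev (W.i (K.K.pw 1 m)) 1 = W.ev E.κ (K.K.q m) := fun m => by
    rw [W.ev_i, ← K.rep, tri_one_mid, (K.K.proj m).2]
  simp only [h2] at h1
  have h3 := (Complex.continuous_re.tendsto _).comp (h1.const_sub (W.ev E.κ 1))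
  simp only [sub_self, Complex.zero_re] at h3
  simpa only [map_sub, Function.comp_def] using h3

theorem KD.tendsto_ι_N (n : E.Nsub) :
    Tendsto (fun m => (E.cpl (c := c)).ι (E.QN (K.K.q m) * n)) atTop
      (𝓝 ((E.cpl (c := c)).ι n)) := by
  have hn := E.mem_Nsub.1 n.2
  have hsn : E.s * (n : M) = n := by
    have := E.s_Q n
    rwa [hn] at this
  have hd : ∀ m, ((n - E.QN (K.K.q m) * n : E.Nsub) : M) = E.Q (1 - K.K.q m) * n := fun m => by
    rw [map_sub, E.Q_one, sub_mul, hsn]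
    rfl
  have hd1 : ∀ m, ‖E.Q (1 - K.K.q m)‖ ≤ 1 := fun m =>
    (E.Q_norm _).trans (K.K.proj m).one_sub.norm_le
  have hκ := E.κ_posF
  have h0 : Tendsto (fun m => (E.cpl (c := c)).ι (n - E.QN (K.K.q m) * n)) atTop (𝓝 0) := by
    refine (E.cpl (c := c)).tendsto_ι_zero (C := ‖n‖) (fun m => ?_) ?_
    · change ‖((n - E.QN (K.K.q m) * n : E.Nsub) : M)‖ ≤ ‖(n : M)‖
      rw [hd]
      exact (jnorm_mul_le _ _).trans (mul_le_of_le_one_left (norm_nonneg _) (hd1 m))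
    · have h1 : Tendsto (fun m => Real.sqrt (W.ev E.κ (1 - K.K.q m)).re *
          (Real.sqrt (W.ev E.κ 1).re * ‖(n : M)‖)) atTop (𝓝 0) := by
        have := (K.tendsto_κ_q.sqrt).mul_const (Real.sqrt (W.ev E.κ 1).re * ‖(n : M)‖)
        simpa using this
      refine squeeze_zero (fun _ => norm_nonneg _) (fun m => ?_) h1
      change ‖(E.iN (n - E.QN (K.K.q m) * n) : X)‖ ≤ _
      refine W.norm_pre_le (by positivity) fun y => ?_
      have hp := E.Q_pos _ (K.K.proj m).one_sub.isPos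
      have hNt : (n : M) ∈ E.Nt := by
        have := E.Q_mem_Nt n
        rwa [hn] at this
      rw [E.ev_iN, hd, ← E.κ_assoc (E.Q_mem_Nt _) hNt]
      refine (hκ.cs' _ _).trans ?_
      have h2 : sn (W.ev E.κ) (E.Q (1 - K.K.q m)) ≤ Real.sqrt (W.ev E.κ (1 - K.K.q m)).re := by
        refine Real.sqrt_le_sqrt ?_
        rw [hp.sa, ← E.κ_Q (1 - K.K.q m)]
        refine hκ.mono ?_
        obtain ⟨S, hS, hm, -⟩ := exists_sframe hp.sa
        have h3 := isPos_norm_sub hp.sa (hd1 m)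
        rw [Complex.ofReal_one, one_smul] at h3
        have h4 := hS.isPos_mul hm (S.sub_mem hS.alg.one_mem hm) hp h3
        rwa [mul_sub, mul_one] at h4
      have h3 := (hκ.sn_le ((n : M) * y)).trans
        (mul_le_mul_of_nonneg_left (jnorm_mul_le _ _) (Real.sqrt_nonneg _))
      calc _ ≤ Real.sqrt (W.ev E.κ (1 - K.K.q m)).re *
            (Real.sqrt (W.ev E.κ 1).re * (‖(n : M)‖ * ‖y‖)) :=
          mul_le_mul h2 h3 (sn_nonneg _ _) (Real.sqrt_nonneg _)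
        _ = _ := by ring
  have h5 := h0.const_sub ((E.cpl (c := c)).ι n)
  simpa only [map_sub, sub_sub_cancel, sub_zero] using h5

theorem KD.le_norm_wk (hc : c.i = W.i) (hW : WT.IsWMap c K.K WK) (n : E.Nsub) :
    ‖(E.cpl (c := c)).ι n‖ ≤ ‖WK (n : M)‖ := by
  have hB := K.hB.sFrame
  have hn := E.mem_Nsub.1 n.2
  refine le_of_tendsto' (K.tendsto_ι_N (c := c) n).norm fun m => ?_
  have hd : Differentiable ℂ fun z : ℂ => K.K.pw (1 - z) m :=
    (K.K.differentiable_pw m).comp (by fun_prop)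
  have hQ : ∀ ξ : X, ‖E.QpY ξ‖ ≤ ‖ξ‖ := fun ξ => E.norm_Qp_le ξ
  obtain ⟨y', hy', hle⟩ := c.stein (E.cpl (c := c)) rfl
    (T := fun z => E.QpY.comp (W.Lpre (K.K.pw (1 - z) m)))
    ((differentiable_const _).clm_comp (W.Lpre.differentiable.comp hd))
    ⟨Real.exp ‖K.K.l m‖, fun z h0 h1 => by
      refine ContinuousLinearMap.opNorm_le_bound _ (by positivity) fun ξ => ?_
      refine (hQ _).trans ((W.norm_Lpre_le _ _).trans ?_)
      have := K.norm_pw_strip m (z := 1 - z) (by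
        rw [abs_le]; simp only [Complex.sub_re, Complex.one_re]
        constructor <;> linarith)
      gcongr⟩
    (S := fun t => E.QN.comp (triL (K.K.pw (-(t * Complex.I) / 2) m)
      (K.K.pw (-(t * Complex.I) / 2) m)))
    (by
      have : Continuous fun t : ℝ => K.K.pw (-(t * Complex.I) / 2) m :=
        (K.K.differentiable_pw m).continuous.comp (by fun_prop)
      have h2 := mulL.continuous.comp this
      refine continuous_const.clm_comp ?_
      unfold triL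
      exact ((h2.clm_comp h2).add (h2.clm_comp h2)).sub (mulL.continuous.comp (this.mul this)))
    (fun t x => by
      rw [hc]
      refine Subtype.ext (W.ev_ext fun y => ?_)
      change W.ev (E.Qp (W.Lpre _ (W.i x))) y = W.ev (E.iN _ : X) y
      rw [E.ev_Qp, W.ev_Lpre, W.ev_i, E.ev_iN, ContinuousLinearMap.comp_apply, coe_QN, E.κ_Q_mul,
        triL_apply, mul_comm _ (E.Q y), mul_comm _ (E.Q y),
        ← K.U_N_mul (E.QQ y) (K.K.pw_mem hB _ _), K.κ_U, mul_comm (E.Q y), mul_comm (E.Q y),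
        W.isTr.mul_left_comm]
      congr 3
      ring)
    (fun t x => by
      refine (E.Q_norm _).trans ((congrArg _ (triL_apply _ _ x)).trans_le ?_)
      exact K.norm_U_im (by simp) m x)
    (fun t ξ => by
      refine (hQ _).trans ((W.norm_Lpre_le _ _).trans ?_)
      have := K.K.norm_pw_im (z := 1 - (1 + t * Complex.I)) (by simp) m
      exact mul_le_of_le_one_left (norm_nonneg _) this)
    (WK n)
  refine le_of_eq_of_le (congrArg _ ((E.cpl (c := c)).val_injective ?_)) hle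
  rw [hy', Cpl.val_ι]
  refine Subtype.ext (W.ev_ext fun y => ?_)
  change W.ev (E.iN _ : X) y = W.ev (E.Qp (W.Lpre _ (c.val (WK n)))) y
  have hy := E.QQ y
  have hny : E.Q ((n : M) * E.Q y) = (n : M) * E.Q y := by rw [E.Q_mul hn, hy]
  have hNt : (n : M) ∈ E.Nt := by
    have := E.Q_mem_Nt n
    rwa [hn] at this
  have e1 : K.K.pw (1 - c.θ) m * E.Q y = tri (K.K.q m)
      (tri (K.K.pw ((1 - c.θ) / 2) m) (E.Q y) (K.K.pw ((1 - c.θ) / 2) m)) (K.K.q m) := by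
    rw [← K.K.pw_zero, K.K.U_pw_pw hB _ _ le_rfl, zero_add, K.U_N hy (K.K.pw_mem hB _ _),
      K.K.pw_mul hB _ _ le_rfl, add_halves]
  have e2 : (c.θ : ℂ) / 2 + (1 - c.θ) / 2 + ((c.θ : ℂ) / 2 + (1 - c.θ) / 2) = 1 := by ring
  rw [E.ev_Qp, W.ev_Lpre, e1, hW.ev_U hc hB, W.isTr.tri_mul, K.K.U_pw_pw hB _ _ le_rfl,
    K.U_N hy (K.K.pw_mem hB _ _), K.K.pw_mul hB _ _ le_rfl, e2, W.isTr.mul_left_comm, ← K.rep,
    K.U_N hny (K.K.q_mem m), (K.K.proj m).2, E.ev_iN, coe_mul, coe_QN,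
    ← E.κ_assoc (E.Q_mem_Nt _) hNt, E.κ_Q_mul, E.Q_mul hn]

end CE

end Pool.Agent.MP_ab01c5_an

/-!
# `U_{h^{1/2}} N` and `k ^ {1/p} ∘ N` have the same closure
-/

namespace Pool.Agent.MP_ab01c5_an

open Filter Topology

universe u v

variable {M : Type u} [JBU M] {X : Type v} [NormedAddCommGroup X] [NormedSpace ℂ X]
  [CompleteSpace X]

private theorem fix_mul_joint {W : WT M X} (E : CE W) {a b : M} (ha : E.Q a = a)
    (hb : E.Q b = b) : E.Q (a * b) = a * b := by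
  rw [E.Q_mul ha, hb]

private theorem fix_tri_joint {W : WT M X} (E : CE W) {a b : M} (ha : E.Q a = a)
    (hb : E.Q b = b) : E.Q (tri a b a) = tri a b a := by
  have h1 := fix_mul_joint E (fix_mul_joint E ha hb) ha
  have h2 := fix_mul_joint E (fix_mul_joint E ha ha) hb
  simp only [tri, map_add, map_sub, h1, h2]

private theorem kappa_Q_joint {W : WT M X} (E : CE W) (x : M) :
    W.ev E.κ (E.Q x) = W.ev E.κ x := by
  rw [E.ev_κ, E.ev_κ, E.QQ]

private theorem pComm_joint {B : Submodule ℂ M} (hB : IsFrame B) {e y : M} (he : e ∈ B)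
    (hy : y ∈ B) (hp : IsProj e) : PComm e y :=
  pComm_of_opComm hp.2 (hB.comm e he y hy)

/-- The trace against `U_e x` for a projection `e` commuting with `d`. -/
private theorem t_mul_U_joint (W : WT M X) {e d : M} (hp : IsProj e) (h : PComm e d) (x : M) :
    W.t (d * tri e x e) = W.t (e * d * x) := by
  rw [mul_comm d, W.isTr.tri_mul, U_idem_of_pComm hp.2 h, mul_comm x]

private theorem t_U_U_joint (W : WT M X) {B : Submodule ℂ M} (hB : IsFrame B) {a b e : M}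
    (ha : a ∈ B) (hb : b ∈ B) (he : e ∈ B) (x y : M) :
    W.t (tri a (tri b x b) a * tri e y e) = W.t (tri (e * (a * b)) x (e * (a * b)) * y) := by
  rw [hB.U_U ha hb, ← W.isTr.tri_mul, hB.U_U he (hB.mul_mem a ha b hb)]

/-- The pointwise exponential in a chart. -/
private noncomputable def cexp_joint {Ω : Type u} [TopologicalSpace Ω] (z : ℂ) (f : C(Ω, ℂ)) :
    C(Ω, ℂ) := ⟨fun ω => Complex.exp (z * f ω), by fun_prop⟩

private theorem jexp_chart_joint (c : Chart M) (z : ℂ) (f : C(c.Ω, ℂ)) :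
    jexp (z • c.π f) = c.π (cexp_joint z f) := by
  rw [← map_smul]
  exact c.jexp_π (fun ω => by simp [cexp_joint])

/-- Passing from `h = k d` to `h ^ z d ^ (-z) = k ^ z` under the cut-offs. -/
private theorem pow_joint {B : Submodule ℂ M} (hB : SFrame B) {lD lK lG qD qK qG : M}
    (mD : lD ∈ B) (mK : lK ∈ B) (mG : lG ∈ B) (nD : qD ∈ B) (nK : qK ∈ B) (nG : qG ∈ B)
    (sD : star lD = lD) (sK : star lK = lK) (sG : star lG = lG) (pD : IsProj qD)
    (pK : IsProj qK) (pG : IsProj qG)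
    (h : (qK * qG) * (jexp ((1 : ℂ) • lD) * qD)
      = qD * ((jexp ((1 : ℂ) • lK) * qK) * (jexp ((1 : ℂ) • lG) * qG))) (z : ℂ) :
    qK * ((jexp (z • lD) * qD) * (jexp ((-z) • lG) * qG))
      = qD * ((jexp (z • lK) * qK) * qG) := by
  obtain ⟨c, hc⟩ := exists_chart hB
  obtain ⟨fD, rfl⟩ := (hc _).1 mD
  obtain ⟨fK, rfl⟩ := (hc _).1 mK
  obtain ⟨fG, rfl⟩ := (hc _).1 mG
  obtain ⟨gD, rfl⟩ := (hc _).1 nD
  obtain ⟨gK, rfl⟩ := (hc _).1 nK
  obtain ⟨gG, rfl⟩ := (hc _).1 nG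
  rw [c.sa_iff] at sD sK sG
  rw [c.isProj_iff] at pD pK pG
  simp only [jexp_chart_joint, ← c.map_mul] at h ⊢
  have h' := c.π.injective h
  congr 1
  ext ω
  have hω := congrArg (fun f : C(c.Ω, ℂ) => f ω) h'
  simp only [cexp_joint, ContinuousMap.mul_apply, ContinuousMap.coe_mk, one_mul] at hω ⊢
  rcases pD ω with h1 | h1
  · simp [h1]
  rcases pK ω with h2 | h2
  · simp [h2]
  rcases pG ω with h3 | h3
  · simp [h3]
  simp only [h1, h2, h3, one_mul, mul_one] at hω ⊢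
  have e : fD ω = fK ω + fG ω := by
    rw [← Complex.exp_add] at hω
    have hn := congrArg (fun w : ℂ => ‖w‖) hω
    simp only [Complex.norm_exp, Real.exp_eq_exp] at hn
    apply Complex.ext hn
    simp [sD ω, sK ω, sG ω]
  rw [← Complex.exp_add, e]
  congr 1
  ring

namespace Setup

variable {W : WT M X} {c : Cpl M X} {P : c.L →L[ℂ] c.L} (S : Setup W c P) {E : CE W}

/-- The data of the density `d` of `φ` with respect to `κ`; it lies in `N`. -/
theorem exists_rel (hQ : E.Q = S.Q) (hs : E.s = S.s) (hφ : ∀ x, W.ev S.φ (S.Q x) = W.ev S.φ x) :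
    ∃ (B : Submodule ℂ M) (G : Dat B), W.WFrame B ∧ B ≤ E.Nt ∧
      (∀ j x, W.ev S.φ (tri (G.q j) x (G.q j)) = W.ev E.κ (G.pw 1 j * x)) ∧
      (∀ j, S.s * G.q j = G.q j) ∧ Tendsto (fun j => (W.t (S.s - G.q j)).re) atTop (𝓝 0) ∧
      ∀ z j, E.Q (G.pw z j) = G.pw z j := by
  have hφE : ∀ x, W.ev S.φ (E.Q x) = W.ev S.φ x := fun x => by rw [hQ, hφ]
  obtain ⟨a0, p0, p1, he0⟩ := W.exists_rn S.phi_posF E.κ_posF
  have pa : IsPos (E.Q a0) := E.Q_pos _ p0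
  have pa1 : IsPos (1 - E.Q a0) := by
    have h := E.s_proj.one_sub.isPos.add (E.Q_pos _ p1)
    rw [map_sub, E.Q_one] at h
    rwa [sub_add_sub_cancel] at h
  have he : ∀ x : M, W.ev S.φ (E.Q a0 * x) = W.ev E.κ ((1 - E.Q a0) * x) := fun x => by
    have e1 : W.ev S.φ (E.Q a0 * x) = W.ev S.φ (a0 * E.Q x) := by
      rw [← hφE (E.Q a0 * x), ← hφE (a0 * E.Q x), E.Q_mod, mul_comm a0, E.Q_mod, mul_comm]
    have e2 : E.Q ((1 - a0) * E.Q x) = E.Q ((1 - E.Q a0) * x) := by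
      rw [mul_comm (1 - a0), E.Q_mod, sub_mul, one_mul, map_sub, map_sub, E.Q_mod, E.Q_one,
        mul_sub, mul_comm (E.Q x) E.s, E.s_Q, mul_comm]
    rw [e1, he0, ← kappa_Q_joint E, e2, kappa_Q_joint]
  obtain ⟨B, hB, haB, hmin⟩ := WT.exists_wframe (W := W) pa.sa
  have hBN : B ≤ E.Nt := hmin _ E.wsub_Nt (E.Q_mem_Nt a0)
  have hac : ∀ y : M, IsPos y → (W.ev E.κ y).re = 0 → (W.ev S.φ y).re = 0 := by
    intro y hy h0
    have hQy := E.Q_pos y hy
    have him : (W.t (E.Q y)).im = 0 := W.isTr.pos.im_sa hQy.sa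
    obtain ⟨t1, t2⟩ := E.t_s_pos
    have hts : W.t E.s = ((W.t E.s).re : ℂ) := Complex.ext (by simp) (by simp [t2])
    rw [E.ev_κ, hts, ← Complex.ofReal_inv, Complex.re_ofReal_mul] at h0
    have hre : (W.t (E.Q y)).re = 0 := (mul_eq_zero.1 h0).resolve_left (inv_ne_zero t1.ne')
    have hz : E.Q y = 0 := W.isTr.faith _ hQy (Complex.ext hre him)
    rw [← hφE, hz, map_zero, Complex.zero_re]
  obtain ⟨G, hG, hlim, hq⟩ := hB.exists_dat haB pa pa1 S.phi_posF E.κ_posF he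
    (fun u hu v hv x => E.κ_assoc (hBN hu) (hBN hv) x) hac
  have hsq : ∀ j, E.s * G.q j = G.q j := fun j => by
    have hw : G.q j + G.pw 1 j ∈ B := B.add_mem (G.q_mem j) (G.pw_mem hB.sFrame 1 j)
    have := fix_mul_pComm E.s_proj.2 (E.s_Q a0) (hBN hw).1
    rwa [hq] at this
  refine ⟨B, G, hB, hBN, hG, hs ▸ hsq, ?_, fun z j => ?_⟩
  · refine WT.tendsto_t_of_faithful S.s_proj G.proj (hs ▸ hsq) S.phi_faith ?_
    have h1 : W.ev S.φ S.s = W.ev S.φ 1 := by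
      have := S.phi_U_s 1
      rwa [tri_one_mid, S.s_proj.2] at this
    simpa only [map_sub, h1] using hlim
  · have hw := hBN (G.pw_mem hB.sFrame z j)
    have h1 := fix_mul_pComm E.s_proj.2 (hsq j) hw.1
    rw [G.q_mul_pw hB.sFrame z le_rfl] at h1
    rw [hw.2, U_idem_of_fix E.s_proj.2 h1]

/-- `h ^ {1/2} d ^ {-θ/2} = k ^ {θ/2}` under the cut-off of `d`. -/
theorem key (hc : c.i = W.i) (K : E.KD) (hs : E.s = S.s) {WK : M →L[ℂ] c.L}
    (hW : WT.IsWMap c K.K WK) {B : Submodule ℂ M} (G : Dat B) (hB : W.WFrame B) (hBN : B ≤ E.Nt)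
    (hG : ∀ j x, W.ev S.φ (tri (G.q j) x (G.q j)) = W.ev E.κ (G.pw 1 j * x))
    (hsq : ∀ j, S.s * G.q j = G.q j)
    (hlim : Tendsto (fun j => (W.t (S.s - G.q j)).re) atTop (𝓝 0)) (j : ℕ) (x : M) :
    S.Wm (tri (G.pw (-(c.θ / 2)) j) x (G.pw (-(c.θ / 2)) j)) = WK (tri (G.q j) x (G.q j)) := by
  obtain ⟨B1, hB1, hK1, hG1⟩ := K.hB.join hB fun q hq hp => K.comm q hp (hBN hq).1 (hBN hq).2
  have hKs : ∀ m, S.s * K.K.q m = K.K.q m := hs ▸ K.s_q
  have hKl : Tendsto (fun m => (W.t (S.s - K.K.q m)).re) atTop (𝓝 0) := hs ▸ K.s_lim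
  have mKq : ∀ m, K.K.q m ∈ B1 := fun m => hK1 (K.K.q_mem m)
  have mGq : ∀ m, G.q m ∈ B1 := fun m => hG1 (G.q_mem m)
  have mKp : ∀ z m, K.K.pw z m ∈ B1 := fun z m => hK1 (K.K.pw_mem K.hB.sFrame z m)
  have mGp : ∀ z m, G.pw z m ∈ B1 := fun z m => hG1 (G.pw_mem hB.sFrame z m)
  have hrep : ∀ m i y, W.ev S.φ (tri (K.K.q m * G.q i) y (K.K.q m * G.q i))
      = W.t (K.K.pw 1 m * G.pw 1 i * y) := fun m i y => by
    rw [mul_comm (K.K.q m), ← hB1.frame.U_U (mGq i) (mKq m), hG,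
      ← U_idem_mul (K.K.proj m).2 (pComm_joint hB1.frame (mKq m) (mGp 1 i) (K.K.proj m)), K.rep,
      W.isTr.assoc]
  have hUs : W.Upre S.s S.φ = S.φ := W.ev_ext fun y => by rw [W.ev_Upre, S.phi_U_s]
  have hcomm : ∀ q ∈ B1, IsProj q → S.B ≤ commSub q := by
    intro q hq hp
    refine S.inv q hp fun y => ?_
    obtain ⟨r1, r2, r3⟩ := WT.tendsto_t_mul hB1.sFrame mKq mGq K.K.proj G.proj S.s_proj hKs hsq
      hKl hlim
    have hT := WT.tendsto_Upre S.s_proj r1 r2 r3 S.φ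
    rw [hUs] at hT
    have hev : ∀ w : M, Tendsto (fun n => W.t (K.K.pw 1 n * G.pw 1 n * w)) atTop
        (𝓝 (W.ev S.φ w)) := fun w => by
      have := ((W.ev.flip w).continuous.tendsto S.φ).comp hT
      refine this.congr fun n => ?_
      simp only [Function.comp, ContinuousLinearMap.flip_apply, W.ev_Upre, hrep]
    refine tendsto_nhds_unique (hev (q * y)) ((hev (tri q y q)).congr fun n => ?_)
    have hd := hB1.frame.mul_mem _ (mKp 1 n) _ (mGp 1 n)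
    rw [t_mul_U_joint W hp (pComm_joint hB1.frame hq hd hp), mul_comm q, W.isTr.assoc _ q]
  obtain ⟨B2, hB2, hD2, h12⟩ := S.hB.join hB1 hcomm
  have mDq : ∀ m, S.D.q m ∈ B2 := fun m => hD2 (S.D.q_mem m)
  have mDp : ∀ z m, S.D.pw z m ∈ B2 := fun z m => hD2 (S.D.pw_mem S.hB.sFrame z m)
  have hprod : ∀ n, (K.K.q n * G.q j) * S.D.pw 1 n = S.D.q n * (K.K.pw 1 n * G.pw 1 j) := by
    intro n
    have hr : K.K.q n * G.q j ∈ B2 := h12 (hB1.frame.mul_mem _ (mKq n) _ (mGq j))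
    have hd : K.K.pw 1 n * G.pw 1 j ∈ B2 := h12 (hB1.frame.mul_mem _ (mKp 1 n) _ (mGp 1 j))
    have pr : IsProj (K.K.q n * G.q j) :=
      ⟨by rw [jstar_mul, (K.K.proj n).1, (G.proj j).1],
        idem_mul_idem (K.K.proj n).2 (G.proj j).2 (hB1.frame.comm _ (mKq n) _ (mGq j))⟩
    refine W.isTr.ext fun y => ?_
    have e1 := WT.ev_phi_U S.hB.sFrame S.φ_lim n (tri (K.K.q n * G.q j) y (K.K.q n * G.q j))
    have e2 := hrep n j (tri (S.D.q n) y (S.D.q n))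
    rw [hB2.frame.U_U (mDq n) hr,
      t_mul_U_joint W pr (pComm_joint hB2.frame hr (mDp 1 n) pr)] at e1
    rw [hB2.frame.U_U hr (mDq n), mul_comm _ (S.D.q n),
      t_mul_U_joint W (S.D.proj n) (pComm_joint hB2.frame (mDq n) hd (S.D.proj n))] at e2
    exact e1.symm.trans e2
  have hpow : ∀ n, K.K.q n * (S.D.pw (c.θ / 2) n * G.pw (-(c.θ / 2)) j)
      = S.D.q n * (K.K.pw (c.θ / 2) n * G.q j) := fun n =>
    pow_joint hB2.sFrame (hD2 (S.D.l_mem n)) (h12 (hK1 (K.K.l_mem n))) (h12 (hG1 (G.l_mem j)))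
      (mDq n) (h12 (mKq n)) (h12 (mGq j)) (S.D.sa n) (K.K.sa n) (G.sa j) (S.D.proj n)
      (K.K.proj n) (G.proj j) (hprod n) _
  apply c.val_injective
  obtain ⟨r1, r2, r3⟩ := WT.tendsto_t_mul hB2.sFrame mDq (fun n => h12 (mKq n)) S.D.proj K.K.proj
    S.s_proj S.s_q hKs S.s_lim hKl
  have hL := WT.tendsto_Upre S.s_proj r1 r2 r3
    (c.val (S.Wm (tri (G.pw (-(c.θ / 2)) j) x (G.pw (-(c.θ / 2)) j))))
  have hR := WT.tendsto_Upre S.s_proj r1 r2 r3 (c.val (WK (tri (G.q j) x (G.q j))))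
  rw [S.wm.Upre_s hc S.hB.sFrame S.s_proj S.s_q] at hL
  rw [hW.Upre_s hc K.hB.sFrame S.s_proj hKs] at hR
  refine tendsto_nhds_unique hL (hR.congr fun n => W.ev_ext fun y => ?_)
  rw [W.ev_Upre, W.ev_Upre]
  conv_lhs => rw [mul_comm (S.D.q n), ← hB2.frame.U_U (h12 (mKq n)) (mDq n),
    hW.ev_U hc K.hB.sFrame, t_U_U_joint W hB2.frame (h12 (mKp _ n)) (h12 (mGq j)) (mDq n)]
  rw [← hB2.frame.U_U (mDq n) (h12 (mKq n)), S.wm.ev_U hc S.hB.sFrame,
    t_U_U_joint W hB2.frame (mDp _ n) (h12 (mGp _ j)) (h12 (mKq n)), hpow]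

private theorem tendsto_cut_joint (hc : c.i = W.i) {B B' : Submodule ℂ M} {D : Dat B'}
    (hB' : SFrame B') {V : M →L[ℂ] c.L} (hV : WT.IsWMap c D V) {Φ : ℝ}
    (hΦ : ∀ n, (W.t (D.pw 1 n)).re ≤ Φ) (G : Dat B) {s : M} (hs : IsProj s)
    (hsq : ∀ j, s * G.q j = G.q j) (hlim : Tendsto (fun j => (W.t (s - G.q j)).re) atTop (𝓝 0))
    {n : M} (hn : s * n = n) :
    Tendsto (fun j => V (tri (G.q j) n (G.q j))) atTop (𝓝 (V n)) := by
  have h1 := WT.tendsto_sn_U_sub (W := W) hs G.proj hsq hlim n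
  rw [U_idem_of_fix hs.2 hn] at h1
  have h2 := hV.tendsto_zero hc hB' hΦ (C := ‖n‖ + ‖n‖) (fun j => (norm_sub_le _ _).trans
    (add_le_add le_rfl (W.norm_U_proj (G.proj j) n))) h1
  have h3 := (tendsto_const_nhds (x := V n)).sub h2
  rw [sub_zero] at h3
  refine h3.congr fun j => ?_
  rw [map_sub, sub_sub_cancel]

theorem closure_eq (hc : c.i = W.i) (K : E.KD) (hQ : E.Q = S.Q) (hs : E.s = S.s)
    (hφ : ∀ x, W.ev S.φ (S.Q x) = W.ev S.φ x) {WK : M →L[ℂ] c.L} (hW : WT.IsWMap c K.K WK) :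
    closure (Set.range fun x => S.Wm (S.Q x)) = closure (Set.range fun x => WK (S.Q x)) := by
  obtain ⟨B, G, hB, hBN, hG, hsq, hlim, hfix⟩ := S.exists_rel hQ hs hφ
  have hkey := S.key hc K hs hW G hB hBN hG hsq hlim
  have hΦK : ∀ n, (W.t (K.K.pw 1 n)).re ≤ (W.ev E.κ 1).re := fun n => by
    simpa using WT.t_pw_mul_le K.hB.sFrame K.lim n isPos_one
  have hΦD : ∀ n, (W.t (S.D.pw 1 n)).re ≤ (W.ev S.φ 1).re := fun n => by
    simpa using WT.t_pw_mul_le S.hB.sFrame S.φ_lim n isPos_one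
  have hq : ∀ j, E.Q (G.q j) = G.q j := fun j => by
    have := hfix 0 j
    rwa [G.pw_zero] at this
  have hn : ∀ x, E.Q (S.Q x) = S.Q x := fun x => by rw [hQ, S.QQ]
  apply le_antisymm
  · refine closure_minimal ?_ isClosed_closure
    rintro _ ⟨x, rfl⟩
    refine mem_closure_of_tendsto (tendsto_cut_joint hc S.hB.sFrame S.wm hΦD G S.s_proj hsq hlim
      (S.s_Q x)) (Eventually.of_forall fun j => ?_)
    have e := G.U_pw_pw hB.sFrame (-(c.θ / 2)) (c.θ / 2) (le_refl j) (S.Q x)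
    rw [neg_add_cancel, G.pw_zero] at e
    refine ⟨tri (G.q j) (tri (G.pw (c.θ / 2) j) (S.Q x) (G.pw (c.θ / 2) j)) (G.q j), ?_⟩
    have f := fix_tri_joint E (hq j) (fix_tri_joint E (hfix (c.θ / 2) j) (hn x))
    rw [hQ] at f
    simp only [f]
    rw [← e, hkey]
  · refine closure_minimal ?_ isClosed_closure
    rintro _ ⟨x, rfl⟩
    refine mem_closure_of_tendsto (tendsto_cut_joint hc K.hB.sFrame hW hΦK G S.s_proj hsq hlim
      (S.s_Q x)) (Eventually.of_forall fun j => ?_)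
    refine ⟨tri (G.pw (-(c.θ / 2)) j) (S.Q x) (G.pw (-(c.θ / 2)) j), ?_⟩
    have f := fix_tri_joint E (hfix (-(c.θ / 2)) j) (hn x)
    rw [hQ] at f
    simp only [f]
    rw [hkey]

end Setup

end Pool.Agent.MP_ab01c5_an

/-!
# Assembly
-/

namespace Pool.Agent.MP_ab01c5_an

open Filter Topology
open scoped ComplexOrder

universe u v

theorem main_unital {M : Type u} [JBU M] {X : Type v} [NormedAddCommGroup X] [NormedSpace ℂ X]
    [CompleteSpace X] (W : WT M X) (c : Cpl M X) (hc : c.i = W.i) (P : c.L →L[ℂ] c.L)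
    (hPP : ∀ y, P (P y) = P y) (hP : ∀ y, ‖P y‖ ≤ ‖y‖) (hpos : ∀ y ∈ WT.cone c, P y ∈ WT.cone c)
    (hP0 : P ≠ 0) : ∃ E : CE W,
      Nonempty ((E.cpl (c := c)).L ≃ₗᵢ[ℂ] LinearMap.range (P : c.L →ₗ[ℂ] c.L)) := by
  obtain ⟨S⟩ := WT.exists_setup hc hPP hpos hP0
  obtain ⟨E, hQ, hs⟩ := S.exists_ce hc hP
  obtain ⟨K⟩ := E.exists_kd
  have hΦ : ∀ n, (W.t (K.K.pw 1 n)).re ≤ (W.ev E.κ 1).re := fun n => by
    simpa using WT.t_pw_mul_le K.hB.sFrame K.lim n isPos_one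
  obtain ⟨WK, hW⟩ := WT.exists_wmap (D := K.K) hc K.hB.sFrame hΦ
  have hcl := S.closure_eq hc K hQ hs (S.phi_Q hc hP) hW
  have hfix : ∀ y, y ∈ closure (Set.range fun x => WK (S.Q x)) ↔ P y = y := fun y => by
    rw [← hcl]
    refine ⟨fun h => ?_, S.dense y⟩
    refine (isClosed_eq P.continuous continuous_id).closure_subset_iff.2 ?_ h
    rintro _ ⟨x, rfl⟩
    show P (S.Wm (S.Q x)) = S.Wm (S.Q x)
    rw [S.PW, S.QQ]
  have hN : ∀ n : E.Nsub, S.Q (n : M) = n := fun n => hQ ▸ E.mem_Nsub.1 n.2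
  have hmem : ∀ n : E.Nsub, WK (n : M) ∈ LinearMap.range (P : c.L →ₗ[ℂ] c.L) := fun n =>
    ⟨WK n, (hfix _).1 (subset_closure ⟨n, by simp only [hN]⟩)⟩
  let e₂ : E.Nsub →ₗ[ℂ] LinearMap.range (P : c.L →ₗ[ℂ] c.L) :=
    LinearMap.codRestrict _ ((WK : M →ₗ[ℂ] c.L).comp E.Nsub.subtype) hmem
  have hcR : IsClosed (LinearMap.range (P : c.L →ₗ[ℂ] c.L) : Set c.L) := by
    have : (LinearMap.range (P : c.L →ₗ[ℂ] c.L) : Set c.L) = {y | P y = y} := by
      ext y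
      constructor
      · rintro ⟨x, rfl⟩; exact hPP x
      · intro h; exact ⟨y, h⟩
    rw [this]; exact isClosed_eq P.continuous continuous_id
  have : CompleteSpace (LinearMap.range (P : c.L →ₗ[ℂ] c.L)) := hcR.completeSpace_coe
  have hd₂ : DenseRange e₂ := by
    rintro ⟨_, y, rfl⟩
    rw [Metric.mem_closure_iff]
    intro ε hε
    obtain ⟨_, ⟨x, rfl⟩, hx⟩ := Metric.mem_closure_iff.1 ((hfix (P y)).2 (hPP y)) ε hε
    have hxN : S.Q x ∈ E.Nsub := E.mem_Nsub.2 (by rw [hQ, S.QQ])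
    exact ⟨e₂ ⟨S.Q x, hxN⟩, ⟨_, rfl⟩, hx⟩
  refine ⟨E, ⟨LinearEquiv.extendOfIsometry (LinearEquiv.refl ℂ E.Nsub)
    ((E.cpl (c := c)).ι : E.Nsub →ₗ[ℂ] _) e₂ (E.cpl (c := c)).denseRange_ι hd₂ fun n => ?_⟩⟩
  exact le_antisymm (K.norm_wk_le hc hW n) (K.le_norm_wk hc hW n)

theorem main {M : Type u} [JBStarAlgebra M] {X : Type v} [NormedAddCommGroup X] [NormedSpace ℂ X]
    [CompleteSpace X] (e : M ≃ₗᵢ[ℂ] StrongDual ℂ X) (τ : X) (hτ : IsFaithfulState e τ)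
    (htr : IsTrace e τ) (p : ℝ) (hp : 1 ≤ p) (P : Lp e τ p →ₗ[ℂ] Lp e τ p)
    (hPP : ∀ y, P (P y) = P y) (hP : ∀ y, lpNorm e τ p (P y : X) ≤ lpNorm e τ p (y : X))
    (hpos : ∀ y ∈ posCone e τ p, P y ∈ posCone e τ p) (hP0 : P ≠ 0) :
    ∃ (N : Type u) (_ : JBStarAlgebra N) (Y : Type v) (_ : NormedAddCommGroup Y)
      (_ : NormedSpace ℂ Y) (_ : CompleteSpace Y) (e' : N ≃ₗᵢ[ℂ] StrongDual ℂ Y) (ψ : Y),
      IsFaithfulState e' ψ ∧ IsTrace e' ψ ∧
      ∃ T : LinearMap.range P ≃ₗ[ℂ] Lp e' ψ p,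
        ∀ y, lpNorm e' ψ p (T y : Y) = lpNorm e τ p ((y : Lp e τ p) : X) := by
  obtain ⟨u, hu⟩ := exists_unit e τ hτ htr
  let _ : JBU M := { (inferInstance : JBStarAlgebra M) with one := u, jone_mul := hu }
  have hpos' : PosF (evl e τ) := fun x hx => hτ.pos x hx
  have hone : evl e τ 1 = 1 := by
    have h1 : ‖τ‖ ≤ (evl e τ 1).re := by
      refine NormedSpace.norm_le_dual_bound ℂ τ (hpos'.re_nonneg isPos_one) fun f => ?_
      obtain ⟨x, rfl⟩ := e.surjective f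
      rw [e.norm_map]
      exact hpos'.norm_le x
    have h2 : ‖evl e τ 1‖ ≤ 1 := by
      calc ‖e 1 τ‖ ≤ ‖e 1‖ * ‖τ‖ := (e 1).le_opNorm τ
        _ ≤ 1 := by rw [e.norm_map, hτ.norm_eq, mul_one]; exact norm_one_le
    rw [hτ.norm_eq] at h1
    have h3 := (Complex.re_le_norm (evl e τ 1)).trans h2
    exact Complex.ext (le_antisymm h3 h1) (hpos'.im_sa (star_one M))
  let W : WT M X := ⟨e, τ, ⟨hpos', hτ.faithful, htr, hone⟩⟩
  have hp0 : 0 < p := lt_of_lt_of_le one_pos hp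
  let c : Cpl M X := ⟨W.i, W.norm_i_le, 1 / p, by positivity, by
    rw [div_le_one hp0]; exact hp⟩
  have hemb : ∀ x, IsEmb e τ x (c.i x) := fun x y => W.ev_i x y
  have hsp : c.Sp = Lp e τ p := c.sp_eq hemb rfl
  have hn : ∀ ξ, c.nI ξ = lpNorm e τ p ξ := c.nI_eq hemb rfl
  let A : c.L ≃ₗ[ℂ] Lp e τ p := LinearEquiv.ofEq _ _ hsp
  have hA : ∀ y, (A y : X) = c.val y := fun _ => rfl
  have hAn : ∀ y, lpNorm e τ p (A y : X) = ‖y‖ := fun y => by rw [hA, ← hn, c.norm_def]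
  let P₀ : c.L →ₗ[ℂ] c.L := A.symm.toLinearMap ∘ₗ P ∘ₗ A.toLinearMap
  have hAP : ∀ y, A (P₀ y) = P (A y) := fun y => A.apply_symm_apply _
  have hP₀ : ∀ y, ‖P₀ y‖ ≤ ‖y‖ := fun y => by
    rw [← hAn, ← hAn, hAP]; exact hP _
  let P₁ : c.L →L[ℂ] c.L := P₀.mkContinuous 1 fun y => by rw [one_mul]; exact hP₀ y
  have hAP₁ : ∀ y, A (P₁ y) = P (A y) := hAP
  have hcone : ∀ y, y ∈ WT.cone c ↔ A y ∈ posCone e τ p := fun y => by
    rw [WT.cone, Metric.mem_closure_iff]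
    refine forall₂_congr fun ε _ => ⟨?_, ?_⟩
    · rintro ⟨_, ⟨x, hx, rfl⟩, h⟩
      refine ⟨x, A (c.ι x), hx, hemb x, ?_⟩
      rw [dist_eq_norm, ← hAn, map_sub] at h
      exact h
    · rintro ⟨x, w, hx, hw, h⟩
      refine ⟨c.ι x, ⟨x, hx, rfl⟩, ?_⟩
      rw [dist_eq_norm, ← hAn, map_sub]
      rw [(isEmb_iff hemb x w).1 hw] at h
      exact h
  obtain ⟨E, ⟨T⟩⟩ := main_unital W c rfl P₁ (fun y => A.injective (by rw [hAP₁, hAP₁, hPP]))
    hP₀ (fun y hy => (hcone _).2 (by rw [hAP₁]; exact hpos _ ((hcone y).1 hy)))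
    (fun h => hP0 (LinearMap.ext fun y => by
      obtain ⟨y, rfl⟩ := A.surjective y
      rw [← hAP₁, h]; simp))
  let c' : Cpl E.Nsub E.Ysub := E.cpl (c := c)
  have hsp' : c'.Sp = Lp E.eN E.ψ p := c'.sp_eq E.isEmb_iN rfl
  have hn' : ∀ ξ, c'.nI ξ = lpNorm E.eN E.ψ p ξ := c'.nI_eq E.isEmb_iN rfl
  let A' : c'.L ≃ₗ[ℂ] Lp E.eN E.ψ p := LinearEquiv.ofEq _ _ hsp'
  have hAn' : ∀ y, lpNorm E.eN E.ψ p (A' y : E.Ysub) = ‖y‖ := fun y => by
    rw [← hn']; rfl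
  have hmap : (LinearMap.range (P₁ : c.L →ₗ[ℂ] c.L)).map (A : c.L →ₗ[ℂ] Lp e τ p)
      = LinearMap.range P := by
    ext y
    constructor
    · rintro ⟨_, ⟨x, rfl⟩, rfl⟩
      exact ⟨A x, (hAP₁ x).symm⟩
    · rintro ⟨x, rfl⟩
      obtain ⟨x, rfl⟩ := A.surjective x
      exact ⟨P₁ x, ⟨x, rfl⟩, hAP₁ x⟩
  let R := A.ofSubmodules _ _ hmap
  refine ⟨E.Nsub, inferInstance, E.Ysub, inferInstance, inferInstance, inferInstance, E.eN, E.ψ,
    E.isFaithfulState_ψ, E.isTrace_ψ, R.symm.trans (T.symm.toLinearEquiv.trans A'), fun y => ?_⟩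
  obtain ⟨y, rfl⟩ := R.surjective y
  simp only [LinearEquiv.trans_apply, LinearEquiv.symm_apply_apply]
  rw [hAn']
  exact (T.symm.norm_map y).trans (hAn (y : c.L)).symm

end Pool.Agent.MP_ab01c5_an

/-!
# Sanity check of the definitions: `L^1(M, τ) = M_*` isometrically
-/

namespace Pool.Agent.MP_ab01c5_an

universe u v

theorem lp_one_aux {M : Type u} [JBStarAlgebra M] {X : Type v} [NormedAddCommGroup X]
    [NormedSpace ℂ X] [CompleteSpace X] (e : M ≃ₗᵢ[ℂ] StrongDual ℂ X) (τ : X)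
    (hτ : IsFaithfulState e τ) (htr : IsTrace e τ) :
    Lp e τ 1 = ⊤ ∧ ∀ ξ : X, lpNorm e τ 1 ξ = ‖ξ‖ := by
  obtain ⟨u, hu⟩ := exists_unit e τ hτ htr
  let _ : JBU M := { (inferInstance : JBStarAlgebra M) with one := u, jone_mul := hu }
  have hpos' : PosF (evl e τ) := fun x hx => hτ.pos x hx
  have hone : evl e τ 1 = 1 := by
    have h1 : ‖τ‖ ≤ (evl e τ 1).re := by
      refine NormedSpace.norm_le_dual_bound ℂ τ (hpos'.re_nonneg isPos_one) fun f => ?_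
      obtain ⟨x, rfl⟩ := e.surjective f
      rw [e.norm_map]
      exact hpos'.norm_le x
    have h2 : ‖evl e τ 1‖ ≤ 1 := by
      calc ‖e 1 τ‖ ≤ ‖e 1‖ * ‖τ‖ := (e 1).le_opNorm τ
        _ ≤ 1 := by rw [e.norm_map, hτ.norm_eq, mul_one]; exact norm_one_le
    rw [hτ.norm_eq] at h1
    have h3 := (Complex.re_le_norm (evl e τ 1)).trans h2
    exact Complex.ext (le_antisymm h3 h1) (hpos'.im_sa (star_one M))
  let W : WT M X := ⟨e, τ, ⟨hpos', hτ.faithful, htr, hone⟩⟩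
  let c : Cpl M X := ⟨W.i, W.norm_i_le, 1 / 1, by positivity, by norm_num⟩
  have hemb : ∀ x, IsEmb e τ x (c.i x) := fun x y => W.ev_i x y
  have hsp : c.Sp = Lp e τ 1 := c.sp_eq hemb rfl
  have hn : ∀ ξ, c.nI ξ = lpNorm e τ 1 ξ := c.nI_eq hemb rfl
  have hθ : c.θ = 1 := by simp [c]
  have hiso : ∀ y : c.L, ‖c.val y‖ = ‖y‖ := fun y => by
    refine c.denseRange_ι.induction_on y (isClosed_eq (by fun_prop) (by fun_prop)) fun x => ?_
    refine le_antisymm (c.norm_val_le _) ?_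
    have := c.norm_ι_le x
    rw [hθ] at this
    simpa using this
  have hI : Isometry c.val := AddMonoidHomClass.isometry_of_norm c.val hiso
  have hsurj : ∀ ξ : X, ∃ y, c.val y = ξ := fun ξ => by
    refine W.denseRange_i.induction_on ξ hI.isClosedEmbedding.isClosed_range fun x => ?_
    exact ⟨c.ι x, rfl⟩
  refine ⟨?_, fun ξ => ?_⟩
  · rw [← hsp, eq_top_iff]
    intro ξ _
    obtain ⟨y, rfl⟩ := hsurj ξ
    exact c.val_mem y
  · obtain ⟨y, rfl⟩ := hsurj ξ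
    rw [← hn, ← c.norm_def, hiso]

end Pool.Agent.MP_ab01c5_an
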