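import Pool.Agent.MP_ab01c5_an.JAlg

namespace Pool.Agent.MP_ab01c5_an

universe u

variable {M : Type u} [JBU M]

namespace Chart

variable (c : Chart M)

theorem sframe : SFrame (LinearMap.range c.π.toLinearMap) := by
  have hm : ∀ a ∈ LinearMap.range c.π.toLinearMap, ∀ b ∈ LinearMap.range c.π.toLinearMap,
      a * b ∈ LinearMap.range c.π.toLinearMap := by
    rintro _ ⟨f, rfl⟩ _ ⟨g, rfl⟩
    exact ⟨f * g, c.map_mul f g⟩
  refine ⟨⟨⟨1, c.map_one⟩, hm, ?_, c.π.isometry.isClosedEmbedding.isClosed_range⟩, hm, ?_⟩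
  · rintro _ ⟨f, rfl⟩
    exact ⟨star f, c.map_star f⟩
  · rintro _ ⟨f, rfl⟩ _ ⟨g, rfl⟩
    exact c.comm f g

theorem sa_iff (f : C(c.Ω, ℂ)) : star (c.π f) = c.π f ↔ ∀ ω, (f ω).im = 0 := by
  rw [← c.map_star, c.π.injective.eq_iff, ContinuousMap.ext_iff]
  exact forall_congr' fun ω => Complex.conj_eq_iff_im

theorem isProj_iff (f : C(c.Ω, ℂ)) : IsProj (c.π f) ↔ ∀ ω, f ω = 0 ∨ f ω = 1 := by
  rw [IsProj, c.sa_iff, ← c.map_mul, c.π.injective.eq_iff, ContinuousMap.ext_iff]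
  constructor
  · rintro ⟨-, h⟩ ω
    exact eq_zero_or_one_of_sq_eq_self (by rw [sq]; exact h ω)
  · intro h
    refine ⟨fun ω => ?_, fun ω => ?_⟩ <;> rcases h ω with h | h <;> simp [h]

theorem U_U (f g : C(c.Ω, ℂ)) (z : M) :
    tri (c.π f) (tri (c.π g) z (c.π g)) (c.π f) = tri (c.π (f * g)) z (c.π (f * g)) := by
  rw [c.map_mul]
  exact c.sframe.frame.U_U ⟨f, rfl⟩ ⟨g, rfl⟩ z

theorem tri_eq (f g h : C(c.Ω, ℂ)) : tri (c.π f) (c.π g) (c.π h) = c.π (f * g * h) := by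
  rw [c.map_mul, c.map_mul]
  exact c.sframe.frame.tri_eq ⟨f, rfl⟩ ⟨g, rfl⟩ ⟨h, rfl⟩

theorem poly_mem_chart {B : Submodule ℂ M} (hB : SAlg B) {f : C(c.Ω, ℂ)} (hf : ∀ ω, (f ω).im = 0)
    (hm : c.π f ∈ B) (p : Polynomial ℝ) :
    ∃ q : C(c.Ω, ℂ), c.π q ∈ B ∧ ∀ ω, q ω = ((p.eval (f ω).re : ℝ) : ℂ) := by
  induction p using Polynomial.induction_on' with
  | add p p' hp hp' =>
    obtain ⟨q, h1, h2⟩ := hp
    obtain ⟨q', h1', h2'⟩ := hp'
    refine ⟨q + q', by rw [map_add]; exact B.add_mem h1 h1', fun ω => ?_⟩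
    simp [h2, h2']
  | monomial n a =>
    have hn : c.π (f ^ n) ∈ B := by
      induction n with
      | zero => rw [pow_zero, c.map_one]; exact hB.one_mem
      | succ n ih => rw [pow_succ, c.map_mul]; exact hB.mul_mem _ ih _ hm
    refine ⟨(a : ℂ) • f ^ n, by rw [map_smul]; exact B.smul_mem _ hn, fun ω => ?_⟩
    have e : (((f ω).re : ℝ) : ℂ) = f ω := Complex.ext (by simp) (by simp [hf ω])
    simp [e]

theorem real_mem_chart {B : Submodule ℂ M} (hB : SAlg B) {f : C(c.Ω, ℂ)} (hf : ∀ ω, (f ω).im = 0)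
    (hm : c.π f ∈ B) {g : ℝ → ℝ} (hg : Continuous g) {k : C(c.Ω, ℂ)}
    (hk : ∀ ω, k ω = g (f ω).re) : c.π k ∈ B := by
  refine hB.closed.closure_subset (Metric.mem_closure_iff.2 fun ε hε => ?_)
  obtain ⟨p, hp⟩ := exists_polynomial_near_of_continuousOn (-‖f‖) ‖f‖ g hg.continuousOn ε hε
  obtain ⟨q, h1, h2⟩ := c.poly_mem_chart hB hf hm p
  refine ⟨c.π q, h1, ?_⟩
  rw [c.π.dist_map, ContinuousMap.dist_lt_iff hε]
  intro ω
  rw [hk, h2, Complex.dist_eq, ← Complex.ofReal_sub, Complex.norm_real, Real.norm_eq_abs,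
    abs_sub_comm]
  exact hp _ (abs_le.1 ((Complex.abs_re_le_norm _).trans (f.norm_coe_le_norm ω)))

/-- Continuous functional calculus stays inside closed unital `*`-subalgebras. -/
theorem mem_of_comp {B : Submodule ℂ M} (hB : SAlg B) {f : C(c.Ω, ℂ)} (hf : ∀ ω, (f ω).im = 0)
    (hm : c.π f ∈ B) {g : ℝ → ℂ} (hg : Continuous g) {k : C(c.Ω, ℂ)}
    (hk : ∀ ω, k ω = g (f ω).re) : c.π k ∈ B := by
  have e : k = (⟨fun ω => ((k ω).re : ℂ), by fun_prop⟩ : C(c.Ω, ℂ)) +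
      Complex.I • (⟨fun ω => ((k ω).im : ℂ), by fun_prop⟩ : C(c.Ω, ℂ)) := by
    ext ω
    simp [mul_comm Complex.I]
  rw [e, map_add, map_smul]
  exact B.add_mem
    (c.real_mem_chart hB hf hm (Complex.continuous_re.comp hg) fun ω => by simp [hk])
    (B.smul_mem _ (c.real_mem_chart hB hf hm (Complex.continuous_im.comp hg) fun ω => by simp [hk]))

theorem jpow_π (f : C(c.Ω, ℂ)) (n : ℕ) : jpow (c.π f) n = c.π (f ^ n) := by
  induction n with
  | zero => rw [pow_zero, c.map_one, jpow]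
  | succ n ih => rw [jpow, ih, pow_succ', c.map_mul]

theorem exp_apply_chart (f : C(c.Ω, ℂ)) (ω : c.Ω) :
    (NormedSpace.exp f) ω = Complex.exp (f ω) := by
  have h1 := (NormedSpace.exp_series_hasSum_exp' (𝕂 := ℂ) f).mapL (ContinuousMap.evalCLM ℂ ω)
  have h2 := NormedSpace.exp_series_hasSum_exp' (𝕂 := ℂ) (f ω)
  rw [Complex.exp_eq_exp_ℂ]
  exact h1.unique h2

theorem jexp_chart (f : C(c.Ω, ℂ)) : jexp (c.π f) = c.π (NormedSpace.exp f) := by
  have h1 := (NormedSpace.exp_series_hasSum_exp' (𝕂 := ℂ) f).mapL c.π.toContinuousLinearMap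
  simp only [map_smul, LinearIsometry.coe_toContinuousLinearMap, ← c.jpow_π] at h1
  exact h1.tsum_eq

theorem jexp_π {f k : C(c.Ω, ℂ)} (hk : ∀ ω, k ω = Complex.exp (f ω)) :
    jexp (c.π f) = c.π k := by
  rw [c.jexp_chart]
  congr 1
  ext ω
  rw [hk, c.exp_apply_chart]

end Chart

theorem differentiable_jexp {a : M} (ha : star a = a) :
    Differentiable ℂ fun z : ℂ => jexp (z • a) := by
  obtain ⟨c, f, rfl, -⟩ := exists_chart_sa ha
  simp only [← map_smul, c.jexp_chart]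
  exact c.π.toContinuousLinearMap.differentiable.comp fun z =>
    (hasDerivAt_exp_smul_const (𝕂 := ℂ) f z).differentiableAt

theorem SFrame.jexp_mem {S : Submodule ℂ M} (hS : SFrame S) {x : M} (hx : x ∈ S) :
    jexp x ∈ S := by
  obtain ⟨c, hc⟩ := exists_chart hS
  obtain ⟨f, rfl⟩ := (hc _).1 hx
  exact (hc _).2 ⟨_, (c.jexp_chart f).symm⟩

theorem SFrame.jexp_add {S : Submodule ℂ M} (hS : SFrame S) {x y : M} (hx : x ∈ S) (hy : y ∈ S) :
    jexp (x + y) = jexp x * jexp y := by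
  obtain ⟨c, hc⟩ := exists_chart hS
  obtain ⟨f, rfl⟩ := (hc _).1 hx
  obtain ⟨g, rfl⟩ := (hc _).1 hy
  rw [← map_add, c.jexp_chart f, c.jexp_chart g, ← c.map_mul]
  exact c.jexp_π fun ω => by simp [c.exp_apply_chart, Complex.exp_add]

theorem jexp_zero : jexp (0 : M) = 1 := by
  obtain ⟨c, -, -, -⟩ := exists_chart_sa (star_zero M)
  rw [← map_zero c.π, ← c.map_one]
  exact c.jexp_π fun ω => by simp

theorem star_jexp (x : M) : star (jexp x) = jexp (star x) := by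
  have h : ∀ n, star (jpow x n) = jpow (star x) n := fun n => by
    induction n with
    | zero => exact star_one M
    | succ n ih => rw [jpow, jpow, jstar_mul, ih]
  rw [jexp, jexp, tsum_star]
  simp [h]

theorem norm_jexp_smul_le {a : M} (ha : star a = a) (z : ℂ) :
    ‖jexp (z • a)‖ ≤ Real.exp (|z.re| * ‖a‖) := by
  obtain ⟨c, f, rfl, hf⟩ := exists_chart_sa ha
  rw [← map_smul, c.jexp_chart, c.π.norm_map, c.π.norm_map,
    ContinuousMap.norm_le _ (Real.exp_pos _).le]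
  intro ω
  rw [c.exp_apply_chart, Complex.norm_exp, Real.exp_le_exp, ContinuousMap.smul_apply, smul_eq_mul,
    Complex.mul_re, hf, mul_zero, sub_zero]
  refine (le_abs_self _).trans ?_
  rw [abs_mul]
  exact mul_le_mul_of_nonneg_left ((Complex.abs_re_le_norm _).trans (f.norm_coe_le_norm ω))
    (abs_nonneg _)

theorem norm_jexp_sub_le {a : M} (ha : star a = a) (h : ‖a‖ ≤ 1) :
    ‖jexp a - 1 - a‖ ≤ ‖a‖ ^ 2 := by
  obtain ⟨c, f, rfl, -⟩ := exists_chart_sa ha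
  rw [c.π.norm_map] at h
  rw [c.jexp_chart, ← c.map_one, ← map_sub, ← map_sub, c.π.norm_map, c.π.norm_map,
    ContinuousMap.norm_le _ (sq_nonneg _)]
  intro ω
  have h1 := f.norm_coe_le_norm ω
  rw [ContinuousMap.sub_apply, ContinuousMap.sub_apply, c.exp_apply_chart, ContinuousMap.one_apply]
  exact (Complex.norm_exp_sub_one_sub_id_le (h1.trans h)).trans
    (pow_le_pow_left₀ (norm_nonneg _) h1 2)

/-- Uniqueness of logarithms under a projection. -/
theorem SFrame.jexp_smul_eq {S : Submodule ℂ M} (hS : SFrame S) {l l' r : M} (hl : l ∈ S)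
    (hl' : l' ∈ S) (hr : r ∈ S) (sl : star l = l) (sl' : star l' = l') (pr : IsProj r)
    (h : jexp l * r = jexp l' * r) (z : ℂ) : jexp (z • l) * r = jexp (z • l') * r := by
  obtain ⟨c, hc⟩ := exists_chart hS
  obtain ⟨f, rfl⟩ := (hc _).1 hl
  obtain ⟨g, rfl⟩ := (hc _).1 hl'
  obtain ⟨q, rfl⟩ := (hc _).1 hr
  rw [c.sa_iff] at sl sl'
  rw [c.isProj_iff] at pr
  rw [c.jexp_chart, c.jexp_chart, ← c.map_mul, ← c.map_mul, c.π.injective.eq_iff,
    ContinuousMap.ext_iff] at h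
  rw [← map_smul, ← map_smul, c.jexp_chart, c.jexp_chart, ← c.map_mul, ← c.map_mul]
  congr 1
  ext ω
  have h1 := h ω
  simp only [ContinuousMap.mul_apply, c.exp_apply_chart, ContinuousMap.smul_apply] at h1 ⊢
  rcases pr ω with h0 | h0
  · simp [h0]
  · rw [h0, mul_one, mul_one] at h1
    have h2 := congrArg norm h1
    rw [Complex.norm_exp, Complex.norm_exp, Real.exp_eq_exp] at h2
    rw [Complex.ext h2 ((sl ω).trans (sl' ω).symm)]

end Pool.Agent.MP_ab01c5_an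

/-!
# The positive cone and positive functionals
-/

namespace Pool.Agent.MP_ab01c5_an

open Filter Topology
open scoped ComplexOrder

universe u

variable {M : Type u} [JBU M]

theorem IsPos.sa {x : M} (h : IsPos x) : star x = x := by
  obtain ⟨y, hy, rfl⟩ := h
  rw [jstar_mul, hy]

theorem isPos_mul_self {a : M} (ha : star a = a) : IsPos (a * a) := ⟨a, ha, rfl⟩

theorem Chart.norm_le_posa (c : Chart M) (f : C(c.Ω, ℂ)) {R : ℝ} (hR : 0 ≤ R) :
    ‖c.π f‖ ≤ R ↔ ∀ ω, ‖f ω‖ ≤ R := by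
  rw [c.π.norm_map, ContinuousMap.norm_le _ hR]

theorem Chart.apply_le_posa (c : Chart M) (f : C(c.Ω, ℂ)) (ω : c.Ω) : ‖f ω‖ ≤ ‖c.π f‖ := by
  rw [c.π.norm_map]
  exact f.norm_coe_le_norm ω

theorem Chart.sub_posa (c : Chart M) (f : C(c.Ω, ℂ)) (R : ℂ) :
    R • (1 : M) - c.π f = c.π (R • 1 - f) := by
  rw [map_sub, map_smul, c.map_one]

theorem Chart.add_posa (c : Chart M) (f : C(c.Ω, ℂ)) (R : ℂ) :
    R • (1 : M) + c.π f = c.π (R • 1 + f) := by
  rw [map_add, map_smul, c.map_one]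

theorem norm_real_posa {z : ℂ} (hz : z.im = 0) : ‖z‖ = |z.re| :=
  (Complex.abs_re_eq_norm.2 hz).symm

theorem nonneg_iff_posa {z : ℂ} : 0 ≤ z ↔ 0 ≤ z.re ∧ z.im = 0 := by
  rw [Complex.le_def, Complex.zero_re, Complex.zero_im, eq_comm]

theorem sub_le_posa {z : ℂ} (hz : z.im = 0) {R : ℝ} :
    ‖(R : ℂ) - z‖ ≤ R ↔ 0 ≤ z.re ∧ z.re ≤ 2 * R := by
  rw [norm_real_posa (by simp [hz]), abs_le, Complex.sub_re, Complex.ofReal_re]
  constructor <;> rintro ⟨h1, h2⟩ <;> constructor <;> linarith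

theorem Chart.sub_le_posa (c : Chart M) {f : C(c.Ω, ℂ)} (hf : ∀ ω, (f ω).im = 0) {R : ℝ}
    (hR : 0 ≤ R) :
    ‖(R : ℂ) • (1 : M) - c.π f‖ ≤ R ↔ ∀ ω, 0 ≤ (f ω).re ∧ (f ω).re ≤ 2 * R := by
  rw [c.sub_posa, c.norm_le_posa _ hR]
  refine forall_congr' fun ω => ?_
  rw [← _root_.Pool.Agent.MP_ab01c5_an.sub_le_posa (hf ω)]
  simp

/-- a real function of a function in a chart -/
noncomputable def cmp_posa {Ω : Type u} [TopologicalSpace Ω] (f : C(Ω, ℂ)) (g : ℝ → ℝ)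
    (hg : Continuous g) : C(Ω, ℂ) :=
  ⟨fun ω => (g (f ω).re : ℂ), by fun_prop⟩

theorem cmp_posa_apply {Ω : Type u} [TopologicalSpace Ω] (f : C(Ω, ℂ)) (g : ℝ → ℝ)
    (hg : Continuous g) (ω : Ω) : cmp_posa f g hg ω = (g (f ω).re : ℂ) := rfl

theorem Chart.sqrt_posa (c : Chart M) {f : C(c.Ω, ℂ)} (h : ∀ ω, 0 ≤ f ω) :
    c.π (cmp_posa f _ Real.continuous_sqrt) * c.π (cmp_posa f _ Real.continuous_sqrt) =
      c.π f := by
  rw [← c.map_mul]
  refine congrArg c.π (ContinuousMap.ext fun ω => ?_)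
  obtain ⟨h1, h2⟩ := nonneg_iff_posa.1 (h ω)
  rw [ContinuousMap.mul_apply, cmp_posa_apply, ← Complex.ofReal_mul, Real.mul_self_sqrt h1]
  exact Complex.ext (Complex.ofReal_re _) (by rw [Complex.ofReal_im, h2])

theorem Chart.isPos_iff (c : Chart M) (f : C(c.Ω, ℂ)) : IsPos (c.π f) ↔ ∀ ω, 0 ≤ f ω := by
  constructor
  · intro h ω
    have hf := (c.sa_iff f).1 h.sa
    obtain ⟨y, hy, e⟩ := h
    obtain ⟨c', g, rfl, hg⟩ := exists_chart_sa hy
    have h1 : ‖((‖c.π f‖ : ℝ) : ℂ) • (1 : M) - c.π f‖ ≤ ‖c.π f‖ := by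
      rw [e, ← c'.map_mul, c'.sub_le_posa (fun ω => by simp [hg ω]) (norm_nonneg _)]
      intro ω
      have h2 := (Complex.re_le_norm _).trans (c'.apply_le_posa (g * g) ω)
      refine ⟨?_, by linarith [norm_nonneg (c'.π (g * g))]⟩
      simp only [ContinuousMap.mul_apply, Complex.mul_re, hg ω, mul_zero, sub_zero]
      exact mul_self_nonneg _
    exact nonneg_iff_posa.2 ⟨((c.sub_le_posa hf (norm_nonneg _)).1 h1 ω).1, hf ω⟩
  · intro h
    exact ⟨_, (c.sa_iff _).2 fun ω => Complex.ofReal_im _, (c.sqrt_posa h).symm⟩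

theorem isPos_iff_norm {a : M} (ha : star a = a) {R : ℝ} (hR : ‖a‖ ≤ R) :
    IsPos a ↔ ‖(R : ℂ) • (1 : M) - a‖ ≤ R := by
  have h0 := (norm_nonneg a).trans hR
  obtain ⟨c, f, rfl, hf⟩ := exists_chart_sa ha
  rw [c.isPos_iff, c.sub_le_posa hf h0]
  refine forall_congr' fun ω => ?_
  have h2 := (Complex.re_le_norm _).trans ((c.apply_le_posa f ω).trans hR)
  rw [nonneg_iff_posa]
  exact ⟨fun h => ⟨h.1, by linarith⟩, fun h => ⟨h.1, hf ω⟩⟩

theorem isPos_zero : IsPos (0 : M) := ⟨0, star_zero M, by simp⟩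

theorem isPos_one : IsPos (1 : M) := ⟨1, star_one M, by simp⟩

theorem IsProj.isPos {q : M} (hq : IsProj q) : IsPos q := ⟨q, hq.1, hq.2.symm⟩

theorem IsProj.one_sub {q : M} (hq : IsProj q) : IsProj (1 - q) := by
  refine ⟨by rw [star_sub, star_one, hq.1], ?_⟩
  rw [mul_sub, sub_mul, sub_mul, hq.2, one_mul, one_mul, mul_one, sub_self, sub_zero]

theorem IsProj.norm_le {q : M} (hq : IsProj q) : ‖q‖ ≤ 1 := by
  obtain ⟨c, f, rfl, -⟩ := exists_chart_sa hq.1
  rw [c.norm_le_posa _ zero_le_one]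
  intro ω
  rcases (c.isProj_iff f).1 hq ω with h | h <;> simp [h]

theorem IsPos.add {x y : M} (hx : IsPos x) (hy : IsPos y) : IsPos (x + y) := by
  have h1 := (isPos_iff_norm hx.sa le_rfl).1 hx
  have h2 := (isPos_iff_norm hy.sa le_rfl).1 hy
  rw [isPos_iff_norm (by rw [star_add, hx.sa, hy.sa]) (norm_add_le x y), Complex.ofReal_add,
    add_smul, add_sub_add_comm]
  exact (norm_add_le _ _).trans (add_le_add h1 h2)

theorem star_real_smul_posa (r : ℝ) (x : M) : star ((r : ℂ) • x) = (r : ℂ) • star x := by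
  rw [star_smul, Complex.star_def, Complex.conj_ofReal]

theorem IsPos.smul {x : M} (hx : IsPos x) {r : ℝ} (hr : 0 ≤ r) : IsPos ((r : ℂ) • x) := by
  obtain ⟨y, hy, rfl⟩ := hx
  refine ⟨((√r : ℝ) : ℂ) • y, by rw [star_real_smul_posa, hy], ?_⟩
  rw [smul_mul_assoc, mul_smul_comm, smul_smul, ← Complex.ofReal_mul, Real.mul_self_sqrt hr]

theorem isPos_sum {ι : Type*} (s : Finset ι) {a : ι → M} (h : ∀ i ∈ s, IsPos (a i)) :
    IsPos (∑ i ∈ s, a i) :=
  Finset.sum_induction a IsPos (fun _ _ => IsPos.add) isPos_zero h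

theorem isClosed_isPos : IsClosed {x : M | IsPos x} := by
  have h : {x : M | IsPos x} =
      {x | star x = x} ∩ {x | ‖((‖x‖ : ℝ) : ℂ) • (1 : M) - x‖ ≤ ‖x‖} :=
    Set.ext fun x => ⟨fun hx => ⟨hx.sa, (isPos_iff_norm hx.sa le_rfl).1 hx⟩,
      fun hx => (isPos_iff_norm hx.1 le_rfl).2 hx.2⟩
  rw [h]
  exact (isClosed_eq continuous_star continuous_id).inter
    (isClosed_le (by fun_prop) (by fun_prop))

theorem IsPos.eq_zero {x : M} (h : IsPos x) (h' : IsPos (-x)) : x = 0 := by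
  obtain ⟨c, f, rfl, -⟩ := exists_chart_sa h.sa
  rw [← map_neg, c.isPos_iff] at h'
  rw [c.isPos_iff] at h
  have : f = 0 := ContinuousMap.ext fun ω => le_antisymm (neg_nonneg.1 (h' ω)) (h ω)
  rw [this, map_zero]

theorem exists_re_im (x : M) : ∃ a b : M, star a = a ∧ star b = b ∧ x = a + Complex.I • b ∧
    ‖a‖ ≤ ‖x‖ ∧ ‖b‖ ≤ ‖x‖ := by
  refine ⟨(1 / 2 : ℂ) • (x + star x), (-Complex.I / 2) • (x - star x), ?_, ?_, ?_, ?_, ?_⟩
  · rw [star_smul, star_add, star_star, add_comm]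
    simp
  · rw [star_smul, star_sub, star_star, ← neg_sub x, smul_neg, ← neg_smul]
    congr 1
    simp [neg_div]
  · rw [smul_smul, show Complex.I * (-Complex.I / 2) = 1 / 2 by
      linear_combination (-1 / 2 : ℂ) * Complex.I_mul_I]
    module
  · have := norm_add_le x (star x)
    rw [norm_star] at this
    rw [norm_smul]
    norm_num
    linarith
  · have := norm_sub_le x (star x)
    rw [norm_star] at this
    rw [norm_smul]
    norm_num
    linarith

theorem isPos_mul_star (x : M) : IsPos (x * star x) := by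
  obtain ⟨a, b, ha, hb, rfl, -, -⟩ := exists_re_im x
  have h : (a + Complex.I • b) * star (a + Complex.I • b) = a * a + b * b := by
    rw [star_add, star_smul, ha, hb, Complex.star_def, Complex.conj_I]
    simp only [add_mul, mul_add, smul_mul_assoc, mul_smul_comm, smul_add, smul_smul,
      mul_comm b a, neg_mul, Complex.I_mul_I]
    module
  rw [h]
  exact (isPos_mul_self ha).add (isPos_mul_self hb)

theorem isPos_norm_sub {a : M} (ha : star a = a) {R : ℝ} (hR : ‖a‖ ≤ R) :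
    IsPos ((R : ℂ) • (1 : M) - a) := by
  obtain ⟨c, f, rfl, hf⟩ := exists_chart_sa ha
  rw [c.sub_posa, c.isPos_iff]
  intro ω
  have h2 := (Complex.re_le_norm _).trans ((c.apply_le_posa f ω).trans hR)
  rw [nonneg_iff_posa]
  simp [hf ω, h2]

theorem norm_le_of_isPos {a : M} (ha : star a = a) {R : ℝ} (hR : 0 ≤ R)
    (h1 : IsPos ((R : ℂ) • (1 : M) - a)) (h2 : IsPos ((R : ℂ) • (1 : M) + a)) : ‖a‖ ≤ R := by
  obtain ⟨c, f, rfl, hf⟩ := exists_chart_sa ha
  rw [c.sub_posa, c.isPos_iff] at h1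
  rw [c.add_posa, c.isPos_iff] at h2
  rw [c.norm_le_posa _ hR]
  intro ω
  have h3 := (nonneg_iff_posa.1 (h1 ω)).1
  have h4 := (nonneg_iff_posa.1 (h2 ω)).1
  simp only [ContinuousMap.sub_apply, ContinuousMap.add_apply, ContinuousMap.smul_apply,
    ContinuousMap.one_apply, smul_eq_mul, mul_one, Complex.sub_re, Complex.add_re,
    Complex.ofReal_re] at h3 h4
  rw [norm_real_posa (hf ω), abs_le]
  constructor <;> linarith

theorem IsPos.norm_le_one {a : M} (h : IsPos a) (h1 : IsPos (1 - a)) : ‖a‖ ≤ 1 :=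
  norm_le_of_isPos h.sa zero_le_one (by rwa [Complex.ofReal_one, one_smul])
    (by rw [Complex.ofReal_one, one_smul]; exact isPos_one.add h)

theorem isPos_of_ray_posa {a b : M} (h : ∀ t : ℝ, IsPos ((t : ℂ) • a + b)) : IsPos a := by
  have h1 : Tendsto (fun s : ℝ => a + (s : ℂ) • b) (𝓝[>] 0) (𝓝 a) := by
    have h2 : Continuous fun s : ℝ => a + (s : ℂ) • b := by fun_prop
    simpa using (h2.tendsto 0).mono_left nhdsWithin_le_nhds
  refine isClosed_isPos.mem_of_tendsto h1 ?_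
  filter_upwards [self_mem_nhdsWithin] with s hs
  have hs' : (0 : ℝ) < s := hs
  have h3 := (h s⁻¹).smul hs'.le
  rwa [smul_add, smul_smul, ← Complex.ofReal_mul, mul_inv_cancel₀ hs'.ne', Complex.ofReal_one,
    one_smul] at h3

/-- Archimedean property. -/
theorem eq_zero_of_isPos_smul_add {a b : M} (h : ∀ t : ℝ, IsPos ((t : ℂ) • a + b)) : a = 0 := by
  refine (isPos_of_ray_posa h).eq_zero (isPos_of_ray_posa (b := b) fun t => ?_)
  have := h (-t)
  rwa [Complex.ofReal_neg, neg_smul, ← smul_neg] at this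

theorem norm_mul_self_sa {a : M} (ha : star a = a) : ‖a * a‖ = ‖a‖ ^ 2 := by
  obtain ⟨c, f, rfl, -⟩ := exists_chart_sa ha
  have hf : star f = f := c.π.injective (by rw [c.map_star, ha])
  rw [← c.map_mul, c.π.norm_map, c.π.norm_map, sq]
  nth_rewrite 1 [← hf]
  exact CStarRing.norm_star_mul_self

theorem IsPos.exists_sqrt {a : M} (ha : IsPos a) : ∃ b : M, IsPos b ∧ b * b = a := by
  obtain ⟨c, f, rfl, -⟩ := exists_chart_sa ha.sa
  exact ⟨_, (c.isPos_iff _).2 fun ω => Complex.zero_le_real.2 (Real.sqrt_nonneg _),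
    c.sqrt_posa ((c.isPos_iff f).1 ha)⟩

theorem exists_pos_neg {a : M} (ha : star a = a) : ∃ u v : M, IsPos u ∧ IsPos v ∧ a = u - v ∧
    u * v = 0 ∧ ‖u‖ ≤ ‖a‖ ∧ ‖v‖ ≤ ‖a‖ := by
  obtain ⟨c, f, rfl, hf⟩ := exists_chart_sa ha
  have hb : ∀ ω, |(f ω).re| ≤ ‖c.π f‖ := fun ω =>
    (Complex.abs_re_le_norm _).trans (c.apply_le_posa f ω)
  refine ⟨c.π (cmp_posa f (fun t => max t 0) (by fun_prop)),
    c.π (cmp_posa f (fun t => max (-t) 0) (by fun_prop)),
    (c.isPos_iff _).2 fun ω => Complex.zero_le_real.2 (le_max_right _ _),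
    (c.isPos_iff _).2 fun ω => Complex.zero_le_real.2 (le_max_right _ _), ?_, ?_, ?_, ?_⟩
  · rw [← map_sub]
    refine congrArg c.π (ContinuousMap.ext fun ω => ?_)
    rw [ContinuousMap.sub_apply, cmp_posa_apply, cmp_posa_apply, ← Complex.ofReal_sub,
      max_zero_sub_max_neg_zero_eq_self]
    exact Complex.ext (Complex.ofReal_re _).symm (by rw [Complex.ofReal_im, hf ω])
  · rw [← c.map_mul, ← map_zero c.π]
    refine congrArg c.π (ContinuousMap.ext fun ω => ?_)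
    rw [ContinuousMap.mul_apply, cmp_posa_apply, cmp_posa_apply, ← Complex.ofReal_mul,
      ContinuousMap.zero_apply, Complex.ofReal_eq_zero]
    rcases le_total (f ω).re 0 with h | h
    · rw [max_eq_right h, zero_mul]
    · rw [max_eq_right (neg_nonpos.2 h), mul_zero]
  · rw [c.norm_le_posa _ (norm_nonneg _)]
    intro ω
    rw [cmp_posa_apply, Complex.norm_real, Real.norm_eq_abs, abs_of_nonneg (le_max_right _ _)]
    exact max_le ((le_abs_self _).trans (hb ω)) (norm_nonneg _)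
  · rw [c.norm_le_posa _ (norm_nonneg _)]
    intro ω
    rw [cmp_posa_apply, Complex.norm_real, Real.norm_eq_abs, abs_of_nonneg (le_max_right _ _)]
    exact max_le ((neg_le_abs _).trans (hb ω)) (norm_nonneg _)

/-- The unit interval spans the algebra. -/
theorem induction_unit_interval {p : M → Prop} (h : ∀ x, IsPos x → IsPos (1 - x) → p x)
    (hadd : ∀ x y, p x → p y → p (x + y)) (hsmul : ∀ (c : ℂ) x, p x → p (c • x)) (x : M) :
    p x := by
  have h1 : ∀ u : M, IsPos u → p u := by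
    intro u hu
    have hR : 0 < ‖u‖ + 1 := by positivity
    have h2 := hu.smul (inv_pos.2 hR).le
    have h3 := (isPos_norm_sub hu.sa (R := ‖u‖ + 1) (by linarith)).smul (inv_pos.2 hR).le
    rw [smul_sub, smul_smul, ← Complex.ofReal_mul, inv_mul_cancel₀ hR.ne', Complex.ofReal_one,
      one_smul] at h3
    have h4 := hsmul ((‖u‖ + 1 : ℝ) : ℂ) _ (h _ h2 h3)
    rwa [smul_smul, ← Complex.ofReal_mul, mul_inv_cancel₀ hR.ne', Complex.ofReal_one,
      one_smul] at h4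
  have h2 : ∀ a : M, star a = a → p a := by
    intro a ha
    obtain ⟨u, v, hu, hv, rfl, -⟩ := exists_pos_neg ha
    rw [sub_eq_add_neg, ← neg_one_smul ℂ v]
    exact hadd _ _ (h1 u hu) (hsmul _ _ (h1 v hv))
  obtain ⟨a, b, ha, hb, rfl, -⟩ := exists_re_im x
  exact hadd _ _ (h2 a ha) (hsmul _ _ (h2 b hb))

theorem SFrame.isPos_mul {S : Submodule ℂ M} (hS : SFrame S) {a b : M} (ha : a ∈ S) (hb : b ∈ S)
    (pa : IsPos a) (pb : IsPos b) : IsPos (a * b) := by
  obtain ⟨c, hc⟩ := exists_chart hS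
  obtain ⟨f, rfl⟩ := (hc _).1 ha
  obtain ⟨g, rfl⟩ := (hc _).1 hb
  rw [← c.map_mul, c.isPos_iff]
  exact fun ω => mul_nonneg ((c.isPos_iff f).1 pa ω) ((c.isPos_iff g).1 pb ω)

theorem isPos_jexp {a : M} (ha : star a = a) : IsPos (jexp a) := by
  obtain ⟨c, f, rfl, hf⟩ := exists_chart_sa ha
  rw [c.jexp_π (k := cmp_posa f _ Real.continuous_exp) fun ω => ?_, c.isPos_iff]
  · exact fun ω => Complex.zero_le_real.2 (Real.exp_pos _).le
  · rw [cmp_posa_apply, Complex.ofReal_exp]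
    exact congrArg _ (Complex.ext (Complex.ofReal_re _) (by rw [Complex.ofReal_im, hf ω]))

end Pool.Agent.MP_ab01c5_an

namespace Pool.Agent.MP_ab01c5_an

open Filter Topology
open scoped ComplexOrder

universe u

variable {M : Type u} [JBU M]

/-! ## Power trick, invertibility and positivity of `U` -/

theorem star_alt (n : ℕ) (x b : M) : star (alt n x b) = alt n (star x) (star b) := by
  induction n generalizing x b with
  | zero => rfl
  | succ n ih => rw [alt, alt, star_tri, ih]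

/-- `‖x^[3^m]‖ = ‖x‖ ^ (3 ^ m)`. -/
theorem exists_alt_norm (m : ℕ) :
    ∃ n : ℕ, 2 * n + 1 = 3 ^ m ∧ ∀ x : M, ‖alt n x (star x)‖ = ‖x‖ ^ (3 ^ m) := by
  induction m with
  | zero => exact ⟨0, rfl, fun x => by simp [alt]⟩
  | succ m ih =>
    obtain ⟨n, h1, h2⟩ := ih
    refine ⟨3 * n + 1, by rw [pow_succ]; omega, fun x => ?_⟩
    have h3 : alt n (star x) x = star (alt n x (star x)) := by rw [star_alt, star_star]
    rw [← alt_cube, h3, JBStarAlgebra.norm_tri, h2, ← pow_mul, pow_succ]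

theorem le_of_pow_posb {a b C : ℝ} (hb : 0 ≤ b) (h : ∀ m : ℕ, a ^ (3 ^ m) ≤ C * b ^ (3 ^ m)) :
    a ≤ b := by
  by_contra! hlt
  rcases hb.eq_or_lt with rfl | hb
  · have := h 0
    simp only [pow_zero, pow_one, mul_zero] at this
    exact absurd this hlt.not_ge
  · have h1 : 1 < a / b := (one_lt_div hb).2 hlt
    obtain ⟨m, hm⟩ := pow_unbounded_of_one_lt C h1
    have h2 : (a / b) ^ m ≤ (a / b) ^ (3 ^ m) :=
      pow_le_pow_right₀ h1.le (Nat.lt_pow_self (by norm_num)).le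
    rw [div_pow _ _ (3 ^ m), le_div_iff₀ (pow_pos hb _)] at h2
    have h3 := mul_lt_mul_of_pos_right hm (pow_pos hb (3 ^ m))
    linarith [h m]

theorem alt_U_posb {S : Submodule ℂ M} (hS : IsFrame S) (n : ℕ) {v v' : M} (hv : v ∈ S)
    (hv' : v' ∈ S) (h : v * v' = 1) (a b : M) :
    alt n (tri v a v) (tri v' b v') = tri v (alt n a b) v := by
  induction n generalizing v v' a b with
  | zero => rfl
  | succ n ih =>
    rw [alt, alt, ih hv' hv (by rw [mul_comm, h]), ff, hS.U_U hv hv', h, tri_one_left, mul_one]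

/-- `U_v` is a contraction for a unitary `v` of a frame. -/
theorem SFrame.norm_U_unitary {S : Submodule ℂ M} (hS : SFrame S) {v : M} (hv : v ∈ S)
    (h : v * star v = 1) (x : M) : ‖tri v x v‖ ≤ ‖x‖ := by
  refine le_of_pow_posb (C := 3 * (‖v‖ * ‖v‖)) (norm_nonneg x) fun m => ?_
  obtain ⟨n, -, h2⟩ := exists_alt_norm (M := M) m
  rw [← h2, ← h2, star_tri, alt_U_posb hS.frame n hv (hS.alg.star_mem v hv) h]
  exact (norm_tri_le _ _ _).trans_eq (by ring)

theorem Chart.ne_zero_of_U (c : Chart M) {f : C(c.Ω, ℂ)} {w : M}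
    (h : tri (c.π f) w (c.π f) = 1) (ω : c.Ω) : f ω ≠ 0 := by
  intro h0
  obtain ⟨ε, hε, h1, h2⟩ : ∃ ε : ℝ, 0 < ε ∧ ε ≤ 1 ∧ 3 * (ε * ‖w‖) < 1 := by
    have hw := norm_nonneg w
    refine ⟨1 / (3 * ‖w‖ + 1), by positivity, ?_, ?_⟩
    · rw [div_le_one (by positivity)]; linarith
    · rw [one_div_mul_eq_div, ← mul_div_assoc, div_lt_one (by positivity)]; linarith
  have hd : ∀ t, 0 < ε + ‖f t‖ := fun t => by positivity
  let g : C(c.Ω, ℂ) := ⟨fun t => ((ε / (ε + ‖f t‖) : ℝ) : ℂ), Complex.continuous_ofReal.comp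
    (continuous_const.div (by fun_prop) fun t => (hd t).ne')⟩
  have hg : ‖c.π (g * f)‖ ≤ ε := by
    rw [c.π.norm_map, ContinuousMap.norm_le _ hε.le]
    intro t
    rw [ContinuousMap.mul_apply, norm_mul]
    change ‖((ε / (ε + ‖f t‖) : ℝ) : ℂ)‖ * _ ≤ ε
    rw [Complex.norm_real, Real.norm_of_nonneg (div_pos hε (hd t)).le, div_mul_eq_mul_div,
      div_le_iff₀ (hd t)]
    nlinarith
  have h3 := c.U_U g f w
  rw [h, tri_one_mid, ← c.map_mul] at h3
  have h4 := (g * g).norm_coe_le_norm ω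
  have h5 : g ω = 1 := by
    change ((ε / (ε + ‖f ω‖) : ℝ) : ℂ) = 1
    rw [h0, norm_zero, add_zero, div_self hε.ne', Complex.ofReal_one]
  rw [ContinuousMap.mul_apply, h5, mul_one, norm_one, ← c.π.norm_map, h3] at h4
  have h6 := norm_tri_le (c.π (g * f)) w (c.π (g * f))
  have h7 := mul_le_mul (mul_le_mul_of_nonneg_right hg (norm_nonneg w)) (hg.trans h1)
    (norm_nonneg _) (by positivity)
  linarith

/-- A path of invertible self-adjoint elements starting in the cone stays in the cone. -/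
theorem isPos_of_path {γ : ℝ → M} (hc : ContinuousOn γ (Set.Icc 0 1))
    (hs : ∀ t ∈ Set.Icc (0 : ℝ) 1, star (γ t) = γ t)
    (hi : ∀ t ∈ Set.Icc (0 : ℝ) 1, ∃ w : M, tri (γ t) w (γ t) = 1) (h0 : IsPos (γ 0)) :
    IsPos (γ 1) := by
  obtain ⟨C, hC⟩ := isCompact_Icc.exists_bound_of_continuousOn hc
  have hR : ∀ t ∈ Set.Icc (0 : ℝ) 1, ‖γ t‖ ≤ |C| + 1 := fun t ht =>
    (hC t ht).trans (by linarith [le_abs_self C])
  have hR0 : 0 < |C| + 1 := by positivity
  generalize |C| + 1 = R at hR hR0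
  have m0 : (0 : ℝ) ∈ Set.Icc (0 : ℝ) 1 := ⟨le_rfl, zero_le_one⟩
  have m1 : (1 : ℝ) ∈ Set.Icc (0 : ℝ) 1 := ⟨zero_le_one, le_rfl⟩
  rw [isPos_iff_norm (hs 0 m0) (hR 0 m0)] at h0
  rw [isPos_iff_norm (hs 1 m1) (hR 1 m1)]
  by_contra! h1
  obtain ⟨t, ht, he⟩ := intermediate_value_Icc (f := fun t => ‖(R : ℂ) • (1 : M) - γ t‖)
    zero_le_one (continuousOn_const.sub hc).norm ⟨h0, h1.le⟩
  obtain ⟨c, f, hf, hre⟩ := exists_chart_sa (hs t ht)
  obtain ⟨w, hw⟩ := hi t ht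
  have hn := hR t ht
  simp only at he
  rw [← hf] at hw hn he
  rw [← c.map_one, ← map_smul, ← map_sub, c.π.norm_map] at he
  rw [c.π.norm_map] at hn
  refine he.not_lt ((ContinuousMap.norm_lt_iff _ hR0).2 fun ω => ?_)
  have h2 := (((R : ℂ) • (1 : C(c.Ω, ℂ)) - f).norm_coe_le_norm ω).trans he.le
  have h3 := (f.norm_coe_le_norm ω).trans hn
  have h4 := c.ne_zero_of_U hw ω
  obtain ⟨s, hs'⟩ : ∃ s : ℝ, f ω = s := ⟨(f ω).re, Complex.ext (by simp) (by simp [hre ω])⟩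
  have h5 : ((R : ℂ) • (1 : C(c.Ω, ℂ)) - f) ω = ((R - s : ℝ) : ℂ) := by simp [hs']
  rw [h5, Complex.norm_real, Real.norm_eq_abs] at h2 ⊢
  rw [hs', Complex.norm_real, Real.norm_eq_abs] at h3
  have h6 : s ≠ 0 := fun h => h4 (by rw [hs', h, Complex.ofReal_zero])
  have h7 : 0 < s := lt_of_le_of_ne (by linarith [(abs_le.1 h2).2]) h6.symm
  exact abs_lt.2 ⟨by linarith [(abs_le.1 h3).2], by linarith⟩

theorem inv_posb (c : Chart M) {f : C(c.Ω, ℂ)} (h0 : ∀ ω, f ω ≠ 0) :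
    ∃ a : M, ∀ z, tri (c.π f) (tri a z a) (c.π f) = z := by
  let g : C(c.Ω, ℂ) := ⟨fun ω => (f ω)⁻¹, f.continuous.inv₀ h0⟩
  have h : f * g = 1 := ContinuousMap.ext fun ω => mul_inv_cancel₀ (h0 ω)
  exact ⟨c.π g, fun z => by rw [c.U_U, h, c.map_one, tri_one_left, mul_one]⟩

theorem lim_posb {F : ℝ → M} (hF : Continuous F) (h : ∀ ε : ℝ, 0 < ε → IsPos (F ε)) :
    IsPos (F 0) := by
  have := (isClosed_isPos (M := M)).mem_of_tendsto (b := 𝓝[>] 0)
    (hF.continuousAt.tendsto.mono_left nhdsWithin_le_nhds) (eventually_mem_nhdsWithin.mono h)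
  exact this

theorem Chart.isPos_U (c : Chart M) {f : C(c.Ω, ℂ)} (hf : ∀ ω, (f ω).im = 0)
    (h0 : ∀ ω, f ω ≠ 0) {x : M} (hx : IsPos x) : IsPos (tri (c.π f) x (c.π f)) := by
  have ha := (c.sa_iff f).2 hf
  obtain ⟨a', ha'⟩ := inv_posb c h0
  obtain ⟨d, g, rfl, -⟩ := exists_chart_sa hx.sa
  have hg := (d.isPos_iff g).1 hx
  have key := lim_posb (F := fun ε => tri (c.π f) (d.π (g + (ε : ℂ) • 1)) (c.π f))
    (continuous_tri continuous_const (d.π.continuous.comp (by fun_prop)) continuous_const)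
    fun ε hε => ?_
  · simpa using key
  let k : ℝ → C(d.Ω, ℂ) := fun t => ((1 - t : ℝ) : ℂ) • 1 + (t : ℂ) • (g + (ε : ℂ) • 1)
  have hk : ∀ t ω, k t ω = ((1 - t + t * ((g ω).re + ε) : ℝ) : ℂ) := fun t ω => by
    have := (Complex.le_def.1 (hg ω)).2
    apply Complex.ext <;> simp [k, ← this, mul_add]
  have := isPos_of_path (γ := fun t => tri (c.π f) (d.π (k t)) (c.π f))
    (continuous_tri continuous_const (d.π.continuous.comp (by fun_prop))
      continuous_const).continuousOn (fun t _ => ?_) (fun t ht => ?_) ?_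
  · simpa [k] using this
  · rw [star_tri, ha, (d.sa_iff _).2 fun ω => by rw [hk, Complex.ofReal_im]]
  · obtain ⟨y', hy'⟩ := inv_posb d (f := k t) fun ω => by
      rw [hk, Complex.ofReal_ne_zero]
      have h1 : 0 ≤ (g ω).re := (Complex.le_def.1 (hg ω)).1
      rcases ht.1.eq_or_lt with h2 | h2
      · rw [← h2]; norm_num
      · exact (add_pos_of_nonneg_of_pos (sub_nonneg.2 ht.2) (by positivity)).ne'
    exact ⟨tri a' (tri y' (tri a' 1 a') y') a', by rw [ff, ha', hy', ha']⟩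
  · have h1 : k 0 = 1 := by simp [k]
    rw [h1, d.map_one, tri_one_mid]
    exact isPos_mul_self ha

theorem IsPos.U {a x : M} (ha : IsPos a) (hx : IsPos x) : IsPos (tri a x a) := by
  obtain ⟨c, f, rfl, hf⟩ := exists_chart_sa ha.sa
  have hg := (c.isPos_iff f).1 ha
  have hc : Continuous fun ε : ℝ => c.π (f + (ε : ℂ) • 1) := c.π.continuous.comp (by fun_prop)
  have key := lim_posb (continuous_tri hc continuous_const hc) fun ε hε =>
    c.isPos_U (fun ω => by simp [hf ω]) (fun ω h => ?_) hx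
  · simpa using key
  · have h1 : 0 ≤ (f ω).re := (Complex.le_def.1 (hg ω)).1
    have h2 := congrArg Complex.re h
    simp at h2
    linarith

theorem IsProj.isPos_norm_sub {q y : M} (hq : IsProj q) (hy : star y = y) (h : q * y = y)
    {R : ℝ} (hR : ‖y‖ ≤ R) : IsPos ((R : ℂ) • q - y) := by
  have := hq.isPos.U (Pool.Agent.MP_ab01c5_an.isPos_norm_sub hy hR)
  rwa [tri_sub_mid, tri_smul_mid, tri_one_mid, hq.2, U_idem_of_fix hq.2 h] at this

end Pool.Agent.MP_ab01c5_an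

namespace Pool.Agent.MP_ab01c5_an

open Filter Topology
open scoped ComplexOrder

universe u

variable {M : Type u} [JBU M]

/-! ## Positive functionals -/

def PosF (ω : M →L[ℂ] ℂ) : Prop := ∀ x : M, IsPos x → 0 ≤ ω x

/-- The seminorm `ω(x ∘ x*)^(1/2)`. -/
noncomputable def sn (ω : M →L[ℂ] ℂ) (x : M) : ℝ := Real.sqrt (ω (x * star x)).re

theorem sn_nonneg (ω : M →L[ℂ] ℂ) (x : M) : 0 ≤ sn ω x := Real.sqrt_nonneg _

theorem sn_star (ω : M →L[ℂ] ℂ) (x : M) : sn ω (star x) = sn ω x := by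
  rw [sn, sn, star_star, mul_comm]

theorem sn_neg (ω : M →L[ℂ] ℂ) (x : M) : sn ω (-x) = sn ω x := by
  rw [sn, sn, star_neg, neg_mul_neg]

theorem sn_smul (ω : M →L[ℂ] ℂ) (c : ℂ) (x : M) : sn ω (c • x) = ‖c‖ * sn ω x := by
  rw [sn, sn, star_smul, smul_mul_assoc, mul_smul_comm, smul_smul, map_smul, smul_eq_mul,
    Complex.star_def, Complex.mul_conj', ← Complex.ofReal_pow, Complex.re_ofReal_mul,
    Real.sqrt_mul (sq_nonneg _), Real.sqrt_sq (norm_nonneg c)]

namespace PosF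

variable {ω : M →L[ℂ] ℂ} (h : PosF ω)
include h

theorem re_nonneg {x : M} (hx : IsPos x) : 0 ≤ (ω x).re := (Complex.le_def.1 (h x hx)).1

theorem im_sa {x : M} (hx : star x = x) : (ω x).im = 0 := by
  obtain ⟨u, v, hu, hv, rfl, -⟩ := exists_pos_neg hx
  rw [map_sub, Complex.sub_im, ← (Complex.le_def.1 (h u hu)).2, ← (Complex.le_def.1 (h v hv)).2,
    sub_self]

theorem map_star (x : M) : ω (star x) = star (ω x) := by
  obtain ⟨a, b, ha, hb, rfl, -⟩ := exists_re_im x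
  have h1 := h.im_sa ha
  have h2 := h.im_sa hb
  rw [star_add, star_smul, ha, hb]
  simp only [map_add, map_smul, smul_eq_mul, Complex.star_def, map_mul,
    Complex.conj_eq_iff_im.2 h1, Complex.conj_eq_iff_im.2 h2]

theorem mono {x y : M} (hxy : IsPos (y - x)) : (ω x).re ≤ (ω y).re := by
  have := h.re_nonneg hxy
  rw [map_sub, Complex.sub_re] at this
  linarith

theorem sn_sq (x : M) : sn ω x ^ 2 = (ω (x * star x)).re :=
  Real.sq_sqrt (h.re_nonneg (isPos_mul_star x))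

theorem conj_pos (x y : M) : ω (y * star x) = star (ω (x * star y)) := by
  rw [← h.map_star, jstar_mul, star_star, mul_comm]

theorem cs (x y : M) : ‖ω (x * star y)‖ ≤ sn ω x * sn ω y := by
  let c : PreInnerProductSpace.Core ℂ M :=
    { inner := fun a b => ω (b * star a)
      conj_inner_symm := fun a b => (h.conj_pos a b).symm
      re_inner_nonneg := fun a => h.re_nonneg (isPos_mul_star a)
      add_left := fun a b z => by simp only [star_add, mul_add, map_add]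
      smul_left := fun a b r => by
        simp only [star_smul, mul_smul_comm, map_smul, smul_eq_mul, Complex.star_def] }
  have h1 : ‖ω (x * star y)‖ * ‖ω (y * star x)‖ ≤ (ω (y * star y)).re * (ω (x * star x)).re :=
    InnerProductSpace.Core.inner_mul_inner_self_le (c := c) y x
  rw [h.conj_pos x y, norm_star, ← h.sn_sq, ← h.sn_sq] at h1
  refine abs_le_of_sq_le_sq' ?_ (mul_nonneg (sn_nonneg ω x) (sn_nonneg ω y)) |>.2
  nlinarith

theorem cs' (x y : M) : ‖ω (x * y)‖ ≤ sn ω x * sn ω y := by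
  have := h.cs x (star y)
  rwa [star_star, sn_star] at this

theorem sn_add_le (x y : M) : sn ω (x + y) ≤ sn ω x + sn ω y := by
  refine (abs_le_of_sq_le_sq' ?_ (add_nonneg (sn_nonneg ω x) (sn_nonneg ω y))).2
  have h1 := (Complex.re_le_norm _).trans (h.cs x y)
  have h2 := (Complex.re_le_norm _).trans (h.cs y x)
  have h3 := h.sn_sq x
  have h4 := h.sn_sq y
  rw [h.sn_sq, star_add]
  simp only [add_mul, mul_add, map_add, Complex.add_re]
  nlinarith

theorem sn_le (x : M) : sn ω x ≤ Real.sqrt (ω 1).re * ‖x‖ := by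
  have h1 := h.mono (isPos_norm_sub (isPos_mul_star x).sa (R := ‖x‖ ^ 2)
    ((jnorm_mul_le _ _).trans (by rw [norm_star, sq])))
  rw [map_smul, smul_eq_mul, Complex.re_ofReal_mul, mul_comm (‖x‖ ^ 2)] at h1
  rw [← Real.sqrt_sq (norm_nonneg x), ← Real.sqrt_mul (h.re_nonneg isPos_one)]
  exact Real.sqrt_le_sqrt h1

theorem sn_proj {q : M} (hq : IsProj q) : sn ω q = Real.sqrt (ω q).re := by
  rw [sn, hq.1, hq.2]

theorem norm_le (x : M) : ‖ω x‖ ≤ (ω 1).re * ‖x‖ := by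
  have h1 := h.cs' 1 x
  rw [one_mul, h.sn_proj ⟨star_one M, one_mul 1⟩] at h1
  refine h1.trans ((mul_le_mul_of_nonneg_left (h.sn_le x) (Real.sqrt_nonneg _)).trans_eq ?_)
  rw [← mul_assoc, Real.mul_self_sqrt (h.re_nonneg isPos_one)]

theorem norm_sub_U {r : M} (hr : IsProj r) (x : M) :
    ‖ω x - ω (tri r x r)‖ ≤ 5 * Real.sqrt ((ω 1).re * (ω (1 - r)).re) * ‖x‖ := by
  have hq := hr.one_sub
  have e : x - tri r x r = (3 : ℂ) • ((1 - r) * x) - (2 : ℂ) • ((1 - r) * ((1 - r) * x)) := by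
    simp only [tri, hr.2, sub_mul, mul_sub, one_mul, mul_comm (r * x) r]
    module
  generalize 1 - r = q at *
  have b : ∀ y : M, ‖y‖ ≤ ‖x‖ → ‖ω (q * y)‖ ≤ Real.sqrt ((ω 1).re * (ω q).re) * ‖x‖ := by
    intro y hy
    refine (h.cs' q y).trans ?_
    rw [h.sn_proj hq, Real.sqrt_mul (h.re_nonneg isPos_one), mul_comm (Real.sqrt (ω 1).re),
      mul_assoc]
    exact mul_le_mul_of_nonneg_left ((h.sn_le y).trans
      (mul_le_mul_of_nonneg_left hy (Real.sqrt_nonneg _))) (Real.sqrt_nonneg _)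
  have b1 := b x le_rfl
  have b2 := b (q * x) ((jnorm_mul_le _ _).trans (mul_le_of_le_one_left (norm_nonneg x) hq.norm_le))
  rw [← map_sub, e, map_sub, map_smul, map_smul]
  refine (norm_sub_le _ _).trans ?_
  rw [norm_smul, norm_smul, Complex.norm_ofNat, Complex.norm_ofNat]
  linarith

end PosF

end Pool.Agent.MP_ab01c5_an

/-!
# Spectral data of an unbounded positive element
-/

namespace Pool.Agent.MP_ab01c5_an

universe u

variable {M : Type u} [JBU M]

/-- Cut-offs of a positive element `k` affiliated with the frame `B`: increasing projections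
`q n` and `l n = log k` on `q n`. -/
structure Dat (B : Submodule ℂ M) where
  q : ℕ → M
  l : ℕ → M
  q_mem : ∀ n, q n ∈ B
  l_mem : ∀ n, l n ∈ B
  proj : ∀ n, IsProj (q n)
  sa : ∀ n, star (l n) = l n
  mono : ∀ m n, m ≤ n → q m * q n = q m
  compat : ∀ m n, m ≤ n → q m * l n = l m

namespace Dat

variable {B : Submodule ℂ M} (D : Dat B)

/-- `k ^ z` on `q n`. -/
noncomputable def pw (z : ℂ) (n : ℕ) : M := jexp (z • D.l n) * D.q n

/-- The data of `k ^ r`. -/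
noncomputable def scale (r : ℝ) : Dat B where
  q := D.q
  l n := (r : ℂ) • D.l n
  q_mem := D.q_mem
  l_mem n := B.smul_mem _ (D.l_mem n)
  proj := D.proj
  sa n := by rw [star_smul, D.sa]; simp
  mono := D.mono
  compat m n h := by rw [mul_smul_comm, D.compat m n h]

@[simp] theorem scale_q (r : ℝ) (n : ℕ) : (D.scale r).q n = D.q n := rfl

theorem scale_pw (r : ℝ) (z : ℂ) (n : ℕ) : (D.scale r).pw z n = D.pw (z * r) n := by
  simp only [pw, scale, smul_smul]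

theorem differentiable_pw (n : ℕ) : Differentiable ℂ fun z => D.pw z n := by
  have h : (fun z => D.pw z n) = fun z : ℂ => mulL (D.q n) (jexp (z • D.l n)) :=
    funext fun z => mul_comm _ _
  rw [h]
  exact (mulL (D.q n)).differentiable.comp (differentiable_jexp (D.sa n))

theorem norm_pw_le (z : ℂ) (n : ℕ) : ‖D.pw z n‖ ≤ Real.exp (|z.re| * ‖D.l n‖) :=
  (jnorm_mul_le _ _).trans ((mul_le_of_le_one_right (norm_nonneg _) (D.proj n).norm_le).trans
    (norm_jexp_smul_le (D.sa n) z))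

theorem norm_pw_im {z : ℂ} (hz : z.re = 0) (n : ℕ) : ‖D.pw z n‖ ≤ 1 := by
  simpa [hz] using D.norm_pw_le z n

theorem pw_zero (n : ℕ) : D.pw 0 n = D.q n := by
  rw [pw, zero_smul, jexp_zero, one_mul]

variable (hB : SFrame B)
include hB

theorem chart_dat : ∃ (c : Chart M) (q : ℕ → C(c.Ω, ℂ)) (l : ℕ → c.Ω → ℝ)
    (P : ℂ → ℕ → C(c.Ω, ℂ)), (∀ n, D.q n = c.π (q n)) ∧ (∀ z n, D.pw z n = c.π (P z n)) ∧
    (∀ z n ω, P z n ω = Complex.exp (z * l n ω) * q n ω) ∧ (∀ n ω, q n ω = 0 ∨ q n ω = 1) ∧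
    (∀ n ω, |l n ω| ≤ ‖D.l n‖) ∧
    ∀ m n, m ≤ n → ∀ ω, q m ω = 1 → q n ω = 1 ∧ l n ω = l m ω := by
  obtain ⟨c, hc⟩ := exists_chart hB
  choose q hq using fun n => (hc _).1 (D.q_mem n)
  choose l hl using fun n => (hc _).1 (D.l_mem n)
  have hre : ∀ n ω, (((l n ω).re : ℝ) : ℂ) = l n ω := fun n ω => Complex.ext (by simp) (by
    simp [(c.sa_iff (l n)).1 (by rw [hl, D.sa]) ω])
  let E : ℂ → ℕ → C(c.Ω, ℂ) := fun z n => ⟨fun ω => Complex.exp (z * l n ω), by fun_prop⟩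
  refine ⟨c, q, fun n ω => (l n ω).re, fun z n => E z n * q n, fun n => (hq n).symm,
    fun z n => ?_, fun z n ω => by rw [hre]; rfl, fun n => (c.isProj_iff _).1 (hq n ▸ D.proj n),
    fun n ω => ?_, fun m n h ω h1 => ?_⟩
  · rw [pw, ← hl, ← hq, ← map_smul, c.jexp_π (k := E z n) fun _ => rfl, c.map_mul]
  · rw [← hl, c.π.norm_map]
    exact (Complex.abs_re_le_norm _).trans ((l n).norm_coe_le_norm ω)
  · have a := D.mono m n h
    have b := D.compat m n h
    rw [← hq, ← hq, ← c.map_mul] at a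
    rw [← hq, ← hl, ← hl, ← c.map_mul] at b
    have a' := DFunLike.congr_fun (c.π.injective a) ω
    have b' := DFunLike.congr_fun (c.π.injective b) ω
    rw [ContinuousMap.mul_apply, h1, one_mul] at a' b'
    exact ⟨a', congrArg Complex.re b'⟩

theorem pw_mem (z : ℂ) (n : ℕ) : D.pw z n ∈ B :=
  hB.alg.mul_mem _ (hB.jexp_mem (B.smul_mem z (D.l_mem n))) _ (D.q_mem n)

theorem pw_mul (z w : ℂ) {m n : ℕ} (h : m ≤ n) : D.pw z m * D.pw w n = D.pw (z + w) m := by
  obtain ⟨c, q, l, P, -, h2, h3, h4, -, h6⟩ := D.chart_dat hB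
  rw [h2, h2, h2, ← c.map_mul]
  refine congrArg c.π (ContinuousMap.ext fun ω => ?_)
  rw [ContinuousMap.mul_apply, h3, h3, h3]
  rcases h4 m ω with h0 | h1
  · simp [h0]
  · obtain ⟨a, b⟩ := h6 m n h ω h1
    rw [h1, a, b, add_mul, Complex.exp_add, mul_one, mul_one, mul_one]

theorem q_mul_pw (w : ℂ) {m n : ℕ} (h : m ≤ n) : D.q m * D.pw w n = D.pw w m := by
  rw [← D.pw_zero, D.pw_mul hB _ _ h, zero_add]

theorem pw_mul_q (w : ℂ) {m n : ℕ} (h : m ≤ n) : D.pw w m * D.q n = D.pw w m := by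
  rw [← D.pw_zero, D.pw_mul hB _ _ h, add_zero]

omit hB in
theorem star_pw_dat (z : ℂ) (n : ℕ) : star (D.pw z n) = D.pw (star z) n := by
  rw [pw, pw, jstar_mul, star_jexp, star_smul, D.sa, (D.proj n).1]

theorem star_pw (z : ℂ) (n : ℕ) : star (D.pw z n) = D.pw (star z) n := by
  have _ := hB
  exact D.star_pw_dat z n

theorem pw_pos {z : ℂ} (hz : z.im = 0) (n : ℕ) : IsPos (D.pw z n) := by
  have h : star (z / 2) = z / 2 := by
    rw [Complex.star_def, Complex.conj_eq_iff_im]; simp [hz]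
  refine ⟨D.pw (z / 2) n, by rw [star_pw_dat, h], ?_⟩
  rw [D.pw_mul hB _ _ le_rfl, add_halves]

theorem pw_sub_mul_star (z : ℂ) {m n : ℕ} (h : m ≤ n) :
    (D.pw z n - D.pw z m) * star (D.pw z n - D.pw z m)
      = D.pw (2 * z.re : ℝ) n - D.pw (2 * z.re : ℝ) m := by
  rw [star_sub, star_pw_dat, star_pw_dat, sub_mul, mul_sub, mul_sub, D.pw_mul hB _ _ le_rfl,
    D.pw_mul hB _ _ le_rfl, D.pw_mul hB _ _ h, mul_comm, D.pw_mul hB _ _ h, add_comm (star z),
    sub_self, sub_zero, Complex.star_def, Complex.add_conj]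

theorem pw_sub_pos {z : ℂ} (hz : z.im = 0) {m n : ℕ} (h : m ≤ n) :
    IsPos (D.pw z n - D.pw z m) := by
  have h1 : ((2 * (z / 2).re : ℝ) : ℂ) = z := Complex.ext (by simp; ring) (by simp [hz])
  rw [← h1, ← D.pw_sub_mul_star hB _ h]
  exact isPos_mul_star _

theorem exists_lower {z : ℂ} (hz : z.im = 0) (n : ℕ) :
    ∃ C : ℝ, 0 ≤ C ∧ IsPos ((C : ℂ) • D.pw z n - D.q n) := by
  obtain ⟨c, q, l, P, h1, h2, h3, h4, h5, -⟩ := D.chart_dat hB
  obtain ⟨s, rfl⟩ : ∃ s : ℝ, z = s := ⟨z.re, Complex.ext (by simp) (by simp [hz])⟩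
  refine ⟨Real.exp (|s| * ‖D.l n‖), (Real.exp_pos _).le, ?_⟩
  rw [h1, h2, ← map_smul, ← map_sub, c.isPos_iff]
  intro ω
  rw [ContinuousMap.sub_apply, ContinuousMap.smul_apply, h3]
  rcases h4 n ω with h0 | h0
  · simp [h0]
  · rw [h0, mul_one, ← Complex.ofReal_mul, ← Complex.ofReal_exp, smul_eq_mul, ← Complex.ofReal_mul,
      ← Complex.ofReal_one, ← Complex.ofReal_sub, Complex.zero_le_real, ← Real.exp_add, sub_nonneg,
      Real.one_le_exp_iff]
    have h6 := mul_le_mul_of_nonneg_left (h5 n ω) (abs_nonneg s)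
    rw [← abs_mul] at h6
    linarith [neg_abs_le (s * l n ω)]

theorem U_pw_pw (z w : ℂ) {m n : ℕ} (h : m ≤ n) (x : M) :
    tri (D.pw z n) (tri (D.pw w m) x (D.pw w m)) (D.pw z n)
      = tri (D.pw (z + w) m) x (D.pw (z + w) m) := by
  rw [hB.frame.U_U (D.pw_mem hB _ _) (D.pw_mem hB _ _), mul_comm, D.pw_mul hB _ _ h, add_comm]

theorem U_pw_pw' (z w : ℂ) {m n : ℕ} (h : m ≤ n) (x : M) :
    tri (D.pw w m) (tri (D.pw z n) x (D.pw z n)) (D.pw w m)
      = tri (D.pw (z + w) m) x (D.pw (z + w) m) := by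
  rw [hB.frame.U_U (D.pw_mem hB _ _) (D.pw_mem hB _ _), D.pw_mul hB _ _ h, add_comm]

/-- `U_{k^{it}}` is a contraction, given that `U_q` is one. -/
theorem norm_U_pw_im (hq : ∀ q : M, IsProj q → ∀ x : M, ‖tri q x q‖ ≤ ‖x‖) {z : ℂ}
    (hz : z.re = 0) (n : ℕ) (x : M) : ‖tri (D.pw z n) x (D.pw z n)‖ ≤ ‖x‖ := by
  have hl := fun w : ℂ => B.smul_mem w (D.l_mem n)
  have hv := hB.jexp_mem (hl z)
  rw [pw, ← hB.frame.U_U hv (D.q_mem n)]
  refine (hB.norm_U_unitary hv ?_ _).trans (hq _ (D.proj n) x)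
  rw [star_jexp, star_smul, D.sa, ← hB.jexp_add (hl _) (hl _), ← add_smul, Complex.star_def,
    Complex.add_conj, hz]
  simp [jexp_zero]

end Dat

end Pool.Agent.MP_ab01c5_an
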