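import Pool.Agent.MP_ab01c5_an.JPos

/-!
# Faithful tracial states and the space `L²`
-/

namespace Pool.Agent.MP_ab01c5_an

open Filter Topology
open scoped ComplexOrder

universe u

variable {M : Type u} [JBU M]

structure IsTr (τ : M →L[ℂ] ℂ) : Prop where
  pos : PosF τ
  faith : ∀ x : M, IsPos x → τ x = 0 → x = 0
  assoc : ∀ x y z : M, τ (x * y * z) = τ (x * (y * z))
  one : τ 1 = 1

theorem logconvex_tr {a : ℕ → ℝ} {D B : ℝ} (h0 : ∀ k, 0 ≤ a k) (hD : 0 ≤ D)
    (h1 : ∀ k, a (k + 1) ^ 2 ≤ a k * a (k + 2)) (h2 : ∀ k, a k ≤ D ^ k * B) : a 1 ≤ D * a 0 := by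
  by_contra hc
  push Not at hc
  have ha1 : 0 < a 1 := (mul_nonneg hD (h0 0)).trans_lt hc
  have ha0 : 0 < a 0 := by
    rcases (h0 0).eq_or_lt with e | e
    · have := h1 0
      rw [← e, zero_mul] at this
      nlinarith
    · exact e
  obtain ⟨r, hr⟩ : ∃ r, r = a 1 / a 0 := ⟨_, rfl⟩
  have hr0 : 0 < r := by rw [hr]; positivity
  have hrD : D < r := by rw [hr, lt_div_iff₀ ha0]; exact hc
  have key : ∀ k, 0 < a k ∧ r * a k ≤ a (k + 1) := by
    intro k
    induction k with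
    | zero => exact ⟨ha0, by rw [hr, div_mul_cancel₀ _ ha0.ne']⟩
    | succ k ih =>
      have hp : 0 < a (k + 1) := (mul_pos hr0 ih.1).trans_le ih.2
      refine ⟨hp, le_of_mul_le_mul_left ?_ ih.1⟩
      have := mul_le_mul_of_nonneg_right ih.2 hp.le
      have := h1 k
      nlinarith
  have key2 : ∀ k, r ^ k * a 0 ≤ a k := by
    intro k
    induction k with
    | zero => simp
    | succ k ih =>
      have := mul_le_mul_of_nonneg_left ih hr0.le
      rw [pow_succ]
      nlinarith [(key k).2]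
  have hB : 0 < B := by simpa using ha0.trans_le (h2 0)
  obtain ⟨n, hn⟩ := exists_pow_lt_of_lt_one (div_pos ha0 hB) ((div_lt_one hr0).2 hrD)
  rw [div_pow, div_lt_div_iff₀ (pow_pos hr0 n) hB] at hn
  have := (key2 n).trans (h2 n)
  linarith

theorem eq_zero_of_mul_self_tr {a : M} (ha : star a = a) (h : a * a = 0) : a = 0 := by
  have h1 := norm_mul_self_sa ha
  rw [h, norm_zero] at h1
  exact norm_eq_zero.1 (pow_eq_zero_iff two_ne_zero |>.1 h1.symm)

theorem eq_zero_of_mul_star_tr {x : M} (h : x * star x = 0) : x = 0 := by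
  obtain ⟨a, b, ha, hb, rfl, -, -⟩ := exists_re_im x
  have e : (a + Complex.I • b) * star (a + Complex.I • b) = a * a + b * b := by
    rw [star_add, star_smul, ha, hb, Complex.star_def, Complex.conj_I]
    simp only [mul_add, add_mul, smul_mul_assoc, mul_smul_comm, smul_add, smul_smul,
      mul_comm b a]
    rw [show -Complex.I * Complex.I = 1 by simp]
    module
  rw [e] at h
  have h1 : a * a = 0 := (isPos_mul_self ha).eq_zero (by
    rw [neg_eq_of_add_eq_zero_right h]; exact isPos_mul_self hb)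
  rw [h1, zero_add] at h
  rw [eq_zero_of_mul_self_tr ha h1, eq_zero_of_mul_self_tr hb h]
  simp

theorem isPos_norm_smul_sub_tr {a : M} (ha : IsPos a) : IsPos (((‖a‖ : ℝ) : ℂ) • a - a * a) := by
  obtain ⟨S, hS, haS, -⟩ := exists_sframe ha.sa
  have := hS.isPos_mul (S.sub_mem (S.smul_mem ((‖a‖ : ℝ) : ℂ) hS.alg.one_mem) haS) haS
    (isPos_norm_sub ha.sa le_rfl) ha
  rwa [sub_mul, smul_mul_assoc, one_mul] at this

theorem sn_three_tr {ω : M →L[ℂ] ℂ} (h : PosF ω) (u v w : M) :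
    sn ω (u + v - w) ≤ sn ω u + sn ω v + sn ω w := by
  rw [sub_eq_add_neg, ← sn_neg ω w]
  exact (h.sn_add_le _ _).trans (add_le_add (h.sn_add_le _ _) le_rfl)

namespace IsTr

variable {τ : M →L[ℂ] ℂ} (h : IsTr τ)
include h

theorem mul_left_comm (x y z : M) : τ (x * (y * z)) = τ (y * (x * z)) := by
  rw [← h.assoc, ← h.assoc, mul_comm x y]

theorem tri_apply (a y b : M) : τ (tri a y b) = τ (a * b * y) := by
  rw [tri, map_sub, map_add, h.assoc a y b, h.assoc b y a, mul_comm y b, mul_comm y a,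
    ← h.assoc a b y, ← h.assoc b a y, mul_comm b a]
  ring

theorem tri_mul (a y b w : M) : τ (tri a y b * w) = τ (y * tri a w b) := by
  have e : ∀ a b : M, τ (a * y * b * w) = τ (y * (b * w * a)) := by
    intro a b
    rw [h.assoc, mul_comm a y, h.assoc, mul_comm a]
  simp only [tri, sub_mul, add_mul, mul_sub, mul_add, map_sub, map_add]
  rw [e, e, mul_comm (a * b) y, h.assoc]
  ring

theorem tri_mul' (a y b w : M) : τ (tri a y b * w) = τ (a * tri y b w) := by
  simp only [tri, sub_mul, add_mul, mul_sub, mul_add, map_sub, map_add]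
  have e1 : τ (a * y * b * w) = τ (a * (w * b * y)) := by
    rw [h.assoc, h.assoc, mul_comm y, mul_comm b w]
  have e2 : τ (b * y * a * w) = τ (a * (y * b * w)) := by
    rw [mul_comm (b * y) a, h.assoc, mul_comm b y]
  have e3 : τ (a * b * y * w) = τ (a * (y * w * b)) := by
    rw [h.assoc, h.assoc, mul_comm b]
  rw [e1, e2, e3]
  ring

theorem sn_eq_zero {x : M} (hx : sn τ x = 0) : x = 0 := by
  refine eq_zero_of_mul_star_tr (h.faith _ (isPos_mul_star x) (Complex.ext ?_ ?_))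
  · rw [← h.pos.sn_sq, hx]; simp
  · exact h.pos.im_sa (isPos_mul_star x).sa

theorem ext {x y : M} (hxy : ∀ z : M, τ (x * z) = τ (y * z)) : x = y := by
  rw [← sub_eq_zero]
  refine h.sn_eq_zero ?_
  rw [sn, sub_mul, map_sub, hxy, sub_self]
  simp

theorem sn_le (x : M) : sn τ x ≤ ‖x‖ := by
  simpa [h.one] using h.pos.sn_le x

theorem norm_le (x : M) : ‖τ x‖ ≤ sn τ x := by
  have h1 := h.pos.cs' x 1
  have h2 : sn τ (1 : M) = 1 := by simp [sn, h.one]
  rwa [mul_one, h2, mul_one] at h1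

/-- Lax's lemma: an operator with a formal adjoint, both bounded on `M`, is bounded on `L²`. -/
theorem lax (T T' : M →L[ℂ] M) (hadj : ∀ x y : M, τ (T x * star y) = τ (x * star (T' y)))
    {C : ℝ} (hC0 : 0 ≤ C) (hC : ∀ x : M, ‖T' (T x)‖ ≤ C ^ 2 * ‖x‖) (x : M) :
    sn τ (T x) ≤ C * sn τ x := by
  have hconj : ∀ u v : M, τ (u * star v) = star (τ (v * star u)) := by
    intro u v
    rw [← h.pos.map_star, jstar_mul, star_star, mul_comm]
  have hadj' : ∀ u v : M, τ (T' u * star v) = τ (u * star (T v)) := by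
    intro u v
    rw [hconj, ← hadj, ← hconj]
  let S : M → M := fun u => T' (T u)
  have hS : ∀ u v : M, τ (S u * star v) = τ (u * star (S v)) := by
    intro u v
    rw [hadj', hadj]
  have h1 : sn τ (S x) ≤ C ^ 2 * sn τ x := by
    refine logconvex_tr (a := fun k => sn τ (S^[k] x)) (B := ‖x‖) (fun k => sn_nonneg _ _)
      (sq_nonneg C) (fun k => ?_) (fun k => (h.sn_le _).trans ?_)
    · simp only [Function.iterate_succ_apply']
      rw [h.pos.sn_sq, hS]
      exact (Complex.re_le_norm _).trans (h.pos.cs _ _)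
    · induction k with
      | zero => simp
      | succ k ih =>
        rw [Function.iterate_succ_apply', pow_succ', mul_assoc]
        exact (hC _).trans (mul_le_mul_of_nonneg_left ih (sq_nonneg C))
  have h2 : sn τ (T x) ^ 2 ≤ (C * sn τ x) ^ 2 := by
    rw [h.pos.sn_sq, hadj]
    refine (Complex.re_le_norm _).trans ((h.pos.cs _ _).trans ?_)
    refine (mul_le_mul_of_nonneg_left h1 (sn_nonneg _ _)).trans_eq ?_
    ring
  exact (pow_le_pow_iff_left₀ (sn_nonneg _ _) (mul_nonneg hC0 (sn_nonneg _ _)) two_ne_zero).1 h2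

theorem sn_mul_le (a x : M) : sn τ (a * x) ≤ ‖a‖ * sn τ x := by
  refine h.lax (mulL a) (mulL (star a)) (fun u v => ?_) (norm_nonneg a) (fun u => ?_) x
  · rw [mulL_apply, mulL_apply, jstar_mul, star_star, mul_comm a u, h.assoc]
  · rw [mulL_apply, mulL_apply]
    refine (jnorm_mul_le _ _).trans ?_
    rw [norm_star, pow_two, mul_assoc]
    exact mul_le_mul_of_nonneg_left (jnorm_mul_le _ _) (norm_nonneg a)

theorem mul_nonneg {a b : M} (ha : IsPos a) (hb : IsPos b) : 0 ≤ τ (a * b) := by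
  have him := h.pos.im_sa (x := a * b) (by rw [jstar_mul, ha.sa, hb.sa])
  obtain ⟨d, hd, rfl⟩ := hb
  have h1 := (isPos_iff_norm ha.sa le_rfl).1 ha
  have h2 := (Complex.re_le_norm _).trans (h.pos.cs' ((((‖a‖ : ℝ) : ℂ) • (1 : M) - a) * d) d)
  have h3 := mul_le_mul_of_nonneg_right ((h.sn_mul_le (((‖a‖ : ℝ) : ℂ) • (1 : M) - a) d).trans
    (mul_le_mul_of_nonneg_right h1 (sn_nonneg τ d))) (sn_nonneg τ d)
  have h4 := h.pos.sn_sq d
  rw [hd] at h4
  rw [h.assoc, sub_mul, smul_mul_assoc, one_mul, map_sub, map_smul, smul_eq_mul, Complex.sub_re,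
    Complex.re_ofReal_mul, ← h4] at h2
  rw [Complex.le_def]
  refine ⟨?_, him.symm⟩
  rw [Complex.zero_re]
  nlinarith

theorem posF_mul {a : M} (ha : IsPos a) : PosF (τ.comp (mulL a)) := by
  exact fun x hx => h.mul_nonneg ha hx

theorem isPos_of_forall {c : M} (hc : star c = c) (hb : ∀ b : M, IsPos b → 0 ≤ (τ (c * b)).re) :
    IsPos c := by
  obtain ⟨u, v, hu, hv, rfl, huv, -, -⟩ := exists_pos_neg hc
  have h1 := hb v hv
  rw [sub_mul, huv, zero_sub, map_neg, Complex.neg_re] at h1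
  have h2 := h.pos.sn_sq v
  rw [hv.sa] at h2
  have h3 : v = 0 := h.sn_eq_zero (pow_eq_zero_iff two_ne_zero |>.1
    (le_antisymm (by linarith) (sq_nonneg _)))
  rw [h3, sub_zero]
  exact hu

theorem mul_eq_zero {a b : M} (ha : IsPos a) (hb : IsPos b) (hab : (τ (a * b)).re ≤ 0) :
    a * b = 0 := by
  have hω := h.posF_mul hb
  have h1 := hω.re_nonneg (isPos_norm_smul_sub_tr ha)
  have h2 := hω.sn_sq a
  rw [ha.sa] at h2
  rw [map_sub, map_smul, smul_eq_mul, Complex.sub_re, Complex.re_ofReal_mul, ← h2,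
    ContinuousLinearMap.comp_apply, mulL_apply, mul_comm b a] at h1
  have h3 : sn (τ.comp (mulL b)) a = 0 := pow_eq_zero_iff two_ne_zero |>.1
    (le_antisymm (by nlinarith [norm_nonneg a]) (sq_nonneg _))
  refine h.ext fun z => ?_
  have h4 := hω.cs' a z
  rw [h3, zero_mul, ContinuousLinearMap.comp_apply, mulL_apply] at h4
  rw [zero_mul, map_zero, mul_comm a b, h.assoc]
  exact norm_le_zero_iff.1 h4

theorem sn_tri_mid (a x b : M) : sn τ (tri a x b) ≤ 3 * (‖a‖ * sn τ x * ‖b‖) := by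
  have e : ∀ a b : M, sn τ (a * x * b) ≤ ‖a‖ * sn τ x * ‖b‖ := by
    intro a b
    rw [mul_comm (a * x) b, mul_comm _ ‖b‖]
    exact (h.sn_mul_le _ _).trans (mul_le_mul_of_nonneg_left (h.sn_mul_le _ _) (norm_nonneg _))
  have e3 := (h.sn_mul_le (a * b) x).trans
    (mul_le_mul_of_nonneg_right (jnorm_mul_le a b) (sn_nonneg τ x))
  have e4 := sn_three_tr h.pos (a * x * b) (b * x * a) (a * b * x)
  have e1 := e a b
  have e2 := e b a
  rw [tri]
  linarith

theorem sn_tri_left (a x b : M) : sn τ (tri a x b) ≤ 3 * (sn τ a * ‖x‖ * ‖b‖) := by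
  have e : ∀ x b : M, sn τ (a * x * b) ≤ ‖b‖ * (‖x‖ * sn τ a) := by
    intro x b
    rw [mul_comm (a * x) b, mul_comm a x]
    exact (h.sn_mul_le _ _).trans (mul_le_mul_of_nonneg_left (h.sn_mul_le _ _) (norm_nonneg _))
  have e3 := (h.sn_mul_le (b * x) a).trans
    (mul_le_mul_of_nonneg_right (jnorm_mul_le b x) (sn_nonneg τ a))
  have e4 := sn_three_tr h.pos (a * x * b) (b * x * a) (a * b * x)
  have e1 := e x b
  have e2 := e b x
  rw [tri]
  linarith

theorem norm_tri_mul_le (a x b w : M) :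
    ‖τ (tri a x b * w)‖ ≤ 3 * (sn τ a * sn τ b * ‖x‖ * ‖w‖) := by
  rw [h.tri_mul']
  refine (h.pos.cs' _ _).trans ?_
  refine (mul_le_mul_of_nonneg_left (h.sn_tri_mid x b w) (sn_nonneg τ a)).trans_eq ?_
  ring

/-- If `β` solves the linear Radon-Nikodym equation for `ρ` and `ρ` commutes with the projection
`q`, then `β` commutes with `q`. -/
theorem rn_comm {ρ : M →L[ℂ] ℂ} (hρ : PosF ρ) {β q : M} (hβ : star β = β)
    (he : ∀ x : M, ρ (β * x) = τ ((1 - β) * x)) (hq : IsProj q)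
    (hc : ∀ x : M, ρ (q * x) = ρ (tri q x q)) : PComm q β := by
  obtain ⟨y, hy⟩ : ∃ y : M, y = q * β - q * (q * β) := ⟨_, rfl⟩
  have hys : star y = y := by rw [hy]; simp only [star_sub, jstar_mul, hq.1, hβ]
  have hqy : q * y = (2⁻¹ : ℂ) • y := by
    have := idem_cubic hq.2 β
    rw [hy, mul_sub]
    linear_combination (norm := module) (-2⁻¹ : ℂ) • this
  have hp : PComm q (β - (4 : ℂ) • y) := by
    simp only [PComm, mul_sub, mul_smul_comm, hqy]
    linear_combination (norm := module) hy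
  have hτ : ∀ w : M, q * w = (2⁻¹ : ℂ) • w → τ w = 0 := by
    intro w hw
    have := h.assoc q q w
    rw [hq.2, hw, mul_smul_comm, hw, map_smul, map_smul, map_smul] at this
    simp only [smul_eq_mul] at this
    linear_combination 4 * this
  have hρ0 : ∀ w : M, q * w = (2⁻¹ : ℂ) • w → ρ w = 0 := by
    intro w hw
    have := hc w
    rw [tri, hq.2, mul_comm (q * w) q, hw, mul_smul_comm, hw] at this
    simp only [map_sub, map_add, map_smul, smul_eq_mul] at this
    linear_combination 2 * this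
  have hw : q * ((β - (4 : ℂ) • y) * y) = (2⁻¹ : ℂ) • ((β - (4 : ℂ) • y) * y) := by
    rw [opComm_of_pComm hq.2 hp y, hqy, mul_smul_comm]
  have h1 := hτ _ hw
  have h2 := hρ0 _ hw
  have h3 := he y
  rw [sub_mul, one_mul, map_sub, hτ y hqy] at h3
  rw [sub_mul, smul_mul_assoc, map_sub, map_smul, smul_eq_mul] at h1 h2
  have h4 : ρ (y * y) + τ (y * y) = 0 := by linear_combination (4⁻¹ : ℂ) * (h3 - h1 - h2)
  have h5 := hρ _ (isPos_mul_self hys)
  have h6 := h.pos _ (isPos_mul_self hys)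
  have h7 : τ (y * y) = 0 := le_antisymm (by rw [← h4]; exact le_add_of_nonneg_left h5) h6
  have h8 := eq_zero_of_mul_self_tr hys (h.faith _ (isPos_mul_self hys) h7)
  rw [h8] at hy
  exact (sub_eq_zero.1 hy.symm).symm

end IsTr

end Pool.Agent.MP_ab01c5_an

/-!
# JBW*-algebras with a normal faithful tracial state: definitions
-/

namespace Pool.Agent.MP_ab01c5_an

open Filter Topology

universe u v

variable {M : Type u} {X : Type v} [NormedAddCommGroup X] [NormedSpace ℂ X]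

/-- An element of the predual as a functional. -/
noncomputable def evl [JBStarAlgebra M] (e : M ≃ₗᵢ[ℂ] StrongDual ℂ X) : X →L[ℂ] M →L[ℂ] ℂ :=
  (e.toContinuousLinearEquiv : M →L[ℂ] X →L[ℂ] ℂ).flip

@[simp] theorem evl_apply [JBStarAlgebra M] (e : M ≃ₗᵢ[ℂ] StrongDual ℂ X) (ξ : X) (x : M) :
    evl e ξ x = e x ξ := rfl

variable [JBU M]

/-- A unital JB*-algebra with a predual and a normal faithful tracial state. -/
structure WT (M : Type u) [JBU M] (X : Type v) [NormedAddCommGroup X] [NormedSpace ℂ X] where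
  e : M ≃ₗᵢ[ℂ] StrongDual ℂ X
  τ : X
  tr : IsTr (evl e τ)

namespace WT

variable (W : WT M X)

noncomputable def ev : X →L[ℂ] M →L[ℂ] ℂ := evl W.e

/-- The trace as a functional. -/
noncomputable def t : M →L[ℂ] ℂ := W.ev W.τ

theorem isTr : IsTr W.t := W.tr

theorem ev_apply (ξ : X) (x : M) : W.ev ξ x = W.e x ξ := rfl

theorem ev_τ : W.ev W.τ = W.t := rfl

/-- Weak* convergence along a filter. -/
def Lim {ι : Type*} (l : Filter ι) (x : ι → M) (y : M) : Prop :=
  ∀ ξ : X, Tendsto (fun i => W.ev ξ (x i)) l (𝓝 (W.ev ξ y))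

/-- A weak* closed unital `*`-subalgebra. -/
structure WSub (B : Submodule ℂ M) : Prop where
  one_mem : (1 : M) ∈ B
  mul_mem : ∀ a ∈ B, ∀ b ∈ B, a * b ∈ B
  star_mem : ∀ a ∈ B, star a ∈ B
  wclosed : ∀ y : M, (∀ ξ : X, (∀ b ∈ B, W.ev ξ b = 0) → W.ev ξ y = 0) → y ∈ B

/-- A weak* closed unital `*`-closed frame. -/
structure WFrame (B : Submodule ℂ M) : Prop where
  sub : W.WSub B
  frame : IsFrame B

end WT

/-- The elements without Peirce-1/2 component for `q`. -/
def commSub (q : M) : Submodule ℂ M where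
  carrier := {y | PComm q y}
  add_mem' := by
    intro a b ha hb
    simp only [PComm, Set.mem_ofPred_eq, mul_add] at *
    rw [ha, hb]
  zero_mem' := by simp [PComm]
  smul_mem' := by
    intro c a ha
    simp only [PComm, Set.mem_ofPred_eq, mul_smul_comm] at *
    rw [ha]

theorem mem_commSub {q y : M} : y ∈ commSub q ↔ PComm q y := Iff.rfl

end Pool.Agent.MP_ab01c5_an

/-!
# Weak* limits: self-adjoint part, positive cone, involution, normal functionals
-/

namespace Pool.Agent.MP_ab01c5_an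

open Filter Topology

universe u v

variable {M : Type u} [JBU M] {X : Type v} [NormedAddCommGroup X] [NormedSpace ℂ X]

theorem norm_add_I_w1 {x : M} (hx : star x = x) {C : ℝ} (hC : ‖x‖ ≤ C) (n : ℝ) :
    ‖x + (Complex.I * n) • (1 : M)‖ ≤ √(C ^ 2 + n ^ 2) := by
  obtain ⟨c, f, rfl, hf⟩ := exists_chart_sa hx
  rw [← c.map_one, ← map_smul, ← map_add, c.π.norm_map,
    ContinuousMap.norm_le _ (Real.sqrt_nonneg _)]
  intro ω
  rw [c.π.norm_map] at hC
  have h1 := abs_le.1 ((Complex.abs_re_le_norm (f ω)).trans ((f.norm_coe_le_norm ω).trans hC))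
  refine Real.le_sqrt_of_sq_le ?_
  rw [Complex.sq_norm, Complex.normSq_apply]
  simp [hf ω]
  nlinarith [h1.1, h1.2]

theorem norm_im_le_w1 {a b : M} (ha : star a = a) (hb : star b = b) :
    ‖b‖ ≤ ‖a + Complex.I • b‖ := by
  have h1 : (2 * Complex.I) • b = (a + Complex.I • b) - star (a + Complex.I • b) := by
    rw [star_add, star_smul, ha, hb, Complex.star_def, Complex.conj_I]
    module
  have h2 := norm_sub_le (a + Complex.I • b) (star (a + Complex.I • b))
  rw [← h1, norm_smul, norm_star] at h2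
  simp only [norm_mul, Complex.norm_ofNat, Complex.norm_I, mul_one] at h2
  linarith

theorem eq_zero_of_norm_w1 {b : M} (hb : star b = b) {C : ℝ}
    (h : ∀ n : ℝ, ‖b + (n : ℂ) • (1 : M)‖ ≤ √(C ^ 2 + n ^ 2)) : b = 0 := by
  obtain ⟨c, f, rfl, hf⟩ := exists_chart_sa hb
  have h0 : f = 0 := by
    ext ω
    have h1 : ∀ n : ℝ, (f ω).re ^ 2 + 2 * n * (f ω).re ≤ C ^ 2 := fun n => by
      have h2 := h n
      rw [← c.map_one, ← map_smul, ← map_add, c.π.norm_map] at h2
      have h3 := (Complex.abs_re_le_norm _).trans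
        (((f + (n : ℂ) • (1 : C(c.Ω, ℂ))).norm_coe_le_norm ω).trans h2)
      have h4 := (Real.le_sqrt (abs_nonneg _) (by positivity)).1 h3
      rw [sq_abs] at h4
      simp at h4
      nlinarith
    refine Complex.ext ?_ (hf ω)
    by_contra hne
    have h5 : (f ω).re ≠ 0 := hne
    have h6 := h1 ((C ^ 2 + 1) / (2 * (f ω).re))
    have h7 : 2 * ((C ^ 2 + 1) / (2 * (f ω).re)) * (f ω).re = C ^ 2 + 1 := by field_simp
    nlinarith [sq_nonneg (f ω).re]
  rw [h0, map_zero]

namespace WT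

variable (W : WT M X)

theorem norm_ev_le (ξ : X) (x : M) : ‖W.ev ξ x‖ ≤ ‖ξ‖ * ‖x‖ := by
  rw [ev_apply, mul_comm, ← W.e.norm_map x]
  exact (W.e x).le_opNorm ξ

theorem norm_ev (ξ : X) : ‖W.ev ξ‖ = ‖ξ‖ := by
  refine le_antisymm (ContinuousLinearMap.opNorm_le_bound _ (norm_nonneg _) (W.norm_ev_le ξ))
    (NormedSpace.norm_le_dual_bound ℂ ξ (norm_nonneg _) fun f => ?_)
  have h := (W.ev ξ).le_opNorm (W.e.symm f)
  rwa [ev_apply, W.e.apply_symm_apply, W.e.symm.norm_map] at h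

theorem ev_ext {ξ ζ : X} (h : ∀ x : M, W.ev ξ x = W.ev ζ x) : ξ = ζ := by
  have h1 : W.ev (ξ - ζ) = 0 := by
    ext x
    simp [h x]
  rw [← sub_eq_zero, ← norm_eq_zero, ← W.norm_ev, h1, norm_zero]

theorem ext_ev {x y : M} (h : ∀ ξ : X, W.ev ξ x = W.ev ξ y) : x = y := by
  exact W.e.injective (ContinuousLinearMap.ext h)

theorem norm_le_of_ev {x : M} {C : ℝ} (hC : 0 ≤ C) (h : ∀ ξ : X, ‖W.ev ξ x‖ ≤ C * ‖ξ‖) :
    ‖x‖ ≤ C := by
  rw [← W.e.norm_map x]
  exact ContinuousLinearMap.opNorm_le_bound _ hC h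

theorem norm_pre_le {ξ : X} {C : ℝ} (hC : 0 ≤ C) (h : ∀ x : M, ‖W.ev ξ x‖ ≤ C * ‖x‖) :
    ‖ξ‖ ≤ C := by
  rw [← W.norm_ev]
  exact ContinuousLinearMap.opNorm_le_bound _ hC h

/-- Banach-Alaoglu. -/
theorem exists_lim {ι : Type*} (U : Ultrafilter ι) (x : ι → M) {C : ℝ}
    (h : ∀ᶠ i in (U : Filter ι), ‖x i‖ ≤ C) : ∃ y : M, W.Lim (U : Filter ι) x y := by
  have h1 : ∀ ξ : X, ∃ a : ℂ, ‖a‖ ≤ C * ‖ξ‖ ∧ Tendsto (fun i => W.ev ξ (x i)) U (𝓝 a) := by
    intro ξ
    obtain ⟨a, ha, hl⟩ := (isCompact_closedBall (0 : ℂ) (C * ‖ξ‖)).ultrafilter_le_nhds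
      (U.map fun i => W.ev ξ (x i)) (by
        rw [le_principal_iff, Ultrafilter.coe_map, mem_map]
        filter_upwards [h] with i hi
        rw [Set.mem_preimage, mem_closedBall_zero_iff, mul_comm]
        exact (W.norm_ev_le ξ (x i)).trans (mul_le_mul_of_nonneg_left hi (norm_nonneg _)))
    exact ⟨a, mem_closedBall_zero_iff.1 ha, hl⟩
  choose a ha hl using h1
  let L : X →ₗ[ℂ] ℂ :=
    { toFun := a
      map_add' := fun ξ ζ => tendsto_nhds_unique (hl (ξ + ζ)) (by
        simpa using (hl ξ).add (hl ζ))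
      map_smul' := fun c ξ => tendsto_nhds_unique (hl (c • ξ)) (by
        simpa using (hl ξ).const_mul c) }
  refine ⟨W.e.symm (L.mkContinuous C ha), fun ξ => ?_⟩
  rw [ev_apply, W.e.apply_symm_apply]
  exact hl ξ

variable {W}

section
variable {ι : Type*} {l : Filter ι} {x x' : ι → M} {y y' : M}

theorem lim_const (y : M) : W.Lim l (fun _ => y) y := fun _ => tendsto_const_nhds

theorem Lim.add (h : W.Lim l x y) (h' : W.Lim l x' y') :
    W.Lim l (fun i => x i + x' i) (y + y') := by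
  intro ξ
  simpa only [map_add] using (h ξ).add (h' ξ)

theorem Lim.sub (h : W.Lim l x y) (h' : W.Lim l x' y') :
    W.Lim l (fun i => x i - x' i) (y - y') := by
  intro ξ
  simpa only [map_sub] using (h ξ).sub (h' ξ)

theorem Lim.smul (h : W.Lim l x y) (c : ℂ) : W.Lim l (fun i => c • x i) (c • y) := by
  intro ξ
  simpa only [map_smul] using (h ξ).const_smul c

theorem Lim.congr' (h : W.Lim l x y) (he : x =ᶠ[l] x') : W.Lim l x' y := by
  intro ξ
  refine (h ξ).congr' ?_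
  filter_upwards [he] with i hi
  rw [hi]

theorem Lim.mono_left {l' : Filter ι} (h : W.Lim l x y) (hl : l' ≤ l) : W.Lim l' x y := by
  exact fun ξ => (h ξ).mono_left hl

theorem lim_of_tendsto (h : Tendsto x l (𝓝 y)) : W.Lim l x y := by
  exact fun ξ => ((W.ev ξ).continuous.tendsto y).comp h

variable [l.NeBot]

theorem Lim.unique (h : W.Lim l x y) (h' : W.Lim l x y') : y = y' := by
  exact W.ext_ev fun ξ => tendsto_nhds_unique (h ξ) (h' ξ)

theorem Lim.norm_le (h : W.Lim l x y) {C : ℝ} (hC : ∀ᶠ i in l, ‖x i‖ ≤ C) : ‖y‖ ≤ C := by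
  obtain ⟨i, hi⟩ := hC.exists
  refine W.norm_le_of_ev ((norm_nonneg _).trans hi) fun ξ => le_of_tendsto (h ξ).norm ?_
  filter_upwards [hC] with i hi
  rw [mul_comm]
  exact (W.norm_ev_le ξ (x i)).trans (mul_le_mul_of_nonneg_left hi (norm_nonneg _))

theorem Lim.norm_sub_le (h : W.Lim l x y) {z : M} {C : ℝ} (hC : ∀ᶠ i in l, ‖x i - z‖ ≤ C) :
    ‖y - z‖ ≤ C := by
  exact (h.sub (lim_const z)).norm_le hC

theorem Lim.sa (h : W.Lim l x y) {C : ℝ} (hC : ∀ᶠ i in l, ‖x i‖ ≤ C)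
    (hs : ∀ᶠ i in l, star (x i) = x i) : star y = y := by
  obtain ⟨a, b, ha, hb, rfl, -, -⟩ := exists_re_im y
  have h1 : ∀ n : ℝ, ‖b + (n : ℂ) • (1 : M)‖ ≤ √(C ^ 2 + n ^ 2) := fun n => by
    refine (norm_im_le_w1 ha (b := b + (n : ℂ) • (1 : M)) (by simp [hb])).trans ?_
    have h2 := (h.add (lim_const ((Complex.I * n) • (1 : M)))).norm_le
      (C := √(C ^ 2 + n ^ 2)) (by
        filter_upwards [hC, hs] with i h1 h2 using norm_add_I_w1 h2 h1 n)
    rwa [add_assoc, mul_smul, ← smul_add] at h2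
  rw [eq_zero_of_norm_w1 hb h1, smul_zero, add_zero, ha]

theorem Lim.isPos (h : W.Lim l x y) {C : ℝ} (hC : ∀ᶠ i in l, ‖x i‖ ≤ C)
    (hs : ∀ᶠ i in l, IsPos (x i)) : IsPos y := by
  refine (isPos_iff_norm (h.sa hC (hs.mono fun i hi => hi.sa)) (h.norm_le hC)).2 ?_
  rw [norm_sub_rev]
  refine h.norm_sub_le ?_
  filter_upwards [hC, hs] with i h1 h2
  rw [norm_sub_rev]
  exact (isPos_iff_norm h2.sa h1).1 h2

theorem Lim.star (h : W.Lim l x y) {C : ℝ} (hC : ∀ᶠ i in l, ‖x i‖ ≤ C) :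
    W.Lim l (fun i => star (x i)) (star y) := by
  intro ξ
  refine (tendsto_iff_ultrafilter _ _ _).2 fun U hU => ?_
  choose a b ha hb hx na nb using fun i => exists_re_im (x i)
  have h1 : ∀ᶠ i in (U : Filter ι), ‖a i‖ ≤ C := (hC.filter_mono hU).mono fun i hi => (na i).trans hi
  have h2 : ∀ᶠ i in (U : Filter ι), ‖b i‖ ≤ C := (hC.filter_mono hU).mono fun i hi => (nb i).trans hi
  obtain ⟨α, hα⟩ := W.exists_lim U a h1
  obtain ⟨β, hβ⟩ := W.exists_lim U b h2
  have sα := hα.sa h1 (Eventually.of_forall ha)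
  have sβ := hβ.sa h2 (Eventually.of_forall hb)
  have e1 : y = α + Complex.I • β :=
    (h.mono_left hU).unique ((hα.add (hβ.smul Complex.I)).congr'
      (Eventually.of_forall fun i => (hx i).symm))
  have e2 : Star.star y = α - Complex.I • β := by
    rw [e1, star_add, star_smul, sα, sβ, Complex.star_def, Complex.conj_I, neg_smul, sub_eq_add_neg]
  rw [e2]
  refine (hα.sub (hβ.smul Complex.I)).congr' (Eventually.of_forall fun i => ?_) ξ
  simp only
  rw [hx i, star_add, star_smul, ha, hb, Complex.star_def, Complex.conj_I, neg_smul, sub_eq_add_neg]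

theorem WSub.lim_mem {B : Submodule ℂ M} (hB : W.WSub B) (h : W.Lim l x y)
    (hm : ∀ᶠ i in l, x i ∈ B) : y ∈ B := by
  refine hB.wclosed y fun ξ hξ => tendsto_nhds_unique (h ξ) (tendsto_const_nhds.congr' ?_)
  filter_upwards [hm] with i hi using (hξ _ hi).symm

end

theorem WSub.sAlg {B : Submodule ℂ M} (hB : W.WSub B) : SAlg B := by
  refine ⟨hB.one_mem, hB.mul_mem, hB.star_mem, IsSeqClosed.isClosed fun x y hx hl => ?_⟩
  exact hB.lim_mem (lim_of_tendsto hl) (Eventually.of_forall hx)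

theorem WFrame.sFrame {B : Submodule ℂ M} (hB : W.WFrame B) : SFrame B :=
  ⟨hB.sub.sAlg, hB.frame⟩

theorem wsub_top : W.WSub ⊤ := by
  exact ⟨trivial, fun _ _ _ _ => trivial, fun _ _ => trivial, fun _ _ => trivial⟩

variable (W) [CompleteSpace X]

theorem normal_of_approx (ω : M →L[ℂ] ℂ) (h : ∀ ε : ℝ, 0 < ε → ∃ ξ : X, ‖ω - W.ev ξ‖ < ε) :
    ∃ ξ : X, W.ev ξ = ω := by
  have h1 : IsClosed (Set.range W.ev) :=
    (AddMonoidHomClass.isometry_of_norm W.ev W.norm_ev).isClosedEmbedding.isClosed_range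
  refine h1.closure_subset (Metric.mem_closure_iff.2 fun ε hε => ?_)
  obtain ⟨ξ, hξ⟩ := h ε hε
  exact ⟨_, ⟨ξ, rfl⟩, by rwa [dist_eq_norm]⟩

/-- A functional that is weak* continuous on the unit ball is normal. -/
theorem normal_of_lim (ω : M →L[ℂ] ℂ) (h : ∀ U : Ultrafilter M, (∀ᶠ x in (U : Filter M), ‖x‖ ≤ 1) →
    W.Lim (U : Filter M) id 0 → Tendsto ω (U : Filter M) (𝓝 0)) : ∃ ξ : X, W.ev ξ = ω := by
  classical
  refine W.normal_of_approx ω fun ε hε => ?_
  obtain ⟨F, hF⟩ : ∃ F : Finset X, ∀ x : M, ‖x‖ ≤ 1 → (∀ ξ ∈ F, W.ev ξ x = 0) →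
      ‖ω x‖ ≤ ε / 2 := by
    by_contra hc
    push Not at hc
    choose x h1 h2 h3 using hc
    have h4 := h ((Ultrafilter.of (atTop : Filter (Finset X))).map x)
      (Eventually.of_forall h1 : ∀ᶠ F in (Ultrafilter.of (atTop : Filter (Finset X)) :
        Filter (Finset X)), ‖x F‖ ≤ 1) (fun ξ => by
        rw [map_zero, Ultrafilter.coe_map, tendsto_map'_iff]
        refine tendsto_const_nhds.congr' (Eventually.filter_mono (Ultrafilter.of_le _) ?_)
        filter_upwards [eventually_ge_atTop {ξ}] with F hF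
        exact (h2 F ξ (hF (Finset.mem_singleton_self ξ))).symm)
    rw [Ultrafilter.coe_map, tendsto_map'_iff] at h4
    have h5 := ge_of_tendsto' h4.norm fun F => (h3 F).le
    rw [norm_zero] at h5
    linarith
  let L : F → M →ₗ[ℂ] ℂ := fun ξ => (W.ev ξ : M →ₗ[ℂ] ℂ)
  let K : Submodule ℂ M := ⨅ ξ, LinearMap.ker (L ξ)
  obtain ⟨g, hg, ng⟩ := exists_extension_norm_eq K (ω.comp K.subtypeL)
  have n1 : ‖ω.comp K.subtypeL‖ ≤ ε / 2 := by
    refine ContinuousLinearMap.opNorm_le_of_unit_norm (half_pos hε).le fun x hx => ?_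
    exact hF x hx.le fun ξ hξ => (Submodule.mem_iInf _).1 x.2 ⟨ξ, hξ⟩
  have h1 : ((ω - g : M →L[ℂ] ℂ) : M →ₗ[ℂ] ℂ) ∈ Submodule.span ℂ (Set.range L) := by
    refine mem_span_of_iInf_ker_le_ker fun x hx => ?_
    have h2 : g x = ω x := hg ⟨x, hx⟩
    simp [h2]
  obtain ⟨c, hc⟩ := (Submodule.mem_span_range_iff_exists_fun ℂ).1 h1
  refine ⟨∑ ξ : F, c ξ • (ξ : X), ?_⟩
  have h3 : ω - W.ev (∑ ξ : F, c ξ • (ξ : X)) = g := by
    ext x
    have h4 := LinearMap.congr_fun hc x
    simp only [L, LinearMap.sum_apply, LinearMap.smul_apply, ContinuousLinearMap.coe_coe,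
      sub_apply] at h4
    simp only [map_sum, map_smul, sub_apply, _root_.sum_apply, smul_apply, h4]
    ring
  rw [h3, ng]
  linarith

theorem exists_star_pre (ξ : X) : ∃ ζ : X, ∀ x : M, W.ev ζ x = star (W.ev ξ (star x)) := by
  let L : M →ₗ[ℂ] ℂ :=
    { toFun := fun x => star (W.ev ξ (star x))
      map_add' := fun x y => by simp
      map_smul' := fun c x => by simp }
  have hL : ∀ x, ‖L x‖ ≤ ‖ξ‖ * ‖x‖ := fun x => by
    have h := W.norm_ev_le ξ (star x)
    rwa [norm_star, ← norm_star (W.ev ξ (star x))] at h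
  obtain ⟨ζ, hζ⟩ := W.normal_of_lim (L.mkContinuous _ hL) fun U h1 h2 => by
    have h3 := (h2.star h1 ξ).star
    simp only [star_zero, map_zero] at h3
    exact h3
  exact ⟨ζ, fun x => by rw [hζ]; rfl⟩

end WT

end Pool.Agent.MP_ab01c5_an

/-!
# Projections and separate weak* continuity of the product
-/

namespace Pool.Agent.MP_ab01c5_an

open Filter Topology
open scoped ComplexOrder

universe u v

variable {M : Type u} [JBU M] {X : Type v} [NormedAddCommGroup X] [NormedSpace ℂ X]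

/-- Orthogonal elements of the unit interval have their sum in the unit interval. -/
theorem isPos_one_sub_add_w2a {y g : M} (hy : IsPos y) (hy1 : IsPos (1 - y)) (hg : IsPos g)
    (hg1 : IsPos (1 - g)) (h : y * g = 0) : IsPos (1 - y - g) := by
  have s1 : star (y + g) = y + g := by rw [star_add, hy.sa, hg.sa]
  have s2 : star (y - g) = y - g := by rw [star_sub, hy.sa, hg.sa]
  have e : (y + g) * (y + g) = (y - g) * (y - g) := by
    simp only [mul_add, add_mul, mul_sub, sub_mul, mul_comm g y, h]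
    abel
  have n2 : ‖y - g‖ ≤ 1 := by
    refine norm_le_of_isPos s2 zero_le_one ?_ ?_
    · have := hy1.add hg
      convert this using 1
      simp only [Complex.ofReal_one, one_smul]; abel
    · have := hg1.add hy
      convert this using 1
      simp only [Complex.ofReal_one, one_smul]; abel
  have n1 : ‖y + g‖ ≤ 1 := by
    have a1 := norm_mul_self_sa s1
    have a2 := norm_mul_self_sa s2
    rw [e, a2] at a1
    nlinarith [norm_nonneg (y + g), norm_nonneg (y - g)]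
  have := isPos_norm_sub s1 n1
  convert this using 1
  simp only [Complex.ofReal_one, one_smul]; abel

/-- Approximate support elements of a positive element. -/
theorem exists_approx_supp_w2a {u : M} (hu : IsPos u) {ε : ℝ} (hε : 0 < ε) :
    ∃ g : M, IsPos g ∧ IsPos (1 - g) ∧ IsPos (((ε⁻¹ : ℝ) : ℂ) • u - g) ∧
      IsPos ((ε : ℂ) • (1 : M) - u * (1 - g)) := by
  obtain ⟨c, f, rfl, hf⟩ := exists_chart_sa hu.sa
  have h0 : ∀ ω, 0 ≤ (f ω).re := fun ω => (Complex.le_def.1 ((c.isPos_iff f).1 hu ω)).1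
  let k : C(c.Ω, ℂ) := ⟨fun ω => ((min 1 (ε⁻¹ * (f ω).re) : ℝ) : ℂ), by fun_prop⟩
  have hk : ∀ ω, k ω = ((min 1 (ε⁻¹ * (f ω).re) : ℝ) : ℂ) := fun ω => rfl
  have hi : 0 < ε⁻¹ := inv_pos.2 hε
  refine ⟨c.π k, (c.isPos_iff k).2 fun ω => ?_, ?_, ?_, ?_⟩
  · rw [hk]
    exact Complex.zero_le_real.2 (le_min zero_le_one (mul_nonneg hi.le (h0 ω)))
  · rw [← c.map_one, ← map_sub, c.isPos_iff]
    intro ω
    rw [Complex.le_def]
    simp only [ContinuousMap.sub_apply, ContinuousMap.one_apply, hk, Complex.zero_re,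
      Complex.sub_re, Complex.one_re, Complex.ofReal_re, Complex.zero_im, Complex.sub_im,
      Complex.one_im, Complex.ofReal_im, sub_zero, and_true, sub_nonneg]
    exact min_le_left _ _
  · rw [← map_smul, ← map_sub, c.isPos_iff]
    intro ω
    rw [Complex.le_def]
    simp only [ContinuousMap.sub_apply, ContinuousMap.smul_apply, smul_eq_mul, hk,
      Complex.zero_re, Complex.sub_re, Complex.mul_re, Complex.ofReal_re, Complex.zero_im,
      Complex.sub_im, Complex.mul_im, Complex.ofReal_im, hf, mul_zero, zero_mul, sub_zero,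
      add_zero, and_true, sub_nonneg]
    exact min_le_right _ _
  · rw [← c.map_one, ← map_smul, ← map_sub, ← c.map_mul, ← map_sub, c.isPos_iff]
    intro ω
    rw [Complex.le_def]
    simp only [ContinuousMap.sub_apply, ContinuousMap.smul_apply, ContinuousMap.mul_apply,
      ContinuousMap.one_apply, smul_eq_mul, hk, mul_one,
      Complex.zero_re, Complex.sub_re, Complex.mul_re, Complex.ofReal_re, Complex.zero_im,
      Complex.sub_im, Complex.mul_im, Complex.ofReal_im, Complex.one_re, Complex.one_im, hf,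
      mul_zero, zero_mul, sub_zero, add_zero, and_true, sub_nonneg]
    have hr := h0 ω
    rcases le_total 1 (ε⁻¹ * (f ω).re) with h | h
    · rw [min_eq_left h]; simpa using hε.le
    · rw [min_eq_right h]
      have h1 : (f ω).re ≤ ε := by
        have := mul_le_mul_of_nonneg_left h hε.le
        rwa [← mul_assoc, mul_inv_cancel₀ hε.ne', one_mul, mul_one] at this
      nlinarith [mul_nonneg hr (mul_nonneg hi.le hr)]

/-- Positive and negative parts inside a closed unital `*`-subalgebra. -/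
theorem exists_pos_neg_mem_w2a {B : Submodule ℂ M} (hB : SAlg B) {a : M} (ha : a ∈ B)
    (hs : star a = a) : ∃ u v : M, v ∈ B ∧ IsPos u ∧ IsPos v ∧ a = u - v ∧ u * v = 0 := by
  obtain ⟨c, f, rfl, hf⟩ := exists_chart_sa hs
  let k : C(c.Ω, ℂ) := ⟨fun ω => ((max (f ω).re 0 : ℝ) : ℂ), by fun_prop⟩
  let l : C(c.Ω, ℂ) := ⟨fun ω => ((max (-(f ω).re) 0 : ℝ) : ℂ), by fun_prop⟩
  have hk : ∀ ω, k ω = ((max (f ω).re 0 : ℝ) : ℂ) := fun ω => rfl
  have hl : ∀ ω, l ω = ((max (-(f ω).re) 0 : ℝ) : ℂ) := fun ω => rfl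
  refine ⟨c.π k, c.π l, ?_, (c.isPos_iff k).2 fun ω => ?_, (c.isPos_iff l).2 fun ω => ?_, ?_, ?_⟩
  · exact c.mem_of_comp hB hf ha (g := fun t : ℝ => ((max (-t) 0 : ℝ) : ℂ)) (by fun_prop) hl
  · rw [hk]; exact Complex.zero_le_real.2 (le_max_right _ _)
  · rw [hl]; exact Complex.zero_le_real.2 (le_max_right _ _)
  · rw [← map_sub]
    refine congrArg c.π ?_
    ext ω
    rw [ContinuousMap.sub_apply, hk, hl, ← Complex.ofReal_sub, max_zero_sub_max_neg_zero_eq_self]
    exact Complex.ext (by simp) (by simp [hf])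
  · rw [← c.map_mul, ← map_zero c.π]
    refine congrArg c.π ?_
    ext ω
    rw [ContinuousMap.mul_apply, hk, hl, ← Complex.ofReal_mul, ContinuousMap.zero_apply]
    rcases le_total (f ω).re 0 with h | h
    · rw [max_eq_right h]; simp
    · rw [max_eq_right (neg_nonpos.2 h)]; simp

/-- The elements of the unit interval of `B` that annihilate `u`, described by positivity
conditions only. -/
def AnnW2a (B : Submodule ℂ M) (u x : M) : Prop :=
  x ∈ B ∧ IsPos x ∧ ∀ g : M, IsPos g → IsPos (1 - g) → (∃ K : ℝ, 0 ≤ K ∧ IsPos ((K : ℂ) • u - g)) →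
    IsPos (1 - x - g)

theorem AnnW2a.one_sub {B : Submodule ℂ M} {u x : M} (h : AnnW2a B u x) : IsPos (1 - x) := by
  have := h.2.2 0 isPos_zero (by simpa using isPos_one) ⟨0, le_rfl, by simpa using isPos_zero⟩
  simpa using this

theorem AnnW2a.mul_eq_zero {τ : M →L[ℂ] ℂ} (hτ : IsTr τ) {B : Submodule ℂ M} {u x : M}
    (hu : IsPos u) (h : AnnW2a B u x) : u * x = 0 := by
  refine hτ.mul_eq_zero hu h.2.1 ?_
  refine le_of_forall_pos_le_add fun ε hε => ?_
  obtain ⟨g, g0, g1, gK, gε⟩ := exists_approx_supp_w2a hu hε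
  have h1 := h.2.2 g g0 g1 ⟨ε⁻¹, (inv_pos.2 hε).le, gK⟩
  have h2 := (Complex.le_def.1 (hτ.mul_nonneg hu h1)).1
  have h3 := hτ.pos.re_nonneg gε
  have e : u * (1 - x - g) = u * (1 - g) - u * x := by
    simp only [mul_sub]; abel
  rw [e, map_sub] at h2
  rw [map_sub, map_smul, hτ.one] at h3
  simp only [Complex.zero_re, Complex.sub_re, smul_eq_mul, mul_one, Complex.ofReal_re] at h2 h3
  linarith

theorem annW2a_of {τ : M →L[ℂ] ℂ} (hτ : IsTr τ) {B : Submodule ℂ M} {u y : M}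
    (hy : y ∈ B) (y0 : IsPos y) (y1 : IsPos (1 - y)) (h : (τ (y * u)).re ≤ 0) :
    AnnW2a B u y := by
  refine ⟨hy, y0, fun g g0 g1 ⟨K, hK, gK⟩ => isPos_one_sub_add_w2a y0 y1 g0 g1 ?_⟩
  refine hτ.mul_eq_zero y0 g0 ?_
  have h2 := (Complex.le_def.1 (hτ.mul_nonneg y0 gK)).1
  rw [mul_sub, mul_smul_comm, map_sub, map_smul] at h2
  simp only [Complex.zero_re, Complex.sub_re, smul_eq_mul, Complex.mul_re, Complex.ofReal_re,
    Complex.ofReal_im, zero_mul, sub_zero] at h2
  nlinarith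

namespace WT

variable {W : WT M X}

/-- The trace attains its maximum on the annihilator. -/
theorem WSub.exists_max_w2a {B : Submodule ℂ M} (hB : W.WSub B) {u : M} :
    ∃ q, AnnW2a B u q ∧ ∀ y, AnnW2a B u y → (W.t y).re ≤ (W.t q).re := by
  have hτ := W.isTr
  let T : Set ℝ := (fun y => (W.t y).re) '' {y | AnnW2a B u y}
  have h0 : AnnW2a B u 0 := ⟨B.zero_mem, isPos_zero, fun g _ g1 _ => by simpa using g1⟩
  have hne : T.Nonempty := ⟨_, 0, h0, rfl⟩
  have hbd : BddAbove T := by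
    refine ⟨(W.t 1).re, ?_⟩
    rintro _ ⟨y, hy, rfl⟩
    exact hτ.pos.mono hy.one_sub
  obtain ⟨s, -, hs, hm⟩ := exists_seq_tendsto_sSup hne hbd
  choose x hx hxs using hm
  have hx' : ∀ n, AnnW2a B u (x n) := hx
  have hn : ∀ n, ‖x n‖ ≤ 1 := fun n => (hx' n).2.1.norm_le_one (hx' n).one_sub
  obtain ⟨q, hq⟩ := W.exists_lim (hyperfilter ℕ) x (C := 1) (Eventually.of_forall hn)
  refine ⟨q, ⟨hB.lim_mem hq (Eventually.of_forall fun n => (hx' n).1),
    hq.isPos (C := 1) (Eventually.of_forall hn) (Eventually.of_forall fun n => (hx' n).2.1),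
    fun g g0 g1 gK => ?_⟩, fun y hy => ?_⟩
  · have hl := ((lim_const (W := W) (l := (hyperfilter ℕ : Filter ℕ)) (1 : M)).sub hq).sub
      (lim_const g)
    refine hl.isPos (C := ‖(1 : M)‖ + 1 + ‖g‖) (Eventually.of_forall fun n => ?_)
      (Eventually.of_forall fun n => (hx' n).2.2 g g0 g1 gK)
    refine (norm_sub_le _ _).trans (add_le_add ((norm_sub_le _ _).trans ?_) le_rfl)
    linarith [hn n]
  · have h1 : Tendsto (fun n => (W.t (x n)).re) (hyperfilter ℕ : Filter ℕ) (𝓝 (W.t q).re) :=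
      (Complex.continuous_re.tendsto _).comp (hq W.τ)
    have h2 : Tendsto (fun n => (W.t (x n)).re) (hyperfilter ℕ : Filter ℕ) (𝓝 (sSup T)) := by
      have : (fun n => (W.t (x n)).re) = s := funext hxs
      rw [this]
      exact hs.mono_left (Nat.hyperfilter_le_atTop)
    rw [tendsto_nhds_unique h1 h2]
    exact le_csSup hbd ⟨y, hy, rfl⟩

/-- A projection fixing `u` and killing every positive element of `B` orthogonal to `u`. -/
theorem WSub.exists_supp_w2a {B : Submodule ℂ M} (hB : W.WSub B) {u : M} (hu : IsPos u) :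
    ∃ p ∈ B, IsProj p ∧ p * u = u ∧ ∀ v ∈ B, IsPos v → u * v = 0 → p * v = 0 := by
  have hτ := W.isTr
  obtain ⟨q, hq, hmax⟩ := hB.exists_max_w2a (u := u)
  have q0 := hq.2.1
  have q1 := hq.one_sub
  have hqu : q * u = 0 := by rw [mul_comm]; exact hq.mul_eq_zero hτ hu
  have hd : IsPos (q - q * q) := by
    obtain ⟨S, hS, hqS, -⟩ := exists_sframe q0.sa
    have := hS.isPos_mul hqS (S.sub_mem hS.alg.one_mem hqS) q0 q1
    rwa [mul_sub, mul_one] at this
  have hqq : q * q = q := by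
    have hy : AnnW2a B u (q + (q - q * q)) := by
      refine annW2a_of hτ (B.add_mem hq.1 (B.sub_mem hq.1 (hB.mul_mem _ hq.1 _ hq.1)))
        (q0.add hd) ?_ ?_
      · have := isPos_mul_self q1.sa
        convert this using 1
        simp only [mul_sub, sub_mul, mul_one, one_mul]; abel
      · have h2 := (Complex.le_def.1 (hτ.mul_nonneg (isPos_mul_self q0.sa) hu)).1
        rw [add_mul, sub_mul, hqu, zero_add, zero_sub, map_neg]
        simpa using h2
    have h1 := hmax _ hy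
    rw [map_add, Complex.add_re] at h1
    have h2 : (1 : M) * (q - q * q) = 0 :=
      hτ.mul_eq_zero isPos_one hd (by rw [one_mul]; linarith)
    rw [one_mul, sub_eq_zero] at h2
    exact h2.symm
  have hp : IsProj (1 - q) := IsProj.one_sub ⟨q0.sa, hqq⟩
  have hpB : 1 - q ∈ B := B.sub_mem hB.one_mem hq.1
  have hpu : (1 - q) * u = u := by rw [sub_mul, one_mul, hqu, sub_zero]
  refine ⟨1 - q, hpB, hp, hpu, fun v hv v0 huv => ?_⟩
  have hr : 0 < (‖v‖ + 1)⁻¹ := by positivity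
  set x : M := (((‖v‖ + 1)⁻¹ : ℝ) : ℂ) • v with hx
  have x0 : IsPos x := v0.smul hr.le
  have x1 : IsPos (1 - x) := by
    have hn : ‖x‖ ≤ 1 := by
      rw [hx, norm_smul, Complex.norm_real, Real.norm_of_nonneg hr.le, inv_mul_le_iff₀
        (by positivity)]
      linarith
    simpa using isPos_norm_sub x0.sa hn
  have hxB : x ∈ B := B.smul_mem _ hv
  have hxu : x * u = 0 := by rw [hx, smul_mul_assoc, mul_comm v u, huv, smul_zero]
  have hU : IsPos (tri (1 - q) x (1 - q)) := hp.isPos.U x0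
  have hUB : tri (1 - q) x (1 - q) ∈ B := by
    unfold tri
    exact B.sub_mem (B.add_mem (hB.mul_mem _ (hB.mul_mem _ hpB _ hxB) _ hpB)
      (hB.mul_mem _ (hB.mul_mem _ hpB _ hxB) _ hpB)) (hB.mul_mem _ (hB.mul_mem _ hpB _ hpB) _ hxB)
  have hy : AnnW2a B u (q + tri (1 - q) x (1 - q)) := by
    refine annW2a_of hτ (B.add_mem hq.1 hUB) (q0.add hU) ?_ ?_
    · have := hp.isPos.U x1
      rw [tri_sub_mid, tri_one_mid, hp.2] at this
      convert this using 1
      abel
    · rw [add_mul, hqu, zero_add, hτ.tri_mul, U_idem_of_fix hp.2 hpu, hxu, map_zero]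
      simp
  have h1 := hmax _ hy
  rw [map_add, Complex.add_re, hτ.tri_apply, hp.2] at h1
  have h2 : (1 - q) * x = 0 := hτ.mul_eq_zero hp.isPos x0 (by linarith)
  rw [hx, mul_smul_comm, smul_eq_zero] at h2
  exact h2.resolve_left (Complex.ofReal_ne_zero.2 hr.ne')

/-- The sign projection of a self-adjoint element: `q a = a₊`. -/
theorem WSub.exists_sign {B : Submodule ℂ M} (hB : W.WSub B) {a : M} (ha : a ∈ B)
    (hs : star a = a) :
    ∃ q ∈ B, IsProj q ∧ IsPos (q * a) ∧ IsPos (q * a - a) ∧ PComm q a := by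
  obtain ⟨u, v, hv, u0, v0, rfl, huv⟩ := exists_pos_neg_mem_w2a hB.sAlg ha hs
  obtain ⟨p, hp, pp, pu, pv⟩ := hB.exists_supp_w2a u0
  have e : p * (u - v) = u := by rw [mul_sub, pu, pv v hv v0 huv, sub_zero]
  refine ⟨p, hp, pp, by rwa [e], ?_, ?_⟩
  · rw [e, sub_sub_cancel]; exact v0
  · unfold PComm; rw [e, pu]

theorem WSub.exists_half_w2a {B : Submodule ℂ M} (hB : W.WSub B) {a : M} (ha : a ∈ B)
    (hs : star a = a) {r : ℝ} (hr : ‖a‖ ≤ r) :
    ∃ q ∈ B, IsProj q ∧ ‖a - ((r : ℂ) • q - ((r / 2 : ℝ) : ℂ) • (1 : M))‖ ≤ r / 2 := by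
  obtain ⟨q, hq, qq, h1, h2, hc⟩ := hB.exists_sign ha hs
  have r0 : 0 ≤ r := (norm_nonneg a).trans hr
  have n1 : ‖q * a‖ ≤ r := (jnorm_mul_le _ _).trans (by nlinarith [qq.norm_le, norm_nonneg a])
  have n2 : ‖q * a - a‖ ≤ r := by
    have e : q * a - a = -((1 - q) * a) := by rw [sub_mul, one_mul, neg_sub]
    rw [e, norm_neg]
    exact (jnorm_mul_le _ _).trans (by nlinarith [qq.one_sub.norm_le, norm_nonneg a])
  have k1 := qq.isPos_norm_sub h1.sa hc n1
  have k2 := qq.one_sub.isPos_norm_sub h2.sa (by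
    have hc' : q * (q * a) = q * a := hc
    rw [sub_mul, one_mul, mul_sub, hc', sub_self, sub_zero]) n2
  refine ⟨q, hq, qq, norm_le_of_isPos ?_ (by linarith) ?_ ?_⟩
  · simp only [star_sub, star_smul, hs, qq.1, star_one, Complex.star_def, Complex.conj_ofReal]
  · have := k1.add h2
    convert this using 1
    abel
  · have := k2.add h1
    convert this using 1
    push_cast
    module

/-- A weak* closed subalgebra is the norm-closed span of its projections. -/
theorem WSub.le_of_proj {B B' : Submodule ℂ M} (hB : W.WSub B) (hc : IsClosed (B' : Set M))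
    (h : ∀ q ∈ B, IsProj q → q ∈ B') : B ≤ B' := by
  have h1 : (1 : M) ∈ B' := h 1 hB.one_mem ⟨star_one M, one_mul 1⟩
  have key : ∀ n : ℕ, ∀ (r : ℝ) (a : M), a ∈ B → star a = a → ‖a‖ ≤ r →
      ∃ b ∈ B', ‖a - b‖ ≤ r * (1 / 2) ^ n := by
    intro n
    induction n with
    | zero => exact fun r a _ _ hr => ⟨0, B'.zero_mem, by simpa using hr⟩
    | succ n ih =>
      intro r a ha hs hr
      obtain ⟨q, hq, qq, hn⟩ := hB.exists_half_w2a ha hs hr
      obtain ⟨b, hb, hab⟩ := ih (r / 2) _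
        (B.sub_mem ha (B.sub_mem (B.smul_mem _ hq) (B.smul_mem _ hB.one_mem)))
        (by simp only [star_sub, star_smul, hs, qq.1, star_one, Complex.star_def,
          Complex.conj_ofReal]) hn
      refine ⟨((r : ℂ) • q - ((r / 2 : ℝ) : ℂ) • (1 : M)) + b,
        B'.add_mem (B'.sub_mem (B'.smul_mem _ (h q hq qq)) (B'.smul_mem _ h1)) hb, ?_⟩
      rw [← sub_sub]
      refine hab.trans (le_of_eq ?_)
      ring
  have hsa : ∀ a ∈ B, star a = a → a ∈ B' := by
    intro a ha hs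
    have : a ∈ closure (B' : Set M) := by
      rw [Metric.mem_closure_iff]
      intro ε hε
      have ht : Tendsto (fun n : ℕ => ‖a‖ * (1 / 2 : ℝ) ^ n) atTop (𝓝 (‖a‖ * 0)) :=
        (tendsto_pow_atTop_nhds_zero_of_lt_one (by norm_num) (by norm_num)).const_mul _
      rw [mul_zero] at ht
      obtain ⟨n, hn⟩ := (ht.eventually (gt_mem_nhds hε)).exists
      obtain ⟨b, hb, hab⟩ := key n ‖a‖ a ha hs le_rfl
      exact ⟨b, hb, by rw [dist_eq_norm]; exact hab.trans_lt hn⟩
    rwa [hc.closure_eq] at this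
  intro x hx
  have hx' := hB.star_mem x hx
  have a1 := hsa (x + star x) (B.add_mem hx hx') (by rw [star_add, star_star, add_comm])
  have a2 := hsa (Complex.I • (x - star x)) (B.smul_mem _ (B.sub_mem hx hx')) (by
    rw [star_smul, star_sub, star_star, Complex.star_def, Complex.conj_I, neg_smul, ← smul_neg,
      neg_sub])
  have e : x = (1 / 2 : ℂ) • (x + star x) + (-Complex.I / 2) • (Complex.I • (x - star x)) := by
    rw [smul_smul]
    have : -Complex.I / 2 * Complex.I = 1 / 2 := by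
      rw [div_mul_eq_mul_div, neg_mul, Complex.I_mul_I, neg_neg]
    rw [this]
    module
  rw [e]
  exact B'.add_mem (B'.smul_mem _ a1) (B'.smul_mem _ a2)

end WT

end Pool.Agent.MP_ab01c5_an

namespace Pool.Agent.MP_ab01c5_an

open Filter Topology

universe u v

variable {M : Type u} [JBU M] {X : Type v} [NormedAddCommGroup X] [NormedSpace ℂ X]

theorem norm_U_w2 {q : M} (hq : IsProj q) (x : M) : ‖tri q x q‖ ≤ 3 * ‖x‖ := by
  refine (norm_tri_le q x q).trans (mul_le_mul_of_nonneg_left ?_ (by norm_num))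
  have h := mul_le_mul (mul_le_mul_of_nonneg_right hq.norm_le (norm_nonneg x)) hq.norm_le
    (norm_nonneg _) (by positivity)
  simpa using h

theorem half_w2 {q : M} (hq : IsProj q) (x : M) :
    (2 : ℂ) • (q * (q * x - q * (q * x))) = q * x - q * (q * x) := by
  rw [mul_sub, smul_sub, idem_cubic hq.2]
  module

theorem split_w2 {q : M} (hq : IsProj q) (x : M) :
    x = tri q x q + tri (1 - q) x (1 - q) + (4 : ℂ) • (q * x - q * (q * x)) ∧
      q * x = tri q x q + (2 : ℂ) • (q * x - q * (q * x)) := by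
  have h1 : tri q x q = (2 : ℂ) • (q * (q * x)) - q * x := by
    rw [tri, hq.2, mul_comm (q * x) q]; module
  have h2 : tri (1 - q) x (1 - q) = x - (3 : ℂ) • (q * x) + (2 : ℂ) • (q * (q * x)) := by
    rw [tri_sub_left, tri_sub_right, tri_sub_right, h1, tri_one_left, tri_one_left, tri_one_right,
      mul_one, mul_comm x q]
    module
  rw [h1, h2]
  constructor <;> module

theorem norm_add_w2 {q z : M} (hq : IsProj q) (hz : star z = z) (h : (2 : ℂ) • (q * z) = z)
    {C : ℝ} (hC : ‖z‖ ≤ C) (n : ℝ) :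
    ‖z + (n : ℂ) • ((2 : ℂ) • q - 1)‖ ≤ √(C ^ 2 + n ^ 2) := by
  have hs : star (z + (n : ℂ) • ((2 : ℂ) • q - 1)) = z + (n : ℂ) • ((2 : ℂ) • q - 1) := by
    simp [hz, hq.1]
  have h1 : (z + (n : ℂ) • ((2 : ℂ) • q - 1)) * (z + (n : ℂ) • ((2 : ℂ) • q - 1))
      = z * z + ((n ^ 2 : ℝ) : ℂ) • 1 := by
    simp only [mul_add, add_mul, mul_sub, sub_mul, smul_mul_assoc, mul_smul_comm, mul_one, one_mul,
      hq.2, mul_comm z q]
    push_cast
    linear_combination (norm := module) (2 * n : ℂ) • h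
  refine Real.le_sqrt_of_sq_le ?_
  rw [← norm_mul_self_sa hs, h1]
  refine (norm_add_le _ _).trans (add_le_add ?_ ?_)
  · rw [norm_mul_self_sa hz]
    exact pow_le_pow_left₀ (norm_nonneg _) hC 2
  · rw [norm_smul, Complex.norm_real, Real.norm_of_nonneg (sq_nonneg n)]
    exact mul_le_of_le_one_right (sq_nonneg n) norm_one_le

theorem neg_U_w2 {q y : M} (hq : IsProj q) (hy : star y = y) {C : ℝ}
    (h : ∀ n : ℝ, ‖y + (n : ℂ) • ((2 : ℂ) • q - 1)‖ ≤ √(C ^ 2 + n ^ 2)) : IsPos (-tri q y q) := by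
  have key := lim_posb (F := fun ε => (ε : ℂ) • q - tri q y q) (by fun_prop) fun ε hε => ?_
  · simpa using key
  have hn : √(C ^ 2 + (C ^ 2 / ε) ^ 2) ≤ C ^ 2 / ε + ε := by
    refine Real.sqrt_le_iff.2 ⟨by positivity, ?_⟩
    have : C ^ 2 / ε * ε = C ^ 2 := div_mul_cancel₀ _ hε.ne'
    nlinarith [sq_nonneg C]
  have h1 := hq.isPos.U (isPos_norm_sub (by simp [hy, hq.1]) ((h (C ^ 2 / ε)).trans hn))
  have h2 : tri q q q = q := U_idem_of_fix hq.2 hq.2
  simp only [tri_sub_mid, tri_add_mid, tri_smul_mid, tri_one_mid, hq.2, h2] at h1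
  convert h1 using 1
  push_cast
  module

namespace WT

variable {W : WT M X}

section
variable {ι : Type*} {l : Filter ι} [l.NeBot] {x : ι → M} {q y : M} {C : ℝ}

theorem fix_w2 (hq : IsProj q) (h : W.Lim l x y) (hC : ∀ᶠ i in l, ‖x i‖ ≤ C)
    (hs : ∀ i, star (x i) = x i) (hf : ∀ i, q * x i = x i) : q * y = y := by
  have hb : ∀ {z : M}, ‖z‖ ≤ C → ‖(C : ℂ) • q - z‖ ≤ ‖(C : ℂ) • q‖ + C := fun hz =>
    (norm_sub_le _ _).trans (by linarith)
  have h1 : IsPos ((C : ℂ) • q - y) := ((lim_const _).sub h).isPos (hC.mono fun i => hb)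
    (hC.mono fun i => hq.isPos_norm_sub (hs i) (hf i))
  have h2 : IsPos ((C : ℂ) • q - (-1 : ℂ) • y) := ((lim_const _).sub (h.smul (-1))).isPos
    (hC.mono fun i hi => hb (by simpa using hi))
    (hC.mono fun i hi => hq.isPos_norm_sub (by simp [hs i]) (by simp [hf i]) (by simpa using hi))
  have h3 : ∀ z : M, (1 - q) * ((C : ℂ) • q - z) = q * z - z := fun z => by
    simp only [mul_sub, sub_mul, mul_smul_comm, one_mul, hq.2]
    module
  have h4 := (Complex.le_def.1 (W.isTr.mul_nonneg hq.one_sub.isPos h2)).1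
  have h5 := W.isTr.mul_eq_zero hq.one_sub.isPos h1 (by
    rw [h3] at h4 ⊢
    simp only [neg_smul, one_smul, mul_neg, map_sub, map_neg, Complex.sub_re, Complex.neg_re,
      Complex.zero_re] at h4 ⊢
    linarith)
  rwa [h3, sub_eq_zero] at h5

theorem half_lim_w2 (hq : IsProj q) (h : W.Lim l x y) (hC : ∀ᶠ i in l, ‖x i‖ ≤ C)
    (hs : ∀ i, star (x i) = x i) (hf : ∀ i, (2 : ℂ) • (q * x i) = x i) : tri q y q = 0 := by
  have hy := h.sa hC (Eventually.of_forall hs)
  have h1 := neg_U_w2 hq hy fun n => (h.add (lim_const _)).norm_le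
    (hC.mono fun i hi => norm_add_w2 hq (hs i) (hf i) hi n)
  have h2 := neg_U_w2 hq (y := (-1 : ℂ) • y) (by simp [hy]) fun n =>
    ((h.smul (-1)).add (lim_const _)).norm_le (hC.mono fun i hi => norm_add_w2 (C := C) hq
      (by simp [hs i]) (by simp [hf i]) (by simpa using hi) n)
  exact IsPos.eq_zero (by simpa using h2) h1

end

theorem mul_lim_w2 {ι : Type*} (U : Ultrafilter ι) {x : ι → M} {q : M} {C : ℝ} (hq : IsProj q)
    (h : W.Lim (U : Filter ι) x 0) (hC : ∀ᶠ i in (U : Filter ι), ‖x i‖ ≤ C)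
    (hs : ∀ i, star (x i) = x i) : W.Lim (U : Filter ι) (fun i => q * x i) 0 := by
  have hq' := hq.one_sub
  have hU : ∀ {r : M}, IsProj r → ∃ y, W.Lim (U : Filter ι) (fun i => tri r (x i) r) y ∧
      r * y = y := fun {r} hr => by
    have hb : ∀ᶠ i in (U : Filter ι), ‖tri r (x i) r‖ ≤ 3 * C :=
      hC.mono fun i hi => (norm_U_w2 hr _).trans (by linarith)
    obtain ⟨y, hy⟩ := W.exists_lim U _ hb
    exact ⟨y, hy, fix_w2 hr hy hb (fun i => by rw [star_tri, hr.1, hs])
      fun i => mul_U_idem hr.2 _⟩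
  obtain ⟨y2, l2, f2⟩ := hU hq
  obtain ⟨y0, l0, f0⟩ := hU hq'
  have hm : ∀ z : M, ‖q * z‖ ≤ ‖z‖ := fun z =>
    (jnorm_mul_le q z).trans (mul_le_of_le_one_left (norm_nonneg z) hq.norm_le)
  have hb : ∀ᶠ i in (U : Filter ι), ‖q * x i - q * (q * x i)‖ ≤ 2 * C := hC.mono fun i hi =>
    (norm_sub_le _ _).trans (by linarith [hm (x i), hm (q * x i)])
  obtain ⟨y1, l1⟩ := W.exists_lim U _ hb
  have s1 : ∀ i, star (q * x i - q * (q * x i)) = q * x i - q * (q * x i) := fun i => by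
    simp only [star_sub, jstar_mul, hq.1, hs]
  have a2 := half_lim_w2 hq l1 hb s1 fun i => half_w2 hq _
  have a0 := half_lim_w2 hq' l1 hb s1 fun i => by
    rw [sub_mul, one_mul, smul_sub, half_w2 hq]; module
  have hsum : y2 + y0 + (4 : ℂ) • y1 = 0 := ((l2.add l0).add (l1.smul 4)).unique
    (h.congr' (Eventually.of_forall fun i => (split_w2 hq (x i)).1))
  have hker : ∀ {r z : M}, IsProj r → (1 - r) * z = z → tri r z r = 0 := fun {r z} hr hz => by
    rw [sub_mul, one_mul, sub_eq_self] at hz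
    rw [tri, hr.2, hz]; simp
  have e2 : y2 = 0 := by
    have := congrArg (fun z => tri q z q) hsum
    simpa [U_idem_of_fix hq.2 f2, a2, hker hq f0] using this
  have e0 : y0 = 0 := by
    have := congrArg (fun z => tri (1 - q) z (1 - q)) hsum
    simp only [tri_add_mid, tri_smul_mid, U_idem_of_fix hq'.2 f0, a0, e2, tri_zero_mid] at this
    simpa using this
  have e1 : y1 = 0 := by simpa [e2, e0] using hsum
  have := (l2.add (l1.smul 2)).congr' (Eventually.of_forall fun i => (split_w2 hq (x i)).2.symm)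
  simpa [e2, e1] using this

variable (W) [CompleteSpace X]

theorem exists_mul_pre (a : M) (ξ : X) : ∃ ζ : X, ∀ y : M, W.ev ζ y = W.ev ξ (a * y) := by
  let T : M →L[ℂ] M →L[ℂ] ℂ := (ContinuousLinearMap.compL ℂ M M ℂ (W.ev ξ)).comp mulL
  have hT : ∀ a y, T a y = W.ev ξ (a * y) := fun _ _ => rfl
  have hc : IsClosed (Set.range W.ev) := isClosed_of_closure_subset fun ω hω =>
    W.normal_of_approx ω fun ε hε => by
      obtain ⟨_, ⟨ζ, rfl⟩, h⟩ := Metric.mem_closure_iff.1 hω ε hε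
      exact ⟨ζ, by rwa [← dist_eq_norm]⟩
  have hle := (wsub_top (W := W)).le_of_proj
    (B' := (LinearMap.range W.ev.toLinearMap).comap T.toLinearMap) (hc.preimage T.continuous)
    fun q _ hq => W.normal_of_lim (T q) fun U hU hl => ?_
  · obtain ⟨ζ, hζ⟩ := hle (Submodule.mem_top (x := a))
    exact ⟨ζ, fun y => DFunLike.congr_fun hζ y⟩
  have hst := hl.star hU
  have hb : ∀ {c : ℂ} {u w : M}, ‖c‖ ≤ 1 → ‖u‖ ≤ 1 → ‖w‖ ≤ 1 → ‖c • (u + w)‖ ≤ 2 :=
    fun {c u w} h1 h2 h3 => by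
      rw [norm_smul]
      refine (mul_le_of_le_one_left (norm_nonneg _) h1).trans ((norm_add_le _ _).trans ?_)
      linarith
  have h1 := mul_lim_w2 U (C := 2) hq (by simpa using (hl.add hst).smul 1)
    (x := fun x => x + star x)
    (hU.mono fun x hx => by simpa using hb (c := 1) (by simp) hx (w := star x) (by simpa using hx))
    fun x => by simp [add_comm]
  have h2 := mul_lim_w2 U (C := 2) hq (by simpa using (hst.sub hl).smul Complex.I)
    (x := fun x => Complex.I • (star x - x))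
    (hU.mono fun x hx => by
      simpa [sub_eq_add_neg] using hb (c := Complex.I) (u := star x) (w := -x) (by simp)
        (by simpa using hx) (by simpa using hx))
    fun x => by simp [smul_sub, neg_add_eq_sub]
  have h3 := ((h1.add (h2.smul Complex.I)).smul 2⁻¹).congr' (x' := fun x => q * x)
    (Eventually.of_forall fun x => by
      simp only [mul_add, mul_sub, mul_smul_comm, smul_smul, Complex.I_mul_I]
      module) ξ
  rw [show (2⁻¹ : ℂ) • ((0 : M) + Complex.I • (0 : M)) = 0 by simp, map_zero] at h3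
  exact h3

end WT

end Pool.Agent.MP_ab01c5_an

/-!
# Preadjoints, weak* closed frames, the embedding `i`
-/

namespace Pool.Agent.MP_ab01c5_an

open Filter Topology
open scoped ComplexOrder

universe u v

variable {M : Type u} [JBU M] {X : Type v} [NormedAddCommGroup X] [NormedSpace ℂ X]
  [CompleteSpace X]

namespace WT

variable (W : WT M X)

theorem exists_Lpre : ∃ L : M →L[ℂ] X →L[ℂ] X, ∀ a ξ y, W.ev (L a ξ) y = W.ev ξ (a * y) := by
  choose f hf using W.exists_mul_pre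
  have hb : ∀ a ξ, ‖f a ξ‖ ≤ 1 * ‖a‖ * ‖ξ‖ := fun a ξ =>
    W.norm_pre_le (by positivity) fun y => by
      rw [hf]
      refine (W.norm_ev_le _ _).trans ?_
      calc ‖ξ‖ * ‖a * y‖ ≤ ‖ξ‖ * (‖a‖ * ‖y‖) :=
            mul_le_mul_of_nonneg_left (jnorm_mul_le a y) (norm_nonneg _)
        _ = 1 * ‖a‖ * ‖ξ‖ * ‖y‖ := by ring
  let L : M →ₗ[ℂ] X →ₗ[ℂ] X := LinearMap.mk₂ ℂ f
    (fun a a' ξ => W.ev_ext fun y => by
      rw [map_add, ContinuousLinearMap.add_apply, hf, hf, hf, add_mul, map_add])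
    (fun c a ξ => W.ev_ext fun y => by
      rw [map_smul, ContinuousLinearMap.smul_apply, hf, hf, smul_mul_assoc, map_smul])
    (fun a ξ ξ' => W.ev_ext fun y => by
      rw [map_add, ContinuousLinearMap.add_apply, hf, hf, hf, map_add,
        ContinuousLinearMap.add_apply])
    (fun c a ξ => W.ev_ext fun y => by
      rw [map_smul, ContinuousLinearMap.smul_apply, hf, hf, map_smul,
        ContinuousLinearMap.smul_apply])
  exact ⟨L.mkContinuous₂ 1 hb, fun a ξ y => hf a ξ y⟩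

/-- The preadjoint of multiplication by `a`. -/
noncomputable def Lpre : M →L[ℂ] X →L[ℂ] X := W.exists_Lpre.choose

theorem ev_Lpre (a : M) (ξ : X) (y : M) : W.ev (W.Lpre a ξ) y = W.ev ξ (a * y) :=
  W.exists_Lpre.choose_spec a ξ y

theorem norm_Lpre_le (a : M) (ξ : X) : ‖W.Lpre a ξ‖ ≤ ‖a‖ * ‖ξ‖ := by
  refine W.norm_pre_le (by positivity) fun y => ?_
  rw [ev_Lpre]
  refine (W.norm_ev_le _ _).trans ?_
  calc ‖ξ‖ * ‖a * y‖ ≤ ‖ξ‖ * (‖a‖ * ‖y‖) :=
        mul_le_mul_of_nonneg_left (jnorm_mul_le a y) (norm_nonneg _)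
    _ = ‖a‖ * ‖ξ‖ * ‖y‖ := by ring

/-- The preadjoint of `U_a`. -/
noncomputable def Upre (a : M) : X →L[ℂ] X :=
  (2 : ℂ) • (W.Lpre a).comp (W.Lpre a) - W.Lpre (a * a)

theorem ev_Upre (a : M) (ξ : X) (y : M) : W.ev (W.Upre a ξ) y = W.ev ξ (tri a y a) := by
  have e : tri a y a = (2 : ℂ) • (a * (a * y)) - a * a * y := by
    rw [tri, mul_comm (a * y) a, two_smul]
  rw [e, Upre, ContinuousLinearMap.sub_apply, ContinuousLinearMap.smul_apply,
    ContinuousLinearMap.comp_apply, map_sub, map_smul, ContinuousLinearMap.sub_apply,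
    ContinuousLinearMap.smul_apply, ev_Lpre, ev_Lpre, ev_Lpre, map_sub, map_smul]

theorem norm_Upre_le (a : M) (ξ : X) : ‖W.Upre a ξ‖ ≤ 3 * ‖a‖ ^ 2 * ‖ξ‖ := by
  refine W.norm_pre_le (by positivity) fun y => ?_
  rw [ev_Upre]
  refine (W.norm_ev_le _ _).trans ?_
  calc ‖ξ‖ * ‖tri a y a‖ ≤ ‖ξ‖ * (3 * (‖a‖ * ‖y‖ * ‖a‖)) :=
        mul_le_mul_of_nonneg_left (norm_tri_le a y a) (norm_nonneg _)
    _ = 3 * ‖a‖ ^ 2 * ‖ξ‖ * ‖y‖ := by ring

theorem differentiable_Upre {G : ℂ → M} (hG : Differentiable ℂ G) :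
    Differentiable ℂ fun z => W.Upre (G z) := by
  have h1 : Differentiable ℂ fun z => W.Lpre (G z) := W.Lpre.differentiable.comp hG
  have h2 : Differentiable ℂ fun z => G z * G z :=
    ((mulL (M := M)).differentiable.comp hG).clm_apply hG
  have h3 : Differentiable ℂ fun z => W.Lpre (G z * G z) := W.Lpre.differentiable.comp h2
  exact ((h1.clm_comp h1).const_smul (2 : ℂ)).sub h3

/-- The embedding `i : M → M_*`, `i(x) = τ(x ∘ ·)`. -/
noncomputable def i : M →L[ℂ] X := W.Lpre.flip W.τ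

theorem ev_i (x y : M) : W.ev (W.i x) y = W.t (x * y) := W.ev_Lpre x W.τ y

theorem norm_i_le_sn (x : M) : ‖W.i x‖ ≤ sn W.t x := by
  refine W.norm_pre_le (sn_nonneg _ _) fun y => ?_
  rw [ev_i]
  exact (W.isTr.pos.cs' x y).trans (mul_le_mul_of_nonneg_left (W.isTr.sn_le y) (sn_nonneg _ _))

theorem norm_i_le : ‖W.i‖ ≤ 1 := by
  refine ContinuousLinearMap.opNorm_le_bound _ zero_le_one fun x => ?_
  rw [one_mul]
  exact (W.norm_i_le_sn x).trans (W.isTr.sn_le x)

theorem norm_i_pos {x : M} (hx : IsPos x) : ‖W.i x‖ = (W.t x).re := by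
  refine le_antisymm (W.norm_pre_le (W.isTr.pos.re_nonneg hx) fun y => ?_) ?_
  · have := (W.isTr.posF_mul hx).norm_le y
    rw [ContinuousLinearMap.comp_apply, ContinuousLinearMap.comp_apply, mulL_apply, mulL_apply,
      mul_one] at this
    rwa [ev_i]
  · have h1 := W.norm_ev_le (W.i x) 1
    rw [ev_i, mul_one] at h1
    refine (Complex.re_le_norm _).trans (h1.trans ?_)
    exact mul_le_of_le_one_right (norm_nonneg _) norm_one_le

theorem norm_i_tri_le (a x b : M) : ‖W.i (tri a x b)‖ ≤ 3 * (sn W.t a * sn W.t b * ‖x‖) := by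
  have h1 := sn_nonneg W.t a
  have h2 := sn_nonneg W.t b
  refine W.norm_pre_le (by positivity) fun y => ?_
  rw [ev_i]
  exact (W.isTr.norm_tri_mul_le a x b y).trans_eq (by ring)

theorem posF_i {x : M} (hx : IsPos x) : PosF (W.ev (W.i x)) := by
  intro y hy
  rw [ev_i]
  exact W.isTr.mul_nonneg hx hy

theorem Lpre_i (a x : M) : W.Lpre a (W.i x) = W.i (a * x) := by
  refine W.ev_ext fun y => ?_
  rw [ev_Lpre, ev_i, ev_i, W.isTr.assoc, W.isTr.mul_left_comm]

theorem Upre_i (a x : M) : W.Upre a (W.i x) = W.i (tri a x a) := by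
  refine W.ev_ext fun y => ?_
  rw [ev_Upre, ev_i, ev_i, W.isTr.tri_mul]

theorem denseRange_i : DenseRange W.i := by
  have hd : Dense ((LinearMap.range (W.i : M →ₗ[ℂ] X) : Submodule ℂ X) : Set X) := by
    rw [Submodule.dense_iff_topologicalClosure_eq_top, eq_top_iff]
    intro ξ _
    set S := (LinearMap.range (W.i : M →ₗ[ℂ] X)).topologicalClosure with hS
    have hc : IsClosed (S : Set X) := Submodule.isClosed_topologicalClosure _
    rw [← Submodule.Quotient.mk_eq_zero]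
    refine SeparatingDual.eq_zero_of_forall_dual_eq_zero (R := ℂ) fun g => ?_
    obtain ⟨y, hy⟩ := W.e.surjective (g.comp S.mkQL)
    have h0 : y = 0 := W.isTr.ext fun z => by
      rw [zero_mul, map_zero, mul_comm, ← ev_i, ev_apply, hy, ContinuousLinearMap.comp_apply]
      have : S.mkQL (W.i z) = 0 :=
        (Submodule.Quotient.mk_eq_zero S).2 (Submodule.le_topologicalClosure _ ⟨z, rfl⟩)
      rw [this, map_zero]
    have h1 := DFunLike.congr_fun hy ξ
    rw [h0, map_zero] at h1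
    exact h1.symm
  exact hd

theorem isClosed_posF : IsClosed {ξ : X | PosF (W.ev ξ)} := by
  have e : {ξ : X | PosF (W.ev ξ)} = ⋂ x ∈ {x : M | IsPos x}, {ξ : X | 0 ≤ W.ev ξ x} := by
    ext ξ
    simp only [Set.mem_ofPred_eq, Set.mem_iInter]
    rfl
  rw [e]
  refine isClosed_biInter fun x _ => isClosed_le continuous_const ?_
  exact (W.ev.flip x).continuous

variable {W}

theorem Lim.mul_left {ι : Type*} {l : Filter ι} {x : ι → M} {y : M} (h : W.Lim l x y) (a : M) :
    W.Lim l (fun i => a * x i) (a * y) := by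
  intro ξ
  simpa only [ev_Lpre] using h (W.Lpre a ξ)

theorem Lim.tri_mid {ι : Type*} {l : Filter ι} {x : ι → M} {y : M} (h : W.Lim l x y) (a b : M) :
    W.Lim l (fun i => tri a (x i) b) (tri a y b) := by
  have e : ∀ z : M, tri a z b = b * (a * z) + a * (b * z) - a * b * z := fun z => by
    rw [tri, mul_comm (a * z) b, mul_comm (b * z) a]
  simp only [e]
  exact (((h.mul_left a).mul_left b).add ((h.mul_left b).mul_left a)).sub (h.mul_left (a * b))

end WT

end Pool.Agent.MP_ab01c5_an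

namespace Pool.Agent.MP_ab01c5_an

open Filter Topology
open scoped ComplexOrder

universe u v

variable {M : Type u} [JBU M] {X : Type v} [NormedAddCommGroup X] [NormedSpace ℂ X]
  [CompleteSpace X]

namespace WT

variable {W : WT M X}

/-- The weak* closure of a subspace. -/
def wcl_w3b (W : WT M X) (S : Submodule ℂ M) : Submodule ℂ M where
  carrier := {y | ∀ ξ : X, (∀ b ∈ S, W.ev ξ b = 0) → W.ev ξ y = 0}
  add_mem' := fun ha hb ξ h => by rw [map_add, ha ξ h, hb ξ h, add_zero]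
  zero_mem' := fun ξ _ => map_zero _
  smul_mem' := fun c a ha ξ h => by rw [map_smul, ha ξ h, smul_zero]

/-- Maps with a preadjoint. -/
def Pre_w3b (W : WT M X) (T : M → M) : Prop := ∀ ξ : X, ∃ ζ : X, ∀ y, W.ev ζ y = W.ev ξ (T y)

theorem pre_mul_w3b (a : M) : W.Pre_w3b fun y => a * y := fun ξ => ⟨_, W.ev_Lpre a ξ⟩

theorem pre_mul'_w3b (a : M) : W.Pre_w3b fun y => y * a := by
  simpa only [mul_comm a] using pre_mul_w3b (W := W) a

omit [CompleteSpace X] in
theorem Pre_w3b.comp {T T' : M → M} (h : W.Pre_w3b T) (h' : W.Pre_w3b T') :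
    W.Pre_w3b fun y => T (T' y) := fun ξ => by
  obtain ⟨ζ, hζ⟩ := h ξ
  obtain ⟨η, hη⟩ := h' ζ
  exact ⟨η, fun y => by rw [hη, hζ]⟩

omit [CompleteSpace X] in
theorem Pre_w3b.sub {T T' : M → M} (h : W.Pre_w3b T) (h' : W.Pre_w3b T') :
    W.Pre_w3b fun y => T y - T' y := fun ξ => by
  obtain ⟨ζ, hζ⟩ := h ξ
  obtain ⟨η, hη⟩ := h' ξ
  exact ⟨ζ - η, fun y => by rw [map_sub, map_sub, ← hζ, ← hη]; rfl⟩

omit [CompleteSpace X] in
theorem le_wcl_w3b (S : Submodule ℂ M) : S ≤ W.wcl_w3b S := fun b hb _ h => h b hb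

omit [CompleteSpace X] in
theorem Pre_w3b.mem {T : M → M} (h : W.Pre_w3b T) {S S' : Submodule ℂ M}
    (hS : ∀ b ∈ S, T b ∈ W.wcl_w3b S') {y : M} (hy : y ∈ W.wcl_w3b S) : T y ∈ W.wcl_w3b S' := by
  intro ξ hξ
  obtain ⟨ζ, hζ⟩ := h ξ
  rw [← hζ]
  exact hy ζ fun b hb => by rw [hζ]; exact hS b hb ξ hξ

omit [CompleteSpace X] in
theorem Pre_w3b.eq {T T' : M → M} (h : W.Pre_w3b T) (h' : W.Pre_w3b T') {S : Submodule ℂ M}
    (hS : ∀ b ∈ S, T b = T' b) {y : M} (hy : y ∈ W.wcl_w3b S) : T y = T' y := by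
  have := (h.sub h').mem (S' := ⊥) (fun b hb => by rw [hS b hb, sub_self]; exact zero_mem _) hy
  rw [← sub_eq_zero]
  refine W.ext_ev fun ξ => ?_
  rw [map_zero]
  exact this ξ fun b hb => by rw [(Submodule.mem_bot ℂ).1 hb, map_zero]

theorem opComm_wcl_w3b {S : Submodule ℂ M} {a : M} (h : ∀ b ∈ S, OpComm a b) {y : M}
    (hy : y ∈ W.wcl_w3b S) : OpComm a y := fun z =>
  ((pre_mul_w3b a).comp (pre_mul'_w3b z)).eq (pre_mul'_w3b (a * z)) (fun b hb => h b hb z) hy

theorem wframe_wcl_w3b {S : Submodule ℂ M} (hS : IsFrame S) (h1 : (1 : M) ∈ S)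
    (hs : ∀ a ∈ S, star a ∈ S) : W.WFrame (W.wcl_w3b S) := by
  have hm : ∀ a ∈ W.wcl_w3b S, ∀ b ∈ W.wcl_w3b S, a * b ∈ W.wcl_w3b S := fun a ha b hb =>
    (pre_mul_w3b a).mem (fun b hb => (pre_mul'_w3b b).mem
      (fun a ha => le_wcl_w3b S (hS.mul_mem a ha b hb)) ha) hb
  refine ⟨⟨le_wcl_w3b S h1, hm, fun a ha ξ hξ => ?_, fun y hy ξ hξ => hy ξ fun b hb => hb ξ hξ⟩,
    hm, fun a ha b hb => ?_⟩
  · obtain ⟨ζ, hζ⟩ := W.exists_star_pre ξ
    have := ha ζ fun b hb => by rw [hζ, hξ _ (hs b hb), star_zero]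
    rwa [hζ, star_eq_zero] at this
  · exact opComm_wcl_w3b (fun b hb => (opComm_wcl_w3b (hS.comm b hb) ha).symm) hb

theorem wsub_commSub {q : M} (hq : IsProj q) : W.WSub (commSub q) := by
  refine ⟨?_, fun a ha b hb => PComm.mul hq.2 ha hb, fun a ha => ?_, fun y hy => ?_⟩
  · rw [mem_commSub, PComm, mul_one, hq.2]
  · have := congrArg star (mem_commSub.1 ha)
    rwa [jstar_mul, jstar_mul, hq.1] at this
  · exact ((pre_mul_w3b (W := W) q).comp (pre_mul_w3b q)).eq (pre_mul_w3b q) (S := commSub q)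
      (fun b hb => hb) hy

/-- The smallest weak* closed unital `*`-subalgebra containing a self-adjoint element is a frame. -/
theorem exists_wframe {a : M} (ha : star a = a) : ∃ B : Submodule ℂ M, W.WFrame B ∧ a ∈ B ∧
    ∀ B' : Submodule ℂ M, W.WSub B' → a ∈ B' → B ≤ B' := by
  obtain ⟨S, hS, h1, h2⟩ := exists_sframe ha
  refine ⟨_, wframe_wcl_w3b hS.frame hS.alg.one_mem hS.alg.star_mem, le_wcl_w3b S h1,
    fun B' hB h y hy => hB.wclosed y fun ξ hξ => hy ξ fun b hb => hξ b (h2 B' hB.sAlg h hb)⟩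

/-- The elements that operator commute with `y`. -/
def opSub_w3b (y : M) : Submodule ℂ M where
  carrier := {x | OpComm y x}
  add_mem' := fun ha hb z => by rw [add_mul, mul_add, ha z, hb z, add_mul]
  zero_mem' := fun z => by simp
  smul_mem' := fun c a ha z => by rw [smul_mul_assoc, mul_smul_comm, ha z, smul_mul_assoc]

/-- Commuting projections lie in a weak* closed frame. -/
theorem exists_wframe_of_proj {T : Set M} (hp : ∀ q ∈ T, IsProj q)
    (hc : ∀ q ∈ T, ∀ q' ∈ T, PComm q q') : ∃ B : Submodule ℂ M, W.WFrame B ∧ ∀ q ∈ T, q ∈ B := by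
  let T₁ : Set M := {p | IsProj p ∧ ∀ q ∈ T, OpComm q p}
  let T₂ : Set M := {p | IsProj p ∧ ∀ q ∈ T₁, OpComm q p}
  have h1 : T ⊆ T₁ := fun p h => ⟨hp p h, fun q hq => opComm_of_pComm (hp q hq).2 (hc q hq p h)⟩
  have h2 : T ⊆ T₂ := fun p h => ⟨hp p h, fun q hq => (hq.2 p h).symm⟩
  have h3 : ∀ p ∈ T₂, ∀ p' ∈ T₂, OpComm p p' := fun p h p' h' =>
    h'.2 p ⟨h.1, fun q hq => h.2 q (h1 hq)⟩
  have h4 : ∀ p ∈ T₂, ∀ p' ∈ T₂, p * p' ∈ T₂ := fun p h p' h' =>
    ⟨⟨by rw [jstar_mul, h.1.1, h'.1.1], idem_mul_idem h.1.2 h'.1.2 (h3 p h p' h')⟩,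
      fun q hq => opComm_of_pComm hq.1.2 (PComm.mul hq.1.2 (pComm_of_opComm hq.1.2 (h.2 q hq))
        (pComm_of_opComm hq.1.2 (h'.2 q hq)))⟩
  have h5 : (1 : M) ∈ T₂ := ⟨⟨star_one M, mul_one _⟩, fun q _ z => by rw [one_mul, one_mul]⟩
  have hF : IsFrame (Submodule.span ℂ T₂) := by
    refine ⟨fun a ha b hb => ?_, fun a ha b hb => ?_⟩
    · refine Submodule.span_induction₂ (p := fun a b _ _ => a * b ∈ Submodule.span ℂ T₂)
        (fun p p' h h' => Submodule.subset_span (h4 p h p' h'))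
        (fun _ _ => ?_) (fun _ _ => ?_) (fun _ _ _ _ _ _ h h' => ?_) (fun _ _ _ _ _ _ h h' => ?_)
        (fun c _ _ _ _ h => ?_) (fun c _ _ _ _ h => ?_) ha hb
      · rw [zero_mul]; exact zero_mem _
      · rw [mul_zero]; exact zero_mem _
      · rw [add_mul]; exact add_mem h h'
      · rw [mul_add]; exact add_mem h h'
      · rw [smul_mul_assoc]; exact Submodule.smul_mem _ _ h
      · rw [mul_smul_comm]; exact Submodule.smul_mem _ _ h
    · exact (Submodule.span_le (p := opSub_w3b a)).2 (fun p' h' => OpComm.symm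
        ((Submodule.span_le (p := opSub_w3b p')).2 (fun p h => h3 p' h' p h) ha)) hb
  refine ⟨_, wframe_wcl_w3b hF (Submodule.subset_span h5) fun a ha => ?_,
    fun q hq => le_wcl_w3b _ (Submodule.subset_span (h2 hq))⟩
  induction ha using Submodule.span_induction with
  | mem p h => rw [h.1.1]; exact Submodule.subset_span h
  | zero => rw [star_zero]; exact zero_mem _
  | add _ _ _ _ h h' => rw [star_add]; exact add_mem h h'
  | smul c _ _ h => rw [star_smul]; exact Submodule.smul_mem _ _ h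

/-- Two weak* closed frames that commute lie in a common one. -/
theorem WFrame.join {B₁ B₂ : Submodule ℂ M} (h₁ : W.WFrame B₁) (h₂ : W.WFrame B₂)
    (h : ∀ q ∈ B₂, IsProj q → B₁ ≤ commSub q) :
    ∃ B : Submodule ℂ M, W.WFrame B ∧ B₁ ≤ B ∧ B₂ ≤ B := by
  obtain ⟨B, hB, hm⟩ := exists_wframe_of_proj (W := W) (T := {q | IsProj q ∧ (q ∈ B₁ ∨ q ∈ B₂)})
    (fun q hq => hq.1) (by
      rintro q ⟨hq, m | m⟩ q' ⟨hq', m' | m'⟩
      · exact pComm_of_opComm hq.2 (h₁.frame.comm q m q' m')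
      · exact pComm_of_opComm hq.2 (opComm_of_pComm hq'.2 (h q' m' hq' m)).symm
      · exact h q m hq m'
      · exact pComm_of_opComm hq.2 (h₂.frame.comm q m q' m'))
  exact ⟨B, hB, h₁.sub.le_of_proj hB.sub.sAlg.closed fun q m hq => hm q ⟨hq, Or.inl m⟩,
    h₂.sub.le_of_proj hB.sub.sAlg.closed fun q m hq => hm q ⟨hq, Or.inr m⟩⟩

/-- If `y` commutes with all projections of `B` it operator commutes with `B`. -/
theorem WSub.opComm {B : Submodule ℂ M} (hB : W.WSub B) {y : M}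
    (h : ∀ q ∈ B, IsProj q → PComm q y) {x : M} (hx : x ∈ B) : OpComm y x := by
  refine hB.le_of_proj (B' := opSub_w3b y) ?_
    (fun q m hq => (opComm_of_pComm hq.2 (h q m hq)).symm) hx
  have e : (opSub_w3b y : Set M) = ⋂ z : M, {x | y * (x * z) = x * (y * z)} := by
    ext x
    simp only [Set.mem_iInter]
    rfl
  rw [e]
  exact isClosed_iInter fun z => isClosed_eq (by fun_prop) (by fun_prop)

/-- Spectral projections in a chart of a weak* closed frame. -/
theorem WFrame.exists_spectral {B : Submodule ℂ M} (hB : W.WFrame B) (c : Chart M)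
    (hc : ∀ x : M, x ∈ B ↔ ∃ f, c.π f = x) {f : C(c.Ω, ℂ)} (hf : ∀ ω, (f ω).im = 0) (r : ℝ) :
    ∃ g : C(c.Ω, ℂ), (∀ ω, g ω = 0 ∨ g ω = 1) ∧ (∀ ω, r < (f ω).re → g ω = 1) ∧
      ∀ ω, (f ω).re < r → g ω = 0 := by
  obtain ⟨q, m, hq, p1, p2, -⟩ := hB.sub.exists_sign ((hc _).2 ⟨f - (r : ℂ) • 1, rfl⟩)
    ((c.sa_iff _).2 fun ω => by simp [hf])
  obtain ⟨g, rfl⟩ := (hc _).1 m
  rw [c.isProj_iff] at hq
  rw [← c.map_mul, c.isPos_iff] at p1
  rw [← c.map_mul, ← map_sub, c.isPos_iff] at p2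
  refine ⟨g, hq, fun ω h => (hq ω).resolve_left fun h0 => ?_,
    fun ω h => (hq ω).resolve_right fun h0 => ?_⟩
  · have := (Complex.le_def.1 (p2 ω)).1
    simp [h0] at this
    linarith
  · have := (Complex.le_def.1 (p1 ω)).1
    simp [h0] at this
    linarith

variable (W)

include W in
theorem isPos_U {a x : M} (ha : star a = a) (hx : IsPos x) : IsPos (tri a x a) := by
  obtain ⟨B, hB, m, -⟩ := exists_wframe (W := W) ha
  obtain ⟨c, hc⟩ := exists_chart hB.sFrame
  obtain ⟨f, rfl⟩ := (hc _).1 m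
  rw [c.sa_iff] at ha
  obtain ⟨g, h1, h2, h3⟩ := hB.exists_spectral c hc ha 0
  have hγ : Continuous fun ε : ℝ => c.π (f + (ε : ℂ) • ((2 : ℂ) • g - 1)) := by fun_prop
  have ht := ((continuous_tri hγ (continuous_const (y := x)) hγ).tendsto 0).mono_left
    (nhdsWithin_le_nhds (s := Set.Ioi 0))
  simp only [Complex.ofReal_zero, zero_smul, add_zero] at ht
  refine isClosed_isPos.mem_of_tendsto ht (eventually_nhdsWithin_of_forall fun ε hε => ?_)
  have h0 : 0 < ε := hε
  refine c.isPos_U (fun ω => ?_) (fun ω h => ?_) hx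
  · rcases h1 ω with h | h <;> simp [h, ha]
  · have h4 := congrArg Complex.re h
    rcases h1 ω with h5 | h5
    · simp [h5] at h4
      have := h2 ω (by linarith)
      simp [h5] at this
    · simp [h5] at h4
      have := h3 ω (by linarith)
      simp [h5] at this

include W in
theorem isPos_tri_star (z : M) {b : M} (hb : IsPos b) : IsPos (tri z b (star z)) := by
  obtain ⟨x, y, hx, hy, rfl, -, -⟩ := exists_re_im z
  have e : tri (x + Complex.I • y) b (star (x + Complex.I • y)) = tri x b x + tri y b y := by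
    rw [star_add, star_smul, hx, hy]
    simp only [tri_add_left, tri_add_right, tri_smul_left, tri_smul_right, smul_add, smul_smul,
      tri_comm y b x, Complex.star_def, Complex.conj_I, neg_mul, Complex.I_mul_I, neg_neg, one_smul]
    module
  rw [e]
  exact (W.isPos_U hx hb).add (W.isPos_U hy hb)

end WT

end Pool.Agent.MP_ab01c5_an

namespace Pool.Agent.MP_ab01c5_an

open Filter Topology

universe u v

variable {M : Type u} [JBU M] {X : Type v} [NormedAddCommGroup X] [NormedSpace ℂ X]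
  [CompleteSpace X]

namespace WT

variable (W : WT M X)

variable {W}

theorem isProj_sub {s r : M} (hs : IsProj s) (hr : IsProj r) (h : s * r = r) :
    IsProj (s - r) := by
  refine ⟨by rw [star_sub, hs.1, hr.1], ?_⟩
  rw [sub_mul, mul_sub, mul_sub, hs.2, hr.2, mul_comm r s, h]
  abel

theorem WFrame.exists_sup {B : Submodule ℂ M} (hB : W.WFrame B) {r : ℕ → M} (hm : ∀ n, r n ∈ B)
    (hp : ∀ n, IsProj (r n)) (hmono : ∀ m n, m ≤ n → r m * r n = r m) :
    ∃ s ∈ B, IsProj s ∧ (∀ n, s * r n = r n) ∧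
      Tendsto (fun n => (W.t (s - r n)).re) atTop (𝓝 0) := by
  have hb : ∀ᶠ n in (hyperfilter ℕ : Filter ℕ), ‖r n‖ ≤ 1 :=
    Eventually.of_forall fun n => (hp n).norm_le
  have hle : (hyperfilter ℕ : Filter ℕ) ≤ atTop := Nat.hyperfilter_le_atTop
  obtain ⟨s, hs⟩ := W.exists_lim (hyperfilter ℕ) r hb
  have h1 : ∀ n, s * r n = r n := fun n => by
    rw [mul_comm]
    refine (hs.mul_left (r n)).unique ((lim_const (r n)).congr' ?_)
    exact hle ((eventually_ge_atTop n).mono fun m hm => (hmono n m hm).symm)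
  have h2 : s * s = s :=
    (hs.mul_left s).unique (hs.congr' (Eventually.of_forall fun n => (h1 n).symm))
  have hsp : IsProj s := ⟨hs.sa hb (Eventually.of_forall fun n => (hp n).1), h2⟩
  refine ⟨s, hB.sub.lim_mem hs (Eventually.of_forall hm), hsp, h1, ?_⟩
  have hanti : Antitone fun n => (W.t (s - r n)).re := fun m n hmn => by
    refine W.isTr.pos.mono ?_
    rw [sub_sub_sub_cancel_left]
    exact (isProj_sub (hp n) (hp m) (by rw [mul_comm]; exact hmono m n hmn)).isPos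
  have hbd : BddBelow (Set.range fun n => (W.t (s - r n)).re) :=
    ⟨0, by
      rintro _ ⟨n, rfl⟩
      exact W.isTr.pos.re_nonneg (isProj_sub hsp (hp n) (h1 n)).isPos⟩
  have h3 := tendsto_atTop_ciInf hanti hbd
  have h4 : Tendsto (fun n => (W.t (s - r n)).re) (hyperfilter ℕ : Filter ℕ) (𝓝 0) := by
    have h5 := (Complex.continuous_re.tendsto _).comp (((lim_const s).sub hs) W.τ)
    rw [sub_self, map_zero, Complex.zero_re] at h5
    exact h5
  rwa [tendsto_nhds_unique (h3.mono_left hle) h4] at h3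

theorem tendsto_sn_U_sub {ι : Type*} {l : Filter ι} {s : M} {r : ι → M} (hs : IsProj s)
    (hr : ∀ i, IsProj (r i)) (h : ∀ i, s * r i = r i)
    (ht : Tendsto (fun i => (W.t (s - r i)).re) l (𝓝 0)) (x : M) :
    Tendsto (fun i => sn W.t (tri s x s - tri (r i) x (r i))) l (𝓝 0) := by
  have h1 : Tendsto (fun i => 3 * (Real.sqrt (W.t (s - r i)).re * ‖x‖ * 2)) l (𝓝 0) := by
    have h2 := ((ht.sqrt.mul_const ‖x‖).mul_const 2).const_mul 3
    simpa using h2
  refine squeeze_zero (fun i => sn_nonneg _ _) (fun i => ?_) h1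
  have h3 : tri s x s - tri (r i) x (r i) = tri (s - r i) x (s + r i) := by
    rw [tri_sub_left, tri_add_right, tri_add_right, tri_comm s x (r i)]
    abel
  rw [h3]
  refine (W.isTr.sn_tri_left _ _ _).trans ?_
  rw [W.isTr.pos.sn_proj (isProj_sub hs (hr i) (h i))]
  have h4 : ‖s + r i‖ ≤ 2 := by
    have := norm_add_le s (r i)
    linarith [hs.norm_le, (hr i).norm_le]
  gcongr

theorem tendsto_Upre {ι : Type*} {l : Filter ι} {s : M} {r : ι → M} (hs : IsProj s)
    (hr : ∀ i, IsProj (r i)) (h : ∀ i, s * r i = r i)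
    (ht : Tendsto (fun i => (W.t (s - r i)).re) l (𝓝 0)) (ξ : X) :
    Tendsto (fun i => W.Upre (r i) ξ) l (𝓝 (W.Upre s ξ)) := by
  have hU : ∀ {q : M}, IsProj q → ∀ ζ : X, ‖W.Upre q ζ‖ ≤ 3 * ‖ζ‖ := fun {q} hq ζ => by
    refine (W.norm_Upre_le q ζ).trans ?_
    have h1 : ‖q‖ ^ 2 ≤ 1 := pow_le_one₀ (norm_nonneg q) hq.norm_le
    nlinarith [norm_nonneg ζ]
  rw [Metric.tendsto_nhds]
  intro ε hε
  obtain ⟨x, hx⟩ := W.denseRange_i.exists_dist_lt ξ (show 0 < ε / 8 by positivity)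
  rw [dist_eq_norm] at hx
  have h1 := (tendsto_sn_U_sub hs hr h ht x).eventually (gt_mem_nhds (show 0 < ε / 8 by positivity))
  refine h1.mono fun i hi => ?_
  have h2 : W.Upre (r i) ξ - W.Upre s ξ = W.Upre (r i) (ξ - W.i x) - W.Upre s (ξ - W.i x) -
      W.i (tri s x s - tri (r i) x (r i)) := by
    rw [map_sub, map_sub, map_sub, W.Upre_i, W.Upre_i]
    abel
  rw [dist_eq_norm, h2]
  have h3 := norm_sub_le (W.Upre (r i) (ξ - W.i x) - W.Upre s (ξ - W.i x))
    (W.i (tri s x s - tri (r i) x (r i)))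
  have h4 := norm_sub_le (W.Upre (r i) (ξ - W.i x)) (W.Upre s (ξ - W.i x))
  have h5 := W.norm_i_le_sn (tri s x s - tri (r i) x (r i))
  have h6 := hU (hr i) (ξ - W.i x)
  have h7 := hU hs (ξ - W.i x)
  linarith

theorem norm_sub_Upre {ξ : X} (hξ : PosF (W.ev ξ)) {r : M} (hr : IsProj r) :
    ‖ξ - W.Upre r ξ‖ ≤ 5 * Real.sqrt ((W.ev ξ 1).re * (W.ev ξ (1 - r)).re) := by
  refine W.norm_pre_le (by positivity) fun x => ?_
  rw [map_sub, sub_apply, W.ev_Upre]
  exact hξ.norm_sub_U hr x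

/-- A normal positive functional faithful on `U_s M` controls the trace. -/
theorem tendsto_t_of_faithful {s : M} {r : ℕ → M} (hs : IsProj s) (hr : ∀ n, IsProj (r n))
    (h : ∀ n, s * r n = r n) {ξ : X}
    (hf : ∀ y : M, IsPos y → s * y = y → (W.ev ξ y).re = 0 → y = 0)
    (ht : Tendsto (fun n => (W.ev ξ (s - r n)).re) atTop (𝓝 0)) :
    Tendsto (fun n => (W.t (s - r n)).re) atTop (𝓝 0) := by
  rw [tendsto_iff_ultrafilter]
  intro g hg
  have hp : ∀ n, IsProj (s - r n) := fun n => isProj_sub hs (hr n) (h n)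
  have hb : ∀ᶠ n in (g : Filter ℕ), ‖s - r n‖ ≤ 1 := Eventually.of_forall fun n => (hp n).norm_le
  obtain ⟨γ, hγ⟩ := W.exists_lim g (fun n => s - r n) hb
  have h1 : s * γ = γ := (hγ.mul_left s).unique (hγ.congr' (Eventually.of_forall fun n => by
    simp only [mul_sub, hs.2, h n]))
  have h2 : (W.ev ξ γ).re = 0 :=
    tendsto_nhds_unique ((Complex.continuous_re.tendsto _).comp (hγ ξ)) (ht.mono_left hg)
  have h3 := (Complex.continuous_re.tendsto _).comp (hγ W.τ)
  rw [hf γ (hγ.isPos hb (Eventually.of_forall fun n => (hp n).isPos)) h1 h2, map_zero,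
    Complex.zero_re] at h3
  exact h3

/-- Products of two commuting families of projections exhausting `s` exhaust `s`. -/
theorem tendsto_t_mul {B : Submodule ℂ M} (hB : SFrame B) {s : M} {r r' : ℕ → M}
    (hm : ∀ n, r n ∈ B) (hm' : ∀ n, r' n ∈ B) (hr : ∀ n, IsProj (r n))
    (hr' : ∀ n, IsProj (r' n)) (hs : IsProj s) (h : ∀ n, s * r n = r n) (h' : ∀ n, s * r' n = r' n)
    (ht : Tendsto (fun n => (W.t (s - r n)).re) atTop (𝓝 0))
    (ht' : Tendsto (fun n => (W.t (s - r' n)).re) atTop (𝓝 0)) :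
    (∀ n, IsProj (r n * r' n)) ∧ (∀ n, s * (r n * r' n) = r n * r' n) ∧
      Tendsto (fun n => (W.t (s - r n * r' n)).re) atTop (𝓝 0) := by
  have h1 : ∀ n, IsProj (r n * r' n) := fun n =>
    ⟨by rw [jstar_mul, (hr n).1, (hr' n).1],
      idem_mul_idem (hr n).2 (hr' n).2 (hB.frame.comm _ (hm n) _ (hm' n))⟩
  have h2 : ∀ n, s * (r n * r' n) = r n * r' n := fun n => fix_mul_fix hs.2 (h n) (h' n)
  refine ⟨h1, h2, ?_⟩
  have h3 := ht.add ht'
  rw [add_zero] at h3
  refine squeeze_zero (fun n => W.isTr.pos.re_nonneg (isProj_sub hs (h1 n) (h2 n)).isPos)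
    (fun n => ?_) h3
  have h4 := (Complex.le_def.mp (W.isTr.mul_nonneg (hr n).one_sub.isPos
    (isProj_sub hs (hr' n) (h' n)).isPos)).1
  have h5 : (s - r n) + (s - r' n) = (s - r n * r' n) + (1 - r n) * (s - r' n) := by
    rw [sub_mul, one_mul, mul_sub, mul_comm (r n) s, h n]
    abel
  have h6 := congrArg (fun y => (W.t y).re) h5
  simp only [map_add, Complex.add_re] at h6
  rw [Complex.zero_re] at h4
  linarith

end WT

end Pool.Agent.MP_ab01c5_an
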